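import Pool.Agent.Work.MP_209cb6_gt.W2

/-!
# BDRY, module M7d: finitely supported approximation of an intermediate measure
-/

set_option autoImplicit false

open MeasureTheory MeasureTheory.Measure Metric Set Filter Topology
open scoped ENNReal NNReal

namespace Pool.Agent.BDRY

universe u

/-- A simple selection: on the compact set `A` there is a simple function `ind` into `{0,…,N}` with
`a (ind x)` close to `x`, `a k ∈ A`, and `z k` a point related to `a k`. -/
theorem disc_simple_select {X : Type u} [MetricSpace X] [MeasurableSpace X]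
    [OpensMeasurableSpace X] {A : Set X} (hA : IsCompact A) (hne : A.Nonempty) (Q : X → X → Prop)
    (hQ : ∀ a ∈ A, ∃ z, Q a z) {δ : ℝ} (hδ : 0 < δ) :
    ∃ (ind : SimpleFunc X ℕ) (a z : ℕ → X), (∀ k, a k ∈ A) ∧ (∀ k, Q (a k) (z k)) ∧
      ∀ x ∈ A, dist x (a (ind x)) < δ := by
  obtain ⟨t, htA, htf, hcov⟩ := hA.finite_cover_balls hδ
  have htne : t.Nonempty := by
    obtain ⟨x, hx⟩ := hne
    obtain ⟨y, hy, -⟩ := mem_iUnion₂.mp (hcov hx)
    exact ⟨y, hy⟩
  -- enumerate the finite set
  obtain ⟨a, ha⟩ : ∃ a : ℕ → X, t = range a := by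
    have := htf.countable
    obtain ⟨a, ha⟩ := this.exists_eq_range htne
    exact ⟨a, ha⟩
  -- a bound for the indices
  have hN : ∃ N : ℕ, ∀ y ∈ t, ∃ k ≤ N, a k = y := by
    have h1 : ∀ y ∈ t, ∃ k, a k = y := by
      intro y hy
      rw [ha] at hy
      exact hy
    choose! k hk using h1
    obtain ⟨N, hN⟩ := (htf.image k).bddAbove
    exact ⟨N, fun y hy => ⟨k y, hN (mem_image_of_mem k hy), hk y hy⟩⟩
  obtain ⟨N, hN⟩ := hN
  have haA : ∀ k, a k ∈ A := fun k => htA (by rw [ha]; exact mem_range_self k)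
  choose z hz using fun k => hQ (a k) (haA k)
  refine ⟨SimpleFunc.nearestPtInd a N, a, z, haA, hz, ?_⟩
  intro x hx
  obtain ⟨y, hy, hxy⟩ := mem_iUnion₂.mp (hcov hx)
  obtain ⟨k, hk, rfl⟩ := hN y hy
  have h2 := SimpleFunc.edist_nearestPt_le a x hk
  have h3 : SimpleFunc.nearestPt a N x = a (SimpleFunc.nearestPtInd a N x) := rfl
  rw [h3] at h2
  have h4 : edist (a (SimpleFunc.nearestPtInd a N x)) x < ENNReal.ofReal δ := by
    refine h2.trans_lt ?_
    rw [edist_comm, edist_lt_ofReal]
    exact hxy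
  rw [edist_comm, edist_lt_ofReal] at h4
  exact h4

/-- The push-forward by a simple function is a finite sum of Dirac masses. -/
theorem disc_map_simple {X Y : Type u} [MeasurableSpace X] [MeasurableSpace Y]
    [MeasurableSingletonClass Y] (μ : Measure X) (f : SimpleFunc X Y) :
    μ.map f = ∑ z ∈ f.range, μ (f ⁻¹' {z}) • dirac z := by
  classical
  ext s hs
  rw [Measure.map_apply f.measurable hs, Measure.finsetSum_apply]
  have h1 : f ⁻¹' s = ⋃ z ∈ f.range.filter (· ∈ s), f ⁻¹' {z} := by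
    ext x
    simp only [mem_preimage, Finset.mem_filter, SimpleFunc.mem_range, mem_range, mem_iUnion,
      mem_singleton_iff, exists_prop]
    constructor
    · intro hx
      exact ⟨f x, ⟨⟨x, rfl⟩, hx⟩, rfl⟩
    · rintro ⟨z, ⟨-, hz⟩, hxz⟩
      rw [hxz]; exact hz
  rw [h1, measure_biUnion_finset]
  · rw [Finset.sum_filter]
    apply Finset.sum_congr rfl
    intro z _
    rw [Measure.smul_apply, dirac_apply' z hs, smul_eq_mul]
    by_cases hz : z ∈ s
    · simp [hz]
    · simp [hz]
  · intro z _ w _ hzw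
    exact Disjoint.preimage _ (by simpa using hzw)
  · intro z _
    exact f.measurableSet_preimage _

/-! ### bounds of `W2` -/

section W2
variable {X : Type u} [MetricSpace X] [MeasurableSpace X] [BorelSpace X]

/-- cost of a coupling given by a pair of maps -/
theorem disc_W2sq_map_le [SecondCountableTopology X] {Y : Type u} [MeasurableSpace Y] (μ : Measure Y)
    {f g : Y → X} (hf : Measurable f) (hg : Measurable g) :
    W2sq (μ.map f) (μ.map g) ≤ ∫⁻ x, edist (f x) (g x) ^ 2 ∂μ := by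
  have h1 : (μ.map fun x => (f x, g x)).map Prod.fst = μ.map f := by
    rw [Measure.map_map measurable_fst (hf.prodMk hg)]; rfl
  have h2 : (μ.map fun x => (f x, g x)).map Prod.snd = μ.map g := by
    rw [Measure.map_map measurable_snd (hf.prodMk hg)]; rfl
  refine (iInf_le _ ⟨μ.map fun x => (f x, g x), h1, h2⟩).trans (le_of_eq ?_)
  show ∫⁻ z, edist z.1 z.2 ^ 2 ∂(μ.map fun x => (f x, g x)) = _
  rw [lintegral_map (by fun_prop) (hf.prodMk hg)]

/-- the cost to a Dirac mass, lower bound -/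
theorem disc_le_W2sq_dirac [SecondCountableTopology X] (μ : Measure X) (p : X) :
    ∫⁻ y, edist y p ^ 2 ∂μ ≤ W2sq μ (dirac p) := by
  refine le_iInf ?_
  rintro ⟨π, h1, h2⟩
  have h3 : ∀ᵐ z ∂π, z.2 = p := by
    have h4 : ∀ᵐ y ∂(π.map Prod.snd), y = p := by
      rw [h2, ae_dirac_eq]
      simp
    exact ae_of_ae_map measurable_snd.aemeasurable h4
  have h5 : ∫⁻ z, edist z.1 z.2 ^ 2 ∂π = ∫⁻ z, edist z.1 p ^ 2 ∂π := by
    apply lintegral_congr_ae
    filter_upwards [h3] with z hz
    rw [hz]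
  show _ ≤ ∫⁻ z, edist z.1 z.2 ^ 2 ∂π
  rw [h5, ← h1, lintegral_map (by fun_prop) measurable_fst]

omit [BorelSpace X] in
theorem disc_W2_le_of_sq {μ ν : Measure X} {a b : ℝ} (ha : 0 ≤ a) (hb : 0 ≤ b)
    (h : W2sq μ ν ≤ ENNReal.ofReal (a ^ 2 + b ^ 2)) : W2 μ ν ≤ a + b := by
  unfold W2
  have h1 : (W2sq μ ν).toReal ≤ a ^ 2 + b ^ 2 := ENNReal.toReal_le_of_le_ofReal (by positivity) h
  rw [Real.sqrt_le_left (by positivity)]
  nlinarith [mul_nonneg ha hb]

end W2

/-- A quadratic estimate pointwise on `A` gives the estimate of `W2`. -/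
theorem disc_W2_le_aux {X : Type u} [MetricSpace X] [MeasurableSpace X] [BorelSpace X]
    [SecondCountableTopology X] {μ : Measure X} [IsProbabilityMeasure μ] {A : Set X}
    (hA : ∀ᵐ x ∂μ, x ∈ A) (p : X)
    {R : ℝ} (hR : ∀ x ∈ A, dist x p ≤ R) {f g : X → X} (hf : Measurable f) (hg : Measurable g)
    {c η : ℝ} (hc : 0 ≤ c) (hη : 0 ≤ η)
    (h : ∀ x ∈ A, dist (f x) (g x) ^ 2 ≤ (c * dist x p) ^ 2 + η ^ 2) :
    W2 (μ.map f) (μ.map g) ≤ c * W2 μ (dirac p) + η := by
  have hfin : W2sq μ (dirac p) ≠ ⊤ := by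
    have h1 : W2sq μ (dirac p) ≤ ∫⁻ x, edist x p ^ 2 ∂μ := by
      have := disc_W2sq_map_le μ (f := id) (g := fun _ => p) measurable_id measurable_const
      simpa using this
    refine ne_top_of_le_ne_top ?_ h1
    have h2 : ∫⁻ x, edist x p ^ 2 ∂μ ≤ ∫⁻ _, ENNReal.ofReal (R ^ 2) ∂μ := by
      apply lintegral_mono_ae
      filter_upwards [hA] with x hx
      rw [edist_dist, ← ENNReal.ofReal_pow dist_nonneg]
      exact ENNReal.ofReal_le_ofReal (pow_le_pow_left₀ dist_nonneg (hR x hx) 2)
    refine ne_top_of_le_ne_top ?_ h2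
    simp
  apply disc_W2_le_of_sq (mul_nonneg hc (Real.sqrt_nonneg _)) hη
  refine (disc_W2sq_map_le μ hf hg).trans ?_
  have h3 : ∫⁻ x, edist (f x) (g x) ^ 2 ∂μ
      ≤ ∫⁻ x, (ENNReal.ofReal (c ^ 2) * edist x p ^ 2 + ENNReal.ofReal (η ^ 2)) ∂μ := by
    apply lintegral_mono_ae
    filter_upwards [hA] with x hx
    rw [edist_dist, edist_dist, ← ENNReal.ofReal_pow dist_nonneg, ← ENNReal.ofReal_pow dist_nonneg,
      ← ENNReal.ofReal_mul (by positivity), ← ENNReal.ofReal_add (by positivity) (by positivity)]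
    apply ENNReal.ofReal_le_ofReal
    have := h x hx
    rwa [mul_pow] at this
  refine h3.trans ?_
  rw [lintegral_add_right _ measurable_const, lintegral_const, measure_univ, mul_one,
    lintegral_const_mul _ (by fun_prop), ENNReal.ofReal_add (by positivity) (by positivity)]
  gcongr
  rw [mul_pow, ENNReal.ofReal_mul (by positivity)]
  gcongr
  refine (disc_le_W2sq_dirac μ p).trans ?_
  rw [Real.sq_sqrt ENNReal.toReal_nonneg, ENNReal.ofReal_toReal hfin]

/-- discrete approximation of an intermediate measure -/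
theorem exists_disc {X : Type u} [MetricSpace X] [MeasurableSpace X] [BorelSpace X] [ProperSpace X]
    {m : Measure X} (p : X) {t : ℝ} (ht0 : 0 ≤ t) (ht1 : t ≤ 1) {S A : Set X}
    (hA : IsCompact A) (hAS : A ⊆ Zt p 6 t S) (h0 : m A ≠ 0) (h1 : m A ≠ ∞) {η : ℝ}
    (hη : 0 < η) (hS : MeasurableSet S) :
    ∃ ν : Measure X, IsDisc ν ∧ ν Sᶜ = 0 ∧
      W2 ν (dirac p) ≤ (1 - t) * W2 (mu1 m A) (dirac p) + η ∧
      W2 ν (mu1 m A) ≤ t * W2 (mu1 m A) (dirac p) + η := by
  have hAm : MeasurableSet A := hA.measurableSet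
  have hprob : IsProbabilityMeasure (mu1 m A) := by
    refine ⟨?_⟩
    unfold mu1
    rw [Measure.smul_apply, Measure.restrict_apply_univ, smul_eq_mul, ENNReal.inv_mul_cancel h0 h1]
  have hae : ∀ᵐ x ∂(mu1 m A), x ∈ A := by
    unfold mu1
    exact Measure.ae_smul_measure (ae_restrict_mem hAm) _
  have hne : A.Nonempty := by
    by_contra h
    rw [not_nonempty_iff_eq_empty] at h
    exact h0 (by rw [h]; simp)
  have hR : ∀ x ∈ A, dist x p ≤ 6 := fun x hx => (hAS hx).1
  -- the accuracy
  obtain ⟨δ, hδ, hδ1, hδη⟩ : ∃ δ : ℝ, 0 < δ ∧ δ ≤ 1 ∧ 28 * δ ≤ η ^ 2 :=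
    ⟨min 1 (η ^ 2 / 28), by positivity, min_le_left _ _, by
      have := min_le_right 1 (η ^ 2 / 28)
      linarith⟩
  obtain ⟨ind, a, z, haA, hz, hind⟩ := disc_simple_select hA hne
    (fun a z => z ∈ S ∧ z ∈ Mid t a p) (fun a ha => (hAS ha).2) hδ
  set f : SimpleFunc X X := ind.map z with hf
  have hfx : ∀ x, f x = z (ind x) := fun x => rfl
  refine ⟨(mu1 m A).map f, ⟨?_, ?_⟩, ?_, ?_, ?_⟩
  · exact Measure.isProbabilityMeasure_map f.measurable.aemeasurable
  · exact ⟨f.range, fun y => (mu1 m A) (f ⁻¹' {y}), disc_map_simple _ f⟩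
  · rw [Measure.map_apply f.measurable hS.compl]
    have : f ⁻¹' Sᶜ = ∅ := by
      ext x
      simp only [mem_preimage, mem_compl_iff, mem_empty_iff_false, iff_false, not_not, hfx]
      exact (hz _).1
    rw [this, measure_empty]
  · have hd : (dirac p : Measure X) = (mu1 m A).map (fun _ => p) := by
      rw [Measure.map_const, measure_univ, one_smul]
    have h5 : W2 ((mu1 m A).map f) ((mu1 m A).map (fun _ => p)) ≤
        (1 - t) * W2 (mu1 m A) (dirac p) + η := by
      apply disc_W2_le_aux hae p hR f.measurable measurable_const (by linarith) hη.le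
      intro x hx
      have e1 := (hz (ind x)).2.2
      have e2 := hind x hx
      have e3 := hR x hx
      have e4 : dist (a (ind x)) p ≤ dist x p + δ := by
        have := dist_triangle_left (a (ind x)) p x
        linarith
      have e5 : dist (f x) p ≤ (1 - t) * dist x p + δ := by
        rw [hfx, e1]
        have : (1 - t) * dist (a (ind x)) p ≤ (1 - t) * (dist x p + δ) :=
          mul_le_mul_of_nonneg_left e4 (by linarith)
        nlinarith
      have e6 : dist (f x) p ^ 2 ≤ ((1 - t) * dist x p + δ) ^ 2 :=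
        pow_le_pow_left₀ dist_nonneg e5 2
      have e7 : 0 ≤ dist x p := dist_nonneg
      have e8 : (1 - t) * dist x p ≤ 6 := by nlinarith
      have e9 : (1 - t) * dist x p * δ ≤ 6 * δ := mul_le_mul_of_nonneg_right e8 hδ.le
      nlinarith
    rwa [← hd] at h5
  · have h5 : W2 ((mu1 m A).map f) ((mu1 m A).map id) ≤
        t * W2 (mu1 m A) (dirac p) + η := by
      apply disc_W2_le_aux hae p hR f.measurable measurable_id ht0 hη.le
      intro x hx
      have e1 := (hz (ind x)).2.1
      have e2 := hind x hx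
      have e3 := hR x hx
      have e4 : dist (a (ind x)) p ≤ dist x p + δ := by
        have := dist_triangle_left (a (ind x)) p x
        linarith
      have e5 : dist (f x) (id x) ≤ t * dist x p + 2 * δ := by
        have e51 := dist_triangle (f x) (a (ind x)) x
        rw [dist_comm (f x) (a (ind x)), dist_comm (a (ind x)) x] at e51
        have e52 : dist (a (ind x)) (f x) = t * dist (a (ind x)) p := by rw [hfx]; exact e1
        have : t * dist (a (ind x)) p ≤ t * (dist x p + δ) :=
          mul_le_mul_of_nonneg_left e4 ht0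
        simp only [id]
        nlinarith
      have e6 : dist (f x) (id x) ^ 2 ≤ (t * dist x p + 2 * δ) ^ 2 :=
        pow_le_pow_left₀ dist_nonneg e5 2
      have e7 : 0 ≤ dist x p := dist_nonneg
      have e8 : t * dist x p ≤ 6 := by nlinarith
      have e9 : t * dist x p * δ ≤ 6 * δ := mul_le_mul_of_nonneg_right e8 hδ.le
      nlinarith
    rwa [Measure.map_id] at h5

end Pool.Agent.BDRY
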