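import Pool.Agent.Work.MP_209cb6_gt.Defs

/-!
# The entropy: uniform measures, and measures close to a compact set
-/

set_option autoImplicit false

open MeasureTheory MeasureTheory.Measure Metric Set Filter Topology
open scoped ENNReal NNReal

namespace Pool.Agent.BDRY

universe u

section gibbs

variable {X : Type u} [MeasurableSpace X]

/-- Gibbs' inequality against a density `φ`. -/
theorem gibbs {m μ : Measure X} [SigmaFinite m] [IsProbabilityMeasure μ] (hac : μ ≪ m)
    (hint : Integrable (llr μ m) μ) {φ : X → ℝ} (hφm : Measurable φ) (hφ : ∀ x, 0 < φ x)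
    (h1 : Integrable φ m) (h2 : Integrable (fun x => Real.log (φ x)) μ) :
    ∫ x, Real.log (φ x) ∂μ + 1 - ∫ x, φ x ∂m ≤ ∫ x, llr μ m x ∂μ := by
  set ρ : X → ℝ := fun x => (μ.rnDeriv m x).toReal with hρ
  have hρm : Measurable ρ := (Measure.measurable_rnDeriv μ m).ennreal_toReal
  have hρ0 : ∀ x, 0 ≤ ρ x := fun x => ENNReal.toReal_nonneg
  have h3 : Integrable (fun x => ρ x • (φ x / ρ x)) m := by
    refine h1.mono (hρm.mul (hφm.div hρm)).aestronglyMeasurable (ae_of_all _ fun x => ?_)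
    simp only [smul_eq_mul, Real.norm_eq_abs]
    by_cases hx : ρ x = 0
    · simp [hx]
    · rw [mul_div_cancel₀ _ hx]
  have h4 : Integrable (fun x => φ x / ρ x) μ := (integrable_rnDeriv_smul_iff hac).1 h3
  have h5 : ∫ x, φ x / ρ x ∂μ ≤ ∫ x, φ x ∂m := by
    rw [← integral_rnDeriv_smul hac]
    refine integral_mono h3 h1 fun x => ?_
    simp only [smul_eq_mul]
    by_cases hx : ρ x = 0
    · simp only [hρ] at hx
      simp only [hρ, hx, zero_mul]
      exact (hφ x).le
    · rw [mul_div_cancel₀ _ hx]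
  have h6 : ∀ᵐ x ∂μ, Real.log (φ x) + 1 - φ x / ρ x ≤ llr μ m x := by
    filter_upwards [Measure.rnDeriv_pos hac, Measure.rnDeriv_lt_top μ m |>.filter_mono hac.ae_le]
      with x hx hx'
    have hpos : 0 < ρ x := ENNReal.toReal_pos hx.ne' hx'.ne
    have := Real.log_le_sub_one_of_pos (div_pos (hφ x) hpos)
    rw [Real.log_div (hφ x).ne' hpos.ne'] at this
    simp only [llr_def]
    change Real.log (φ x) + 1 - φ x / ρ x ≤ Real.log (ρ x)
    linarith
  have h7 : Integrable (fun x => Real.log (φ x) + 1 - φ x / ρ x) μ :=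
    (h2.add (integrable_const 1)).sub h4
  have h8 := integral_mono_ae h7 hint h6
  have h9 : ∫ x, (Real.log (φ x) + 1 - φ x / ρ x) ∂μ =
      ∫ x, Real.log (φ x) ∂μ + 1 - ∫ x, φ x / ρ x ∂μ := by
    have e1 : ∫ x, (Real.log (φ x) + 1 - φ x / ρ x) ∂μ =
        ∫ x, (Real.log (φ x) + 1) ∂μ - ∫ x, φ x / ρ x ∂μ :=
      integral_sub (h2.add (integrable_const 1)) h4
    have e2 : ∫ x, (Real.log (φ x) + 1) ∂μ = ∫ x, Real.log (φ x) ∂μ + ∫ _x, (1 : ℝ) ∂μ :=
      integral_add h2 (integrable_const 1)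
    rw [e1, e2]
    simp
  rw [h9] at h8
  linarith

end gibbs

section unif

variable {X : Type u} [MeasurableSpace X]

theorem UN_unif {N : ℕ} {m : Measure X} [SigmaFinite m] {A : Set X}
    (hA : MeasurableSet A) (h0 : m A ≠ 0) (h1 : m A ≠ ∞) :
    UN N m ((m A)⁻¹ • m.restrict A) = (m.real A) ^ (1 / (N : ℝ)) := by
  set μ : Measure X := (m A)⁻¹ • m.restrict A with hμ
  have hp : IsProbabilityMeasure μ := by
    refine ⟨?_⟩
    rw [hμ, Measure.smul_apply, Measure.restrict_apply_univ, smul_eq_mul,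
      ENNReal.inv_mul_cancel h0 h1]
  have hwd : μ = m.withDensity (A.indicator fun _ => (m A)⁻¹) := by
    rw [withDensity_indicator hA, withDensity_const]
  have hac : μ ≪ m := by
    rw [hwd]; exact withDensity_absolutelyContinuous _ _
  have hrn : ∀ᵐ x ∂μ, μ.rnDeriv m x = A.indicator (fun _ => (m A)⁻¹) x := by
    refine hac.ae_le ?_
    rw [hwd]
    exact Measure.rnDeriv_withDensity m (measurable_const.indicator hA)
  have hmemA : ∀ᵐ x ∂μ, x ∈ A := by
    refine Measure.ae_smul_measure ?_ _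
    exact ae_restrict_mem hA
  have hllr : llr μ m =ᵐ[μ] fun _ => -Real.log (m.real A) := by
    filter_upwards [hrn, hmemA] with x hx hxA
    rw [llr_def]
    simp only
    rw [hx, indicator_of_mem hxA, ENNReal.toReal_inv, Real.log_inv]
    rfl
  have hint : Integrable (llr μ m) μ := (integrable_congr hllr).2 (integrable_const _)
  rw [UN, if_pos ⟨hac, hint⟩, integral_congr_ae hllr]
  have hpos : 0 < m.real A := ENNReal.toReal_pos h0 h1
  rw [Real.rpow_def_of_pos hpos]
  congr 1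
  simp
  ring

theorem UN_unif_pow {N : ℕ} (hN : 0 < N) {m : Measure X} [SigmaFinite m] {A : Set X}
    (hA : MeasurableSet A) (h0 : m A ≠ 0) (h1 : m A ≠ ∞) :
    UN N m ((m A)⁻¹ • m.restrict A) ^ N = m.real A := by
  rw [UN_unif hA h0 h1, ← Real.rpow_natCast, ← Real.rpow_mul measureReal_nonneg,
    one_div, inv_mul_cancel₀ (by positivity), Real.rpow_one]

theorem UN_mix_pos {N : ℕ} {m : Measure X} [SigmaFinite m] {ι : Type} [Fintype ι] (w : ι → ℝ≥0∞)
    (hw : ∑ i, w i = 1) (B : ι → Set X) (hB : ∀ i, MeasurableSet (B i)) (h0 : ∀ i, 0 < m (B i))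
    (h1 : ∀ i, m (B i) < ∞) :
    0 < UN N m (∑ i, w i • ((m (B i))⁻¹ • m.restrict (B i))) := by
  classical
  set μ : Measure X := ∑ i, w i • ((m (B i))⁻¹ • m.restrict (B i)) with hμ
  have hp : IsProbabilityMeasure μ := by
    refine ⟨?_⟩
    rw [hμ, Measure.finsetSum_apply, ← hw]
    refine Finset.sum_congr rfl fun i _ => ?_
    rw [Measure.smul_apply, Measure.smul_apply, Measure.restrict_apply_univ, smul_eq_mul,
      smul_eq_mul, ENNReal.inv_mul_cancel (h0 i).ne' (h1 i).ne, mul_one]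
  set f : X → ℝ≥0∞ := fun x => ∑ i, (B i).indicator (fun _ => w i * (m (B i))⁻¹) x with hf
  have hfm : Measurable f := by
    refine Finset.measurable_fun_sum _ fun i _ => ?_
    exact measurable_const.indicator (hB i)
  have hwd : μ = m.withDensity f := by
    refine Measure.ext fun s hs => ?_
    rw [withDensity_apply _ hs, hμ, Measure.finsetSum_apply]
    simp only [hf]
    rw [lintegral_finsetSum _ (fun i _ => measurable_const.indicator (hB i))]
    refine Finset.sum_congr rfl fun i _ => ?_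
    rw [lintegral_indicator_const (hB i), Measure.smul_apply, Measure.smul_apply,
      Measure.restrict_apply hs, Measure.restrict_apply (hB i), smul_eq_mul, smul_eq_mul,
      inter_comm, mul_assoc]
  have hac : μ ≪ m := by
    rw [hwd]; exact withDensity_absolutelyContinuous _ _
  have hrn : ∀ᵐ x ∂μ, μ.rnDeriv m x = f x := by
    refine hac.ae_le ?_
    rw [hwd]
    exact Measure.rnDeriv_withDensity m hfm
  have hfin : (Set.range f).Finite := by
    have e1 : Set.range f ⊆ (fun T : Finset ι => ∑ i ∈ T, w i * (m (B i))⁻¹) '' Set.univ := by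
      rintro _ ⟨x, rfl⟩
      refine ⟨Finset.univ.filter fun i => x ∈ B i, mem_univ _, ?_⟩
      simp only [hf, Set.indicator_apply]
      rw [Finset.sum_filter]
    exact (Set.toFinite _).subset e1
  have hbdd : ∃ C : ℝ, ∀ x, |Real.log (f x).toReal| ≤ C := by
    have e1 : ((fun a : ℝ≥0∞ => |Real.log a.toReal|) '' Set.range f).Finite := hfin.image _
    obtain ⟨C, hC⟩ := e1.bddAbove
    exact ⟨C, fun x => hC ⟨f x, ⟨x, rfl⟩, rfl⟩⟩
  obtain ⟨C, hC⟩ := hbdd
  have hint : Integrable (llr μ m) μ := by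
    refine Integrable.mono' (integrable_const C) (measurable_llr μ m).aestronglyMeasurable ?_
    filter_upwards [hrn] with x hx
    rw [llr_def, Real.norm_eq_abs]
    simp only
    rw [hx]
    exact hC x
  rw [UN, if_pos ⟨hac, hint⟩]
  exact Real.exp_pos _

end unif

section near

variable {X : Type u} [MetricSpace X] [ProperSpace X] [MeasurableSpace X] [BorelSpace X]

theorem sigmaFinite_of_fin {m : Measure X} (hfin : ∀ (x : X) (r : ℝ), m (closedBall x r) < ∞) :
    SigmaFinite m := by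
  have : IsLocallyFiniteMeasure m :=
    ⟨fun x => ⟨closedBall x 1, closedBall_mem_nhds x one_pos, hfin x 1⟩⟩
  infer_instance

theorem UN_uniform {N : ℕ} (_hN : N ≠ 0) (m : Measure X) [SigmaFinite m] (A : Set X)
    (hA : MeasurableSet A) (h0 : 0 < m A) (h1 : m A < ∞) :
    UN N m ((m A)⁻¹ • m.restrict A) = m.real A ^ ((1 : ℝ) / N) :=
  UN_unif hA h0.ne' h1.ne

theorem UN_mixture_pos {N : ℕ} (_hN : N ≠ 0) (m : Measure X) [SigmaFinite m] {ι : Type}
    [Fintype ι] (w : ι → ℝ≥0∞)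
    (hw : ∑ i, w i = 1) (B : ι → Set X) (hB : ∀ i, MeasurableSet (B i)) (h0 : ∀ i, 0 < m (B i))
    (h1 : ∀ i, m (B i) < ∞) :
    0 < UN N m (∑ i, w i • ((m (B i))⁻¹ • m.restrict (B i))) :=
  UN_mix_pos w hw B hB h0 h1

theorem add_sq_le_four (a b : ℝ≥0∞) : (a + b) ^ 2 ≤ 4 * (a ^ 2 + b ^ 2) := by
  have h : a + b ≤ 2 * max a b := by
    rw [two_mul]; exact add_le_add (le_max_left _ _) (le_max_right _ _)
  calc (a + b) ^ 2 ≤ (2 * max a b) ^ 2 := by gcongr
    _ = 4 * (max a b) ^ 2 := by rw [mul_pow]; norm_num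
    _ ≤ 4 * (a ^ 2 + b ^ 2) := by
      gcongr
      rcases le_total a b with h | h
      · rw [max_eq_right h]; exact le_add_self
      · rw [max_eq_left h]; exact le_self_add

/-- The part of `μ` far from `S`: mass and second moment. -/
theorem far_part {μ : Measure X} {x₀ : X} {S : Set X} {R ε η : ℝ} (hS : IsCompact S)
    (hne : S.Nonempty) (hSR : S ⊆ closedBall x₀ R) (hR : 0 ≤ R) (hε : 0 < ε)
    (h : ∫⁻ x, ENNReal.ofReal (infDist x S ^ 2) ∂μ ≤ ENNReal.ofReal (η ^ 2)) :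
    μ (cthickening ε S)ᶜ ≤ ENNReal.ofReal (η ^ 2 / ε ^ 2) ∧
      ∫⁻ y in (cthickening ε S)ᶜ, ENNReal.ofReal (dist x₀ y ^ 2) ∂μ ≤
        ENNReal.ofReal ((R + ε) ^ 2 / ε ^ 2 * η ^ 2) := by
  have hW : MeasurableSet (cthickening ε S)ᶜ := isClosed_cthickening.measurableSet.compl
  have key : ∀ y ∈ (cthickening ε S)ᶜ, ε < infDist y S ∧
      dist x₀ y ≤ (R + ε) / ε * infDist y S := by
    intro y hy
    obtain ⟨z, hz, hz2⟩ := hS.exists_infDist_eq_dist hne y
    have h1 : ε < infDist y S := by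
      by_contra hlt
      rw [hz2] at hlt
      exact hy (mem_cthickening_of_dist_le y z ε S hz (not_lt.1 hlt))
    refine ⟨h1, ?_⟩
    have h2 := hSR hz
    rw [mem_closedBall] at h2
    have h3 : dist x₀ y ≤ R + infDist y S := by
      have := dist_triangle y z x₀
      rw [dist_comm x₀ y, hz2]; linarith
    have h4 : (R + ε) / ε * infDist y S = R * (infDist y S / ε) + infDist y S := by
      field_simp
    rw [h4]
    have h5 : 1 ≤ infDist y S / ε := by rw [one_le_div hε]; exact h1.le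
    nlinarith
  constructor
  · rw [← lintegral_indicator_one hW]
    calc ∫⁻ y, ((cthickening ε S)ᶜ).indicator 1 y ∂μ
        ≤ ∫⁻ y, ENNReal.ofReal (1 / ε ^ 2) * ENNReal.ofReal (infDist y S ^ 2) ∂μ := by
          refine lintegral_mono fun y => ?_
          by_cases hy : y ∈ (cthickening ε S)ᶜ
          · rw [indicator_of_mem hy, Pi.one_apply, ← ENNReal.ofReal_mul (by positivity),
              ← ENNReal.ofReal_one]
            apply ENNReal.ofReal_le_ofReal
            have := (key y hy).1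
            rw [one_div, inv_mul_eq_div, le_div_iff₀ (by positivity)]
            nlinarith
          · rw [indicator_of_notMem hy]
            exact bot_le
      _ = ENNReal.ofReal (1 / ε ^ 2) * ∫⁻ y, ENNReal.ofReal (infDist y S ^ 2) ∂μ :=
          lintegral_const_mul' _ _ ENNReal.ofReal_ne_top
      _ ≤ ENNReal.ofReal (1 / ε ^ 2) * ENNReal.ofReal (η ^ 2) := by gcongr
      _ = _ := by
          rw [← ENNReal.ofReal_mul (by positivity)]
          congr 1; ring
  · calc ∫⁻ y in (cthickening ε S)ᶜ, ENNReal.ofReal (dist x₀ y ^ 2) ∂μ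
        ≤ ∫⁻ y in (cthickening ε S)ᶜ, ENNReal.ofReal ((R + ε) ^ 2 / ε ^ 2) *
            ENNReal.ofReal (infDist y S ^ 2) ∂μ := by
          refine setLIntegral_mono' hW fun y hy => ?_
          rw [← ENNReal.ofReal_mul (by positivity)]
          apply ENNReal.ofReal_le_ofReal
          calc dist x₀ y ^ 2 ≤ ((R + ε) / ε * infDist y S) ^ 2 := by
                gcongr; exact (key y hy).2
            _ = _ := by rw [mul_pow, div_pow]
      _ = ENNReal.ofReal ((R + ε) ^ 2 / ε ^ 2) *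
            ∫⁻ y in (cthickening ε S)ᶜ, ENNReal.ofReal (infDist y S ^ 2) ∂μ :=
          lintegral_const_mul' _ _ ENNReal.ofReal_ne_top
      _ ≤ ENNReal.ofReal ((R + ε) ^ 2 / ε ^ 2) * ENNReal.ofReal (η ^ 2) := by
          gcongr
          exact (setLIntegral_le_lintegral _ _).trans h
      _ = _ := by
          rw [← ENNReal.ofReal_mul (by positivity)]

/-- A measure concentrated near the compact set `S` has small entropy power. -/
theorem UN_pow_le_near {N : ℕ} (hN : 0 < N) {m : Measure X}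
    (hfin : ∀ (x : X) (r : ℝ), m (closedBall x r) < ∞)
    (hexp : ∃ (x : X) (c : ℝ), 0 < c ∧ ∫⁻ y, ENNReal.ofReal (Real.exp (-c * dist x y ^ 2)) ∂m < ∞)
    {S : Set X} (hS : IsCompact S) (hne : S.Nonempty) {e : ℝ} (he : 0 < e) :
    ∃ η : ℝ, 0 < η ∧ ∀ μ : Measure X, IsP2 μ →
      ∫⁻ x, ENNReal.ofReal (infDist x S ^ 2) ∂μ ≤ ENNReal.ofReal (η ^ 2) →
      UN N m μ ^ N ≤ m.real S + e := by
  obtain ⟨x₀, c, hc, hZ⟩ := hexp
  have := sigmaFinite_of_fin hfin
  set Z : ℝ := (∫⁻ y, ENNReal.ofReal (Real.exp (-c * dist x₀ y ^ 2)) ∂m).toReal with hZdef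
  have hZ0 : 0 ≤ Z := ENNReal.toReal_nonneg
  set M : ℝ := m.real S + e / 2 with hM
  have hM0 : 0 < M := by have := measureReal_nonneg (μ := m) (s := S); linarith
  obtain ⟨R, hR0, hSR⟩ : ∃ R : ℝ, 0 ≤ R ∧ S ⊆ closedBall x₀ R := by
    obtain ⟨R, hR⟩ := hS.isBounded.subset_closedBall x₀
    exact ⟨max R 0, le_max_right _ _, hR.trans (closedBall_subset_closedBall (le_max_left _ _))⟩
  have hSfin : m S ≠ ∞ := ((measure_mono hSR).trans_lt (hfin x₀ R)).ne
  have hLF : IsLocallyFiniteMeasure m :=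
    ⟨fun x => ⟨closedBall x 1, closedBall_mem_nhds x one_pos, hfin x 1⟩⟩
  obtain ⟨ε, hε, hWM⟩ : ∃ ε : ℝ, 0 < ε ∧ m (cthickening ε S) ≤ ENNReal.ofReal M := by
    have h1 := tendsto_measure_cthickening_of_isCompact (μ := m) hS
    have h2 : m S < ENNReal.ofReal M := by
      rw [← ENNReal.ofReal_toReal hSfin]
      refine (ENNReal.ofReal_lt_ofReal_iff hM0).2 ?_
      change m.real S < M
      linarith
    have h3 := (h1.eventually (gt_mem_nhds h2)).filter_mono
      (nhdsWithin_le_nhds : 𝓝[>] (0 : ℝ) ≤ 𝓝 0)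
    obtain ⟨ε, hε1, hε2⟩ := (h3.and self_mem_nhdsWithin).exists
    exact ⟨ε, hε2, hε1.le⟩
  set W : Set X := cthickening ε S with hW
  have hWm : MeasurableSet W := isClosed_cthickening.measurableSet
  set lam : ℝ := Real.log ((m.real S + e) / M) with hlam
  have hlam0 : 0 < lam := by
    refine Real.log_pos ?_
    rw [one_lt_div hM0]; linarith
  set γ : ℝ := lam / (3 * (Z + 1)) with hγ
  have hγ0 : 0 < γ := by positivity
  have hγZ : γ * Z ≤ lam / 3 := by
    rw [hγ, div_mul_eq_mul_div, div_le_div_iff₀ (by positivity) (by positivity)]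
    nlinarith
  set Q : ℝ := |Real.log M| + |Real.log γ| with hQ
  have hQ0 : 0 ≤ Q := by positivity
  obtain ⟨η, hη, hη1⟩ : ∃ η : ℝ, 0 < η ∧
      η ^ 2 * (Q / ε ^ 2 + c * ((R + ε) ^ 2 / ε ^ 2) + 1) ≤ lam / 3 := by
    set T := Q / ε ^ 2 + c * ((R + ε) ^ 2 / ε ^ 2) + 1 with hT
    have hT0 : 0 < T := by positivity
    refine ⟨√(lam / (3 * T)), by positivity, ?_⟩
    rw [Real.sq_sqrt (by positivity)]
    apply le_of_eq
    field_simp
  refine ⟨η, hη, fun μ hμ hclose => ?_⟩
  have := hμ.1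
  by_cases hUN : μ ≪ m ∧ Integrable (llr μ m) μ
  swap
  · rw [UN, if_neg hUN, zero_pow hN.ne']
    have := measureReal_nonneg (μ := m) (s := S)
    linarith
  obtain ⟨hfar1, hfar2⟩ := far_part (x₀ := x₀) hS hne hSR hR0 hε hclose
  obtain ⟨hac, hint⟩ := hUN
  -- the second moment about `x₀`
  have hd2 : Integrable (fun y => dist x₀ y ^ 2) μ := by
    obtain ⟨x1, hx1⟩ := hμ.2
    have h1 : ∫⁻ y, edist x₀ y ^ 2 ∂μ < ∞ := by
      calc ∫⁻ y, edist x₀ y ^ 2 ∂μ ≤ ∫⁻ y, 4 * (edist x₀ x1 ^ 2 + edist x1 y ^ 2) ∂μ := by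
            refine lintegral_mono fun y => ?_
            refine le_trans ?_ (add_sq_le_four _ _)
            gcongr
            exact edist_triangle _ _ _
        _ = 4 * (edist x₀ x1 ^ 2 + ∫⁻ y, edist x1 y ^ 2 ∂μ) := by
            rw [lintegral_const_mul _ (by fun_prop), lintegral_add_left (by fun_prop)]
            simp
        _ < ∞ := by
            refine ENNReal.mul_lt_top (by simp) (ENNReal.add_lt_top.2 ⟨?_, hx1⟩)
            exact ENNReal.pow_lt_top (edist_lt_top _ _)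
    refine ⟨by fun_prop, ?_⟩
    rw [hasFiniteIntegral_iff_ofReal (ae_of_all _ fun y => by positivity)]
    refine lt_of_le_of_lt (le_of_eq ?_) h1
    refine lintegral_congr fun y => ?_
    rw [edist_dist, ENNReal.ofReal_pow dist_nonneg]
  classical
  set φ : X → ℝ := W.piecewise (fun _ => 1 / M) (fun y => γ * Real.exp (-c * dist x₀ y ^ 2))
    with hφ
  have hφm : Measurable φ := Measurable.piecewise hWm measurable_const (by fun_prop)
  have hφpos : ∀ x, 0 < φ x := by
    intro x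
    by_cases hx : x ∈ W
    · rw [hφ, piecewise_eq_of_mem _ _ _ hx]; positivity
    · rw [hφ, piecewise_eq_of_notMem _ _ _ hx]; positivity
  have hexpint : Integrable (fun y => Real.exp (-c * dist x₀ y ^ 2)) m := by
    refine ⟨by fun_prop, ?_⟩
    rw [hasFiniteIntegral_iff_ofReal (ae_of_all _ fun y => by positivity)]
    exact hZ
  have hZint : ∫ y, Real.exp (-c * dist x₀ y ^ 2) ∂m = Z := by
    rw [integral_eq_lintegral_of_nonneg_ae (ae_of_all _ fun y => by positivity) (by fun_prop)]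
  have hWfin : m W ≠ ∞ := (hWM.trans_lt ENNReal.ofReal_lt_top).ne
  have hφint : Integrable φ m := by
    refine Integrable.piecewise hWm ?_ ?_
    · exact integrableOn_const hWfin
    · exact (hexpint.const_mul γ).integrableOn
  have hφle : ∫ x, φ x ∂m ≤ 1 + γ * Z := by
    rw [hφ, integral_piecewise hWm (integrableOn_const hWfin) (hexpint.const_mul γ).integrableOn]
    have h1 : ∫ _x in W, 1 / M ∂m ≤ 1 := by
      rw [setIntegral_const, smul_eq_mul, mul_one_div, div_le_one hM0]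
      exact ENNReal.toReal_le_of_le_ofReal hM0.le hWM
    have h2 : ∫ y in Wᶜ, γ * Real.exp (-c * dist x₀ y ^ 2) ∂m ≤ γ * Z := by
      rw [← hZint, ← integral_const_mul]
      exact setIntegral_le_integral (hexpint.const_mul γ) (ae_of_all _ fun y => by positivity)
    linarith
  have hlogφ : (fun x => Real.log (φ x)) = W.piecewise (fun _ => -Real.log M)
      (fun y => Real.log γ - c * dist x₀ y ^ 2) := by
    ext x
    by_cases hx : x ∈ W
    · rw [hφ, piecewise_eq_of_mem _ _ _ hx, piecewise_eq_of_mem _ _ _ hx, one_div, Real.log_inv]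
    · rw [hφ, piecewise_eq_of_notMem _ _ _ hx, piecewise_eq_of_notMem _ _ _ hx,
        Real.log_mul hγ0.ne' (Real.exp_pos _).ne', Real.log_exp]
      ring
  have hi1 : IntegrableOn (fun _ : X => -Real.log M) W μ := integrableOn_const (measure_ne_top _ _)
  have hi2 : Integrable (fun y => Real.log γ - c * dist x₀ y ^ 2) μ :=
    (integrable_const _).sub (hd2.const_mul c)
  have hlogint : Integrable (fun x => Real.log (φ x)) μ := by
    rw [hlogφ]
    exact Integrable.piecewise hWm hi1 hi2.integrableOn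
  have hG := gibbs hac hint hφm hφpos hφint hlogint
  have hlogval : -Real.log M - lam / 3 ≤ ∫ x, Real.log (φ x) ∂μ := by
    rw [hlogφ, integral_piecewise hWm hi1 hi2.integrableOn, setIntegral_const, smul_eq_mul]
    have h1 : ∫ y in Wᶜ, (Real.log γ - c * dist x₀ y ^ 2) ∂μ =
        μ.real Wᶜ * Real.log γ - c * ∫ y in Wᶜ, dist x₀ y ^ 2 ∂μ := by
      rw [integral_sub (integrable_const _) (hd2.const_mul c).integrableOn, setIntegral_const,
        smul_eq_mul, integral_const_mul]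
    rw [h1]
    have h2 : μ.real W = 1 - μ.real Wᶜ := by
      rw [measureReal_compl hWm, probReal_univ]; ring
    have h3 : μ.real Wᶜ ≤ η ^ 2 / ε ^ 2 :=
      ENNReal.toReal_le_of_le_ofReal (by positivity) hfar1
    have h4 : ∫ y in Wᶜ, dist x₀ y ^ 2 ∂μ ≤ (R + ε) ^ 2 / ε ^ 2 * η ^ 2 := by
      rw [integral_eq_lintegral_of_nonneg_ae (ae_of_all _ fun y => by positivity) (by fun_prop)]
      exact ENNReal.toReal_le_of_le_ofReal (by positivity) hfar2
    have h5 : 0 ≤ μ.real Wᶜ := measureReal_nonneg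
    rw [h2]
    have h6 : μ.real Wᶜ * (Real.log M + Real.log γ) ≥ -(η ^ 2 / ε ^ 2 * Q) := by
      have h7 : |Real.log M + Real.log γ| ≤ Q := abs_add_le _ _
      have h8 := neg_abs_le (Real.log M + Real.log γ)
      have h9 : μ.real Wᶜ * |Real.log M + Real.log γ| ≤ η ^ 2 / ε ^ 2 * Q := by gcongr
      nlinarith
    have h7 : c * ∫ y in Wᶜ, dist x₀ y ^ 2 ∂μ ≤ c * ((R + ε) ^ 2 / ε ^ 2 * η ^ 2) := by gcongr
    have h8 : η ^ 2 / ε ^ 2 * Q + c * ((R + ε) ^ 2 / ε ^ 2 * η ^ 2) ≤ lam / 3 := by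
      have : η ^ 2 / ε ^ 2 * Q + c * ((R + ε) ^ 2 / ε ^ 2 * η ^ 2) + η ^ 2 =
        η ^ 2 * (Q / ε ^ 2 + c * ((R + ε) ^ 2 / ε ^ 2) + 1) := by ring
      nlinarith [sq_nonneg η]
    nlinarith
  have hfinal : -(∫ x, llr μ m x ∂μ) ≤ Real.log (m.real S + e) := by
    have h1 : Real.log (m.real S + e) = Real.log M + lam := by
      rw [hlam, Real.log_div (by have := measureReal_nonneg (μ := m) (s := S); positivity) hM0.ne']
      ring
    rw [h1]
    linarith
  rw [UN, if_pos ⟨hac, hint⟩, ← Real.exp_nat_mul]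
  have h1 : (N : ℝ) * (-(∫ x, llr μ m x ∂μ) / N) = -(∫ x, llr μ m x ∂μ) := by
    field_simp
  rw [h1]
  have h2 : 0 < m.real S + e := by have := measureReal_nonneg (μ := m) (s := S); positivity
  calc Real.exp (-(∫ x, llr μ m x ∂μ)) ≤ Real.exp (Real.log (m.real S + e)) :=
        Real.exp_le_exp.2 hfinal
    _ = m.real S + e := Real.exp_log h2

theorem lintegral_edist_lt_top {μ : Measure X} (hμ : IsP2 μ) (x₀ : X) :
    ∫⁻ y, edist x₀ y ^ 2 ∂μ < ∞ := by
  have := hμ.1
  obtain ⟨x1, hx1⟩ := hμ.2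
  calc ∫⁻ y, edist x₀ y ^ 2 ∂μ ≤ ∫⁻ y, 4 * (edist x₀ x1 ^ 2 + edist x1 y ^ 2) ∂μ := by
        refine lintegral_mono fun y => ?_
        refine le_trans ?_ (add_sq_le_four _ _)
        gcongr
        exact edist_triangle _ _ _
    _ = 4 * (edist x₀ x1 ^ 2 + ∫⁻ y, edist x1 y ^ 2 ∂μ) := by
        rw [lintegral_const_mul _ (by fun_prop), lintegral_add_left (by fun_prop)]
        simp
    _ < ∞ := by
        refine ENNReal.mul_lt_top (by simp) (ENNReal.add_lt_top.2 ⟨?_, hx1⟩)
        exact ENNReal.pow_lt_top (edist_lt_top _ _)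

theorem exists_coupling_lt {μ ν : Measure X} (hμ : IsP2 μ) (hν : IsP2 ν) {η : ℝ} (hη : 0 < η)
    (h : W2 μ ν < η) :
    ∃ π : Measure (X × X), π.map Prod.fst = μ ∧ π.map Prod.snd = ν ∧
      ∫⁻ z, edist z.1 z.2 ^ 2 ∂π < ENNReal.ofReal (η ^ 2) := by
  have := hμ.1
  have := hν.1
  obtain ⟨x₀, -⟩ := hμ.2
  have hfin : W2sq μ ν < ∞ := by
    have h1 : (μ.prod ν).map Prod.fst = μ := by simp
    have h2 : (μ.prod ν).map Prod.snd = ν := by simp
    refine (iInf_le _ ⟨μ.prod ν, h1, h2⟩).trans_lt ?_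
    have h3 : ∫⁻ z, edist x₀ (Prod.fst z) ^ 2 ∂(μ.prod ν) = ∫⁻ y, edist x₀ y ^ 2 ∂μ := by
      conv_rhs => rw [← h1]
      rw [lintegral_map (by fun_prop) measurable_fst]
    have h4 : ∫⁻ z, edist x₀ (Prod.snd z) ^ 2 ∂(μ.prod ν) = ∫⁻ y, edist x₀ y ^ 2 ∂ν := by
      conv_rhs => rw [← h2]
      rw [lintegral_map (by fun_prop) measurable_snd]
    calc ∫⁻ z, edist z.1 z.2 ^ 2 ∂(μ.prod ν)
        ≤ ∫⁻ z, 4 * (edist x₀ z.1 ^ 2 + edist x₀ z.2 ^ 2) ∂(μ.prod ν) := by
          refine lintegral_mono fun z => ?_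
          refine le_trans ?_ (add_sq_le_four _ _)
          gcongr
          rw [edist_comm x₀ z.1]
          exact edist_triangle _ _ _
      _ = 4 * (∫⁻ y, edist x₀ y ^ 2 ∂μ + ∫⁻ y, edist x₀ y ^ 2 ∂ν) := by
          rw [lintegral_const_mul _ (by fun_prop), lintegral_add_left (by fun_prop), h3, h4]
      _ < ∞ := ENNReal.mul_lt_top (by simp) (ENNReal.add_lt_top.2
          ⟨lintegral_edist_lt_top hμ x₀, lintegral_edist_lt_top hν x₀⟩)
  have h2 : W2sq μ ν < ENNReal.ofReal (η ^ 2) := by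
    rw [← ENNReal.ofReal_toReal hfin.ne]
    rw [W2] at h
    have h3 := Real.sqrt_nonneg (W2sq μ ν).toReal
    have h4 : (W2sq μ ν).toReal < η ^ 2 := by
      have := Real.sq_sqrt (ENNReal.toReal_nonneg (a := W2sq μ ν))
      nlinarith
    exact (ENNReal.ofReal_lt_ofReal_iff (by positivity)).2 h4
  rw [W2sq, iInf_lt_iff] at h2
  obtain ⟨π, hπ⟩ := h2
  exact ⟨π.1, π.2.1, π.2.2, hπ⟩

/-- The entropy power of measures close to a measure carried by a compact set. -/
theorem UN_pow_le {m : Measure X} (hfin : ∀ (x : X) (r : ℝ), m (closedBall x r) < ∞)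
    (hexp : ∃ (x : X) (c : ℝ), 0 < c ∧
      ∫⁻ y, ENNReal.ofReal (Real.exp (-c * dist x y ^ 2)) ∂m < ∞)
    {S : Set X} (hS : IsCompact S) {N : ℕ} (hN : 0 < N) {η : ℝ} (hη : 0 < η) :
    ∃ e : ℝ, 0 < e ∧ ∀ μ ν : Measure X, IsP2 μ → IsP2 ν → ν Sᶜ = 0 → W2 μ ν ≤ e →
      UN N m μ ^ N ≤ m.real S + η := by
  rcases S.eq_empty_or_nonempty with rfl | hne
  · refine ⟨1, one_pos, fun μ ν _ hν h0 _ => ?_⟩
    have := hν.1
    rw [compl_empty, measure_univ] at h0
    exact absurd h0 one_ne_zero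
  obtain ⟨e, he, H⟩ := UN_pow_le_near hN hfin hexp hS hne hη
  refine ⟨e / 2, by positivity, fun μ ν hμ hν hνS hW => H μ hμ ?_⟩
  obtain ⟨π, h1, h2, h3⟩ := exists_coupling_lt hμ hν he (lt_of_le_of_lt hW (half_lt_self he))
  have hS' : ∀ᵐ z ∂π, z.2 ∈ S := by
    have e1 : π (Prod.snd ⁻¹' Sᶜ) = 0 := by
      rw [← Measure.map_apply measurable_snd hS.measurableSet.compl, h2, hνS]
    exact e1
  have e1 : ∫⁻ x, ENNReal.ofReal (infDist x S ^ 2) ∂μ =
      ∫⁻ z, ENNReal.ofReal (infDist (Prod.fst z) S ^ 2) ∂π := by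
    rw [← h1, lintegral_map (by fun_prop) measurable_fst]
  rw [e1]
  refine le_trans (lintegral_mono_ae ?_) h3.le
  filter_upwards [hS'] with z hz
  rw [edist_dist, ← ENNReal.ofReal_pow dist_nonneg]
  apply ENNReal.ofReal_le_ofReal
  have := infDist_le_dist_of_mem (x := z.1) hz
  have h0 := infDist_nonneg (x := z.1) (s := S)
  gcongr

end near

end Pool.Agent.BDRY
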