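import Pool.Agent.Work.MP_209cb6_gt.Evi
import Pool.Agent.Work.MP_209cb6_gt.Ent
import Pool.Agent.Work.MP_209cb6_gt.Disc

/-!
# BDRY, module M7e: contraction of compact sets from the EVI flow
-/

set_option autoImplicit false

open MeasureTheory MeasureTheory.Measure Metric Set Filter Topology
open scoped ENNReal NNReal

namespace Pool.Agent.BDRY

universe u

section basic
variable {X : Type u} [MetricSpace X]

theorem ec_zt_subset (p : X) (R t : ℝ) (S : Set X) : Zt p R t S ⊆ closedBall p R :=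
  fun _ ha => ha.1

theorem ec_zt_compact [ProperSpace X] (p : X) (R t : ℝ) {S : Set X} (hS : IsCompact S) :
    IsCompact (Zt p R t S) := by
  have h1 : Zt p R t S = Prod.fst '' ((closedBall p R ×ˢ S) ∩
      {q : X × X | dist q.1 q.2 = t * dist q.1 p ∧ dist q.2 p = (1 - t) * dist q.1 p}) := by
    ext a
    constructor
    · rintro ⟨h1, z, hz, h2, h3⟩
      exact ⟨(a, z), ⟨⟨h1, hz⟩, h2, h3⟩, rfl⟩
    · rintro ⟨⟨a', z⟩, ⟨⟨h1, hz⟩, h2, h3⟩, rfl⟩
      exact ⟨h1, z, hz, h2, h3⟩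
  rw [h1]
  refine IsCompact.image ?_ continuous_fst
  refine ((isCompact_closedBall p R).prod hS).inter_right ?_
  refine IsClosed.inter ?_ ?_
  · exact isClosed_eq (by fun_prop) (by fun_prop)
  · exact isClosed_eq (by fun_prop) (by fun_prop)

end basic

theorem ec_sK_nonneg {κ x : ℝ} (hκ : κ ≤ 0) (hx : 0 ≤ x) : 0 ≤ sK κ x := by
  have := (sK_smono hκ).monotone hx
  rwa [sK_zero_right] at this

/-- the case in which only the monotonicity of the weights is needed -/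
theorem ec_trivial {κ t D a b : ℝ} (hκ : κ ≤ 0) {N : ℕ} (ht : 0 < t) (ht1 : t < 1) (hD : 0 < D)
    (ha : 0 ≤ a) (hab : a ≤ b) : sK κ ((1 - t) * D) ^ N * a ≤ sK κ D ^ N * b := by
  have h1 : sK κ ((1 - t) * D) ≤ sK κ D := (sK_smono hκ).monotone (by nlinarith)
  have h2 : 0 ≤ sK κ ((1 - t) * D) := ec_sK_nonneg hκ (by nlinarith)
  have h3 : 0 ≤ sK κ D ^ N := pow_nonneg (h2.trans h1) N
  gcongr

/-- the main step, for a fixed error `η` of the measure of `S` -/
theorem ec_main {K : ℝ} (hK : K ≤ 0) {n : ℕ} {X : Type u} [MetricSpace X] [MeasurableSpace X]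
    [BorelSpace X] [ProperSpace X] {m : Measure X} (hX : IsRCD K (n + 1) X m) (p : X) (t : ℝ)
    (ht : 0 < t) (ht1 : t < 1) (S : Set X) (hS : IsCompact S) (hA0 : m (Zt p 6 t S) ≠ 0)
    (hA1 : m (Zt p 6 t S) ≠ ∞) {D : ℝ} (hD : D = W2 (mu1 m (Zt p 6 t S)) (dirac p)) (hD0 : 0 < D)
    {η : ℝ} (hη : 0 < η) :
    sK (K / (n + 1 : ℕ)) ((1 - t) * D) ^ (n + 1) * m.real (Zt p 6 t S) ≤
      sK (K / (n + 1 : ℕ)) D ^ (n + 1) * (m.real S + η) := by
  set A := Zt p 6 t S with hA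
  have hAc : IsCompact A := ec_zt_compact p 6 t hS
  have hAm : MeasurableSet A := hAc.measurableSet
  have hN : 0 < n + 1 := Nat.succ_pos n
  have hfin := hX.finite_ball
  have hpos := hX.pos_ball
  have hν1 : IsP2 (mu1 m A) := isP2_mu1 hAm hA0 hA1 hAc.isBounded
  have : SigmaFinite m := by
    have : IsLocallyFiniteMeasure m := ⟨fun x => ⟨closedBall x 1, closedBall_mem_nhds x one_pos,
      hfin x 1⟩⟩
    infer_instance
  have hu : UN (n + 1) m (mu1 m A) ^ (n + 1) = m.real A := UN_unif_pow hN hAm hA0 hA1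
  have hAr : 0 < m.real A := ENNReal.toReal_pos hA0 hA1
  have hUnn : ∀ μ : Measure X, 0 ≤ UN (n + 1) m μ := by
    intro μ
    unfold UN
    split_ifs
    · exact (Real.exp_pos _).le
    · exact le_rfl
  have hu0 : 0 < UN (n + 1) m (mu1 m A) := by
    rcases (hUnn (mu1 m A)).lt_or_eq with h | h
    · exact h
    · rw [← h] at hu
      simp at hu
      linarith
  -- the radius of concentration, the time
  obtain ⟨e, he, hconc⟩ := UN_pow_le hfin hX.exp_int hS hN hη
  set β := m.real S + η with hβ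
  have hβ0 : 0 < β := add_pos_of_nonneg_of_pos measureReal_nonneg hη
  obtain ⟨B, hB0, hBβ⟩ : ∃ B : ℝ, 0 < B ∧ B ^ (n + 1) = β := by
    refine ⟨β ^ ((1 : ℝ) / ((n + 1 : ℕ) : ℝ)), Real.rpow_pos_of_pos hβ0 _, ?_⟩
    rw [one_div, Real.rpow_inv_natCast_pow hβ0.le (by omega)]
  obtain ⟨τ, hτ, hτe⟩ : ∃ τ : ℝ, 0 < τ ∧ ∀ v, 0 < v → v ≤ τ →
      2 * ((n + 1 : ℕ) : ℝ) * v * Real.exp (-K * v) ≤ e ^ 2 := by
    have hc : Continuous fun v : ℝ => 2 * ((n + 1 : ℕ) : ℝ) * v * Real.exp (-K * v) := by fun_prop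
    have h0 : Tendsto (fun v : ℝ => 2 * ((n + 1 : ℕ) : ℝ) * v * Real.exp (-K * v)) (𝓝 0) (𝓝 0) := by
      have := hc.tendsto 0
      simpa using this
    have h1 : ∀ᶠ v in 𝓝 (0 : ℝ), 2 * ((n + 1 : ℕ) : ℝ) * v * Real.exp (-K * v) < e ^ 2 :=
      h0.eventually (gt_mem_nhds (by positivity))
    obtain ⟨δ, hδ, hδ1⟩ := Metric.eventually_nhds_iff.1 h1
    refine ⟨δ / 2, by positivity, fun v hv hv1 => (hδ1 ?_).le⟩
    rw [Real.dist_eq, sub_zero, abs_of_pos hv]
    linarith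
  set x := (1 - t) * D with hx
  set y := t * D with hy
  have hx0 : 0 < x := mul_pos (by linarith) hD0
  have hy0 : 0 < y := mul_pos ht hD0
  have hxy : x + y = D := by rw [hx, hy]; ring
  set κ := K / ((n + 1 : ℕ) : ℝ) with hκ
  have hκ0 : κ ≤ 0 := div_nonpos_of_nonpos_of_nonneg hK (Nat.cast_nonneg _)
  -- for every error of the discrete approximation
  have hstep : ∀ ε : ℝ, 0 < ε → sK κ x * UN (n + 1) m (mu1 m A) ≤
      (sK κ (x + y) + 2 / (((n + 1 : ℕ) : ℝ) * τ) * Real.exp (-K * τ) *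
      (sK κ y * (sK κ ((x + ε) / 2) ^ 2 - sK κ (x / 2) ^ 2) +
       sK κ x * (sK κ ((y + ε) / 2) ^ 2 - sK κ (y / 2) ^ 2))) * B := by
    intro ε hε
    obtain ⟨ν, hνd, hνS, hν1', hν2'⟩ := exists_disc p ht.le ht1.le hAc (le_refl _) hA0 hA1 hε
      hS.measurableSet
    have hνP := hνd.isP2
    obtain ⟨μ, hμ0, hμ⟩ := hX.flow ν hνP
    have h0 : IsDisc (μ 0) := by rw [hμ0]; exact hνd
    have hB : ∀ v, 0 < v → v ≤ τ → UN (n + 1) m (μ v) ≤ B := by
      intro v hv hvτ
      have h1 := hμ.W2_le hK hN hfin hpos h0 hv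
      have h2 : W2 (μ v) ν ≤ e := by
        rw [hμ0] at h1
        have h3 : W2 (μ v) ν ^ 2 ≤ e ^ 2 := h1.trans (hτe v hv hvτ)
        exact le_of_sq_le_sq h3 he.le
      have h4 := hconc (μ v) ν (hμ.p2 v hv.le) hνP hνS h2
      rw [← hBβ] at h4
      exact le_of_pow_le_pow_left₀ (by omega) hB0.le h4
    have hEa := hμ.evi_disc hK hN hfin hpos (isDisc_dirac p) hτ
    have hEb := hμ.evi_bound hK hν1 hu0 hτ hB
    refine evi_end hK hN hx0 hy0 hε.le hτ hB0 ?_ ?_ ?_ ?_ ?_ hEa hEb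
    · have h5 := W2_triangle hν1 (hμ.p2 τ hτ.le) (isDisc_dirac p).isP2
      rw [W2_comm (mu1 m A) (μ τ), ← hD] at h5
      rw [hxy]
      linarith
    · exact Real.sqrt_nonneg _
    · exact Real.sqrt_nonneg _
    · rw [hμ0, hx, hD]
      exact hν1'
    · rw [hμ0, hy, hD]
      exact hν2'
  -- the limit `ε → 0`
  have hlim : sK κ x * UN (n + 1) m (mu1 m A) ≤ sK κ D * B := by
    have hcs := sK_cont hκ0
    have hc : Continuous fun ε : ℝ => (sK κ (x + y) + 2 / (((n + 1 : ℕ) : ℝ) * τ) *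
        Real.exp (-K * τ) * (sK κ y * (sK κ ((x + ε) / 2) ^ 2 - sK κ (x / 2) ^ 2) +
       sK κ x * (sK κ ((y + ε) / 2) ^ 2 - sK κ (y / 2) ^ 2))) * B := by
      have h1 : Continuous fun ε : ℝ => sK κ ((x + ε) / 2) := hcs.comp (by fun_prop)
      have h2 : Continuous fun ε : ℝ => sK κ ((y + ε) / 2) := hcs.comp (by fun_prop)
      fun_prop
    have h1 := (hc.tendsto 0).mono_left (nhdsWithin_le_nhds (s := Ioi (0 : ℝ)))
    have h2 := ge_of_tendsto h1 (by
      filter_upwards [self_mem_nhdsWithin] with ε hε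
      exact hstep ε hε)
    simpa [hxy] using h2
  -- powers
  have h1 : (sK κ x * UN (n + 1) m (mu1 m A)) ^ (n + 1) ≤ (sK κ D * B) ^ (n + 1) :=
    pow_le_pow_left₀ (mul_nonneg (ec_sK_nonneg hκ0 hx0.le) (hUnn _)) hlim _
  rwa [mul_pow, mul_pow, hu, hBβ] at h1

theorem contr_compact {K : ℝ} (hK : K ≤ 0) {n : ℕ} {X : Type u} [MetricSpace X] [MeasurableSpace X]
    [BorelSpace X] {m : Measure X} (hX : IsRCD K (n + 1) X m) (p : X) (t : ℝ) (ht : 0 < t)
    (ht1 : t < 1) (S : Set X) (hS : IsCompact S) : ∃ D : ℝ, 0 < D ∧ D ≤ 6 ∧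
    sK (K / (n + 1 : ℕ)) ((1 - t) * D) ^ (n + 1) * m.real (Zt p 6 t S) ≤
      sK (K / (n + 1 : ℕ)) D ^ (n + 1) * m.real S := by
  have := hX.proper
  have hfin := hX.finite_ball
  have : IsLocallyFiniteMeasure m := ⟨fun x => ⟨closedBall x 1, closedBall_mem_nhds x one_pos,
    hfin x 1⟩⟩
  set A := Zt p 6 t S with hA
  have hAc : IsCompact A := ec_zt_compact p 6 t hS
  have hAm : MeasurableSet A := hAc.measurableSet
  have hA1 : m A ≠ ∞ := ((measure_mono (ec_zt_subset p 6 t S)).trans_lt (hfin p 6)).ne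
  have hκ0 : K / ((n + 1 : ℕ) : ℝ) ≤ 0 := div_nonpos_of_nonpos_of_nonneg hK (Nat.cast_nonneg _)
  by_cases hA0 : m A = 0
  · refine ⟨6, by norm_num, le_rfl, ?_⟩
    refine ec_trivial hκ0 ht ht1 (by norm_num) measureReal_nonneg ?_
    rw [Measure.real, hA0]
    simp
  have hν1 : IsP2 (mu1 m A) := isP2_mu1 hAm hA0 hA1 hAc.isBounded
  set D := W2 (mu1 m A) (dirac p) with hD
  have hDnn : 0 ≤ D := Real.sqrt_nonneg _
  have hDsq : D ^ 2 = ∫ y, dist y p ^ 2 ∂(mu1 m A) := W2_dirac_sq hν1 p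
  have hDint : D ^ 2 = (m.real A)⁻¹ * ∫ y in A, dist y p ^ 2 ∂m := by
    rw [hDsq]
    unfold mu1
    rw [integral_smul_measure]
    simp [Measure.real]
  have hAr : 0 < m.real A := ENNReal.toReal_pos hA0 hA1
  have hfm : IsFiniteMeasure (m.restrict A) := ⟨by rw [Measure.restrict_apply_univ]; exact hA1.lt_top⟩
  have hint : IntegrableOn (fun y => dist y p ^ 2) A m :=
    (by fun_prop : Continuous fun y => dist y p ^ 2).continuousOn.integrableOn_compact' hAc hAm
  rcases hDnn.lt_or_eq with hD0 | hD0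
  · refine ⟨D, hD0, ?_, ?_⟩
    · have h1 : ∫ y in A, dist y p ^ 2 ∂m ≤ ∫ _y in A, (36 : ℝ) ∂m := by
        refine setIntegral_mono_on hint (integrable_const _) hAm fun y hy => ?_
        have : dist y p ≤ 6 := hy.1
        have h0 : 0 ≤ dist y p := dist_nonneg
        nlinarith
      rw [setIntegral_const, smul_eq_mul] at h1
      have h2 : D ^ 2 ≤ 36 := by
        rw [hDint, inv_mul_le_iff₀ hAr]
        linarith
      nlinarith
    · set s := sK (K / ((n + 1 : ℕ) : ℝ)) D ^ (n + 1) with hs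
      have hs0 : 0 ≤ s := pow_nonneg (ec_sK_nonneg hκ0 hD0.le) _
      refine le_of_forall_pos_le_add fun δ hδ => ?_
      have h1 := ec_main hK hX p t ht ht1 S hS hA0 hA1 rfl hD0 (η := δ / (s + 1)) (by positivity)
      have h2 : s * (δ / (s + 1)) ≤ δ := by
        rw [mul_div_assoc', div_le_iff₀ (by positivity)]
        nlinarith
      calc _ ≤ s * (m.real S + δ / (s + 1)) := h1
        _ = s * m.real S + s * (δ / (s + 1)) := by ring
        _ ≤ s * m.real S + δ := by linarith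
  · -- the measure is concentrated at `p`
    refine ⟨6, by norm_num, le_rfl, ?_⟩
    refine ec_trivial hκ0 ht ht1 (by norm_num) measureReal_nonneg ?_
    have h0 : ∫ y in A, dist y p ^ 2 ∂m = 0 := by
      have h1 := hDint
      rw [← hD0] at h1
      have h2 : (m.real A)⁻¹ ≠ 0 := (inv_pos.2 hAr).ne'
      have h3 : (m.real A)⁻¹ * ∫ y in A, dist y p ^ 2 ∂m = 0 := by rw [← h1]; norm_num
      exact (mul_eq_zero.1 h3).resolve_left h2
    have h4 : (fun y => dist y p ^ 2) =ᵐ[m.restrict A] 0 :=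
      (integral_eq_zero_iff_of_nonneg (fun y => by positivity) hint).1 h0
    have h5 : ∀ᵐ y ∂(m.restrict A), y = p := by
      filter_upwards [h4] with y hy
      have : dist y p ^ 2 = 0 := hy
      exact dist_eq_zero.1 (pow_eq_zero_iff (two_ne_zero) |>.1 this)
    have h6 : m (A \ {p}) = 0 := by
      rw [ae_restrict_iff' hAm] at h5
      have : A \ {p} = {y | ¬ (y ∈ A → y = p)} := by
        ext y; simp
      rw [this]
      exact h5
    have hpA : p ∈ A := by
      by_contra hp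
      have : A \ {p} = A := sdiff_singleton_eq_self hp
      rw [this] at h6
      exact hA0 h6
    have hpS : p ∈ S := by
      obtain ⟨-, z, hz, h7, -⟩ := hpA
      rw [dist_self, mul_zero] at h7
      rw [dist_eq_zero.1 h7]
      exact hz
    have h8 : m A ≤ m S := by
      calc m A ≤ m ((A \ {p}) ∪ {p}) := measure_mono (by intro y hy; by_cases h : y = p <;> simp [h, hy])
        _ ≤ m (A \ {p}) + m {p} := measure_union_le _ _
        _ = m {p} := by rw [h6, zero_add]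
        _ ≤ m S := measure_mono (singleton_subset_iff.2 hpS)
    have hS1 : m S ≠ ∞ := hS.measure_lt_top.ne
    exact ENNReal.toReal_mono hS1 h8

end Pool.Agent.BDRY
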