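import Pool.Agent.Work.MP_209cb6_gt.SK
import Pool.Agent.Work.MP_209cb6_gt.EviContr

/-!
# BDRY, module M7: from the contraction of compact sets to the contraction property
-/

set_option autoImplicit false

open MeasureTheory MeasureTheory.Measure Metric Set Filter Topology
open scoped ENNReal NNReal

namespace Pool.Agent.BDRY

universe u

theorem Zt_mono' {X : Type u} [MetricSpace X] (p : X) (R t : ℝ) {S S' : Set X} (h : S ⊆ S') :
    Zt p R t S ⊆ Zt p R t S' := fun _ ha => ⟨ha.1, ha.2.imp fun _ hz => ⟨h hz.1, hz.2⟩⟩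

theorem Zt_iUnion' {X : Type u} [MetricSpace X] (p : X) (R t : ℝ) (S : ℕ → Set X) :
    Zt p R t (⋃ k, S k) = ⋃ k, Zt p R t (S k) := by
  ext a
  simp only [Zt, mem_ofPred_eq, mem_iUnion]
  constructor
  · rintro ⟨ha, z, ⟨k, hz⟩, hzm⟩
    exact ⟨k, ha, z, hz, hzm⟩
  · rintro ⟨k, ha, z, hz, hzm⟩
    exact ⟨ha, z, ⟨k, hz⟩, hzm⟩

/-- from compact sets to all sets (`m` is an outer measure) -/
theorem contr_all {X : Type u} [MetricSpace X] [MeasurableSpace X] [BorelSpace X] [ProperSpace X]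
    {m : Measure X} (hfin : ∀ (x : X) (r : ℝ), m (closedBall x r) < ∞) (p : X) (R t : ℝ) (q : ℝ≥0∞)
    (h : ∀ S : Set X, IsCompact S → q * m (Zt p R t S) ≤ m S) (S : Set X) :
    q * m (Zt p R t S) ≤ m S := by
  have : IsLocallyFiniteMeasure m :=
    ⟨fun x => ⟨closedBall x 1, closedBall_mem_nhds x one_pos, hfin x 1⟩⟩
  -- open sets
  have hopen : ∀ U : Set X, IsOpen U → q * m (Zt p R t U) ≤ m U := by
    intro U hU
    obtain ⟨F, hFc, hFU, hFun, hFm⟩ := hU.exists_iUnion_isClosed
    set G : ℕ → Set X := fun k => F k ∩ closedBall p k with hG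
    have hGm : Monotone G := by
      intro i j hij
      exact inter_subset_inter (hFm hij) (closedBall_subset_closedBall (by exact_mod_cast hij))
    have hGc : ∀ k, IsCompact (G k) := fun k => (isCompact_closedBall p k).inter_left (hFc k)
    have hGU : ⋃ k, G k = U := by
      apply Subset.antisymm
      · exact iUnion_subset fun k => inter_subset_left.trans (hFU k)
      · intro x hx
        rw [← hFun] at hx
        obtain ⟨i, hi⟩ := mem_iUnion.mp hx
        obtain ⟨j, hj⟩ := exists_nat_ge (dist x p)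
        refine mem_iUnion.mpr ⟨max i j, hFm (le_max_left i j) hi, ?_⟩
        rw [mem_closedBall]
        exact hj.trans (by exact_mod_cast le_max_right i j)
    rw [← hGU, Zt_iUnion']
    have hZm : Monotone fun k => Zt p R t (G k) := fun i j hij => Zt_mono' p R t (hGm hij)
    rw [hZm.measure_iUnion, ENNReal.mul_iSup]
    refine iSup_le fun k => (h _ (hGc k)).trans (measure_mono (subset_iUnion G k))
  rw [S.measure_eq_iInf_isOpen m]
  refine le_iInf₂ fun U hSU => le_iInf fun hU => ?_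
  refine le_trans ?_ (hopen U hU)
  gcongr
  exact Zt_mono' p R t hSU

theorem Zt_zero' {X : Type u} [MetricSpace X] (p : X) (R : ℝ) (S : Set X) :
    Zt p R 0 S ⊆ S := by
  rintro a ⟨-, z, hz, hz1, -⟩
  rw [zero_mul, dist_eq_zero] at hz1
  rw [hz1]
  exact hz

/-- The contraction property from its form for compact sets. -/
theorem contr_of_compact_form {K : ℝ} {n : ℕ} {A c : ℝ} (hA : 0 ≤ A)
    (hc : 0 < c) (hc1 : c ≤ 1)
    (hnear : ∀ D t : ℝ, 0 < D → D ≤ 6 → 0 ≤ t → t ≤ 1 / 2 → sK (K / (n + 1 : ℕ)) D ^ (n + 1) ≤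
      (1 + A * t) * sK (K / (n + 1 : ℕ)) ((1 - t) * D) ^ (n + 1))
    (hfar : ∀ D t : ℝ, 0 < D → D ≤ 6 → 0 ≤ t → t < 1 →
      c * (1 - t) ^ (n + 1) * sK (K / (n + 1 : ℕ)) D ^ (n + 1) ≤
        sK (K / (n + 1 : ℕ)) ((1 - t) * D) ^ (n + 1))
    {X : Type u} [MetricSpace X] [MeasurableSpace X] [BorelSpace X] {m : Measure X}
    (hX : IsRCD K (n + 1) X m)
    (hcc : ∀ (p : X) (t : ℝ), 0 < t → t < 1 → ∀ S : Set X, IsCompact S → ∃ D : ℝ, 0 < D ∧ D ≤ 6 ∧
      sK (K / (n + 1 : ℕ)) ((1 - t) * D) ^ (n + 1) * m.real (Zt p 6 t S) ≤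
        sK (K / (n + 1 : ℕ)) D ^ (n + 1) * m.real S) :
    Contr n A c X m := by
  have := hX.proper
  have hZfin : ∀ (p : X) (t : ℝ) (S : Set X), m (Zt p 6 t S) ≠ ⊤ := fun p t S =>
    ne_top_of_le_ne_top (hX.finite_ball p 6).ne (measure_mono fun a ha => ha.1)
  have hSfin : ∀ S : Set X, IsCompact S → m S ≠ ⊤ := by
    intro S hS
    rcases S.eq_empty_or_nonempty with h | ⟨x, -⟩
    · rw [h]; simp
    · obtain ⟨r, hr⟩ := hS.isBounded.subset_closedBall x
      exact ne_top_of_le_ne_top (hX.finite_ball x r).ne (measure_mono hr)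
  refine ⟨hX.proper, hX.geod, hX.finite_ball, hX.pos_ball, ?_, ?_⟩
  · intro p t S ht ht1
    have hpos : 0 < 1 + A * t := by positivity
    -- the form `q * m (Zt S) ≤ m S`
    have hq : ENNReal.ofReal (1 / (1 + A * t)) * m (Zt p 6 t S) ≤ m S := by
      refine contr_all hX.finite_ball p 6 t _ ?_ S
      intro S hS
      rcases ht.eq_or_lt with h0 | h0
      · subst h0
        calc ENNReal.ofReal (1 / (1 + A * 0)) * m (Zt p 6 0 S) ≤ 1 * m S := by
              gcongr
              · rw [ENNReal.ofReal_le_one]; simp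
              · exact Zt_zero' p 6 S
          _ = m S := one_mul _
      · obtain ⟨D, hD, hD6, h1⟩ := hcc p t h0 (by linarith) S hS
        have h2 := hnear D t hD hD6 ht ht1
        have h3 : 0 < sK (K / (n + 1 : ℕ)) ((1 - t) * D) := sK_pos (mul_pos (by linarith) hD)
        have h4 : 0 < sK (K / (n + 1 : ℕ)) ((1 - t) * D) ^ (n + 1) := by positivity
        have h5 : m.real (Zt p 6 t S) ≤ (1 + A * t) * m.real S := by
          have h6 : sK (K / (n + 1 : ℕ)) D ^ (n + 1) * m.real S ≤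
              (1 + A * t) * sK (K / (n + 1 : ℕ)) ((1 - t) * D) ^ (n + 1) * m.real S :=
            mul_le_mul_of_nonneg_right h2 measureReal_nonneg
          have h7 := h1.trans h6
          have h8 : sK (K / (n + 1 : ℕ)) ((1 - t) * D) ^ (n + 1) * m.real (Zt p 6 t S) ≤
              sK (K / (n + 1 : ℕ)) ((1 - t) * D) ^ (n + 1) * ((1 + A * t) * m.real S) := by
            refine h7.trans (le_of_eq (by ring))
          exact le_of_mul_le_mul_left h8 h4
        rw [← ENNReal.ofReal_toReal (hZfin p t S), ← ENNReal.ofReal_toReal (hSfin S hS),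
          ← ENNReal.ofReal_mul (by positivity)]
        apply ENNReal.ofReal_le_ofReal
        rw [one_div, inv_mul_le_iff₀ hpos]
        exact h5
    calc m (Zt p 6 t S)
        = ENNReal.ofReal (1 + A * t) * (ENNReal.ofReal (1 / (1 + A * t)) * m (Zt p 6 t S)) := by
          rw [← mul_assoc, ← ENNReal.ofReal_mul hpos.le, mul_one_div_cancel hpos.ne',
            ENNReal.ofReal_one, one_mul]
      _ ≤ ENNReal.ofReal (1 + A * t) * m S := by gcongr
  · intro p t S ht ht1
    have ht' : 0 < 1 - t := by linarith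
    refine contr_all hX.finite_ball p 6 t _ ?_ S
    intro S hS
    rcases ht.eq_or_lt with h0 | h0
    · subst h0
      calc ENNReal.ofReal (c * (1 - 0) ^ (n + 1)) * m (Zt p 6 0 S) ≤ 1 * m S := by
            gcongr
            · rw [ENNReal.ofReal_le_one]; simpa using hc1
            · exact Zt_zero' p 6 S
        _ = m S := one_mul _
    · obtain ⟨D, hD, hD6, h1⟩ := hcc p t h0 ht1 S hS
      have h2 := hfar D t hD hD6 ht ht1
      have h4 : 0 < sK (K / (n + 1 : ℕ)) D ^ (n + 1) := by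
        have := sK_pos (κ := K / (n + 1 : ℕ)) hD
        positivity
      have h5 : c * (1 - t) ^ (n + 1) * m.real (Zt p 6 t S) ≤ m.real S := by
        have h6 := (mul_le_mul_of_nonneg_right h2 (measureReal_nonneg (μ := m)
          (s := Zt p 6 t S))).trans h1
        have h7 : sK (K / (n + 1 : ℕ)) D ^ (n + 1) * (c * (1 - t) ^ (n + 1) * m.real (Zt p 6 t S)) ≤
            sK (K / (n + 1 : ℕ)) D ^ (n + 1) * m.real S := by
          refine le_trans (le_of_eq (by ring)) h6
        exact le_of_mul_le_mul_left h7 h4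
      rw [← ENNReal.ofReal_toReal (hZfin p t S), ← ENNReal.ofReal_toReal (hSfin S hS),
        ← ENNReal.ofReal_mul (by positivity)]
      exact ENNReal.ofReal_le_ofReal h5

/-- Every `RCD(K,N)` space, `K ≤ 0`, has the contraction property. -/
theorem contr_of_rcd {K : ℝ} (hK : K ≤ 0) (n : ℕ) : ∃ A c : ℝ, 0 ≤ A ∧ 0 < c ∧ c ≤ 1 ∧
    ∀ (X : Type u) [MetricSpace X] [MeasurableSpace X] [BorelSpace X] (m : Measure X),
      IsRCD K (n + 1) X m → Contr n A c X m := by
  obtain ⟨A, hA, h1⟩ := sK_near hK (N := n + 1) (by omega)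
  obtain ⟨c, hc, hc1, h2⟩ := sK_far hK (N := n + 1) (by omega)
  exact ⟨A, c, hA, hc, hc1, fun X _ _ _ m hX => contr_of_compact_form hA hc hc1 h1 h2 hX
    (fun p t ht ht1 S hS => contr_compact hK hX p t ht ht1 S hS)⟩

end Pool.Agent.BDRY
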