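import Mathlib

/-!
# Module M7b : the comparison functions of curvature `K ≤ 0`, and the EVI argument
-/

set_option autoImplicit false
open MeasureTheory

namespace Pool.Agent.BDRY

/-- `s_κ(x)` for `κ = - q²` -/
noncomputable def sQ (q x : ℝ) : ℝ := if q = 0 then x else Real.sinh (q * x) / q

/-- the derivative of `s_κ` -/
noncomputable def cQ (q x : ℝ) : ℝ := Real.cosh (q * x)

/-- `s_κ(x / 2)²` -/
noncomputable def gQ (q x : ℝ) : ℝ := sQ q (x / 2) ^ 2

theorem sQ_zero_left (x : ℝ) : sQ 0 x = x := if_pos rfl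

theorem sQ_ne {q : ℝ} (hq : q ≠ 0) (x : ℝ) : sQ q x = Real.sinh (q * x) / q := if_neg hq

theorem q_mul_sQ (q x : ℝ) : q * sQ q x = Real.sinh (q * x) := by
  by_cases hq : q = 0
  · subst hq
    simp
  · rw [sQ_ne hq]
    field_simp

theorem sQ_zero (q : ℝ) : sQ q 0 = 0 := by
  by_cases hq : q = 0
  · subst hq
    rw [sQ_zero_left]
  · rw [sQ_ne hq]
    simp

theorem hasDerivAt_sQ (q x : ℝ) : HasDerivAt (sQ q) (cQ q x) x := by
  by_cases hq : q = 0
  · subst hq
    have h : sQ 0 = fun x => x := by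
      funext x
      exact sQ_zero_left x
    rw [h, cQ, zero_mul, Real.cosh_zero]
    exact hasDerivAt_id x
  · have h : sQ q = fun x => Real.sinh (q * x) / q := by
      funext x
      exact sQ_ne hq x
    rw [h]
    have h1 : HasDerivAt (fun x : ℝ => q * x) q x := by
      simpa using (hasDerivAt_id x).const_mul q
    have h2 := ((Real.hasDerivAt_sinh (q * x)).comp x h1).div_const q
    refine h2.congr_deriv ?_
    unfold cQ
    field_simp

theorem hasDerivAt_cQ (q x : ℝ) : HasDerivAt (cQ q) (q ^ 2 * sQ q x) x := by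
  have h1 : HasDerivAt (fun x : ℝ => q * x) q x := by
    simpa using (hasDerivAt_id x).const_mul q
  have h2 := (Real.hasDerivAt_cosh (q * x)).comp x h1
  refine h2.congr_deriv ?_
  rw [← q_mul_sQ]
  ring

theorem continuous_sQ (q : ℝ) : Continuous (sQ q) :=
  continuous_iff_continuousAt.2 fun x => (hasDerivAt_sQ q x).continuousAt

theorem continuous_gQ (q : ℝ) : Continuous (gQ q) := by
  unfold gQ
  exact ((continuous_sQ q).comp (continuous_id.div_const 2)).pow 2

theorem cQ_pos (q x : ℝ) : 0 < cQ q x := Real.cosh_pos _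

theorem one_le_cQ (q x : ℝ) : 1 ≤ cQ q x := Real.one_le_cosh _

theorem sQ_strictMono (q : ℝ) : StrictMono (sQ q) := by
  refine strictMono_of_deriv_pos fun x => ?_
  rw [(hasDerivAt_sQ q x).deriv]
  exact cQ_pos q x

theorem sQ_pos {q x : ℝ} (hx : 0 < x) : 0 < sQ q x := by
  rw [← sQ_zero q]
  exact sQ_strictMono q hx

theorem sQ_nonneg {q x : ℝ} (hx : 0 ≤ x) : 0 ≤ sQ q x := by
  rw [← sQ_zero q]
  exact (sQ_strictMono q).monotone hx

theorem sQ_add (q x y : ℝ) : sQ q (x + y) = sQ q x * cQ q y + cQ q x * sQ q y := by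
  by_cases hq : q = 0
  · subst hq
    simp [sQ_zero_left, cQ]
  · rw [sQ_ne hq, sQ_ne hq, sQ_ne hq, cQ, cQ, mul_add, Real.sinh_add]
    field_simp

/-- `1 + 2 q² g = c` -/
theorem gQ_eq (q x : ℝ) : 2 * q ^ 2 * gQ q x = cQ q x - 1 := by
  have h := q_mul_sQ q (x / 2)
  have h1 : q ^ 2 * gQ q x = Real.sinh (q * (x / 2)) ^ 2 := by
    rw [gQ, ← h]
    ring
  have h2 : cQ q x = 1 + 2 * Real.sinh (q * (x / 2)) ^ 2 := by
    have h3 : q * x = 2 * (q * (x / 2)) := by ring
    rw [cQ, h3, Real.cosh_two_mul, Real.cosh_sq]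
    ring
  rw [h2, mul_assoc, h1]
  ring

theorem hasDerivAt_gQ (q x : ℝ) : HasDerivAt (gQ q) (sQ q x / 2) x := by
  have h1 : HasDerivAt (fun x : ℝ => x / 2) (1 / 2) x := (hasDerivAt_id x).div_const 2
  have h2 := ((hasDerivAt_sQ q (x / 2)).comp x h1).pow 2
  refine h2.congr_deriv ?_
  have h3 : sQ q x = 2 * (sQ q (x / 2) * cQ q (x / 2)) := by
    have h4 : x = x / 2 + x / 2 := by ring
    conv_lhs => rw [h4, sQ_add]
    ring
  rw [h3]
  simp only [Function.comp_apply]
  ring

theorem gQ_nonneg (q x : ℝ) : 0 ≤ gQ q x := sq_nonneg _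

/-- the tangent inequality -/
theorem gQ_tangent (q x y : ℝ) : gQ q x + sQ q x / 2 * (y - x) ≤ gQ q y := by
  have hd : ∀ z, HasDerivAt (fun z => gQ q z - sQ q x / 2 * z) (sQ q z / 2 - sQ q x / 2) z :=
    fun z => by
    have h : HasDerivAt (fun z => gQ q z - sQ q x / 2 * z) (sQ q z / 2 - sQ q x / 2 * 1) z :=
      (hasDerivAt_gQ q z).sub ((hasDerivAt_id z).const_mul (sQ q x / 2))
    rwa [mul_one] at h
  have hc : Continuous fun z => gQ q z - sQ q x / 2 * z :=
    (continuous_gQ q).sub (continuous_const.mul continuous_id)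
  rcases le_total x y with h | h
  · have hm : MonotoneOn (fun z => gQ q z - sQ q x / 2 * z) (Set.Ici x) := by
      refine monotoneOn_of_deriv_nonneg (convex_Ici x) hc.continuousOn
        (fun z _ => (hd z).differentiableAt.differentiableWithinAt) fun z hz => ?_
      rw [interior_Ici] at hz
      rw [(hd z).deriv]
      have := (sQ_strictMono q).monotone (le_of_lt hz)
      linarith
    have h1 := hm Set.self_mem_Ici (Set.mem_Ici.2 h) h
    simp only at h1
    linarith
  · have hm : AntitoneOn (fun z => gQ q z - sQ q x / 2 * z) (Set.Iic x) := by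
      refine antitoneOn_of_deriv_nonpos (convex_Iic x) hc.continuousOn
        (fun z _ => (hd z).differentiableAt.differentiableWithinAt) fun z hz => ?_
      rw [interior_Iic] at hz
      rw [(hd z).deriv]
      have := (sQ_strictMono q).monotone (le_of_lt hz)
      linarith
    have h1 := hm (Set.mem_Iic.2 h) Set.self_mem_Iic h
    simp only at h1
    linarith

theorem gQ_mono {q x y : ℝ} (hx : 0 ≤ x) (hxy : x ≤ y) : gQ q x ≤ gQ q y := by
  unfold gQ
  refine pow_le_pow_left₀ (sQ_nonneg (by linarith)) ?_ 2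
  exact (sQ_strictMono q).monotone (by linarith)

/-- `(N/2) (A + B) - K F = (N/2) s(D)` -/
theorem key_identity (q N x y : ℝ) :
    N / 2 * (sQ q y + sQ q x) - (-(N * q ^ 2)) * (sQ q y * gQ q x + sQ q x * gQ q y) =
      N / 2 * sQ q (x + y) := by
  have h1 := gQ_eq q x
  have h2 := gQ_eq q y
  rw [sQ_add]
  have h3 : N * q ^ 2 * gQ q x = N / 2 * (cQ q x - 1) := by rw [← h1]; ring
  have h4 : N * q ^ 2 * gQ q y = N / 2 * (cQ q y - 1) := by rw [← h2]; ring
  have h5 : -(-(N * q ^ 2)) * (sQ q y * gQ q x + sQ q x * gQ q y) =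
      sQ q y * (N * q ^ 2 * gQ q x) + sQ q x * (N * q ^ 2 * gQ q y) := by ring
  have h6 : N / 2 * (sQ q y + sQ q x) - (-(N * q ^ 2)) * (sQ q y * gQ q x + sQ q x * gQ q y) =
      N / 2 * (sQ q y + sQ q x) +
        (sQ q y * (N * q ^ 2 * gQ q x) + sQ q x * (N * q ^ 2 * gQ q y)) := by
    rw [← h5]
    ring
  rw [h6, h3, h4]
  ring

/-- the weighted sum is almost minimal -/
theorem min_ineq (q x y a b ε : ℝ) (hx : 0 ≤ x) (hy : 0 ≤ y) (hab : x + y - ε ≤ a + b) :
    sQ q y * gQ q x + sQ q x * gQ q y - sQ q x * sQ q y / 2 * ε ≤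
      sQ q y * gQ q a + sQ q x * gQ q b := by
  have h1 := gQ_tangent q x a
  have h2 := gQ_tangent q y b
  have hsx := sQ_nonneg (q := q) hx
  have hsy := sQ_nonneg (q := q) hy
  have h3 := mul_le_mul_of_nonneg_left h1 hsy
  have h4 := mul_le_mul_of_nonneg_left h2 hsx
  have h5 : 0 ≤ sQ q x * sQ q y / 2 * (a + b - (x + y - ε)) := by
    have : 0 ≤ a + b - (x + y - ε) := by linarith
    positivity
  nlinarith

end Pool.Agent.BDRY
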