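import Pool.Agent.Work.MP_209cb6_gt.Defs

/-!
# BDRY, module M7b.3: the constants of the contraction property
-/

set_option autoImplicit false

open Set

namespace Pool.Agent.BDRY

theorem sinh_sub_le {x y : ℝ} (hy : 0 ≤ y) (hyx : y ≤ x) :
    Real.sinh x - Real.sinh y ≤ (x - y) * Real.cosh x := by
  have h := (convex_Icc y x).image_sub_le_mul_sub_of_deriv_le (f := Real.sinh) (C := Real.cosh x)
    Real.continuous_sinh.continuousOn Real.differentiable_sinh.differentiableOn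
    (by
      intro z hz
      rw [interior_Icc] at hz
      rw [Real.deriv_sinh]
      rw [Real.cosh_le_cosh, abs_of_nonneg (hy.trans hz.1.le), abs_of_nonneg (hy.trans hyx)]
      exact hz.2.le)
    y (left_mem_Icc.mpr hyx) x (right_mem_Icc.mpr hyx) hyx
  linarith [mul_comm (x - y) (Real.cosh x)]

theorem sK_pos {κ x : ℝ} (hx : 0 < x) : 0 < sK κ x := by
  unfold sK
  split_ifs with h
  · have hk : 0 < √(-κ) := Real.sqrt_pos.mpr (by linarith)
    have : 0 < Real.sinh (√(-κ) * x) := Real.sinh_pos_iff.mpr (by positivity)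
    positivity
  · exact hx

/-- one factor, near -/
theorem sK_near_one (κ : ℝ) : ∃ a : ℝ, 0 ≤ a ∧ ∀ D t : ℝ, 0 < D → D ≤ 6 → 0 ≤ t → t ≤ 1 / 2 →
    sK κ D ≤ (1 + a * t) * sK κ ((1 - t) * D) := by
  refine ⟨2 * Real.cosh (√(-κ) * 6), by positivity, ?_⟩
  intro D t hD hD6 ht ht1
  have hc1 : 1 ≤ Real.cosh (√(-κ) * 6) := Real.one_le_cosh _
  unfold sK
  split_ifs with h
  · have hk : 0 < √(-κ) := Real.sqrt_pos.mpr (by linarith)
    set k := √(-κ) with hkdef
    have hD' : 0 < (1 - t) * D := mul_pos (by linarith) hD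
    have h1 : Real.sinh (k * D) - Real.sinh (k * ((1 - t) * D)) ≤
        (k * D - k * ((1 - t) * D)) * Real.cosh (k * D) := by
      apply sinh_sub_le (by positivity)
      apply mul_le_mul_of_nonneg_left _ hk.le
      nlinarith
    have h2 : Real.cosh (k * D) ≤ Real.cosh (k * 6) := by
      rw [Real.cosh_le_cosh, abs_of_nonneg (by positivity), abs_of_nonneg (by positivity)]
      exact mul_le_mul_of_nonneg_left hD6 hk.le
    have h3 : k * ((1 - t) * D) ≤ Real.sinh (k * ((1 - t) * D)) :=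
      Real.self_le_sinh_iff.mpr (by positivity)
    have h4 : k * D - k * ((1 - t) * D) = t * (k * D) := by ring
    rw [h4] at h1
    have h5 : t * (k * D) * Real.cosh (k * D) ≤ t * (k * D) * Real.cosh (k * 6) :=
      mul_le_mul_of_nonneg_left h2 (by positivity)
    have h6 : k * D ≤ 2 * Real.sinh (k * ((1 - t) * D)) := by
      have : k * D ≤ 2 * (k * ((1 - t) * D)) := by nlinarith [mul_pos hk hD]
      linarith
    have h7 : t * Real.cosh (k * 6) * (k * D)
        ≤ t * Real.cosh (k * 6) * (2 * Real.sinh (k * ((1 - t) * D))) :=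
      mul_le_mul_of_nonneg_left h6 (by positivity)
    rw [← mul_div_assoc]
    apply div_le_div_of_nonneg_right _ hk.le
    nlinarith
  · have h1 : (1 + 2 * t) * ((1 - t) * D) ≤
        (1 + 2 * Real.cosh (√(-κ) * 6) * t) * ((1 - t) * D) := by
      apply mul_le_mul_of_nonneg_right _ (mul_nonneg (by linarith) hD.le)
      nlinarith
    refine le_trans ?_ h1
    nlinarith [mul_nonneg ht hD.le, mul_nonneg (mul_nonneg ht hD.le) (by linarith : 0 ≤ 1 - 2 * t)]

/-- one factor, far -/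
theorem sK_far_one (κ : ℝ) : ∃ c : ℝ, 0 < c ∧ c ≤ 1 ∧ ∀ D t : ℝ, 0 < D → D ≤ 6 → 0 ≤ t → t < 1 →
    c * (1 - t) * sK κ D ≤ sK κ ((1 - t) * D) := by
  have hc1 : 1 ≤ Real.cosh (√(-κ) * 6) := Real.one_le_cosh _
  have hc0 : 0 < Real.cosh (√(-κ) * 6) := by linarith
  refine ⟨1 / Real.cosh (√(-κ) * 6), by positivity, by rw [div_le_one hc0]; exact hc1, ?_⟩
  intro D t hD hD6 ht ht1
  unfold sK
  split_ifs with h
  · have hk : 0 < √(-κ) := Real.sqrt_pos.mpr (by linarith)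
    set k := √(-κ) with hkdef
    have hD' : 0 < (1 - t) * D := mul_pos (by linarith) hD
    have h1 := sinh_sub_le (x := k * D) (y := 0) le_rfl (by positivity)
    rw [Real.sinh_zero, sub_zero, sub_zero] at h1
    have h2 : Real.cosh (k * D) ≤ Real.cosh (k * 6) := by
      rw [Real.cosh_le_cosh, abs_of_nonneg (by positivity), abs_of_nonneg (by positivity)]
      exact mul_le_mul_of_nonneg_left hD6 hk.le
    have h3 : k * ((1 - t) * D) ≤ Real.sinh (k * ((1 - t) * D)) :=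
      Real.self_le_sinh_iff.mpr (by positivity)
    have h4 : Real.sinh (k * D) ≤ k * D * Real.cosh (k * 6) :=
      h1.trans (mul_le_mul_of_nonneg_left h2 (by positivity))
    rw [← mul_div_assoc]
    apply div_le_div_of_nonneg_right _ hk.le
    refine le_trans ?_ h3
    have h5 : 1 / Real.cosh (k * 6) * (1 - t) * Real.sinh (k * D)
        ≤ 1 / Real.cosh (k * 6) * (1 - t) * (k * D * Real.cosh (k * 6)) :=
      mul_le_mul_of_nonneg_left h4 (mul_nonneg (by positivity) (by linarith))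
    refine h5.trans (le_of_eq ?_)
    field_simp
  · have h1 : 1 / Real.cosh (√(-κ) * 6) ≤ 1 := by rw [div_le_one hc0]; exact hc1
    have h2 : 1 / Real.cosh (√(-κ) * 6) * ((1 - t) * D) ≤ 1 * ((1 - t) * D) :=
      mul_le_mul_of_nonneg_right h1 (mul_nonneg (by linarith) hD.le)
    linarith

theorem one_add_pow_le (a t : ℝ) (ha : 0 ≤ a) (ht : 0 ≤ t) (ht1 : t ≤ 1) (N : ℕ) :
    (1 + a * t) ^ N ≤ 1 + ((1 + a) ^ N - 1) * t := by
  induction N with
  | zero => simp
  | succ N ih =>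
    have h0 : 0 ≤ 1 + a * t := by positivity
    have h1 : 1 ≤ (1 + a) ^ N := one_le_pow₀ (by linarith)
    calc (1 + a * t) ^ (N + 1) = (1 + a * t) * (1 + a * t) ^ N := by ring
      _ ≤ (1 + a * t) * (1 + ((1 + a) ^ N - 1) * t) := mul_le_mul_of_nonneg_left ih h0
      _ ≤ 1 + ((1 + a) ^ (N + 1) - 1) * t := by
        have h2 : 0 ≤ a * ((1 + a) ^ N - 1) * (t * (1 - t)) :=
          mul_nonneg (mul_nonneg ha (by linarith)) (mul_nonneg ht (by linarith))
        rw [pow_succ]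
        nlinarith

theorem sK_near {K : ℝ} (_hK : K ≤ 0) {N : ℕ} (_hN : N ≠ 0) : ∃ A : ℝ, 0 ≤ A ∧
    ∀ D t : ℝ, 0 < D → D ≤ 6 → 0 ≤ t → t ≤ 1 / 2 →
      sK (K / N) D ^ N ≤ (1 + A * t) * sK (K / N) ((1 - t) * D) ^ N := by
  obtain ⟨a, ha, h⟩ := sK_near_one (K / N)
  refine ⟨(1 + a) ^ N - 1, by linarith [one_le_pow₀ (n := N) (by linarith : 1 ≤ 1 + a)], ?_⟩
  intro D t hD hD6 ht ht1
  have h1 := h D t hD hD6 ht ht1
  have h2 : 0 ≤ sK (K / N) D := (sK_pos hD).le
  have h3 : 0 < sK (K / N) ((1 - t) * D) := sK_pos (mul_pos (by linarith) hD)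
  calc sK (K / N) D ^ N ≤ ((1 + a * t) * sK (K / N) ((1 - t) * D)) ^ N := pow_le_pow_left₀ h2 h1 N
    _ = (1 + a * t) ^ N * sK (K / N) ((1 - t) * D) ^ N := mul_pow _ _ _
    _ ≤ _ := mul_le_mul_of_nonneg_right (one_add_pow_le a t ha ht (by linarith) N) (by positivity)

theorem sK_far {K : ℝ} (_hK : K ≤ 0) {N : ℕ} (_hN : N ≠ 0) : ∃ c : ℝ, 0 < c ∧ c ≤ 1 ∧
    ∀ D t : ℝ, 0 < D → D ≤ 6 → 0 ≤ t → t < 1 →
      c * (1 - t) ^ N * sK (K / N) D ^ N ≤ sK (K / N) ((1 - t) * D) ^ N := by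
  obtain ⟨c, hc, hc1, h⟩ := sK_far_one (K / N)
  refine ⟨c ^ N, by positivity, pow_le_one₀ hc.le hc1, ?_⟩
  intro D t hD hD6 ht ht1
  have h1 := h D t hD hD6 ht ht1
  have h2 : 0 ≤ sK (K / N) D := (sK_pos hD).le
  rw [← mul_pow, ← mul_pow]
  exact pow_le_pow_left₀ (mul_nonneg (mul_nonneg hc.le (by linarith)) h2) h1 N

end Pool.Agent.BDRY
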