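import Pool.Agent.Work.MP_209cb6_gt.W2
import Pool.Agent.Work.MP_209cb6_gt.EviCore
import Pool.Agent.Work.MP_209cb6_gt.SK

/-!
# Module M7b : consequences of the EVI inequality
-/

set_option autoImplicit false

open MeasureTheory MeasureTheory.Measure Metric Set Filter Topology
open scoped ENNReal NNReal

namespace Pool.Agent.BDRY

universe u

/-! ### The functions `sK` -/

theorem sK_eq_sQ {κ : ℝ} (hκ : κ ≤ 0) : sK κ = sQ (√(-κ)) := by
  funext x
  rcases hκ.eq_or_lt with h | h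
  · subst h
    simp [sK, sQ]
  · have h1 : √(-κ) ≠ 0 := (Real.sqrt_pos.2 (by linarith)).ne'
    rw [sK, if_pos h, sQ, if_neg h1]

theorem sqrt_sq_neg {κ : ℝ} (hκ : κ ≤ 0) : √(-κ) ^ 2 = -κ := Real.sq_sqrt (by linarith)

theorem sK_weights {κ : ℝ} (hκ : κ ≤ 0) {x y a b ε : ℝ} (hx : 0 ≤ x) (hy : 0 ≤ y)
    (hab : x + y - ε ≤ a + b) :
    sK κ y * sK κ (x / 2) ^ 2 + sK κ x * sK κ (y / 2) ^ 2 - sK κ x * sK κ y / 2 * ε
      ≤ sK κ y * sK κ (a / 2) ^ 2 + sK κ x * sK κ (b / 2) ^ 2 := by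
  rw [sK_eq_sQ hκ]
  exact min_ineq (√(-κ)) x y a b ε hx hy hab

theorem sK_identity {κ : ℝ} (hκ : κ ≤ 0) (x y : ℝ) :
    sK κ y + sK κ x - 2 * κ * (sK κ y * sK κ (x / 2) ^ 2 + sK κ x * sK κ (y / 2) ^ 2)
      = sK κ (x + y) := by
  rw [sK_eq_sQ hκ]
  have h := key_identity (√(-κ)) 2 x y
  rw [sqrt_sq_neg hκ] at h
  unfold gQ at h
  linarith

theorem sK_cont {κ : ℝ} (hκ : κ ≤ 0) : Continuous (sK κ) := by
  rw [sK_eq_sQ hκ]
  exact continuous_sQ _

theorem sK_smono {κ : ℝ} (hκ : κ ≤ 0) : StrictMono (sK κ) := by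
  rw [sK_eq_sQ hκ]
  exact sQ_strictMono _

theorem sK_zero_right (κ : ℝ) : sK κ 0 = 0 := by
  unfold sK
  split_ifs <;> simp

theorem sK_nonneg {κ : ℝ} (hκ : κ ≤ 0) {x : ℝ} (hx : 0 ≤ x) : 0 ≤ sK κ x := by
  rw [← sK_zero_right κ]
  exact (sK_smono hκ).monotone hx

theorem le_sK {κ : ℝ} (hκ : κ ≤ 0) {x : ℝ} (hx : 0 ≤ x) : x ≤ sK κ x := by
  rcases hκ.eq_or_lt with h | h
  · subst h
    simp [sK]
  · have h1 : 0 < √(-κ) := Real.sqrt_pos.2 (by linarith)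
    rw [sK, if_pos h, le_div_iff₀ h1, mul_comm]
    exact Real.self_le_sinh_iff.2 (by positivity)

/-! ### Integrals of the exponential -/

theorem exp_int_eq (K τ : ℝ) : K * ∫ v in (0 : ℝ)..τ, Real.exp (K * v) = Real.exp (K * τ) - 1 := by
  have hcont : Continuous fun t : ℝ => Real.exp (K * t) := by fun_prop
  rw [← intervalIntegral.integral_const_mul]
  have h1 : ∀ t ∈ Set.uIcc 0 τ, HasDerivAt (fun t => Real.exp (K * t)) (K * Real.exp (K * t)) t :=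
    fun t _ => by
    have h2 : HasDerivAt (fun t : ℝ => K * t) K t := by
      simpa using (hasDerivAt_id t).const_mul K
    have h3 := h2.exp
    rwa [mul_comm] at h3
  rw [intervalIntegral.integral_eq_sub_of_hasDerivAt h1
    ((hcont.const_mul K).intervalIntegrable 0 τ)]
  simp

theorem exp_int_ge {K : ℝ} (hK : K ≤ 0) {τ : ℝ} (hτ : 0 ≤ τ) :
    τ * Real.exp (K * τ) ≤ ∫ v in (0 : ℝ)..τ, Real.exp (K * v) := by
  have hcont : Continuous fun t : ℝ => Real.exp (K * t) := by fun_prop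
  have h : ∫ _ in (0 : ℝ)..τ, Real.exp (K * τ) ≤ ∫ v in (0 : ℝ)..τ, Real.exp (K * v) := by
    refine intervalIntegral.integral_mono_on hτ intervalIntegrable_const
      (hcont.intervalIntegrable 0 τ) fun v hv => ?_
    exact Real.exp_le_exp.2 (mul_le_mul_of_nonpos_left hv.2 hK)
  rwa [intervalIntegral.integral_const, sub_zero, smul_eq_mul] at h

theorem exp_int_le {K : ℝ} (hK : K ≤ 0) {τ : ℝ} (hτ : 0 ≤ τ) :
    ∫ v in (0 : ℝ)..τ, Real.exp (K * v) ≤ τ := by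
  have hcont : Continuous fun t : ℝ => Real.exp (K * t) := by fun_prop
  have h : ∫ v in (0 : ℝ)..τ, Real.exp (K * v) ≤ ∫ _ in (0 : ℝ)..τ, (1 : ℝ) := by
    refine intervalIntegral.integral_mono_on hτ (hcont.intervalIntegrable 0 τ)
      intervalIntegrable_const fun v hv => ?_
    exact Real.exp_le_one_iff.2 (mul_nonpos_of_nonpos_of_nonneg hK hv.1)
  rwa [intervalIntegral.integral_const, sub_zero, smul_eq_mul, mul_one] at h

theorem evi_alg (E P Q sa sb sa₀ sb₀ X Y X' Y' I N u : ℝ)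
    (h4 : P * (E * sa - sa₀) ≤ P * (N / 2 * I)) (h5 : Q * (E * sb - sb₀) ≤ Q * (N / 2 * (1 - u) * I))
    (h6 : E * (P * X + Q * Y) ≤ E * (P * sa + Q * sb)) (h7 : P * sa₀ ≤ P * X')
    (h8 : Q * sb₀ ≤ Q * Y') :
    (E - 1) * (P * X + Q * Y) - (P * (X' - X) + Q * (Y' - Y)) ≤ N / 2 * (P + Q - Q * u) * I := by
  linarith

theorem evi_alg2 (K N κ I Fm C P Q s u : ℝ) (hK : K = N * κ) (hid : P + Q - 2 * κ * Fm = s)
    (h : K * I * Fm - C ≤ N / 2 * (P + Q - Q * u) * I) :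
    N / 2 * (Q * u) * I ≤ N / 2 * s * I + C := by
  subst hK
  rw [← hid]
  linarith

/-- The real-variable end of `contr_compact`. -/
theorem evi_end {K : ℝ} (hK : K ≤ 0) {N : ℕ} (hN : 0 < N) {x y a b a₀ b₀ ε τ u B : ℝ}
    (hx : 0 < x) (hy : 0 < y) (hε : 0 ≤ ε) (hτ : 0 < τ) (hB : 0 < B)
    (hab : x + y ≤ a + b) (ha₀ : 0 ≤ a₀) (hb₀ : 0 ≤ b₀) (ha : a₀ ≤ x + ε) (hb : b₀ ≤ y + ε)
    (hEa : Real.exp (K * τ) * sK (K / N) (a / 2) ^ 2 - sK (K / N) (a₀ / 2) ^ 2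
      ≤ N / 2 * ∫ v in (0 : ℝ)..τ, Real.exp (K * v))
    (hEb : Real.exp (K * τ) * sK (K / N) (b / 2) ^ 2 - sK (K / N) (b₀ / 2) ^ 2
      ≤ N / 2 * (1 - u / B) * ∫ v in (0 : ℝ)..τ, Real.exp (K * v)) :
    sK (K / N) x * u ≤ (sK (K / N) (x + y) + 2 / (N * τ) * Real.exp (-K * τ) *
      (sK (K / N) y * (sK (K / N) ((x + ε) / 2) ^ 2 - sK (K / N) (x / 2) ^ 2) +
       sK (K / N) x * (sK (K / N) ((y + ε) / 2) ^ 2 - sK (K / N) (y / 2) ^ 2))) * B := by
  have hN' : (0 : ℝ) < N := Nat.cast_pos.2 hN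
  have hκ : K / N ≤ 0 := div_nonpos_of_nonpos_of_nonneg hK hN'.le
  have hKN : K = N * (K / N) := by field_simp
  set κ := K / (N : ℝ) with hκdef
  set s := sK κ with hs
  set P := s y with hP
  set Q := s x with hQ
  have hP0 : 0 < P := sK_pos hy
  have hQ0 : 0 < Q := sK_pos hx
  set I := ∫ v in (0 : ℝ)..τ, Real.exp (K * v) with hI
  have hI1 : τ * Real.exp (K * τ) ≤ I := exp_int_ge hK hτ.le
  have hI0 : 0 < I := lt_of_lt_of_le (by positivity) hI1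
  have hI2 : K * I = Real.exp (K * τ) - 1 := exp_int_eq K τ
  set Fm := P * s (x / 2) ^ 2 + Q * s (y / 2) ^ 2 with hFm
  set C' := P * (s ((x + ε) / 2) ^ 2 - s (x / 2) ^ 2) +
    Q * (s ((y + ε) / 2) ^ 2 - s (y / 2) ^ 2) with hC'
  have hmono : ∀ c d : ℝ, 0 ≤ c → c ≤ d → s (c / 2) ^ 2 ≤ s (d / 2) ^ 2 := fun c d hc hcd =>
    pow_le_pow_left₀ (sK_nonneg hκ (by linarith)) ((sK_smono hκ).monotone (by linarith)) 2
  have h1 := sK_weights hκ (x := x) (y := y) (a := a) (b := b) (ε := 0) hx.le hy.le (by linarith)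
  rw [mul_zero, sub_zero] at h1
  have h2 := hmono a₀ (x + ε) ha₀ ha
  have h3 := hmono b₀ (y + ε) hb₀ hb
  have h4 := mul_le_mul_of_nonneg_left hEa hP0.le
  have h5 := mul_le_mul_of_nonneg_left hEb hQ0.le
  have h6 := mul_le_mul_of_nonneg_left h1 (Real.exp_pos (K * τ)).le
  have h7 := mul_le_mul_of_nonneg_left h2 hP0.le
  have h8 := mul_le_mul_of_nonneg_left h3 hQ0.le
  have hid : P + Q - 2 * κ * Fm = s (x + y) := sK_identity hκ x y
  have h9 : (Real.exp (K * τ) - 1) * Fm - C' ≤ N / 2 * (P + Q - Q * (u / B)) * I :=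
    evi_alg _ _ _ _ _ _ _ _ _ _ _ _ _ _ h4 h5 h6 h7 h8
  rw [← hI2] at h9
  have h10 : N / 2 * (Q * (u / B)) * I ≤ N / 2 * s (x + y) * I + C' :=
    evi_alg2 K N κ I Fm C' P Q _ _ hKN hid h9
  have hC'0 : 0 ≤ C' := by
    have h11 := hmono x (x + ε) hx.le (by linarith)
    have h12 := hmono y (y + ε) hy.le (by linarith)
    have h13 : 0 ≤ P * (s ((x + ε) / 2) ^ 2 - s (x / 2) ^ 2) := mul_nonneg hP0.le (by linarith)
    have h14 : 0 ≤ Q * (s ((y + ε) / 2) ^ 2 - s (y / 2) ^ 2) := mul_nonneg hQ0.le (by linarith)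
    linarith
  have h15 : C' ≤ N / 2 * (2 / (N * τ) * Real.exp (-K * τ) * C') * I := by
    have e2 : N / 2 * (2 / (N * τ) * Real.exp (-K * τ) * C') * (τ * Real.exp (K * τ)) =
        C' * (Real.exp (-K * τ) * Real.exp (K * τ)) := by
      field_simp
    have e3 : Real.exp (-K * τ) * Real.exp (K * τ) = 1 := by
      rw [← Real.exp_add]
      simp
    rw [e3, mul_one] at e2
    have h16 := mul_le_mul_of_nonneg_left hI1
      (show 0 ≤ N / 2 * (2 / (N * τ) * Real.exp (-K * τ) * C') by positivity)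
    linarith
  have h17 : N / 2 * I * (Q * (u / B)) ≤
      N / 2 * I * (s (x + y) + 2 / (N * τ) * Real.exp (-K * τ) * C') := by
    have e4 : N / 2 * I * (Q * (u / B)) = N / 2 * (Q * (u / B)) * I := by ring
    have e5 : N / 2 * I * (s (x + y) + 2 / (N * τ) * Real.exp (-K * τ) * C') =
        N / 2 * s (x + y) * I + N / 2 * (2 / (N * τ) * Real.exp (-K * τ) * C') * I := by ring
    rw [e4, e5]
    linarith
  have h18 := le_of_mul_le_mul_left h17 (by positivity)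
  rw [← mul_div_assoc, div_le_iff₀ hB] at h18
  exact h18

/-! ### The flow -/

section
variable {X : Type u} [MetricSpace X] [MeasurableSpace X] [BorelSpace X] [ProperSpace X]
  {K : ℝ} {N : ℕ} {m : Measure X} {μ : ℝ → Measure X}

/-- continuity at time `0` of the distance to an observer -/
theorem IsEVIFlow.tendsto_W2 (h : IsEVIFlow K N m μ) {σ : Measure X} (hσ : IsP2 σ) :
    Tendsto (fun s => W2 (μ s) σ) (𝓝[>] 0) (𝓝 (W2 (μ 0) σ)) := by
  rw [tendsto_iff_dist_tendsto_zero]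
  have h1 : Tendsto (fun s => W2 (μ s) (μ 0)) (𝓝[>] 0) (𝓝 0) :=
    (h.cont 0 le_rfl).mono_left (nhdsWithin_mono 0 Ioi_subset_Ici_self)
  refine squeeze_zero' (Filter.Eventually.of_forall fun s => dist_nonneg) ?_ h1
  filter_upwards [self_mem_nhdsWithin] with s hs
  rw [Real.dist_eq]
  exact abs_W2_sub_le (h.p2 s (le_of_lt hs)) (h.p2 0 le_rfl) hσ

/-- EVI from time `0`, with any lower bound `c` of `UN σ / UN (μ v)` -/
theorem IsEVIFlow.evi_zero (hK : K ≤ 0) (h : IsEVIFlow K N m μ) {σ : Measure X}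
    (hσ : IsP2 σ) (hσ0 : 0 < UN N m σ) {τ c : ℝ} (hτ : 0 < τ)
    (hc : ∀ v, 0 < v → v ≤ τ → c ≤ UN N m σ / UN N m (μ v)) :
    Real.exp (K * τ) * sK (K / N) (W2 (μ τ) σ / 2) ^ 2 - sK (K / N) (W2 (μ 0) σ / 2) ^ 2
      ≤ N / 2 * (1 - c) * ∫ v in (0 : ℝ)..τ, Real.exp (K * v) := by
  have hN : (0 : ℝ) ≤ N := Nat.cast_nonneg N
  have hκ : K / N ≤ 0 := div_nonpos_of_nonpos_of_nonneg hK hN
  have hcont : Continuous fun t : ℝ => Real.exp (K * t) := by fun_prop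
  have hev : ∀ᶠ s in 𝓝[>] (0 : ℝ), Real.exp (K * τ) * sK (K / N) (W2 (μ τ) σ / 2) ^ 2 -
      Real.exp (K * s) * sK (K / N) (W2 (μ s) σ / 2) ^ 2 ≤
      N / 2 * (1 - c) * ∫ v in s..τ, Real.exp (K * v) := by
    have hlt : ∀ᶠ s in 𝓝[>] (0 : ℝ), s < τ := nhdsWithin_le_nhds (Iio_mem_nhds hτ)
    filter_upwards [self_mem_nhdsWithin, hlt] with s hs hsτ
    have hs0 : 0 < s := hs
    refine (h.evi σ hσ hσ0 s τ hs0 hsτ.le).trans ?_
    rw [mul_assoc]
    refine mul_le_mul_of_nonneg_left ?_ (by positivity)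
    rw [← intervalIntegral.integral_const_mul]
    refine intervalIntegral.integral_mono_on hsτ.le ?_ ?_ ?_
    · have h1 : (fun v => Real.exp (K * v) * (1 - UN N m σ / UN N m (μ v))) = fun v =>
          Real.exp (K * v) - Real.exp (K * v) * (UN N m σ * (UN N m (μ v))⁻¹) := by
        funext v
        rw [div_eq_mul_inv]
        ring
      rw [h1]
      exact (hcont.intervalIntegrable s τ).sub
        (((h.int s τ hs0 hsτ.le).const_mul _).continuousOn_mul hcont.continuousOn)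
    · exact (hcont.const_mul _).intervalIntegrable s τ
    · intro v hv
      have h2 := hc v (hs0.trans_le hv.1) hv.2
      have h3 := Real.exp_pos (K * v)
      nlinarith
  have hlim1 : Tendsto (fun s => Real.exp (K * τ) * sK (K / N) (W2 (μ τ) σ / 2) ^ 2 -
      Real.exp (K * s) * sK (K / N) (W2 (μ s) σ / 2) ^ 2) (𝓝[>] 0)
      (𝓝 (Real.exp (K * τ) * sK (K / N) (W2 (μ τ) σ / 2) ^ 2 -
        sK (K / N) (W2 (μ 0) σ / 2) ^ 2)) := by
    have h1 : Tendsto (fun s : ℝ => Real.exp (K * s)) (𝓝[>] 0) (𝓝 1) := by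
      have h2 : Tendsto (fun s : ℝ => Real.exp (K * s)) (𝓝[>] 0) (𝓝 (Real.exp (K * 0))) :=
        (hcont.tendsto 0).mono_left nhdsWithin_le_nhds
      rwa [mul_zero, Real.exp_zero] at h2
    have h3 : Tendsto (fun s => sK (K / N) (W2 (μ s) σ / 2) ^ 2) (𝓝[>] 0)
        (𝓝 (sK (K / N) (W2 (μ 0) σ / 2) ^ 2)) := by
      have h4 : Continuous fun w : ℝ => sK (K / N) (w / 2) ^ 2 :=
        ((sK_cont hκ).comp (continuous_id.div_const 2)).pow 2
      exact (h4.tendsto _).comp (h.tendsto_W2 hσ)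
    have h5 := (h1.mul h3).const_sub (Real.exp (K * τ) * sK (K / N) (W2 (μ τ) σ / 2) ^ 2)
    rwa [one_mul] at h5
  have hlim2 : Tendsto (fun s => N / 2 * (1 - c) * ∫ v in s..τ, Real.exp (K * v)) (𝓝[>] 0)
      (𝓝 (N / 2 * (1 - c) * ∫ v in (0 : ℝ)..τ, Real.exp (K * v))) := by
    have h1 : Continuous fun s : ℝ => ∫ v in s..τ, Real.exp (K * v) := by
      have h2 : (fun s : ℝ => ∫ v in s..τ, Real.exp (K * v)) =
          fun s => -∫ v in τ..s, Real.exp (K * v) := by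
        funext s
        rw [intervalIntegral.integral_symm]
      rw [h2]
      exact (intervalIntegral.continuous_primitive
        (fun a b => hcont.intervalIntegrable a b) τ).neg
    exact ((h1.tendsto 0).mono_left nhdsWithin_le_nhds).const_mul _
  exact le_of_tendsto_of_tendsto hlim1 hlim2 hev

/-- EVI from time `0` when the entropy along the flow is bounded below (`UN ≤ B`) -/
theorem IsEVIFlow.evi_bound (hK : K ≤ 0) (h : IsEVIFlow K N m μ) {σ : Measure X}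
    (hσ : IsP2 σ) (hσ0 : 0 < UN N m σ) {τ B : ℝ} (hτ : 0 < τ)
    (hB : ∀ v, 0 < v → v ≤ τ → UN N m (μ v) ≤ B) :
    Real.exp (K * τ) * sK (K / N) (W2 (μ τ) σ / 2) ^ 2 - sK (K / N) (W2 (μ 0) σ / 2) ^ 2
      ≤ N / 2 * (1 - UN N m σ / B) * ∫ v in (0 : ℝ)..τ, Real.exp (K * v) := by
  refine h.evi_zero hK hσ hσ0 hτ fun v hv hvτ => ?_
  exact div_le_div_of_nonneg_left hσ0.le (h.dom v hv) (hB v hv hvτ)

/-- EVI from time `0` against a finitely supported measure, entropy of the test measure dropped -/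
theorem IsEVIFlow.evi_disc (hK : K ≤ 0) (hN : 0 < N)
    (hfin : ∀ (x : X) (r : ℝ), m (closedBall x r) < ∞)
    (hpos : ∀ (x : X) (r : ℝ), 0 < r → 0 < m (ball x r)) (h : IsEVIFlow K N m μ) {σ : Measure X}
    (hσ : IsDisc σ) {τ : ℝ} (hτ : 0 < τ) :
    Real.exp (K * τ) * sK (K / N) (W2 (μ τ) σ / 2) ^ 2 - sK (K / N) (W2 (μ 0) σ / 2) ^ 2
      ≤ N / 2 * ∫ v in (0 : ℝ)..τ, Real.exp (K * v) := by
  have hκ : K / N ≤ 0 := div_nonpos_of_nonpos_of_nonneg hK (Nat.cast_nonneg N)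
  have hap : ∀ k : ℕ, ∃ ρ : Measure X, IsP2 ρ ∧ 0 < UN N m ρ ∧ W2 ρ σ ≤ 1 / ((k : ℝ) + 1) :=
    fun k => hσ.approx hfin hpos hN (by positivity)
  choose ρ hρ hρ0 hρ1 using hap
  have hev : ∀ k, Real.exp (K * τ) * sK (K / N) (W2 (μ τ) (ρ k) / 2) ^ 2 -
      sK (K / N) (W2 (μ 0) (ρ k) / 2) ^ 2 ≤ N / 2 * ∫ v in (0 : ℝ)..τ, Real.exp (K * v) := by
    intro k
    have h1 := h.evi_zero (c := 0) hK (hρ k) (hρ0 k) hτ
      fun v hv _ => div_nonneg (hρ0 k).le (h.dom v hv).le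
    rwa [sub_zero, mul_one] at h1
  have hlim : ∀ α : Measure X, IsP2 α → Tendsto (fun k => W2 α (ρ k)) atTop (𝓝 (W2 α σ)) := by
    intro α hα
    rw [tendsto_iff_dist_tendsto_zero]
    refine squeeze_zero (fun k => dist_nonneg) (fun k => ?_)
      tendsto_one_div_add_atTop_nhds_zero_nat
    rw [Real.dist_eq, W2_comm α (ρ k), W2_comm α σ]
    exact (abs_W2_sub_le (hρ k) hσ.isP2 hα).trans (hρ1 k)
  have h4 : Continuous fun w : ℝ => sK (K / N) (w / 2) ^ 2 :=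
    ((sK_cont hκ).comp (continuous_id.div_const 2)).pow 2
  have hlim1 := (((h4.tendsto _).comp (hlim (μ τ) (h.p2 τ hτ.le))).const_mul
    (Real.exp (K * τ))).sub ((h4.tendsto _).comp (hlim (μ 0) (h.p2 0 le_rfl)))
  exact le_of_tendsto' hlim1 hev

/-- the flow from a finitely supported measure moves by at most `C √τ` -/
theorem IsEVIFlow.W2_le (hK : K ≤ 0) (hN : 0 < N)
    (hfin : ∀ (x : X) (r : ℝ), m (closedBall x r) < ∞)
    (hpos : ∀ (x : X) (r : ℝ), 0 < r → 0 < m (ball x r)) (h : IsEVIFlow K N m μ)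
    (h0 : IsDisc (μ 0)) {τ : ℝ} (hτ : 0 < τ) :
    W2 (μ τ) (μ 0) ^ 2 ≤ 2 * N * τ * Real.exp (-K * τ) := by
  have hκ : K / N ≤ 0 := div_nonpos_of_nonpos_of_nonneg hK (Nat.cast_nonneg N)
  have hN' : (0 : ℝ) < N := Nat.cast_pos.2 hN
  have h1 := h.evi_disc hK hN hfin hpos h0 hτ
  rw [W2_self, zero_div, sK_zero_right] at h1
  have h2 := exp_int_le hK hτ.le
  have h3 : (W2 (μ τ) (μ 0) / 2) ^ 2 ≤ sK (K / N) (W2 (μ τ) (μ 0) / 2) ^ 2 := by
    have h4 : 0 ≤ W2 (μ τ) (μ 0) / 2 := by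
      have := W2_nonneg (μ τ) (μ 0)
      linarith
    exact pow_le_pow_left₀ h4 (le_sK hκ h4) 2
  have h5 := mul_le_mul_of_nonneg_left h3 (Real.exp_pos (K * τ)).le
  have h6 : Real.exp (K * τ) * (W2 (μ τ) (μ 0) / 2) ^ 2 ≤ N / 2 * τ := by
    have h7 := mul_le_mul_of_nonneg_left h2 (show 0 ≤ (N : ℝ) / 2 by positivity)
    linarith
  have h8 : Real.exp (-K * τ) * Real.exp (K * τ) = 1 := by
    rw [← Real.exp_add]
    simp
  have h9 := mul_le_mul_of_nonneg_left h6 (Real.exp_pos (-K * τ)).le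
  rw [← mul_assoc, h8, one_mul] at h9
  nlinarith

end

end Pool.Agent.BDRY
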