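import Pool.Agent.Work.MP_209cb6_gt.Evi

set_option autoImplicit false

open MeasureTheory MeasureTheory.Measure Metric Set Filter Topology
open scoped ENNReal NNReal

namespace Pool.Agent.BDRY

universe u

/-- average over a moving square -/
noncomputable def PhiSq (g : ℝ → ℝ → ℝ) (ε s t : ℝ) : ℝ :=
  ∫ x in s..s + ε, ∫ y in t..t + ε, g x y

theorem phiSq_inner_cont {g : ℝ → ℝ → ℝ} (hg : Continuous (Function.uncurry g)) (a b : ℝ) :
    Continuous fun x => ∫ y in a..b, g x y :=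
  intervalIntegral.continuous_parametric_intervalIntegral_of_continuous' hg a b

theorem phiSq_swap {g : ℝ → ℝ → ℝ} (hg : Continuous (Function.uncurry g)) (ε s t : ℝ) :
    PhiSq g ε s t = ∫ y in t..t + ε, ∫ x in s..s + ε, g x y := by
  unfold PhiSq
  apply intervalIntegral_intervalIntegral_swap
  have h1 : IntegrableOn (Function.uncurry g) (uIcc s (s + ε) ×ˢ uIcc t (t + ε))
      ((volume : Measure ℝ).prod volume) :=
    hg.continuousOn.integrableOn_compact (isCompact_uIcc.prod isCompact_uIcc)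
  exact h1.mono_set (prod_mono uIoc_subset_uIcc uIoc_subset_uIcc)

theorem shift_deriv {G : ℝ → ℝ} (hG : Continuous G) (ε s : ℝ) :
    HasDerivAt (fun s => ∫ x in s..s + ε, G x) (G (s + ε) - G s) s := by
  have h1 : (fun s => ∫ x in s..s + ε, G x) =
      fun s => (∫ x in (0 : ℝ)..s + ε, G x) - ∫ x in (0 : ℝ)..s, G x := by
    funext s
    rw [intervalIntegral.integral_interval_sub_left (hG.intervalIntegrable _ _)
      (hG.intervalIntegrable _ _)]
  rw [h1]
  have h2 : HasDerivAt (fun s => ∫ x in (0 : ℝ)..s, G x) (G s) s :=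
    intervalIntegral.integral_hasDerivAt_right (hG.intervalIntegrable _ _)
      (hG.stronglyMeasurableAtFilter _ _) hG.continuousAt
  have h3 : HasDerivAt (fun s => ∫ x in (0 : ℝ)..s, G x) (G (s + ε)) (s + ε) :=
    intervalIntegral.integral_hasDerivAt_right (hG.intervalIntegrable _ _)
      (hG.stronglyMeasurableAtFilter _ _) hG.continuousAt
  exact (h3.comp_add_const s ε).sub h2

theorem phiSq_deriv {g : ℝ → ℝ → ℝ} (hg : Continuous (Function.uncurry g)) (ε l : ℝ) :
    HasDerivAt (fun l => PhiSq g ε l l)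
      ((∫ y in l..l + ε, g (l + ε) y - g l y) + ∫ x in l..l + ε, g x (l + ε) - g x l) l := by
  have hsw : Continuous (Function.uncurry fun x y => g y x) := hg.comp continuous_swap
  have c1 : ∀ x, Continuous (g x) := fun x => hg.comp (Continuous.prodMk_right x)
  have c2 : ∀ y, Continuous (fun x => g x y) := fun y => hg.comp (Continuous.prodMk_left y)
  let f₁ : ℝ → ℝ → ℝ →L[ℝ] ℝ := fun s t =>
    (∫ y in t..t + ε, g (s + ε) y - g s y) • (1 : ℝ →L[ℝ] ℝ)
  let f₂ : ℝ → ℝ → ℝ →L[ℝ] ℝ := fun s t =>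
    (∫ x in s..s + ε, g x (t + ε) - g x t) • (1 : ℝ →L[ℝ] ℝ)
  have d1 : ∀ s t, HasFDerivAt (fun s => PhiSq g ε s t) (f₁ s t) s := by
    intro s t
    have h := (shift_deriv (phiSq_inner_cont hg t (t + ε)) ε s).hasFDerivAt
    rw [← intervalIntegral.integral_sub ((c1 _).intervalIntegrable _ _)
      ((c1 _).intervalIntegrable _ _)] at h
    have e2 : f₁ s t = ContinuousLinearMap.toSpanSingleton ℝ
        (∫ y in t..t + ε, g (s + ε) y - g s y) := by
      refine ContinuousLinearMap.ext fun v => ?_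
      simp [f₁, mul_comm]
    rw [e2]
    exact h
  have d2 : ∀ s t, HasFDerivAt (fun t => PhiSq g ε s t) (f₂ s t) t := by
    intro s t
    have h := (shift_deriv (phiSq_inner_cont hsw s (s + ε)) ε t).hasFDerivAt
    rw [← intervalIntegral.integral_sub ((c2 _).intervalIntegrable _ _)
      ((c2 _).intervalIntegrable _ _)] at h
    have e : (fun t => PhiSq g ε s t) = fun t => ∫ y in t..t + ε, ∫ x in s..s + ε, g x y := by
      funext t
      exact phiSq_swap hg ε s t
    rw [e]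
    have e2 : f₂ s t = ContinuousLinearMap.toSpanSingleton ℝ
        (∫ x in s..s + ε, g x (t + ε) - g x t) := by
      refine ContinuousLinearMap.ext fun v => ?_
      simp [f₂, mul_comm]
    rw [e2]
    exact h
  have cont_par : ∀ (F : ℝ × ℝ → ℝ → ℝ), Continuous (Function.uncurry F) →
      ∀ φ : ℝ × ℝ → ℝ, Continuous φ → Continuous fun p => ∫ y in φ p..φ p + ε, F p y := by
    intro F hF φ hφ
    have h1 : (fun p => ∫ y in φ p..φ p + ε, F p y) = fun p =>
        (∫ y in (0 : ℝ)..φ p + ε, F p y) - ∫ y in (0 : ℝ)..φ p, F p y := by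
      funext p
      have : Continuous (F p) := hF.comp (Continuous.prodMk_right p)
      rw [intervalIntegral.integral_interval_sub_left (this.intervalIntegrable _ _)
        (this.intervalIntegrable _ _)]
    rw [h1]
    exact (intervalIntegral.continuous_parametric_intervalIntegral_of_continuous hF
      (hφ.add continuous_const)).sub
      (intervalIntegral.continuous_parametric_intervalIntegral_of_continuous hF hφ)
  have k1 : Continuous (Function.uncurry f₁) := by
    have h1 : Continuous fun p : ℝ × ℝ => ∫ y in p.2..p.2 + ε, g (p.1 + ε) y - g p.1 y := by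
      apply cont_par (fun p y => g (p.1 + ε) y - g p.1 y) _ Prod.snd continuous_snd
      have a1 : Continuous fun q : (ℝ × ℝ) × ℝ => g (q.1.1 + ε) q.2 :=
        hg.comp (((continuous_fst.comp continuous_fst).add continuous_const).prodMk continuous_snd)
      have a2 : Continuous fun q : (ℝ × ℝ) × ℝ => g q.1.1 q.2 :=
        hg.comp ((continuous_fst.comp continuous_fst).prodMk continuous_snd)
      exact a1.sub a2
    exact h1.smul continuous_const
  have k2 : Continuous (Function.uncurry f₂) := by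
    have h1 : Continuous fun p : ℝ × ℝ => ∫ x in p.1..p.1 + ε, g x (p.2 + ε) - g x p.2 := by
      apply cont_par (fun p x => g x (p.2 + ε) - g x p.2) _ Prod.fst continuous_fst
      have a1 : Continuous fun q : (ℝ × ℝ) × ℝ => g q.2 (q.1.2 + ε) :=
        hg.comp (continuous_snd.prodMk ((continuous_snd.comp continuous_fst).add continuous_const))
      have a2 : Continuous fun q : (ℝ × ℝ) × ℝ => g q.2 q.1.2 :=
        hg.comp (continuous_snd.prodMk (continuous_snd.comp continuous_fst))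
      exact a1.sub a2
    exact h1.smul continuous_const
  have key : HasStrictFDerivAt (Function.uncurry fun s t => PhiSq g ε s t)
      ((Function.uncurry f₁ (l, l)).coprod (Function.uncurry f₂ (l, l))) (l, l) :=
    hasStrictFDerivAt_uncurry_coprod (f := fun s t => PhiSq g ε s t) (f₁ := f₁) (f₂ := f₂)
      (Filter.Eventually.of_forall fun v => d1 v.1 v.2)
      (Filter.Eventually.of_forall fun v => d2 v.1 v.2) k1.continuousAt k2.continuousAt
  have hd : HasDerivAt (fun l : ℝ => (l, l)) ((1 : ℝ), (1 : ℝ)) l :=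
    (hasDerivAt_id l).prodMk (hasDerivAt_id l)
  have h := HasFDerivAt.comp_hasDerivAt (f := fun l : ℝ => (l, l)) l key.hasFDerivAt hd
  simpa [f₁, f₂, Function.comp_def, Function.uncurry] using h

/-- Doubling of the time variables: if the averaged increments of `g` over squares are at most
`C ε²` then `g` grows at most with speed `C` on the diagonal. -/
theorem doubling {g : ℝ → ℝ → ℝ} (hg : Continuous (Function.uncurry g)) {C l₀ l₁ : ℝ}
    (hl : l₀ ≤ l₁)
    (h : ∀ l, l₀ ≤ l → l ≤ l₁ → ∀ ε, 0 < ε → ε < 1 →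
      (∫ y in l..l + ε, g (l + ε) y - g l y) + ∫ x in l..l + ε, g x (l + ε) - g x l
        ≤ C * ε ^ 2) :
    g l₁ l₁ - g l₀ l₀ ≤ C * (l₁ - l₀) := by
  have step : ∀ ε, 0 < ε → ε < 1 →
      PhiSq g ε l₁ l₁ - PhiSq g ε l₀ l₀ ≤ C * ε ^ 2 * (l₁ - l₀) := by
    intro ε hε hε1
    have hc : ContinuousOn (fun l => PhiSq g ε l l) (Icc l₀ l₁) := fun l _ =>
      (phiSq_deriv hg ε l).continuousAt.continuousWithinAt
    refine (convex_Icc l₀ l₁).image_sub_le_mul_sub_of_deriv_le hc
      (fun l _ => (phiSq_deriv hg ε l).differentiableAt.differentiableWithinAt) (fun l hl' => ?_)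
      l₀ (left_mem_Icc.2 hl) l₁ (right_mem_Icc.2 hl) hl
    rw [interior_Icc] at hl'
    rw [(phiSq_deriv hg ε l).deriv]
    exact h l hl'.1.le hl'.2.le ε hε hε1
  have near : ∀ l δ, 0 < δ → ∃ ε₀ > 0, ∀ ε, 0 < ε → ε < ε₀ →
      |PhiSq g ε l l - g l l * ε ^ 2| ≤ δ * ε ^ 2 := by
    intro l δ hδ
    obtain ⟨r, hr, hr1⟩ := Metric.continuousAt_iff.1 (hg.continuousAt (x := (l, l))) δ hδ
    refine ⟨r, hr, fun ε hε hεr => ?_⟩
    have c1 : ∀ x, Continuous (g x) := fun x => hg.comp (Continuous.prodMk_right x)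
    have b : ∀ x ∈ Set.uIoc l (l + ε), ∀ y ∈ Set.uIoc l (l + ε), ‖g x y - g l l‖ ≤ δ := by
      intro x hx y hy
      rw [uIoc_of_le (by linarith)] at hx hy
      have : dist (x, y) (l, l) < r := by
        rw [Prod.dist_eq, Real.dist_eq, Real.dist_eq]
        exact max_lt (by rw [abs_of_nonneg (by linarith [hx.1])]; linarith [hx.2])
          (by rw [abs_of_nonneg (by linarith [hy.1])]; linarith [hy.2])
      exact (hr1 this).le
    have e1 : PhiSq g ε l l - g l l * ε ^ 2 =
        ∫ x in l..l + ε, ∫ y in l..l + ε, (g x y - g l l) := by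
      have e2 : (fun x => ∫ y in l..l + ε, (g x y - g l l)) =
          fun x => (∫ y in l..l + ε, g x y) - g l l * ε := by
        funext x
        rw [intervalIntegral.integral_sub ((c1 x).intervalIntegrable _ _)
          intervalIntegrable_const, intervalIntegral.integral_const]
        simp [mul_comm]
      rw [e2, intervalIntegral.integral_sub
        ((phiSq_inner_cont hg l (l + ε)).intervalIntegrable _ _) intervalIntegrable_const,
        intervalIntegral.integral_const]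
      simp only [PhiSq, add_sub_cancel_left, smul_eq_mul]
      ring
    rw [e1, ← Real.norm_eq_abs]
    calc ‖∫ x in l..l + ε, ∫ y in l..l + ε, (g x y - g l l)‖ ≤ (δ * |l + ε - l|) * |l + ε - l| := by
          refine intervalIntegral.norm_integral_le_of_norm_le_const fun x hx => ?_
          exact intervalIntegral.norm_integral_le_of_norm_le_const fun y hy => b x hx y hy
      _ = δ * ε ^ 2 := by
          rw [add_sub_cancel_left, abs_of_pos hε]; ring
  refine le_of_forall_pos_le_add fun δ hδ => ?_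
  obtain ⟨ε₀, h0, h0'⟩ := near l₀ (δ / 2) (by positivity)
  obtain ⟨ε₁, h1, h1'⟩ := near l₁ (δ / 2) (by positivity)
  set ε := min (min ε₀ ε₁) 1 / 2 with hε
  have hεpos : 0 < ε := by positivity
  have m1 : min (min ε₀ ε₁) 1 ≤ ε₀ := (min_le_left _ _).trans (min_le_left _ _)
  have m2 : min (min ε₀ ε₁) 1 ≤ ε₁ := (min_le_left _ _).trans (min_le_right _ _)
  have m3 : min (min ε₀ ε₁) 1 ≤ 1 := min_le_right _ _
  have a0 := abs_le.1 (h0' ε hεpos (by linarith))
  have a1 := abs_le.1 (h1' ε hεpos (by linarith))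
  have a2 := step ε hεpos (by linarith)
  have a3 : (g l₁ l₁ - g l₀ l₀) * ε ^ 2 ≤ (C * (l₁ - l₀) + δ) * ε ^ 2 := by nlinarith
  exact le_of_mul_le_mul_right a3 (by positivity)

theorem cs_int {e p : ℝ → ℝ} {l r : ℝ} (hlr : l ≤ r) (he : ∀ x, 0 < e x) (hec : Continuous e)
    (hp : ∀ x, l ≤ x → 0 < p x) (hi : IntervalIntegrable (fun x => e x * p x) volume l r)
    (hi' : IntervalIntegrable (fun x => e x * (p x)⁻¹) volume l r) :
    (∫ x in l..r, e x) ^ 2 ≤ (∫ x in l..r, e x * p x) * ∫ x in l..r, e x * (p x)⁻¹ := by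
  set P := ∫ x in l..r, e x * p x with hP
  set Q := ∫ x in l..r, e x * (p x)⁻¹ with hQ
  set E := ∫ x in l..r, e x with hE
  have hP0 : 0 ≤ P := intervalIntegral.integral_nonneg hlr fun x hx =>
    mul_nonneg (he x).le (hp x hx.1).le
  have hQ0 : 0 ≤ Q := intervalIntegral.integral_nonneg hlr fun x hx =>
    mul_nonneg (he x).le (inv_pos.2 (hp x hx.1)).le
  have hE0 : 0 ≤ E := intervalIntegral.integral_nonneg hlr fun x _ => (he x).le
  have key : ∀ lam : ℝ, 0 < lam → 2 * E ≤ lam * P + lam⁻¹ * Q := by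
    intro lam hlam
    rw [hP, hQ, hE, ← intervalIntegral.integral_const_mul, ← intervalIntegral.integral_const_mul,
      ← intervalIntegral.integral_const_mul, ← intervalIntegral.integral_add (hi.const_mul _)
      (hi'.const_mul _)]
    refine intervalIntegral.integral_mono_on hlr ((hec.const_mul 2).intervalIntegrable _ _)
      ((hi.const_mul _).add (hi'.const_mul _)) fun x hx => ?_
    have h1 := hp x hx.1
    have h2 := he x
    have h3 : 0 < lam * p x := by positivity
    have h4 : 2 ≤ lam * p x + (lam * p x)⁻¹ := by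
      have : 0 ≤ (lam * p x - 1) ^ 2 / (lam * p x) := by positivity
      have h5 : (lam * p x - 1) ^ 2 / (lam * p x) = lam * p x + (lam * p x)⁻¹ - 2 := by
        field_simp
        ring
      linarith
    calc 2 * e x ≤ (lam * p x + (lam * p x)⁻¹) * e x := mul_le_mul_of_nonneg_right h4 h2.le
      _ = lam * (e x * p x) + lam⁻¹ * (e x * (p x)⁻¹) := by
        rw [mul_inv]; ring
  -- quadratic inequality
  have h2 : ∀ z : ℝ, 0 < z → 0 ≤ P * (z * z) + (-(2 * E)) * z + Q := by
    intro z hz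
    have h3 := key z hz
    have h4 : z * (2 * E) ≤ z * (z * P + z⁻¹ * Q) := mul_le_mul_of_nonneg_left h3 hz.le
    have h5 : z * (z * P + z⁻¹ * Q) = P * (z * z) + Q := by
      field_simp
    linarith
  have h3 : ∀ z : ℝ, 0 ≤ P * (z * z) + (-(2 * E)) * z + Q := by
    intro z
    rcases lt_or_ge 0 z with hz | hz
    · exact h2 z hz
    · have : 0 ≤ -(2 * E) * z := by nlinarith
      have h4 : 0 ≤ P * (z * z) := mul_nonneg hP0 (mul_self_nonneg z)
      linarith
  have h4 := discrim_le_zero h3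
  unfold discrim at h4
  nlinarith

section
variable {X : Type u} [MetricSpace X] [MeasurableSpace X] [BorelSpace X] [ProperSpace X]
  {K : ℝ} {N : ℕ} {m : Measure X} {μ ν : ℝ → Measure X}

theorem IsEVIFlow.evi_scaled (h : IsEVIFlow K N m μ) {σ : Measure X}
    (hσ : IsP2 σ) (hσ0 : 0 < UN N m σ) {c l r : ℝ} (hc : 0 < c) (hl : 0 < l) (hlr : l ≤ r) :
    Real.exp (K * (c * r)) * sK (K / N) (W2 (μ (c * r)) σ / 2) ^ 2 -
      Real.exp (K * (c * l)) * sK (K / N) (W2 (μ (c * l)) σ / 2) ^ 2 ≤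
    N / 2 * c * (∫ x in l..r, Real.exp (K * (c * x))) - N / 2 * c * (UN N m σ *
      ∫ x in l..r, Real.exp (K * (c * x)) * (UN N m (μ (c * x)))⁻¹) := by
  have hcont : Continuous fun t : ℝ => Real.exp (K * t) := by fun_prop
  have h1 := h.evi σ hσ hσ0 (c * l) (c * r) (by positivity) (by gcongr)
  have h2 : IntervalIntegrable (fun v => Real.exp (K * v) * (UN N m (μ v))⁻¹) volume
      (c * l) (c * r) :=
    (h.int _ _ (by positivity) (by gcongr)).continuousOn_mul hcont.continuousOn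
  have h3 : (∫ v in c * l..c * r, Real.exp (K * v) * (1 - UN N m σ / UN N m (μ v))) =
      (∫ v in c * l..c * r, Real.exp (K * v)) -
        UN N m σ * ∫ v in c * l..c * r, Real.exp (K * v) * (UN N m (μ v))⁻¹ := by
    rw [← intervalIntegral.integral_const_mul, ← intervalIntegral.integral_sub
      (hcont.intervalIntegrable _ _) (h2.const_mul _)]
    refine intervalIntegral.integral_congr fun v _ => ?_
    simp only [div_eq_mul_inv]
    ring
  rw [h3] at h1
  have h4 : ∀ f : ℝ → ℝ, (∫ v in c * l..c * r, f v) = c * ∫ x in l..r, f (c * x) := by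
    intro f
    rw [intervalIntegral.integral_comp_mul_left f hc.ne', smul_eq_mul, ← mul_assoc,
      mul_inv_cancel₀ hc.ne', one_mul]
  rw [h4, h4] at h1
  refine h1.trans (le_of_eq ?_)
  ring

theorem IsEVIFlow.int_scaled (h : IsEVIFlow K N m μ) {c l r : ℝ} (hc : 0 < c) (hl : 0 < l)
    (hlr : l ≤ r) :
    IntervalIntegrable (fun x => Real.exp (K * (c * x)) * (UN N m (μ (c * x)))⁻¹) volume l r := by
  have hcont : Continuous fun t : ℝ => Real.exp (K * t) := by fun_prop
  have h2 : IntervalIntegrable (fun v => Real.exp (K * v) * (UN N m (μ v))⁻¹) volume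
      (c * l) (c * r) :=
    (h.int _ _ (by positivity) (by gcongr)).continuousOn_mul hcont.continuousOn
  have h3 := h2.comp_mul_left (c := c)
  simpa [mul_div_cancel_left₀ _ hc.ne'] using h3


theorem intU {f U F : ℝ → ℝ} {l r : ℝ} (hlr : l ≤ r) (hf : Continuous f) (hf0 : ∀ x, 0 < f x)
    (hU : ∀ y, l ≤ y → 0 < U y)
    (hi : IntervalIntegrable (fun y => f y * (U y)⁻¹) volume l r)
    (hF : IntervalIntegrable F volume l r) (hb : ∀ y ∈ Icc l r, f y * U y ≤ F y) :
    IntervalIntegrable (fun y => f y * U y) volume l r := by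
  rw [intervalIntegrable_iff, uIoc_of_le hlr] at hi hF ⊢
  refine Integrable.mono' hF ?_ ?_
  · have h1 : (fun y => f y * U y) = fun y => f y * f y * (f y * (U y)⁻¹)⁻¹ := by
      funext y
      have := (hf0 y).ne'
      rw [mul_inv, inv_inv]
      field_simp
    rw [h1]
    exact ((hf.mul hf).aestronglyMeasurable.mul
      (hi.aestronglyMeasurable.aemeasurable.inv.aestronglyMeasurable))
  · filter_upwards [ae_restrict_mem measurableSet_Ioc] with y hy
    rw [Real.norm_eq_abs, abs_of_pos (mul_pos (hf0 y) (hU y hy.1.le))]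
    exact hb y (Ioc_subset_Icc_self hy)

theorem square_alg {a b c E F P P' Q Q' I J : ℝ} (hc : 0 ≤ c) (ha : 0 < a) (hb : 0 < b)
    (hE : 0 ≤ E) (hF : 0 ≤ F) (hP : 0 ≤ P) (hP' : 0 ≤ P') (hQ : 0 ≤ Q) (hQ' : 0 ≤ Q')
    (h1 : E ^ 2 ≤ P' * P) (h2 : F ^ 2 ≤ Q' * Q)
    (hI : I ≤ c * a ^ 2 * E * F - c * a ^ 2 * (P * Q'))
    (hJ : J ≤ c * b ^ 2 * F * E - c * b ^ 2 * (Q * P')) :
    I + J ≤ c * (a - b) ^ 2 * (E * F) := by
  have h3 : E * F * (E * F) ≤ (P * Q') * (Q * P') := by
    have := mul_le_mul h1 h2 (by positivity) (by positivity)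
    nlinarith
  have h4 : 2 * (a * b) * (E * F) ≤ a ^ 2 * (P * Q') + b ^ 2 * (Q * P') := by
    have h5 : 0 ≤ E * F := mul_nonneg hE hF
    have h6 : (2 * (a * b) * (E * F)) ^ 2 ≤ (a ^ 2 * (P * Q') + b ^ 2 * (Q * P')) ^ 2 := by
      nlinarith [sq_nonneg (a ^ 2 * (P * Q') - b ^ 2 * (Q * P')), mul_pos ha hb,
        mul_le_mul_of_nonneg_left h3 (show 0 ≤ 4 * (a * b) ^ 2 by positivity)]
    exact (abs_le_of_sq_le_sq' h6 (by positivity)).2
  nlinarith [mul_le_mul_of_nonneg_left h4 hc]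

theorem square_est (hK : K ≤ 0) (hN : 0 < N) (h : IsEVIFlow K N m μ) (h' : IsEVIFlow K N m ν)
    {a b l ε : ℝ} (ha : 0 < a) (hb : 0 < b) (hl : 0 < l) (hε : 0 < ε) {g : ℝ → ℝ → ℝ}
    (hg : ∀ x y, 0 < x → 0 < y → g x y = Real.exp (K * (a ^ 2 * x + b ^ 2 * y)) *
      sK (K / N) (W2 (μ (a ^ 2 * x)) (ν (b ^ 2 * y)) / 2) ^ 2)
    (hgc : Continuous (Function.uncurry g)) :
    (∫ y in l..l + ε, g (l + ε) y - g l y) + ∫ x in l..l + ε, g x (l + ε) - g x l ≤
      N / 2 * (a - b) ^ 2 * ε ^ 2 := by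
  have hN' : (0 : ℝ) < N := Nat.cast_pos.2 hN
  have hle : l ≤ l + ε := by linarith
  have c1 : ∀ x, Continuous (g x) := fun x => hgc.comp (Continuous.prodMk_right x)
  have c2 : ∀ y, Continuous (fun x => g x y) := fun y => hgc.comp (Continuous.prodMk_left y)
  have ha2 : 0 < a ^ 2 := by positivity
  have hb2 : 0 < b ^ 2 := by positivity
  set e : ℝ → ℝ := fun x => Real.exp (K * (a ^ 2 * x)) with he
  set f : ℝ → ℝ := fun y => Real.exp (K * (b ^ 2 * y)) with hf
  have he0 : ∀ x, 0 < e x := fun x => Real.exp_pos _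
  have hf0 : ∀ x, 0 < f x := fun x => Real.exp_pos _
  have hec : Continuous e := by fun_prop
  have hfc : Continuous f := by fun_prop
  set U : ℝ → ℝ := fun x => UN N m (μ (a ^ 2 * x)) with hU
  set V : ℝ → ℝ := fun y => UN N m (ν (b ^ 2 * y)) with hV
  have hU0 : ∀ x, l ≤ x → 0 < U x := fun x hx => h.dom _ (mul_pos ha2 (hl.trans_le hx))
  have hV0 : ∀ x, l ≤ x → 0 < V x := fun x hx => h'.dom _ (mul_pos hb2 (hl.trans_le hx))
  have iU' : IntervalIntegrable (fun x => e x * (U x)⁻¹) volume l (l + ε) :=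
    h.int_scaled ha2 hl hle
  have iV' : IntervalIntegrable (fun x => f x * (V x)⁻¹) volume l (l + ε) :=
    h'.int_scaled hb2 hl hle
  set E := ∫ x in l..l + ε, e x with hE
  set F := ∫ x in l..l + ε, f x with hF
  set P := ∫ x in l..l + ε, e x * (U x)⁻¹ with hP
  set Q := ∫ x in l..l + ε, f x * (V x)⁻¹ with hQ
  have hE1 : 0 < E := intervalIntegral.intervalIntegral_pos_of_pos_on
    (hec.intervalIntegrable _ _) (fun x _ => he0 x) (by linarith)
  have hF1 : 0 < F := intervalIntegral.intervalIntegral_pos_of_pos_on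
    (hfc.intervalIntegrable _ _) (fun x _ => hf0 x) (by linarith)
  have hP1 : 0 < P := intervalIntegral.intervalIntegral_pos_of_pos_on iU'
    (fun x hx => mul_pos (he0 x) (inv_pos.2 (hU0 x hx.1.le))) (by linarith)
  have hQ1 : 0 < Q := intervalIntegral.intervalIntegral_pos_of_pos_on iV'
    (fun x hx => mul_pos (hf0 x) (inv_pos.2 (hV0 x hx.1.le))) (by linarith)
  -- pointwise inequalities
  have px : ∀ y, l ≤ y → g (l + ε) y - g l y ≤
      N / 2 * a ^ 2 * E * f y - N / 2 * a ^ 2 * P * (f y * V y) := by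
    intro y hy
    have hy0 : 0 < y := hl.trans_le hy
    have h1 := h.evi_scaled (h'.p2 _ (mul_pos hb2 hy0).le) (hV0 y hy) ha2 hl hle
    rw [hg _ _ (by linarith) hy0, hg _ _ hl hy0]
    have h2 := mul_le_mul_of_nonneg_left h1 (hf0 y).le
    have e1 : Real.exp (K * (a ^ 2 * (l + ε) + b ^ 2 * y)) =
        f y * Real.exp (K * (a ^ 2 * (l + ε))) := by
      rw [hf, ← Real.exp_add]; ring_nf
    have e2 : Real.exp (K * (a ^ 2 * l + b ^ 2 * y)) = f y * Real.exp (K * (a ^ 2 * l)) := by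
      rw [hf, ← Real.exp_add]; ring_nf
    rw [e1, e2]
    calc _ = f y * (Real.exp (K * (a ^ 2 * (l + ε))) *
          sK (K / N) (W2 (μ (a ^ 2 * (l + ε))) (ν (b ^ 2 * y)) / 2) ^ 2 -
          Real.exp (K * (a ^ 2 * l)) *
            sK (K / N) (W2 (μ (a ^ 2 * l)) (ν (b ^ 2 * y)) / 2) ^ 2) := by ring
      _ ≤ _ := h2
      _ = _ := by
        simp only [hV, hP, hE, hU, he]
        ring
  have py : ∀ x, l ≤ x → g x (l + ε) - g x l ≤
      N / 2 * b ^ 2 * F * e x - N / 2 * b ^ 2 * Q * (e x * U x) := by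
    intro x hx
    have hx0 : 0 < x := hl.trans_le hx
    have h1 := h'.evi_scaled (h.p2 _ (mul_pos ha2 hx0).le) (hU0 x hx) hb2 hl hle
    rw [hg _ _ hx0 (by linarith), hg _ _ hx0 hl]
    have h2 := mul_le_mul_of_nonneg_left h1 (he0 x).le
    have e1 : Real.exp (K * (a ^ 2 * x + b ^ 2 * (l + ε))) =
        e x * Real.exp (K * (b ^ 2 * (l + ε))) := by
      rw [he, ← Real.exp_add]; ring_nf
    have e2 : Real.exp (K * (a ^ 2 * x + b ^ 2 * l)) = e x * Real.exp (K * (b ^ 2 * l)) := by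
      rw [he, ← Real.exp_add]; ring_nf
    rw [e1, e2, W2_comm (μ (a ^ 2 * x)), W2_comm (μ (a ^ 2 * x))]
    calc _ = e x * (Real.exp (K * (b ^ 2 * (l + ε))) *
          sK (K / N) (W2 (ν (b ^ 2 * (l + ε))) (μ (a ^ 2 * x)) / 2) ^ 2 -
          Real.exp (K * (b ^ 2 * l)) *
            sK (K / N) (W2 (ν (b ^ 2 * l)) (μ (a ^ 2 * x)) / 2) ^ 2) := by ring
      _ ≤ _ := h2
      _ = _ := by
        simp only [hV, hQ, hF, hU, hf]
        ring
  -- integrability
  have dx : Continuous fun y => g (l + ε) y - g l y := (c1 _).sub (c1 _)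
  have dy : Continuous fun x => g x (l + ε) - g x l := (c2 _).sub (c2 _)
  have iV : IntervalIntegrable (fun x => f x * V x) volume l (l + ε) := by
    refine intU (F := fun y => (N / 2 * a ^ 2 * P)⁻¹ * (N / 2 * a ^ 2 * E * f y -
      (g (l + ε) y - g l y))) hle hfc hf0 hV0 iV' ?_ ?_
    · exact ((((hfc.const_mul _)).sub dx).const_mul _).intervalIntegrable _ _
    · intro y hy
      have := px y hy.1
      have hpos : 0 < (N : ℝ) / 2 * a ^ 2 * P := by positivity
      rw [inv_mul_eq_div, le_div_iff₀ hpos]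
      linarith
  have iU : IntervalIntegrable (fun x => e x * U x) volume l (l + ε) := by
    refine intU (F := fun x => (N / 2 * b ^ 2 * Q)⁻¹ * (N / 2 * b ^ 2 * F * e x -
      (g x (l + ε) - g x l))) hle hec he0 hU0 iU' ?_ ?_
    · exact ((((hec.const_mul _)).sub dy).const_mul _).intervalIntegrable _ _
    · intro y hy
      have := py y hy.1
      have hpos : 0 < (N : ℝ) / 2 * b ^ 2 * Q := by positivity
      rw [inv_mul_eq_div, le_div_iff₀ hpos]
      linarith
  have i1 : (∫ y in l..l + ε, g (l + ε) y - g l y) ≤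
      N / 2 * a ^ 2 * E * F - N / 2 * a ^ 2 * (P * ∫ y in l..l + ε, f y * V y) := by
    have : N / 2 * a ^ 2 * E * F - N / 2 * a ^ 2 * (P * ∫ y in l..l + ε, f y * V y) =
        ∫ y in l..l + ε, (N / 2 * a ^ 2 * E * f y - N / 2 * a ^ 2 * P * (f y * V y)) := by
      rw [intervalIntegral.integral_sub ((hfc.const_mul _).intervalIntegrable _ _)
        (iV.const_mul _), intervalIntegral.integral_const_mul,
        intervalIntegral.integral_const_mul]
      ring
    rw [this]
    exact intervalIntegral.integral_mono_on hle (dx.intervalIntegrable _ _)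
      (((hfc.const_mul _).intervalIntegrable _ _).sub (iV.const_mul _)) fun y hy => px y hy.1
  have i2 : (∫ x in l..l + ε, g x (l + ε) - g x l) ≤
      N / 2 * b ^ 2 * F * E - N / 2 * b ^ 2 * (Q * ∫ x in l..l + ε, e x * U x) := by
    have : N / 2 * b ^ 2 * F * E - N / 2 * b ^ 2 * (Q * ∫ x in l..l + ε, e x * U x) =
        ∫ x in l..l + ε, (N / 2 * b ^ 2 * F * e x - N / 2 * b ^ 2 * Q * (e x * U x)) := by
      rw [intervalIntegral.integral_sub ((hec.const_mul _).intervalIntegrable _ _)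
        (iU.const_mul _), intervalIntegral.integral_const_mul,
        intervalIntegral.integral_const_mul]
      ring
    rw [this]
    exact intervalIntegral.integral_mono_on hle (dy.intervalIntegrable _ _)
      (((hec.const_mul _).intervalIntegrable _ _).sub (iU.const_mul _)) fun y hy => py y hy.1
  have nU : 0 ≤ ∫ x in l..l + ε, e x * U x := intervalIntegral.integral_nonneg hle fun x hx =>
    mul_nonneg (he0 x).le (hU0 x hx.1).le
  have nV : 0 ≤ ∫ x in l..l + ε, f x * V x := intervalIntegral.integral_nonneg hle fun x hx =>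
    mul_nonneg (hf0 x).le (hV0 x hx.1).le
  have key := square_alg (c := N / 2) (by positivity) ha hb hE1.le hF1.le hP1.le nU hQ1.le nV
    (cs_int hle he0 hec hU0 iU iU') (cs_int hle hf0 hfc hV0 iV iV') i1 i2
  refine key.trans ?_
  have bE : E ≤ ε := by
    have : E ≤ ∫ x in l..l + ε, (1 : ℝ) := intervalIntegral.integral_mono_on hle
      (hec.intervalIntegrable _ _) intervalIntegrable_const fun x hx => by
        refine Real.exp_le_one_iff.2 ?_
        exact mul_nonpos_of_nonpos_of_nonneg hK (mul_nonneg ha2.le (hl.le.trans hx.1))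
    simpa using this
  have bF : F ≤ ε := by
    have : F ≤ ∫ x in l..l + ε, (1 : ℝ) := intervalIntegral.integral_mono_on hle
      (hfc.intervalIntegrable _ _) intervalIntegrable_const fun x hx => by
        refine Real.exp_le_one_iff.2 ?_
        exact mul_nonpos_of_nonpos_of_nonneg hK (mul_nonneg hb2.le (hl.le.trans hx.1))
    simpa using this
  have : E * F ≤ ε ^ 2 := by
    rw [sq]; exact mul_le_mul bE bF hF1.le hε.le
  exact mul_le_mul_of_nonneg_left this (by positivity)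


theorem IsEVIFlow.cont_max (h : IsEVIFlow K N m μ) (x₀ : ℝ) :
    Tendsto (fun x => W2 (μ (max x 0)) (μ (max x₀ 0))) (𝓝 x₀) (𝓝 0) := by
  have h1 := h.cont (max x₀ 0) (le_max_right _ _)
  have h2 : Tendsto (fun x : ℝ => max x 0) (𝓝 x₀) (𝓝[Ici 0] (max x₀ 0)) := by
    rw [tendsto_nhdsWithin_iff]
    exact ⟨(continuous_id.max continuous_const).tendsto x₀,
      Filter.Eventually.of_forall fun x => mem_Ici.2 (le_max_right x 0)⟩
  exact h1.comp h2

/-- joint continuity of the distance of two flows in the two times -/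
theorem IsEVIFlow.cont_W2 (h : IsEVIFlow K N m μ) (h' : IsEVIFlow K N m ν) :
    Continuous fun p : ℝ × ℝ => W2 (μ (max p.1 0)) (ν (max p.2 0)) := by
  rw [continuous_iff_continuousAt]
  rintro ⟨x₀, y₀⟩
  rw [ContinuousAt, tendsto_iff_dist_tendsto_zero]
  have h1 : Tendsto (fun p : ℝ × ℝ => W2 (μ (max p.1 0)) (μ (max x₀ 0)) +
      W2 (ν (max p.2 0)) (ν (max y₀ 0))) (𝓝 (x₀, y₀)) (𝓝 (0 + 0)) :=
    ((h.cont_max x₀).comp (continuous_fst.tendsto (x₀, y₀))).add
      ((h'.cont_max y₀).comp (continuous_snd.tendsto (x₀, y₀)))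
  rw [add_zero] at h1
  refine squeeze_zero (fun p => dist_nonneg) (fun p => ?_) h1
  have q1 := h.p2 _ (le_max_right p.1 0)
  have q2 := h.p2 _ (le_max_right x₀ 0)
  have q3 := h'.p2 _ (le_max_right p.2 0)
  have q4 := h'.p2 _ (le_max_right y₀ 0)
  rw [Real.dist_eq]
  have a1 := abs_W2_sub_le q1 q2 q3
  have a2 := abs_W2_sub_le q3 q4 q2
  rw [W2_comm (ν (max p.2 0)), W2_comm (ν (max y₀ 0)) (μ (max x₀ 0))] at a2
  calc |W2 (μ (max p.1 0)) (ν (max p.2 0)) - W2 (μ (max x₀ 0)) (ν (max y₀ 0))|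
      = |(W2 (μ (max p.1 0)) (ν (max p.2 0)) - W2 (μ (max x₀ 0)) (ν (max p.2 0))) +
        (W2 (μ (max x₀ 0)) (ν (max p.2 0)) - W2 (μ (max x₀ 0)) (ν (max y₀ 0)))| := by ring_nf
    _ ≤ _ := (abs_add_le _ _).trans (add_le_add a1 a2)

/-- **Two-time contraction** for two `EVI_{K,N}` flows, `K ≤ 0`. -/
theorem IsEVIFlow.two_time (hK : K ≤ 0) (hN : 0 < N) (h : IsEVIFlow K N m μ)
    (h' : IsEVIFlow K N m ν) {t s : ℝ} (ht : 0 ≤ t) (hs : 0 ≤ s) :
    Real.exp (K * (t + s)) * sK (K / N) (W2 (μ t) (ν s) / 2) ^ 2 ≤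
      sK (K / N) (W2 (μ 0) (ν 0) / 2) ^ 2 + N / 2 * (√t - √s) ^ 2 := by
  have hκ : K / N ≤ 0 := div_nonpos_of_nonpos_of_nonneg hK (Nat.cast_nonneg N)
  have hcont : Continuous fun p : ℝ × ℝ => Real.exp (K * (max p.1 0 + max p.2 0)) *
      sK (K / N) (W2 (μ (max p.1 0)) (ν (max p.2 0)) / 2) ^ 2 := by
    have h4 : Continuous fun w : ℝ => sK (K / N) (w / 2) ^ 2 :=
      ((sK_cont hκ).comp (continuous_id.div_const 2)).pow 2
    refine Continuous.mul (by fun_prop) (h4.comp (h.cont_W2 h'))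
  -- positive times
  have pos : ∀ a b : ℝ, 0 < a → 0 < b →
      Real.exp (K * (a ^ 2 + b ^ 2)) * sK (K / N) (W2 (μ (a ^ 2)) (ν (b ^ 2)) / 2) ^ 2 ≤
        sK (K / N) (W2 (μ 0) (ν 0) / 2) ^ 2 + N / 2 * (a - b) ^ 2 := by
    intro a b ha hb
    set g : ℝ → ℝ → ℝ := fun x y => Real.exp (K * (max (a ^ 2 * x) 0 + max (b ^ 2 * y) 0)) *
      sK (K / N) (W2 (μ (max (a ^ 2 * x) 0)) (ν (max (b ^ 2 * y) 0)) / 2) ^ 2 with hg
    have hgc : Continuous (Function.uncurry g) := by
      have : Continuous fun p : ℝ × ℝ => (a ^ 2 * p.1, b ^ 2 * p.2) := by fun_prop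
      exact hcont.comp this
    have hgp : ∀ x y, 0 < x → 0 < y → g x y = Real.exp (K * (a ^ 2 * x + b ^ 2 * y)) *
        sK (K / N) (W2 (μ (a ^ 2 * x)) (ν (b ^ 2 * y)) / 2) ^ 2 := by
      intro x y hx hy
      simp only [hg]
      rw [max_eq_left (by positivity), max_eq_left (by positivity)]
    have key : ∀ l₀, 0 < l₀ → l₀ ≤ 1 → g 1 1 - g l₀ l₀ ≤ N / 2 * (a - b) ^ 2 * (1 - l₀) :=
      fun l₀ h0 h1 => doubling hgc h1 fun l hl hl1 ε hε hε1 =>
        square_est hK hN h h' ha hb (h0.trans_le hl) hε hgp hgc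
    have hlim : Tendsto (fun l₀ => g 1 1 - g l₀ l₀) (𝓝[>] 0) (𝓝 (g 1 1 - g 0 0)) := by
      have : Continuous fun l : ℝ => g 1 1 - g l l :=
        continuous_const.sub (hgc.comp (continuous_id.prodMk continuous_id))
      exact (this.tendsto 0).mono_left nhdsWithin_le_nhds
    have hlim2 : Tendsto (fun l₀ : ℝ => N / 2 * (a - b) ^ 2 * (1 - l₀)) (𝓝[>] 0)
        (𝓝 (N / 2 * (a - b) ^ 2 * (1 - 0))) := by
      have : Continuous fun l : ℝ => (N : ℝ) / 2 * (a - b) ^ 2 * (1 - l) := by fun_prop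
      exact (this.tendsto 0).mono_left nhdsWithin_le_nhds
    have hfin := le_of_tendsto_of_tendsto hlim hlim2 (by
      filter_upwards [self_mem_nhdsWithin, nhdsWithin_le_nhds (Iic_mem_nhds zero_lt_one)]
        with l hl hl1
      exact key l hl hl1)
    have e1 : g 1 1 = Real.exp (K * (a ^ 2 + b ^ 2)) *
        sK (K / N) (W2 (μ (a ^ 2)) (ν (b ^ 2)) / 2) ^ 2 := by
      rw [hgp 1 1 one_pos one_pos, mul_one, mul_one]
    have e0 : g 0 0 = sK (K / N) (W2 (μ 0) (ν 0) / 2) ^ 2 := by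
      simp [hg]
    rw [e1, e0] at hfin
    linarith
  -- limit
  have hL : Tendsto (fun δ : ℝ => Real.exp (K * (max (t + δ) 0 + max (s + δ) 0)) *
      sK (K / N) (W2 (μ (max (t + δ) 0)) (ν (max (s + δ) 0)) / 2) ^ 2) (𝓝[>] 0)
      (𝓝 (Real.exp (K * (t + s)) * sK (K / N) (W2 (μ t) (ν s) / 2) ^ 2)) := by
    have h1 : Continuous fun δ : ℝ => (t + δ, s + δ) := by fun_prop
    have h2 := ((hcont.comp h1).tendsto 0).mono_left (nhdsWithin_le_nhds (s := Ioi 0))
    simpa [Function.comp_def, max_eq_left ht, max_eq_left hs] using h2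
  have hR : Tendsto (fun δ : ℝ => sK (K / N) (W2 (μ 0) (ν 0) / 2) ^ 2 +
      N / 2 * (√(t + δ) - √(s + δ)) ^ 2) (𝓝[>] 0)
      (𝓝 (sK (K / N) (W2 (μ 0) (ν 0) / 2) ^ 2 + N / 2 * (√t - √s) ^ 2)) := by
    have h1 : Continuous fun δ : ℝ => sK (K / N) (W2 (μ 0) (ν 0) / 2) ^ 2 +
        N / 2 * (√(t + δ) - √(s + δ)) ^ 2 := by fun_prop
    have h2 := (h1.tendsto 0).mono_left (nhdsWithin_le_nhds (s := Ioi 0))
    simpa using h2
  refine le_of_tendsto_of_tendsto hL hR ?_
  filter_upwards [self_mem_nhdsWithin] with δ hδ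
  have hδ0 : (0 : ℝ) < δ := hδ
  have h1 : 0 < t + δ := by linarith
  have h2 : 0 < s + δ := by linarith
  have h3 := pos (√(t + δ)) (√(s + δ)) (Real.sqrt_pos.2 h1) (Real.sqrt_pos.2 h2)
  rw [Real.sq_sqrt h1.le, Real.sq_sqrt h2.le] at h3
  rw [max_eq_left h1.le, max_eq_left h2.le]
  exact h3

/-- contraction in the sharp form (equal times) -/
theorem IsEVIFlow.contraction_sK (hK : K ≤ 0) (hN : 0 < N) (h : IsEVIFlow K N m μ)
    (h' : IsEVIFlow K N m ν) {t : ℝ} (ht : 0 ≤ t) :
    Real.exp (2 * K * t) * sK (K / N) (W2 (μ t) (ν t) / 2) ^ 2 ≤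
      sK (K / N) (W2 (μ 0) (ν 0) / 2) ^ 2 := by
  have h1 := h.two_time hK hN h' ht ht
  rw [sub_self] at h1
  calc _ = Real.exp (K * (t + t)) * sK (K / N) (W2 (μ t) (ν t) / 2) ^ 2 := by ring_nf
    _ ≤ _ := h1
    _ = _ := by ring

/-- `K = 0`: `W2(μ_t, ν_s)² ≤ W2(μ_0, ν_0)² + 2N(√t - √s)²` -/
theorem IsEVIFlow.two_time_zero {N : ℕ} {m : Measure X} {μ ν : ℝ → Measure X} (hN : 0 < N)
    (h : IsEVIFlow 0 N m μ) (h' : IsEVIFlow 0 N m ν) {t s : ℝ} (ht : 0 ≤ t) (hs : 0 ≤ s) :
    W2 (μ t) (ν s) ^ 2 ≤ W2 (μ 0) (ν 0) ^ 2 + 2 * N * (√t - √s) ^ 2 := by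
  have h1 := h.two_time le_rfl hN h' ht hs
  simp only [zero_mul, Real.exp_zero, one_mul, zero_div, sK, lt_irrefl, if_false] at h1
  nlinarith

/-- uniqueness of the flow -/
theorem IsEVIFlow.W2_eq_zero (hK : K ≤ 0) (hN : 0 < N) (h : IsEVIFlow K N m μ)
    (h' : IsEVIFlow K N m ν) (h0 : μ 0 = ν 0) {t : ℝ} (ht : 0 ≤ t) : W2 (μ t) (ν t) = 0 := by
  have hκ : K / N ≤ 0 := div_nonpos_of_nonpos_of_nonneg hK (Nat.cast_nonneg N)
  have h1 := h.contraction_sK hK hN h' ht
  rw [h0, W2_self, zero_div, sK_zero_right] at h1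
  have h2 : sK (K / N) (W2 (μ t) (ν t) / 2) ^ 2 ≤ 0 := by
    have := Real.exp_pos (2 * K * t)
    by_contra hc
    push Not at hc
    have := mul_pos this hc
    simp at h1
    linarith
  have h3 := W2_nonneg (μ t) (ν t)
  have h4 := le_sK hκ (show 0 ≤ W2 (μ t) (ν t) / 2 by linarith)
  have h5 : sK (K / N) (W2 (μ t) (ν t) / 2) = 0 := by
    have := sq_nonneg (sK (K / N) (W2 (μ t) (ν t) / 2))
    exact pow_eq_zero_iff (two_ne_zero) |>.1 (le_antisymm h2 this)
  linarith

end

end Pool.Agent.BDRY
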