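import Pool.Agent.Work.MP_209cb6_gt.Defs

/-!
# BDRY, module M2: charts of half-space tangents

A chart `f` of scale `s` and distortion `δ s` around `x` into the half space of
`EuclideanSpace ℝ (Fin (n+1))` gives a `1`-Lipschitz height function `h` which is almost affine
along segments, has a top point and horizontal grids at height almost zero.
-/

set_option autoImplicit false

open Set Metric Filter Topology

namespace Pool.Agent.BDRY

universe u

/-- `f` is a `δ s`-chart around `x` on the ball of radius `L s` into the half space. -/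
def Chart {X : Type u} [MetricSpace X] (n : ℕ) (δ L s : ℝ) (x : X)
    (f : X → EuclideanSpace ℝ (Fin (n + 1))) : Prop :=
  f x = 0 ∧ (∀ y ∈ closedBall x (L * s), 0 ≤ f y (Fin.last n)) ∧
  (∀ y ∈ closedBall x (L * s), ∀ z ∈ closedBall x (L * s),
    |dist (f y) (f z) - dist y z| ≤ δ * s) ∧
  (∀ v : EuclideanSpace ℝ (Fin (n + 1)), 0 ≤ v (Fin.last n) → ‖v‖ ≤ (L - 1) * s →
    ∃ y ∈ closedBall x (L * s), dist (f y) v ≤ δ * s)

/-- The constant of the grid count. -/
noncomputable def gridConst (n : ℕ) : ℝ := (1 / (8 * (n + 1))) ^ n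

theorem gridConst_pos (n : ℕ) : 0 < gridConst n := by
  unfold gridConst; positivity

theorem gridConst_le_one (n : ℕ) : gridConst n ≤ 1 := by
  unfold gridConst
  apply pow_le_one₀ (by positivity)
  rw [div_le_one (by positivity)]
  have : (0 : ℝ) ≤ n := Nat.cast_nonneg n
  linarith

/-! ### Stewart's identity and near collinearity -/

theorem stewart {E : Type*} [NormedAddCommGroup E] [InnerProductSpace ℝ E] (P Q R : E) (t : ℝ) :
    ‖Q - ((1 - t) • P + t • R)‖ ^ 2
      = (1 - t) * ‖Q - P‖ ^ 2 + t * ‖Q - R‖ ^ 2 - t * (1 - t) * ‖P - R‖ ^ 2 := by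
  have h1 : Q - ((1 - t) • P + t • R) = (1 - t) • (Q - P) + t • (Q - R) := by module
  have h2 : P - R = (Q - R) - (Q - P) := by abel
  rw [h1, h2]
  generalize Q - P = A
  generalize Q - R = B
  rw [norm_add_sq_real, norm_sub_sq_real, norm_smul, norm_smul, inner_smul_left,
    inner_smul_right, mul_pow, mul_pow, Real.norm_eq_abs, Real.norm_eq_abs, sq_abs, sq_abs,
    real_inner_comm A B]
  simp only [conj_trivial]
  ring

theorem near_collinear {E : Type*} [NormedAddCommGroup E] [InnerProductSpace ℝ E] (P Q R : E)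
    (t D e : ℝ) (ht : 0 ≤ t) (ht1 : t ≤ 1) (hD : 0 ≤ D) (he : 0 ≤ e)
    (h1 : ‖Q - P‖ ≤ t * D + e) (h2 : ‖Q - R‖ ≤ (1 - t) * D + e) (h3 : D - e ≤ ‖P - R‖) :
    ‖Q - ((1 - t) • P + t • R)‖ ^ 2 ≤ 3 / 2 * D * e + e ^ 2 := by
  rw [stewart]
  have ha : ‖Q - P‖ ^ 2 ≤ (t * D + e) ^ 2 := pow_le_pow_left₀ (norm_nonneg _) h1 2
  have hb : ‖Q - R‖ ^ 2 ≤ ((1 - t) * D + e) ^ 2 := pow_le_pow_left₀ (norm_nonneg _) h2 2
  have hc : D ^ 2 - 2 * D * e ≤ ‖P - R‖ ^ 2 := by
    rcases le_or_gt e D with h | h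
    · have := pow_le_pow_left₀ (by linarith : 0 ≤ D - e) h3 2
      nlinarith [sq_nonneg e]
    · have := sq_nonneg ‖P - R‖
      nlinarith
  have ht' : 0 ≤ 1 - t := by linarith
  have h4 : t * (1 - t) ≤ 1 / 4 := by nlinarith [sq_nonneg (t - 1 / 2)]
  have h5 : 0 ≤ t * (1 - t) := mul_nonneg ht ht'
  have h6 : (1 - t) * ‖Q - P‖ ^ 2 ≤ (1 - t) * (t * D + e) ^ 2 := mul_le_mul_of_nonneg_left ha ht'
  have h7 : t * ‖Q - R‖ ^ 2 ≤ t * ((1 - t) * D + e) ^ 2 := mul_le_mul_of_nonneg_left hb ht
  have h8 : t * (1 - t) * (D ^ 2 - 2 * D * e) ≤ t * (1 - t) * ‖P - R‖ ^ 2 :=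
    mul_le_mul_of_nonneg_left hc h5
  have h9 : 6 * (t * (1 - t)) * (D * e) ≤ 6 * (1 / 4) * (D * e) := by
    have : 0 ≤ D * e := mul_nonneg hD he
    nlinarith
  nlinarith [h6, h7, h8, h9]

/-! ### The 1-Lipschitz envelope -/

/-- The envelope of `g` over the ball. -/
noncomputable def envel {X : Type*} [MetricSpace X] (g : X → ℝ) (B : Set X) (z : X) : ℝ :=
  ⨅ w : B, (g w + dist z w)

section envelope
variable {X : Type*} [MetricSpace X] (g : X → ℝ) (B : Set X)

theorem envel_bdd (hg : ∀ y ∈ B, 0 ≤ g y) (z : X) :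
    BddBelow (range fun w : B => g w + dist z w) :=
  ⟨0, by rintro _ ⟨w, rfl⟩; exact add_nonneg (hg w w.2) dist_nonneg⟩

theorem envel_nonneg (hg : ∀ y ∈ B, 0 ≤ g y) (z : X) : 0 ≤ envel g B z :=
  Real.iInf_nonneg fun w => add_nonneg (hg w w.2) dist_nonneg

theorem envel_le (hg : ∀ y ∈ B, 0 ≤ g y) {z : X} (hz : z ∈ B) : envel g B z ≤ g z := by
  have := ciInf_le (envel_bdd g B hg z) ⟨z, hz⟩
  simpa [envel] using this

theorem envel_lip (hg : ∀ y ∈ B, 0 ≤ g y) (hB : B.Nonempty) : LipschitzWith 1 (envel g B) := by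
  have : Nonempty B := hB.to_subtype
  apply LipschitzWith.of_le_add
  intro y z
  have h1 : envel g B y - dist y z ≤ envel g B z := by
    apply le_ciInf
    intro w
    have h2 := ciInf_le (envel_bdd g B hg y) w
    have h3 : envel g B y ≤ g w + dist y w := h2
    have h4 := dist_triangle y z w
    linarith
  linarith

theorem le_envel {e : ℝ} (hB : B.Nonempty) {z : X}
    (h : ∀ w ∈ B, g z ≤ g w + dist z w + e) : g z - e ≤ envel g B z := by
  have : Nonempty B := hB.to_subtype
  apply le_ciInf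
  intro w
  have := h w w.2
  linarith

end envelope

/-! ### The Euclidean grid -/

theorem euclid_grid (n : ℕ) (s ρ : ℝ) (hs : 0 < s) (hρ : 0 < ρ) :
    ∃ F : Finset (EuclideanSpace ℝ (Fin (n + 1))), (∀ v ∈ F, v (Fin.last n) = 0) ∧
      (∀ v ∈ F, ‖v‖ ≤ s / 2) ∧ (∀ v ∈ F, ∀ w ∈ F, v ≠ w → ρ ≤ dist v w) ∧
      (1 / (4 * (n + 1))) ^ n * (s / ρ) ^ n ≤ (F.card : ℝ) := by
  classical
  -- the integer box `{0, …, k}^n`, spacing `ρ`
  set a : ℝ := s / (2 * (n + 1)) with ha
  have hn1 : (0 : ℝ) < n + 1 := by positivity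
  have ha0 : 0 < a := by positivity
  set k : ℕ := ⌊a / ρ⌋₊ with hk
  have hkle : (k : ℝ) * ρ ≤ a := by
    have : (k : ℝ) ≤ a / ρ := Nat.floor_le (by positivity)
    rwa [le_div_iff₀ hρ] at this
  have hkgt : a / ρ < k + 1 := Nat.lt_floor_add_one _
  let g : (Fin n → Fin (k + 1)) → EuclideanSpace ℝ (Fin (n + 1)) := fun u =>
    WithLp.toLp 2 (Fin.snoc (α := fun _ => ℝ) (fun i => ((u i : ℕ) : ℝ) * ρ) 0)
  have hlast : ∀ u, g u (Fin.last n) = 0 := by
    intro u; simp [g]
  have hcast : ∀ u (i : Fin n), g u i.castSucc = ((u i : ℕ) : ℝ) * ρ := by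
    intro u i; simp [g]
  have hsep : ∀ u u', u ≠ u' → ρ ≤ dist (g u) (g u') := by
    intro u u' huu
    obtain ⟨i, hi⟩ := Function.ne_iff.mp huu
    have h1 : |g u i.castSucc - g u' i.castSucc| ≤ dist (g u) (g u') := by
      have := EuclideanSpace.norm_eq (g u - g u')
      have h2 : ‖(g u - g u') i.castSucc‖ ≤ ‖g u - g u'‖ := PiLp.norm_apply_le _ _
      rw [dist_eq_norm]
      simpa [Real.norm_eq_abs] using h2
    refine le_trans ?_ h1
    rw [hcast, hcast, ← sub_mul, abs_mul, abs_of_pos hρ]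
    have h3 : (1 : ℝ) ≤ |((u i : ℕ) : ℝ) - ((u' i : ℕ) : ℝ)| := by
      have hne : ((u i : ℕ) : ℤ) - ((u' i : ℕ) : ℤ) ≠ 0 := by
        intro h
        apply hi
        apply Fin.ext
        omega
      have := Int.one_le_abs hne
      exact_mod_cast this
    nlinarith
  have hinj : Function.Injective g := by
    intro u u' h
    by_contra hne
    have := hsep u u' hne
    rw [h, dist_self] at this
    linarith
  refine ⟨Finset.univ.image g, ?_, ?_, ?_, ?_⟩
  · intro v hv
    obtain ⟨u, -, rfl⟩ := Finset.mem_image.mp hv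
    exact hlast u
  · intro v hv
    obtain ⟨u, -, rfl⟩ := Finset.mem_image.mp hv
    rw [EuclideanSpace.norm_eq]
    have h1 : ∀ i : Fin (n + 1), ‖g u i‖ ^ 2 ≤ a ^ 2 := by
      intro i
      refine Fin.lastCases ?_ (fun j => ?_) i
      · rw [hlast]; simp; positivity
      · rw [hcast, Real.norm_eq_abs, sq_abs]
        have h2 : ((u j : ℕ) : ℝ) ≤ k := by
          have := (u j).2
          exact_mod_cast Nat.lt_succ_iff.mp this
        have h3 : ((u j : ℕ) : ℝ) * ρ ≤ a := (mul_le_mul_of_nonneg_right h2 hρ.le).trans hkle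
        exact pow_le_pow_left₀ (by positivity) h3 2
    have h4 : ∑ i, ‖g u i‖ ^ 2 ≤ (n + 1) * a ^ 2 := by
      refine (Finset.sum_le_sum fun i _ => h1 i).trans ?_
      simp
    have h5 : (n + 1) * a ^ 2 ≤ (s / 2) ^ 2 := by
      have : s / 2 = (n + 1) * a := by rw [ha]; field_simp
      rw [this, mul_pow]
      have h6 : ((n : ℝ) + 1) ≤ (n + 1) ^ 2 := by nlinarith [(Nat.cast_nonneg n : (0:ℝ) ≤ n)]
      exact mul_le_mul_of_nonneg_right h6 (sq_nonneg _)
    calc √(∑ i, ‖g u i‖ ^ 2) ≤ √((s / 2) ^ 2) := Real.sqrt_le_sqrt (h4.trans h5)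
      _ = s / 2 := Real.sqrt_sq (by positivity)
  · intro v hv w hw hvw
    obtain ⟨u, -, rfl⟩ := Finset.mem_image.mp hv
    obtain ⟨u', -, rfl⟩ := Finset.mem_image.mp hw
    exact hsep u u' (fun h => hvw (by rw [h]))
  · rw [Finset.card_image_of_injective _ hinj]
    simp only [Finset.card_univ, Fintype.card_pi, Fintype.card_fin, Finset.prod_const]
    rw [← mul_pow]
    push_cast
    apply pow_le_pow_left₀ (by positivity)
    calc 1 / (4 * ((n : ℝ) + 1)) * (s / ρ) ≤ a / ρ := by
          rw [ha, div_mul_div_comm, div_div, div_le_div_iff₀ (by positivity) (by positivity)]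
          have : 0 < s * ρ * (n + 1) := by positivity
          nlinarith
      _ ≤ k + 1 := hkgt.le

/-! ### Charts give good height functions -/

theorem chart_good {X : Type u} [MetricSpace X] (n : ℕ) (δ s ε : ℝ) (x : X)
    (f : X → EuclideanSpace ℝ (Fin (n + 1))) (hs : 0 < s) (hδ : 0 ≤ δ) (hδ1 : δ ≤ 1 / 64)
    (hε0 : 0 < ε) (hε : 8 * √δ ≤ ε) (hf : Chart n δ 20 s x f) :
    Good n (gridConst n) x s ε (envel (fun y => f y (Fin.last n)) (closedBall x (20 * s))) := by
  obtain ⟨hf0, hfn, hfd, hfs⟩ := hf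
  set B := closedBall x (20 * s) with hB
  set g : X → ℝ := fun y => f y (Fin.last n) with hg
  set h : X → ℝ := envel g B with hh
  have hxB : x ∈ B := mem_closedBall_self (by positivity)
  have hBne : B.Nonempty := ⟨x, hxB⟩
  have hδs : 0 ≤ δ * s := by positivity
  have hsq : 0 ≤ √δ := Real.sqrt_nonneg δ
  have hsq2 : √δ ^ 2 = δ := Real.sq_sqrt hδ
  have hsq1 : √δ ≤ 1 / 8 := by
    rw [show (1 / 8 : ℝ) = √((1 / 8) ^ 2) from (Real.sqrt_sq (by norm_num)).symm]
    apply Real.sqrt_le_sqrt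
    linarith
  have hδsq : δ ≤ √δ := by
    have h1 : √δ * √δ ≤ √δ * (1 / 8) := mul_le_mul_of_nonneg_left hsq1 hsq
    have : √δ * √δ = δ := Real.mul_self_sqrt hδ
    linarith
  have hcoord : ∀ v w : EuclideanSpace ℝ (Fin (n + 1)), |v (Fin.last n) - w (Fin.last n)| ≤ dist v w := by
    intro v w
    have h2 : ‖(v - w) (Fin.last n)‖ ≤ ‖v - w‖ := PiLp.norm_apply_le _ _
    rw [dist_eq_norm]
    simpa [Real.norm_eq_abs] using h2
  have hle : ∀ z ∈ B, h z ≤ g z := fun z hz => envel_le g B hfn hz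
  have hge : ∀ z ∈ B, g z - δ * s ≤ h z := by
    intro z hz
    apply le_envel g B hBne
    intro w hw
    have h1 := (abs_le.mp (hcoord (f z) (f w))).2
    have h2 := (abs_le.mp (hfd z hz w hw)).2
    simp only [hg]
    linarith
  have hεs : 8 * √δ * s ≤ ε * s := mul_le_mul_of_nonneg_right hε hs.le
  have k5 : δ * s ≤ √δ * s := mul_le_mul_of_nonneg_right hδsq hs.le
  have k6 : 0 ≤ √δ * s := by positivity
  refine ⟨envel_lip g B hfn hBne, envel_nonneg g B hfn, ?_, ?_, ?_⟩
  · rintro t ht ht1 y hy w hw z hz ⟨hyz, hzw⟩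
    have hsub : closedBall x (12 * s) ⊆ B := closedBall_subset_closedBall (by linarith)
    have hyB := hsub hy
    have hzB := hsub hz
    have hwB := hsub hw
    have hD : dist y w ≤ 24 * s := by
      have := dist_triangle_right y w x
      rw [mem_closedBall] at hy hw
      linarith
    have h1 : ‖f z - f y‖ ≤ t * dist y w + δ * s := by
      have := (abs_le.mp (hfd y hyB z hzB)).2
      rw [← dist_eq_norm, dist_comm (f z) (f y)]
      linarith
    have h2 : ‖f z - f w‖ ≤ (1 - t) * dist y w + δ * s := by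
      have := (abs_le.mp (hfd z hzB w hwB)).2
      rw [← dist_eq_norm]
      linarith
    have h3 : dist y w - δ * s ≤ ‖f y - f w‖ := by
      have := (abs_le.mp (hfd y hyB w hwB)).1
      rw [← dist_eq_norm]
      linarith
    have h4 := near_collinear (f y) (f z) (f w) t (dist y w) (δ * s) ht ht1 dist_nonneg hδs h1 h2 h3
    have h5 : ‖f z - ((1 - t) • f y + t • f w)‖ ≤ 7 * √δ * s := by
      have h50 : 0 ≤ 7 * √δ * s := by positivity
      refine le_of_sq_le_sq (h4.trans ?_) h50
      have e1 : (7 * √δ * s) ^ 2 = 49 * δ * s ^ 2 := by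
        rw [mul_pow, mul_pow, hsq2]; norm_num
      rw [e1]
      have e2 : dist y w * (δ * s) ≤ 24 * s * (δ * s) := mul_le_mul_of_nonneg_right hD hδs
      have e3 : (δ * s) ^ 2 ≤ δ * s ^ 2 := by
        have : 0 ≤ δ * s ^ 2 * (1 - δ) := by
          apply mul_nonneg (by positivity) (by linarith)
        nlinarith
      have e4 : 0 ≤ δ * s ^ 2 := by positivity
      nlinarith
    have h6 : |g z - ((1 - t) * g y + t * g w)| ≤ 7 * √δ * s := by
      have := hcoord (f z) ((1 - t) • f y + t • f w)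
      rw [dist_eq_norm] at this
      simp only [PiLp.add_apply, PiLp.smul_apply, smul_eq_mul] at this
      exact this.trans h5
    have h7 := abs_le.mp h6
    have hy1 := hle y hyB
    have hy2 := hge y hyB
    have hz1 := hle z hzB
    have hz2 := hge z hzB
    have hw1 := hle w hwB
    have hw2 := hge w hwB
    have ht' : 0 ≤ 1 - t := by linarith
    have k1 : (1 - t) * h y ≤ (1 - t) * g y := mul_le_mul_of_nonneg_left hy1 ht'
    have k2 : (1 - t) * (g y - δ * s) ≤ (1 - t) * h y := mul_le_mul_of_nonneg_left hy2 ht'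
    have k3 : t * h w ≤ t * g w := mul_le_mul_of_nonneg_left hw1 ht
    have k4 : t * (g w - δ * s) ≤ t * h w := mul_le_mul_of_nonneg_left hw2 ht
    have h70 := h7.1
    have h71 := h7.2
    rw [abs_le]
    constructor <;> linarith
  · -- the top point
    have hv1 : ‖(EuclideanSpace.single (Fin.last n) (8 * s) : EuclideanSpace ℝ (Fin (n + 1)))‖
        = 8 * s := by
      rw [PiLp.norm_single, Real.norm_eq_abs, abs_of_pos (by positivity)]
    obtain ⟨q, hq, hqd⟩ := hfs (EuclideanSpace.single (Fin.last n) (8 * s))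
      (by simp; positivity) (by rw [hv1]; linarith)
    refine ⟨q, ?_, ?_⟩
    · have h1 := (abs_le.mp (hfd q hq x hxB)).1
      have h2 : dist (f q) (f x) ≤ δ * s + 8 * s := by
        rw [hf0]
        have := dist_triangle (f q) (EuclideanSpace.single (Fin.last n) (8 * s)) 0
        rw [dist_zero_right (EuclideanSpace.single (Fin.last n) (8 * s)), hv1] at this
        linarith
      have h3 : √δ * s ≤ 1 / 8 * s := mul_le_mul_of_nonneg_right hsq1 hs.le
      rw [mem_closedBall]
      linarith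
    · have h1 := abs_le.mp (hcoord (f q) (EuclideanSpace.single (Fin.last n) (8 * s)))
      have h2 : (EuclideanSpace.single (Fin.last n) (8 * s) : EuclideanSpace ℝ (Fin (n + 1)))
          (Fin.last n) = 8 * s := by simp
      rw [h2] at h1
      have h3 := hge q hq
      have h4 := hle q hq
      simp only [hg] at h3 h4
      rw [abs_le]
      have h10 := h1.1
      have h11 := h1.2
      constructor <;> linarith
  · -- the horizontal grid
    intro κ hεκ hκ1
    classical
    have hκ0 : 0 < κ := hε0.trans_le hεκ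
    obtain ⟨F, hF0, hFn, hFd, hFc⟩ := euclid_grid n (s / 2) (κ * s) (by positivity)
      (by positivity)
    have hκs : ε * s ≤ κ * s := mul_le_mul_of_nonneg_right hεκ hs.le
    have hδs8 : δ * s ≤ √δ * s / 8 := by
      have h1 : √δ * √δ ≤ √δ * (1 / 8) := mul_le_mul_of_nonneg_left hsq1 hsq
      have h2 : δ ≤ √δ / 8 := by
        have : √δ * √δ = δ := Real.mul_self_sqrt hδ
        linarith
      have := mul_le_mul_of_nonneg_right h2 hs.le
      linarith
    have hex : ∀ v : EuclideanSpace ℝ (Fin (n + 1)), ∃ y : X, v ∈ F →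
        y ∈ B ∧ dist (f y) v ≤ δ * s := by
      intro v
      by_cases hv : v ∈ F
      · obtain ⟨y, hy, hyd⟩ := hfs v (by rw [hF0 v hv]) (by have := hFn v hv; linarith)
        exact ⟨y, fun _ => ⟨hy, hyd⟩⟩
      · exact ⟨x, fun h => absurd h hv⟩
    choose c hc using hex
    have hsep : ∀ v ∈ F, ∀ w ∈ F, v ≠ w → κ * s / 2 ≤ dist (c v) (c w) := by
      intro v hv w hw hvw
      have h1 := hFd v hv w hw hvw
      obtain ⟨hcv, hcv'⟩ := hc v hv
      obtain ⟨hcw, hcw'⟩ := hc w hw
      have h2 := (abs_le.mp (hfd _ hcv _ hcw)).2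
      have h4 : dist v w ≤ dist v (f (c v)) + dist (f (c v)) (f (c w)) + dist (f (c w)) w :=
        dist_triangle4 _ _ _ _
      rw [dist_comm v (f (c v))] at h4
      linarith
    have hpos : 0 < κ * s := by positivity
    refine ⟨F.image c, ?_, ?_, ?_⟩
    · intro y hy
      obtain ⟨v, hv, rfl⟩ := Finset.mem_image.mp hy
      obtain ⟨hcv, hcv'⟩ := hc v hv
      constructor
      · have h1 := (abs_le.mp (hfd _ hcv x hxB)).1
        have h2 : dist (f (c v)) (f x) ≤ δ * s + s / 2 / 2 := by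
          rw [hf0]
          have := dist_triangle (f (c v)) v 0
          rw [dist_zero_right v] at this
          have := hFn v hv
          linarith
        rw [mem_closedBall]
        have h3 : √δ * s ≤ 1 / 8 * s := mul_le_mul_of_nonneg_right hsq1 hs.le
        linarith
      · have h1 := (abs_le.mp (hcoord (f (c v)) v)).2
        rw [hF0 v hv] at h1
        have h2 := hle _ hcv
        simp only [hg] at h2
        linarith
    · intro y hy z hz hyz
      obtain ⟨v, hv, rfl⟩ := Finset.mem_image.mp hy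
      obtain ⟨w, hw, rfl⟩ := Finset.mem_image.mp hz
      exact hsep v hv w hw (fun h => hyz (by rw [h]))
    · have hinj : Set.InjOn c F := by
        intro v hv w hw hvw
        by_contra hne
        have := hsep v hv w hw hne
        rw [hvw, dist_self] at this
        linarith
      rw [Finset.card_image_of_injOn hinj]
      refine le_trans (le_of_eq ?_) hFc
      unfold gridConst
      rw [← mul_pow, ← mul_pow]
      congr 1
      field_simp
      ring

/-! ### Half-space tangents give charts -/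

theorem exists_chart {X : Type u} [MetricSpace X] (n : ℕ) (x : X) (hx : HalfTangent n x)
    (δ : ℝ) (hδ : 0 < δ) (hδ1 : δ ≤ 1 / 64) (s₀ : ℝ) (hs₀ : 0 < s₀) :
    ∃ (s : ℝ) (f : X → EuclideanSpace ℝ (Fin (n + 1))), 0 < s ∧ s < s₀ ∧ Chart n δ 20 s x f := by
  obtain ⟨s, R, e, f, hs, hs0, hR, he, hf1, hf2, hf3, hf4⟩ := hx
  have h1 : ∀ᶠ k in atTop, s k < s₀ := hs0.eventually (gt_mem_nhds hs₀)
  have h2 : ∀ᶠ k in atTop, 21 ≤ R k := hR.eventually_ge_atTop 21
  have h3 : ∀ᶠ k in atTop, e k < δ := he.eventually (gt_mem_nhds hδ)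
  obtain ⟨k, hk1, hk2, hk3⟩ := (h1.and (h2.and h3)).exists
  have hsk := hs k
  have hsub : closedBall x (20 * s k) ⊆ ball x (R k * s k) := by
    apply closedBall_subset_ball
    exact mul_lt_mul_of_pos_right (by linarith) hsk
  have hdist : ∀ a b : X, dist (s k • f k a) (s k • f k b) = s k * dist (f k a) (f k b) := by
    intro a b
    rw [dist_smul₀, Real.norm_eq_abs, abs_of_pos hsk]
  refine ⟨s k, fun a => s k • f k a, hsk, hk1, ?_, ?_, ?_, ?_⟩
  · simp [hf2]
  · intro y _
    simpa using mul_nonneg hsk.le (hf1 k y)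
  · intro y hy z hz
    have h5 := hf3 k y (hsub hy) z (hsub hz)
    have h6 : dist (s k • f k y) (s k • f k z) - dist y z
        = -(s k * (dist y z / s k - dist (f k y) (f k z))) := by
      rw [hdist]; field_simp; ring
    rw [h6, abs_neg, abs_mul, abs_of_pos hsk, mul_comm]
    exact mul_le_mul_of_nonneg_right (h5.trans hk3.le) hsk.le
  · intro v hv0 hv
    have hv' : ‖(s k)⁻¹ • v‖ ≤ 19 := by
      rw [norm_smul, norm_inv, Real.norm_eq_abs, abs_of_pos hsk, inv_mul_le_iff₀ hsk]
      linarith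
    obtain ⟨a, ha, had⟩ := hf4 k ((s k)⁻¹ • v)
      (by simpa using mul_nonneg (inv_nonneg.mpr hsk.le) hv0) (by linarith)
    refine ⟨a, ?_, ?_⟩
    · have h5 := hf3 k a ha x (mem_ball_self (by positivity))
      have h6 : dist a x / s k ≤ dist (f k a) (f k x) + e k := by
        have := (abs_le.mp h5).2
        linarith
      have h7 : dist (f k a) (f k x) ≤ e k + 19 := by
        rw [hf2]
        have := dist_triangle (f k a) ((s k)⁻¹ • v) 0
        rw [dist_zero_right ((s k)⁻¹ • v)] at this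
        linarith
      have h8 : dist a x / s k ≤ 20 := by linarith
      rw [mem_closedBall]
      rwa [div_le_iff₀ hsk] at h8
    · have h5 : v = s k • ((s k)⁻¹ • v) := by
        rw [smul_smul, mul_inv_cancel₀ hsk.ne', one_smul]
      rw [h5, dist_smul₀, Real.norm_eq_abs, abs_of_pos hsk, mul_comm]
      exact mul_le_mul_of_nonneg_right (had.trans hk3.le) hsk.le

theorem good_of_halfTangent (n : ℕ) : ∃ g : ℝ, 0 < g ∧ g ≤ 1 ∧
    ∀ (X : Type u) [MetricSpace X] (x : X), HalfTangent n x →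
      ∀ ε : ℝ, 0 < ε → ∀ δ : ℝ, 0 < δ → ∃ (s : ℝ) (h : X → ℝ), 0 < s ∧ s < δ ∧ Good n g x s ε h := by
  refine ⟨gridConst n, gridConst_pos n, gridConst_le_one n, ?_⟩
  intro X _ x hx ε hε δ hδ
  obtain ⟨s, f, hs, hsδ, hf⟩ := exists_chart n x hx (min (1 / 64) ((ε / 8) ^ 2)) (by positivity)
    (min_le_left _ _) δ hδ
  refine ⟨s, _, hs, hsδ, chart_good n _ s ε x f hs (by positivity) (min_le_left _ _) hε ?_ hf⟩
  have h1 : √(min (1 / 64) ((ε / 8) ^ 2)) ≤ √((ε / 8) ^ 2) := Real.sqrt_le_sqrt (min_le_right _ _)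
  rw [Real.sqrt_sq (by positivity)] at h1
  linarith

end Pool.Agent.BDRY
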