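import Pool.Agent.Work.MP_209cb6_gt.Cover

/-!
# M8: the density bound `H^(n+1)(B(x,s)) ≤ Θ s^(n+1)`

Upper Ahlfors bound of a measure with the contraction property which is the Hausdorff measure:
the contraction property gives the packing bound, and `cover_bound` the Hausdorff measure.
-/

set_option autoImplicit false

open MeasureTheory MeasureTheory.Measure Metric Set Filter Topology
open scoped ENNReal NNReal

namespace Pool.Agent.BDRY

universe u

/-- Bishop-Gromov for concentric balls, from the contraction towards the centre. -/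
theorem dens_ball_far {n : ℕ} {A c : ℝ} {X : Type u} [MetricSpace X] [MeasurableSpace X]
    {m : Measure X} (hX : Contr n A c X m) (hc : 0 ≤ c) (x : X) {r R : ℝ} (hr : 0 < r)
    (hrR : r ≤ R) (hR : R ≤ 6) :
    c * (r / R) ^ (n + 1) * m.real (closedBall x R) ≤ m.real (closedBall x r) := by
  have hR0 : 0 < R := hr.trans_le hrR
  have hq1 : r / R ≤ 1 := (div_le_one hR0).2 hrR
  have hq0 : 0 < r / R := div_pos hr hR0
  have hsub : closedBall x R ⊆ Zt x 6 (1 - r / R) (closedBall x r) := by
    intro a ha
    rw [mem_closedBall] at ha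
    refine ⟨ha.trans hR, ?_⟩
    obtain ⟨z, hz⟩ := hX.geod a x (1 - r / R) (by linarith) (by linarith)
    refine ⟨z, ?_, hz⟩
    rw [mem_closedBall, hz.2]
    calc (1 - (1 - r / R)) * dist a x = r / R * dist a x := by ring
      _ ≤ r / R * R := by gcongr
      _ = r := div_mul_cancel₀ r hR0.ne'
  have h := hX.far x (1 - r / R) (closedBall x r) (by linarith) (by linarith)
  have h2 := (mul_le_mul_right (measure_mono (μ := m) hsub)
    (ENNReal.ofReal (c * (1 - (1 - r / R)) ^ (n + 1)))).trans h
  have h3 := ENNReal.toReal_mono (hX.finite_ball x r).ne h2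
  rw [ENNReal.toReal_mul, ENNReal.toReal_ofReal (by
    have : (0 : ℝ) ≤ 1 - (1 - r / R) := by linarith
    positivity)] at h3
  simpa [Measure.real] using h3

theorem dens (n : ℕ) {A c : ℝ} (hA : 0 ≤ A) (hc : 0 < c) (hc1 : c ≤ 1) :
    ∃ Θ : ℝ, 0 < Θ ∧ ∀ (X : Type u) [MetricSpace X] [MeasurableSpace X] [BorelSpace X],
      Contr n A c X (μHE[n + 1] : Measure X) → ∀ (x : X) (s : ℝ), 0 < s → s ≤ 1 →
      (μHE[n + 1] : Measure X).real (closedBall x s) ≤ Θ * s ^ (n + 1) := by
  obtain ⟨D, hD, H⟩ := cover_bound.{u} (n + 1)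
  refine ⟨D * (2 ^ (n + 1) / c ^ 2), by positivity, ?_⟩
  intro X _ _ _ hX x s hs hs1
  have := hX.proper
  set m : Measure X := μHE[n + 1] with hm
  set V := m.real (closedBall x s) with hV
  have hfin : ∀ (y : X) (r : ℝ), m (closedBall y r) ≠ ∞ := fun y r => (hX.finite_ball y r).ne
  have hVpos : 0 < V := by
    rw [hV, Measure.real, ENNReal.toReal_pos_iff]
    exact ⟨(hX.pos_ball x s hs).trans_le (measure_mono ball_subset_closedBall),
      hX.finite_ball x s⟩
  have h1 : m (closedBall x s) ≤ ENNReal.ofReal (D * (2 ^ (n + 1) / c ^ 2 * s ^ (n + 1))) := by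
    refine H X (closedBall x s) (fun _ r => r ≤ s / 2) _ (by positivity) ?_ ?_
    · intro y _ δ hδ
      exact ⟨min (δ / 2) (s / 2), by positivity, (min_le_left _ _).trans_lt (by linarith),
        min_le_right _ _⟩
    · intro F r hF hd
      -- the ball about a point of the family
      have hy : ∀ y ∈ F, c * (r y / s) ^ (n + 1) * V ≤ m.real (closedBall y (2 * r y)) := by
        intro y hyF
        obtain ⟨hyG, hr0, hrs⟩ := hF y hyF
        have h2 := dens_ball_far hX hc.le y (r := 2 * r y) (R := 2 * s) (by linarith)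
          (by linarith) (by linarith)
        refine le_trans ?_ h2
        have h3 : V ≤ m.real (closedBall y (2 * s)) := by
          refine measureReal_mono (fun z hz => ?_) (hfin _ _)
          rw [mem_closedBall] at hz hyG ⊢
          have := dist_triangle_right z y x
          linarith
        have h4 : 2 * r y / (2 * s) = r y / s := by field_simp
        rw [h4]
        have : 0 ≤ c * (r y / s) ^ (n + 1) := by positivity
        exact mul_le_mul_of_nonneg_left h3 this
      have hun : ∑ y ∈ F, m.real (closedBall y (2 * r y)) ≤ m.real (closedBall x (2 * s)) := by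
        rw [← measureReal_biUnion_finset hd (fun y _ => isClosed_closedBall.measurableSet)
          (fun y _ => hfin _ _)]
        refine measureReal_mono (iUnion₂_subset fun y hyF z hz => ?_) (hfin _ _)
        obtain ⟨hyG, hr0, hrs⟩ := hF y hyF
        rw [mem_closedBall] at hz hyG ⊢
        have := dist_triangle z y x
        linarith
      have hx2 : c * (1 / 2) ^ (n + 1) * m.real (closedBall x (2 * s)) ≤ V := by
        have h2 := dens_ball_far hX hc.le x (r := s) (R := 2 * s) hs (by linarith) (by linarith)
        have h4 : s / (2 * s) = 1 / 2 := by field_simp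
        rwa [h4] at h2
      have hsum : c * (∑ y ∈ F, r y ^ (n + 1)) / s ^ (n + 1) * V ≤ m.real (closedBall x (2 * s)) := by
        refine le_trans (le_of_eq ?_) ((Finset.sum_le_sum hy).trans hun)
        rw [Finset.mul_sum, Finset.sum_div, Finset.sum_mul]
        refine Finset.sum_congr rfl fun y _ => ?_
        rw [div_pow]
        ring
      have h5 : c * (1 / 2) ^ (n + 1) * (c * (∑ y ∈ F, r y ^ (n + 1)) / s ^ (n + 1) * V) ≤ V :=
        (mul_le_mul_of_nonneg_left hsum (by positivity)).trans hx2
      have h6 : c * (1 / 2) ^ (n + 1) * (c * (∑ y ∈ F, r y ^ (n + 1)) / s ^ (n + 1)) ≤ 1 := by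
        refine le_of_mul_le_mul_right ?_ hVpos
        rw [one_mul]
        refine le_trans (le_of_eq ?_) h5
        ring
      have h7 : c * (1 / 2) ^ (n + 1) * (c * (∑ y ∈ F, r y ^ (n + 1)) / s ^ (n + 1)) =
          (∑ y ∈ F, r y ^ (n + 1)) / (2 ^ (n + 1) / c ^ 2 * s ^ (n + 1)) := by
        rw [one_div, inv_pow]
        field_simp
      rw [h7, div_le_one (by positivity)] at h6
      exact h6
  have h8 := ENNReal.toReal_mono ENNReal.ofReal_ne_top h1
  rw [ENNReal.toReal_ofReal (by positivity)] at h8
  rw [hV, Measure.real]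
  refine h8.trans_eq ?_
  ring

end Pool.Agent.BDRY
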