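import Pool.Agent.Work.MP_209cb6_gt.Slab

/-!
# One point (module M4)

`Mv E θ`: the pairs `(p, y)` such that `y` moved towards `p` by some fraction `τ ∈ [θ/2, θ]` can
reach a point of `E`. If `E` is the collar of depth `v s` in the ball of radius `s` about `x` then
the pairs in `Mv E θ` are rare.
-/

set_option autoImplicit false

open MeasureTheory MeasureTheory.Measure Metric Set Filter Topology
open scoped ENNReal NNReal

namespace Pool.Agent.BDRY

universe u

section metric

variable {X : Type u} [MetricSpace X]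

/-- the pairs `(p, y)` such that `y`, moved towards `p` by a fraction in `[θ/2, θ]`, can reach
a point of `E` -/
def Mv (E : Set X) (θ : ℝ) : Set (X × X) :=
  {q | ∃ τ ∈ Icc (θ / 2) θ, ∃ z ∈ E, z ∈ Mid τ q.2 q.1}

theorem isClosed_Mv {E : Set X} (hE : IsCompact E) (θ : ℝ) : IsClosed (Mv E θ) := by
  have : CompactSpace E := isCompact_iff_compactSpace.1 hE
  have : CompactSpace (Icc (θ / 2) θ) := isCompact_iff_compactSpace.1 isCompact_Icc
  have h := isClosedMap_fst_of_compactSpace (X := X × X) (Y := (Icc (θ / 2) θ) × E)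
  have h2 : IsClosed {q : (X × X) × ((Icc (θ / 2) θ) × E) |
      dist q.1.2 (q.2.2 : X) = (q.2.1 : ℝ) * dist q.1.2 q.1.1 ∧
      dist (q.2.2 : X) q.1.1 = (1 - (q.2.1 : ℝ)) * dist q.1.2 q.1.1} := by
    apply IsClosed.inter
    · exact isClosed_eq (by fun_prop) (by fun_prop)
    · exact isClosed_eq (by fun_prop) (by fun_prop)
  have h3 := h _ h2
  convert h3 using 1
  ext q
  constructor
  · rintro ⟨τ, hτ, z, hz, h4, h5⟩
    exact ⟨(q, (⟨τ, hτ⟩, ⟨z, hz⟩)), ⟨h4, h5⟩, rfl⟩
  · rintro ⟨⟨q', ⟨τ, hτ⟩, ⟨z, hz⟩⟩, ⟨h4, h5⟩, rfl⟩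
    exact ⟨τ, hτ, z, hz, h4, h5⟩

/-- almost affine along shortest paths inside the ball of radius `R` about `x`, error `ε` -/
def Aff (x : X) (R ε : ℝ) (h : X → ℝ) : Prop :=
  ∀ y ∈ closedBall x R, ∀ z ∈ closedBall x R, ∀ w ∈ closedBall x R, ∀ t : ℝ, 0 ≤ t → t ≤ 1 →
    dist y z = t * dist y w → dist z w = (1 - t) * dist y w →
    |h z - ((1 - t) * h y + t * h w)| ≤ ε

/-- the geometric step -/
theorem geo (hg : Geod X) {x p y z : X} {s r ε v τ : ℝ} {h : X → ℝ}
    (hs : 0 < s) (hsr : s ≤ r) (hv : 0 ≤ v) (hε : 10 * ε ≤ v) (hn : ∀ y, 0 ≤ h y)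
    (ha : Aff x (3 * s) (ε * s) h) (hpx : dist p x ≤ 3 * r)
    (hτ : τ ∈ Icc (s / (64 * r)) (s / (32 * r)))
    (hz : z ∈ closedBall x s) (hhz : h z ≤ v * s)
    (h1 : dist p z = (1 - τ) * dist p y) (h2 : dist z y = τ * dist p y) :
    dist p y ≤ 5 * r ∧ dist z y ≤ s / 4 ∧ h y ≤ 2 * v * s ∧
      ∃ w ∈ closedBall x (3 * s), h w ≤ 20 * v * s ∧ dist y w = s / (4 * r) * dist y p ∧
        dist w p = (1 - s / (4 * r)) * dist y p := by
  have hr : 0 < r := hs.trans_le hsr
  set l := s / (4 * r) with hl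
  have hl0 : 0 < l := by positivity
  have hl1 : l ≤ 1 / 4 := by
    rw [hl, div_le_iff₀ (by positivity)]; linarith
  have e1 : s / (64 * r) = l / 16 := by rw [hl]; ring
  have e2 : s / (32 * r) = l / 8 := by rw [hl]; ring
  rw [e1, e2] at hτ
  obtain ⟨hτ1, hτ2⟩ := hτ
  have hτ0 : 0 < τ := by linarith
  have hzx : dist z x ≤ s := mem_closedBall.1 hz
  have hlr : l * (4 * r) = s := by rw [hl]; field_simp
  -- the distance from p to y
  have h3 : dist p z ≤ 4 * r := by
    have := dist_triangle_right p z x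
    linarith
  have h4 : dist p y ≤ 4 * r / (1 - τ) := by
    rw [le_div_iff₀ (by linarith)]; nlinarith [dist_nonneg (x := p) (y := y)]
  have hpy : dist p y ≤ 5 * r := by
    refine h4.trans ?_
    rw [div_le_iff₀ (by linarith)]
    nlinarith
  have hD := dist_nonneg (x := p) (y := y)
  have hzy : dist z y ≤ s / 4 := by
    rw [h2]
    calc τ * dist p y ≤ (l / 8) * (5 * r) := by
          apply mul_le_mul hτ2 hpy hD (by positivity)
      _ ≤ s / 4 := by nlinarith
  have hyx : dist y x ≤ 5 / 4 * s := by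
    have := dist_triangle_left y x z
    linarith
  -- the point w
  have hDy : dist y p = dist p y := dist_comm _ _
  have hw : ∃ w, dist z w = (l - τ) * dist p y ∧ dist w p = (1 - l) * dist p y := by
    obtain ⟨w, hw1, hw2⟩ := hg z p ((l - τ) / (1 - τ)) (div_nonneg (by linarith) (by linarith))
      (by rw [div_le_one (by linarith)]; linarith)
    have hzp : dist z p = (1 - τ) * dist p y := by rw [dist_comm, h1]
    refine ⟨w, ?_, ?_⟩
    · rw [hw1, hzp]; field_simp [(by linarith : (1 - τ) ≠ 0)]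
    · rw [hw2, hzp]
      have : (1 - τ) ≠ 0 := by linarith
      field_simp
      ring
  obtain ⟨w, hw1, hw2⟩ := hw
  have hyz : dist y z = τ * dist p y := by rw [dist_comm, h2]
  have hyw : dist y w = l * dist p y := by
    apply le_antisymm
    · calc dist y w ≤ dist y z + dist z w := dist_triangle _ _ _
        _ = l * dist p y := by rw [hyz, hw1]; ring
    · have := dist_triangle y w p
      rw [hw2, hDy] at this
      linarith
  have hywb : dist y w ≤ 5 / 4 * s := by
    rw [hyw]
    calc l * dist p y ≤ l * (5 * r) := mul_le_mul_of_nonneg_left hpy hl0.le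
      _ ≤ 5 / 4 * s := by nlinarith
  have hwx : w ∈ closedBall x (3 * s) := by
    rw [mem_closedBall]
    have := dist_triangle_left w x y
    linarith
  have hy3 : y ∈ closedBall x (3 * s) := by rw [mem_closedBall]; linarith
  have hz3 : z ∈ closedBall x (3 * s) := by rw [mem_closedBall]; linarith
  have hμ : dist y z = (τ / l) * dist y w := by
    rw [hyz, hyw]; field_simp
  have hμ2 : dist z w = (1 - τ / l) * dist y w := by
    rw [hw1, hyw]; field_simp
  have hm1 : τ / l ≤ 1 / 8 := by rw [div_le_iff₀ hl0]; linarith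
  have hm2 : 1 / 16 ≤ τ / l := by rw [le_div_iff₀ hl0]; linarith
  have h5 := ha y hy3 z hz3 w hwx (τ / l) (by linarith) (by linarith) hμ hμ2
  set μ := τ / l
  have h6 := (abs_le.1 h5).1
  have hy0 := hn y
  have hw0 := hn w
  have h7 : (1 - μ) * h y + μ * h w ≤ v * s + ε * s := by linarith
  have hεs : 10 * (ε * s) ≤ v * s := by nlinarith
  refine ⟨hpy, hzy, ?_, w, hwx, ?_, by rw [hyw, hDy], by rw [hw2, hDy]⟩
  · nlinarith
  · nlinarith


/-- Points which reach the ball of radius `s` about `x` after moving by a small fraction. -/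
theorem zt_sub {p x x0 : X} {s r R τ : ℝ} {E : Set X} (hs : 0 < s) (hsr : s ≤ r)
    (hx : dist x x0 ≤ r) (hp : dist p x0 ≤ 2 * r) (hE : E ⊆ closedBall x s)
    (_ : 0 ≤ τ) (hτ : τ ≤ s / (32 * r)) : Zt p R τ E ⊆ closedBall x (2 * s) := by
  rintro y ⟨-, z, hz, h2', h1'⟩
  have h1 : dist p z = (1 - τ) * dist p y := by
    rw [dist_comm p z, dist_comm p y]; exact h1'
  have h2 : dist z y = τ * dist p y := by
    rw [dist_comm z y, dist_comm p y]; exact h2'
  have hr : 0 < r := hs.trans_le hsr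
  have hzx : dist z x ≤ s := mem_closedBall.1 (hE hz)
  have h3 : s / (32 * r) * (32 * r) = s := by field_simp
  have h4 : s / (32 * r) ≤ 1 / 32 := by rw [div_le_iff₀ (by positivity)]; linarith
  have h5 : dist p z ≤ 4 * r := by
    have := dist_triangle p x0 x
    have := dist_triangle p x z
    rw [dist_comm x z] at this
    have := dist_comm x x0
    linarith
  have hD := dist_nonneg (x := p) (y := y)
  have h6 : dist p y ≤ 5 * r := by
    have h7 : (1 - τ) * dist p y ≤ 4 * r := by rw [← h1]; exact h5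
    nlinarith
  rw [mem_closedBall]
  have h8 := dist_triangle_left y x z
  have h9 : dist z y ≤ s / 4 := by
    rw [h2]
    calc τ * dist p y ≤ s / (32 * r) * (5 * r) := mul_le_mul hτ h6 hD (by positivity)
      _ ≤ s / 4 := by nlinarith
  linarith

/-- `Zt` for fractions in the range of `Mv`. -/
theorem zt_sub_Mv {p : X} {R θ τ : ℝ} {E : Set X} (hτ : τ ∈ Icc (θ / 2) θ) :
    Zt p R τ E ⊆ {y | (p, y) ∈ Mv E θ} := by
  rintro y ⟨-, z, hz, h1⟩
  exact ⟨τ, hτ, z, hz, h1⟩

end metric

section measure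

variable {X : Type u} [MetricSpace X] [MeasurableSpace X] {m : Measure X}

theorem sigmaFinite_of_ball_pt [ProperSpace X] (hfin : ∀ (x : X) (r : ℝ), m (closedBall x r) < ∞) :
    SigmaFinite m := by
  have : IsFiniteMeasureOnCompacts m := by
    refine ⟨fun K hK => ?_⟩
    rcases K.eq_empty_or_nonempty with h | ⟨x, _⟩
    · simp [h]
    · obtain ⟨R, hR⟩ := hK.isBounded.subset_closedBall x
      exact (measure_mono hR).trans_lt (hfin x R)
  infer_instance

variable [BorelSpace X]

theorem measurable_Mv [ProperSpace X] (hfin : ∀ (x : X) (r : ℝ), m (closedBall x r) < ∞)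
    {E : Set X} (hE : IsCompact E) (θ : ℝ) :
    Measurable fun p => m {y | (p, y) ∈ Mv E θ} := by
  have hsf : SigmaFinite m := sigmaFinite_of_ball_pt hfin
  exact measurable_measure_prodMk_left (isClosed_Mv hE θ).measurableSet

/-- The estimate at one point: the average over `p` of the mass moved into the collar is at most
half of the mass of the collar. -/
theorem point_est {n : ℕ} {A c : ℝ} (hc : 0 < c) (hcon : Contr n A c X m)
    {x0 x : X} {s r ε v a b : ℝ} {h : X → ℝ}
    (hs : 0 < s) (hsr : s ≤ r) (hr1 : r ≤ 1) (hx : dist x x0 ≤ r) (hh : Continuous h)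
    (hv : 0 ≤ v) (hε : 10 * ε ≤ v) (hn : ∀ y, 0 ≤ h y) (hA : Aff x (3 * s) (ε * s) h)
    (ha : 0 ≤ a) (hb : 0 ≤ b)
    (hup1 : m {y | y ∈ closedBall x (3 * s) ∧ h y ≤ 2 * v * s} ≤
      ENNReal.ofReal (b * (2 * v)) * m (closedBall x s))
    (hup2 : m {y | y ∈ closedBall x (3 * s) ∧ h y ≤ 20 * v * s} ≤
      ENNReal.ofReal (b * (20 * v)) * m (closedBall x s))
    (hlow : ENNReal.ofReal (a * v) * m (closedBall x s) ≤ m {y | y ∈ closedBall x s ∧ h y ≤ v * s})
    (hsm : 80 * b ^ 2 * v * m.real (closedBall x s) ≤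
      a * c * (s / (4 * r)) ^ (n + 1) * m.real (closedBall x0 r)) :
    ∫⁻ p in closedBall x0 r, m {y | (p, y) ∈ Mv {y | y ∈ closedBall x s ∧ h y ≤ v * s}
      (s / (32 * r))} ∂m ≤ ENNReal.ofReal (1 / 2) * m {y | y ∈ closedBall x s ∧ h y ≤ v * s} *
        m (closedBall x0 r) := by
  have hprop := hcon.proper
  have hsf : SigmaFinite m := sigmaFinite_of_ball_pt hcon.finite_ball
  set E := {y | y ∈ closedBall x s ∧ h y ≤ v * s} with hE
  set Cp := {y | y ∈ closedBall x (3 * s) ∧ h y ≤ 2 * v * s} with hCp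
  set W := {y | y ∈ closedBall x (3 * s) ∧ h y ≤ 20 * v * s} with hW
  set l := s / (4 * r) with hl
  have hr : 0 < r := hs.trans_le hsr
  have hl0 : 0 < l := by positivity
  have hl1 : l ≤ 1 / 4 := by rw [hl, div_le_iff₀ (by positivity)]; linarith
  have hEc : IsCompact E := (isCompact_closedBall x s).inter_right (isClosed_le hh continuous_const)
  have hMv : MeasurableSet (Mv E (s / (32 * r))) := (isClosed_Mv hEc _).measurableSet
  have hCpm : MeasurableSet Cp :=
    (isClosed_closedBall.inter (isClosed_le hh continuous_const)).measurableSet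
  have hMf : m (closedBall x s) ≠ ∞ := (hcon.finite_ball x s).ne
  have hVf : m (closedBall x0 r) ≠ ∞ := (hcon.finite_ball x0 r).ne
  set M := m.real (closedBall x s) with hM
  set V := m.real (closedBall x0 r) with hV
  have eM : m (closedBall x s) = ENNReal.ofReal M := (ENNReal.ofReal_toReal hMf).symm
  have eV : m (closedBall x0 r) = ENNReal.ofReal V := (ENNReal.ofReal_toReal hVf).symm
  have hM0 : 0 ≤ M := ENNReal.toReal_nonneg
  have hV0 : 0 ≤ V := ENNReal.toReal_nonneg
  -- the geometric input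
  have key : ∀ p ∈ closedBall x0 r, ∀ y, (p, y) ∈ Mv E (s / (32 * r)) →
      y ∈ Cp ∧ p ∈ Zt y 6 (1 - l) W := by
    rintro p hp y ⟨τ, hτ, z, ⟨hz1, hz2⟩, h2', h1'⟩
    simp only at h1' h2'
    have h1 : dist p z = (1 - τ) * dist p y := by
      rw [dist_comm p z, dist_comm p y]; exact h1'
    have h2 : dist z y = τ * dist p y := by
      rw [dist_comm z y, dist_comm p y]; exact h2'
    have hpx : dist p x ≤ 3 * r := by
      have := dist_triangle_right p x x0
      have := mem_closedBall.1 hp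
      linarith
    have e1 : s / (32 * r) / 2 = s / (64 * r) := by ring
    rw [e1] at hτ
    obtain ⟨g1, g2, g3, w, g4, g5, g6, g7⟩ :=
      geo hcon.geod hs hsr hv hε hn hA hpx hτ hz1 hz2 h1 h2
    refine ⟨⟨?_, g3⟩, ?_, w, ⟨g4, g5⟩, ?_, ?_⟩
    · rw [mem_closedBall]
      have := dist_triangle_left y x z
      have := mem_closedBall.1 hz1
      linarith
    · linarith
    · rw [dist_comm p w, g7, dist_comm p y]
    · rw [dist_comm w y, g6, dist_comm p y]; ring
  -- the estimate for fixed y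
  have hfix : ∀ y, (m.restrict (closedBall x0 r)) {p | (p, y) ∈ Mv E (s / (32 * r))} ≤
      Cp.indicator (fun _ => ENNReal.ofReal (20 * b * v * M / (c * l ^ (n + 1)))) y := by
    intro y
    have hm1 : MeasurableSet {p | (p, y) ∈ Mv E (s / (32 * r))} :=
      hMv.preimage measurable_prodMk_right
    rw [Measure.restrict_apply hm1]
    by_cases hy : y ∈ Cp
    · rw [indicator_of_mem hy]
      have hsub : {p | (p, y) ∈ Mv E (s / (32 * r))} ∩ closedBall x0 r ⊆
          Zt y 6 (1 - l) W := fun p hp => (key p hp.2 y hp.1).2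
      have hfar := hcon.far y (1 - l) W (by linarith) (by linarith)
      have e2 : c * (1 - (1 - l)) ^ (n + 1) = c * l ^ (n + 1) := by ring
      rw [e2] at hfar
      have hcl : 0 < c * l ^ (n + 1) := by positivity
      have h3 : ENNReal.ofReal (c * l ^ (n + 1)) *
          m ({p | (p, y) ∈ Mv E (s / (32 * r))} ∩ closedBall x0 r) ≤
          ENNReal.ofReal (20 * b * v * M) := by
        calc _ ≤ ENNReal.ofReal (c * l ^ (n + 1)) * m (Zt y 6 (1 - l) W) := by
              gcongr
          _ ≤ m W := hfar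
          _ ≤ ENNReal.ofReal (b * (20 * v)) * m (closedBall x s) := hup2
          _ = ENNReal.ofReal (20 * b * v * M) := by
              rw [eM, ← ENNReal.ofReal_mul (by positivity)]; congr 1; ring
      rw [ENNReal.ofReal_div_of_pos hcl, ENNReal.le_div_iff_mul_le (Or.inl (by
        simpa using hcl)) (Or.inl ENNReal.ofReal_ne_top), mul_comm]
      exact h3
    · rw [indicator_of_notMem hy]
      have : {p | (p, y) ∈ Mv E (s / (32 * r))} ∩ closedBall x0 r = ∅ := by
        ext p
        simp only [mem_inter_iff, mem_ofPred_eq, mem_empty_iff_false, iff_false, not_and]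
        intro hp1 hp2
        exact hy (key p hp2 y hp1).1
      rw [this]; simp
  have hton : ∫⁻ p in closedBall x0 r, m {y | (p, y) ∈ Mv E (s / (32 * r))} ∂m =
      ∫⁻ y, (m.restrict (closedBall x0 r)) {p | (p, y) ∈ Mv E (s / (32 * r))} ∂m := by
    have h4 := Measure.prod_apply (μ := m.restrict (closedBall x0 r)) (ν := m) hMv
    have h5 := Measure.prod_apply_symm (μ := m.restrict (closedBall x0 r)) (ν := m) hMv
    rw [h4] at h5
    exact h5
  rw [hton]
  calc ∫⁻ y, (m.restrict (closedBall x0 r)) {p | (p, y) ∈ Mv E (s / (32 * r))} ∂m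
      ≤ ∫⁻ y, Cp.indicator (fun _ => ENNReal.ofReal (20 * b * v * M / (c * l ^ (n + 1)))) y ∂m :=
        lintegral_mono hfix
    _ = ENNReal.ofReal (20 * b * v * M / (c * l ^ (n + 1))) * m Cp := by
        rw [lintegral_indicator hCpm]; simp
    _ ≤ ENNReal.ofReal (20 * b * v * M / (c * l ^ (n + 1))) *
          (ENNReal.ofReal (b * (2 * v)) * m (closedBall x s)) := by gcongr
    _ = ENNReal.ofReal (20 * b * v * M / (c * l ^ (n + 1)) * (b * (2 * v) * M)) := by
        rw [eM, ← ENNReal.ofReal_mul (by positivity), ← ENNReal.ofReal_mul (by positivity)]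
    _ ≤ ENNReal.ofReal (1 / 2 * (a * v * M) * V) := by
        apply ENNReal.ofReal_le_ofReal
        have hcl : 0 < c * l ^ (n + 1) := by positivity
        have e3 : 20 * b * v * M / (c * l ^ (n + 1)) * (b * (2 * v) * M) =
            (80 * b ^ 2 * v * M) * (v * M / 2) / (c * l ^ (n + 1)) := by ring
        rw [e3, div_le_iff₀ hcl]
        calc (80 * b ^ 2 * v * M) * (v * M / 2)
            ≤ (a * c * l ^ (n + 1) * V) * (v * M / 2) :=
              mul_le_mul_of_nonneg_right hsm (by positivity)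
          _ = 1 / 2 * (a * v * M) * V * (c * l ^ (n + 1)) := by ring
    _ = ENNReal.ofReal (1 / 2) * (ENNReal.ofReal (a * v) * m (closedBall x s)) *
          m (closedBall x0 r) := by
        rw [eM, eV, ← ENNReal.ofReal_mul (by positivity), ← ENNReal.ofReal_mul (by positivity),
          ← ENNReal.ofReal_mul (by positivity)]
    _ ≤ ENNReal.ofReal (1 / 2) * m E * m (closedBall x0 r) := by gcongr

/-- One good point: the collar `C` at scale `s`; `B p` bounds the measure of what is moved into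
the collar on the way to `p`. The fraction is `τ₀ = s / (32 r)`. -/
theorem point (n : ℕ) {A c g : ℝ} (hA : 0 ≤ A) (hc : 0 < c) (hc1 : c ≤ 1) (hg : 0 < g)
    (hg1 : g ≤ 1) :
    ∃ e : ℝ, 0 < e ∧ ∀ (X : Type u) [MetricSpace X] [MeasurableSpace X] [BorelSpace X]
      (m : Measure X), Contr n A c X m → ∀ (x₀ : X) (r : ℝ), 0 < r → r < 1 →
      ∀ x ∈ ball x₀ r, ∀ (s ε : ℝ) (h : X → ℝ), 0 < s → s ≤ r / 32 → 0 < ε → Good n g x s ε h →
      ε * r ^ (n + 1) * m.real (closedBall x s) ≤ e * s ^ (n + 1) * m.real (closedBall x₀ r) →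
      ∃ (C : Set X) (B : X → ℝ≥0∞), IsCompact C ∧ C ⊆ closedBall x s ∧ Measurable B ∧
        (∀ p ∈ closedBall x₀ r, ∀ t, 0 ≤ t → t ≤ s / (32 * r) →
          Zt p (3 * r) t C ⊆ closedBall x (2 * s)) ∧
        (∀ p ∈ closedBall x₀ r, ∀ t, s / (32 * r) / 2 ≤ t → t ≤ s / (32 * r) →
          m (Zt p (3 * r) t C) ≤ B p) ∧
        ∫⁻ p in closedBall x₀ r, B p ∂m ≤ ENNReal.ofReal (1 / 2) * m C * m (closedBall x₀ r) ∧
        e * s ^ n * m.real (closedBall x₀ r) / r ^ n ≤ m.real C / (s / (32 * r)) := by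
  obtain ⟨b, hb, hup⟩ := slab_upper.{u} n hA hc hc1
  obtain ⟨a, ha, ha1, hlow⟩ := collar_lower.{u} n hA hc hc1 hg hg1
  have hb0 : 0 < b := by linarith
  set k : ℝ := min (a * c / (80 * b ^ 2 * 4 ^ (n + 1))) (c / (20 * 2 ^ (n + 1))) with hk
  have hk0 : 0 < k := by positivity
  refine ⟨min (k / 10) (32 * a * k), by positivity, ?_⟩
  set e : ℝ := min (k / 10) (32 * a * k) with he
  intro X _ _ _ m hX x₀ r hr hr1 x hx s ε h hs hsr hε hG hcond
  have hprop := hX.proper
  set M := m.real (closedBall x s) with hM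
  set V := m.real (closedBall x₀ r) with hV
  have hMf := hX.finite_ball x s
  have hVf := hX.finite_ball x₀ r
  have eM : m (closedBall x s) = ENNReal.ofReal M := (ENNReal.ofReal_toReal hMf.ne).symm
  have eV : m (closedBall x₀ r) = ENNReal.ofReal V := (ENNReal.ofReal_toReal hVf.ne).symm
  have hM0 : 0 < M := ENNReal.toReal_pos ((hX.pos_ball x s hs).trans_le
    (measure_mono ball_subset_closedBall)).ne' hMf.ne
  have hV0 : 0 < V := ENNReal.toReal_pos ((hX.pos_ball x₀ r hr).trans_le
    (measure_mono ball_subset_closedBall)).ne' hVf.ne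
  -- doubling
  have hdb : c * (s / (2 * r)) ^ (n + 1) * V ≤ M := by
    have h1 := ball_far hX x (r := s) (R := 2 * r) hs (by linarith) (by linarith)
    have h2 : closedBall x₀ r ⊆ closedBall x (2 * r) := by
      apply closedBall_subset_closedBall'
      rw [dist_comm]
      have := (mem_ball.1 hx).le
      linarith
    have h3 : ENNReal.ofReal (c * (s / (2 * r)) ^ (n + 1)) * m (closedBall x₀ r) ≤
        m (closedBall x s) := le_trans (by gcongr) h1
    rw [eM, eV, ← ENNReal.ofReal_mul (by positivity), ENNReal.ofReal_le_ofReal_iff hM0.le] at h3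
    exact h3
  set Q := s ^ (n + 1) * V / (r ^ (n + 1) * M) with hQ
  have hQ0 : 0 < Q := by positivity
  have hQ1 : Q ≤ 2 ^ (n + 1) / c := by
    rw [hQ, div_le_div_iff₀ (by positivity) hc]
    have h4 : c * (s / (2 * r)) ^ (n + 1) * V = s ^ (n + 1) * V * c / (2 ^ (n + 1) * r ^ (n + 1)) := by
      rw [div_pow, mul_pow]; ring
    rw [h4, div_le_iff₀ (by positivity)] at hdb
    linarith
  set v := k * Q with hv
  have hv0 : 0 < v := by positivity
  have hv1 : 20 * v ≤ 1 := by
    have h5 : k ≤ c / (20 * 2 ^ (n + 1)) := min_le_right _ _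
    calc 20 * v = 20 * (k * Q) := rfl
      _ ≤ 20 * (c / (20 * 2 ^ (n + 1)) * (2 ^ (n + 1) / c)) := by gcongr
      _ = 1 := by field_simp
  have hεv : 10 * ε ≤ v := by
    have h6 : e ≤ k / 10 := min_le_left _ _
    have h7 : ε * (r ^ (n + 1) * M) ≤ k / 10 * (s ^ (n + 1) * V) := by
      calc ε * (r ^ (n + 1) * M) = ε * r ^ (n + 1) * M := by ring
        _ ≤ e * s ^ (n + 1) * V := hcond
        _ = e * (s ^ (n + 1) * V) := by ring
        _ ≤ k / 10 * (s ^ (n + 1) * V) := by gcongr
    have h8 : ε ≤ k / 10 * (s ^ (n + 1) * V) / (r ^ (n + 1) * M) := by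
      rw [le_div_iff₀ (by positivity)]; exact h7
    have h9 : k / 10 * (s ^ (n + 1) * V) / (r ^ (n + 1) * M) = v / 10 := by
      rw [hv, hQ]; ring
    linarith
  have hs8 : s ≤ 1 / 8 := by linarith
  have hA3 : Aff x (3 * s) (ε * s) h := by
    intro y hy z hz w hw t ht0 ht1 h1 h2
    have hsub : closedBall x (3 * s) ⊆ closedBall x (12 * s) :=
      closedBall_subset_closedBall (by linarith)
    exact hG.affine t ht0 ht1 y (hsub hy) w (hsub hw) z (hsub hz) ⟨h1, h2⟩
  have hup1 := hup X m hX x s ε g h hs hs8 hε hG (2 * v) (by linarith) (by linarith)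
  have hup2 := hup X m hX x s ε g h hs hs8 hε hG (20 * v) (by linarith) (by linarith)
  have hlo := hlow X m hX x s ε h hs hs8 hε hG v (by linarith) (by linarith)
  have hsm : 80 * b ^ 2 * v * M ≤ a * c * (s / (4 * r)) ^ (n + 1) * V := by
    have h5 : k ≤ a * c / (80 * b ^ 2 * 4 ^ (n + 1)) := min_le_left _ _
    have hQM : Q * M = s ^ (n + 1) * V / r ^ (n + 1) := by rw [hQ]; field_simp
    calc 80 * b ^ 2 * v * M = 80 * b ^ 2 * k * (Q * M) := by rw [hv]; ring
      _ ≤ 80 * b ^ 2 * (a * c / (80 * b ^ 2 * 4 ^ (n + 1))) * (Q * M) := by gcongr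
      _ = a * c * (s / (4 * r)) ^ (n + 1) * V := by
          rw [hQM, div_pow, mul_pow]; field_simp
  have hest := point_est hc hX hs (by linarith : s ≤ r) hr1.le (mem_ball.1 hx).le
    hG.lip.continuous hv0.le hεv hG.nonneg hA3 ha.le hb0.le hup1 hup2 hlo hsm
  have hCc : IsCompact {y | y ∈ closedBall x s ∧ h y ≤ v * s} :=
    (isCompact_closedBall x s).inter_right (isClosed_le hG.lip.continuous continuous_const)
  refine ⟨{y | y ∈ closedBall x s ∧ h y ≤ v * s},
    fun p => m {y | (p, y) ∈ Mv {y | y ∈ closedBall x s ∧ h y ≤ v * s} (s / (32 * r))},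
    hCc, fun y hy => hy.1, measurable_Mv hX.finite_ball hCc _, ?_, ?_, hest, ?_⟩
  · intro p hp t ht0 ht
    exact zt_sub hs (by linarith) (mem_ball.1 hx).le
      (by have := mem_closedBall.1 hp; linarith) (fun y hy => hy.1) ht0 ht
  · intro p _ t ht0 ht
    exact measure_mono (zt_sub_Mv ⟨ht0, ht⟩)
  · have hmC : a * v * M ≤ m.real {y | y ∈ closedBall x s ∧ h y ≤ v * s} := by
      have h10 : m {y | y ∈ closedBall x s ∧ h y ≤ v * s} ≠ ∞ :=
        ((measure_mono (fun y hy => hy.1)).trans_lt hMf).ne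
      rw [eM, ← ENNReal.ofReal_mul (by positivity)] at hlo
      exact (ENNReal.ofReal_le_iff_le_toReal h10).1 hlo
    have h11 : e ≤ 32 * a * k := min_le_right _ _
    have h12 : e * s ^ n * V / r ^ n ≤ 32 * a * k * s ^ n * V / r ^ n := by gcongr
    have h13 : 32 * a * k * s ^ n * V / r ^ n = (a * v * M) / (s / (32 * r)) := by
      rw [hv, hQ]; field_simp; ring
    rw [h13] at h12
    exact h12.trans (by gcongr)

end measure

end Pool.Agent.BDRY
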