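import Pool.Agent.Work.MP_209cb6_gt.Defs

/-!
# M6: from packing bounds to a bound of the Hausdorff measure

If every point of `G` has arbitrarily small admissible scales `s` and every finite family of
admissible balls `B(x, 2 s x)` with centres in `G`, pairwise disjoint, satisfies `∑ s^n ≤ K`,
then `μHE[n] G ≤ D K` (Vitali selection).
-/

set_option autoImplicit false

open MeasureTheory MeasureTheory.Measure Metric Set Filter Topology
open scoped ENNReal NNReal

namespace Pool.Agent.BDRY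

universe u

/-- The Vitali selection at scales below `δ`. -/
theorem cover_step {X : Type u} [MetricSpace X] (n : ℕ) (G : Set X) (P : X → ℝ → Prop) (K : ℝ)
    (hP : ∀ x ∈ G, ∀ δ : ℝ, 0 < δ → ∃ s, 0 < s ∧ s < δ ∧ P x s)
    (hF : ∀ (F : Finset X) (s : X → ℝ), (∀ x ∈ F, x ∈ G ∧ 0 < s x ∧ P x (s x)) →
      (F : Set X).PairwiseDisjoint (fun x => closedBall x (2 * s x)) → ∑ x ∈ F, s x ^ n ≤ K)
    (δ : ℝ) (hδ : 0 < δ) :
    ∃ (u : Set X) (s : X → ℝ), u.Countable ∧ (∀ x ∈ u, 0 < s x ∧ s x < δ) ∧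
      G ⊆ ⋃ x : u, closedBall (x : X) (10 * s x) ∧
      ∑' x : u, ENNReal.ofReal (s x ^ n) ≤ ENNReal.ofReal K := by
  choose! s hs using fun x hx => hP x hx δ hδ
  obtain ⟨u, hu, hd, hc⟩ := Vitali.exists_disjoint_subfamily_covering_enlargement_closedBall G id
    (fun x => 2 * s x) (2 * δ) (fun a ha => by linarith [(hs a ha).2.1]) 5 (by norm_num)
  have hpos : ∀ x ∈ u, 0 < s x := fun x hx => (hs x (hu hx)).1
  have hsum : ∑' x : u, ENNReal.ofReal (s x ^ n) ≤ ENNReal.ofReal K := by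
    rw [ENNReal.tsum_eq_iSup_sum]
    refine iSup_le fun F => ?_
    rw [← ENNReal.ofReal_sum_of_nonneg fun (x : u) _ => pow_nonneg (hpos x x.2).le n]
    refine ENNReal.ofReal_le_ofReal ?_
    have h1 := hF (F.map (Function.Embedding.subtype _)) s ?_ ?_
    · simpa using h1
    · intro x hx
      obtain ⟨y, -, rfl⟩ := Finset.mem_map.1 hx
      exact ⟨hu y.2, hpos y y.2, (hs y (hu y.2)).2.2⟩
    · refine hd.subset fun x hx => ?_
      obtain ⟨y, -, rfl⟩ := Finset.mem_map.1 (Finset.mem_coe.1 hx)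
      exact y.2
  refine ⟨u, s, ?_, fun x hx => ⟨hpos x hx, (hs x (hu hx)).2.1⟩, ?_, hsum⟩
  · have h2 := Summable.countable_support_ennreal (hsum.trans_lt ENNReal.ofReal_lt_top).ne
    have h3 : (Function.support fun x : u => ENNReal.ofReal (s x ^ n)) = univ := by
      refine eq_univ_of_forall fun x => ?_
      rw [Function.mem_support]
      exact (ENNReal.ofReal_pos.2 (pow_pos (hpos x x.2) n)).ne'
    rw [h3] at h2
    exact countable_coe_iff.1 (countable_univ_iff.1 h2)
  · intro a ha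
    obtain ⟨b, hb, hab⟩ := hc a ha
    refine mem_iUnion.2 ⟨⟨b, hb⟩, ?_⟩
    have h4 : a ∈ closedBall (id a) (2 * s a) :=
      mem_closedBall_self (by have := (hs a ha).1; positivity)
    have h5 := hab h4
    rw [mem_closedBall] at h5 ⊢
    refine h5.trans_eq ?_
    simp only
    ring

/-- The Hausdorff measure of `G`, unnormalised. -/
theorem cover_hausdorff {X : Type u} [MetricSpace X] [MeasurableSpace X] [BorelSpace X] (n : ℕ)
    (G : Set X) (P : X → ℝ → Prop) (K : ℝ)
    (hP : ∀ x ∈ G, ∀ δ : ℝ, 0 < δ → ∃ s, 0 < s ∧ s < δ ∧ P x s)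
    (hF : ∀ (F : Finset X) (s : X → ℝ), (∀ x ∈ F, x ∈ G ∧ 0 < s x ∧ P x (s x)) →
      (F : Set X).PairwiseDisjoint (fun x => closedBall x (2 * s x)) → ∑ x ∈ F, s x ^ n ≤ K) :
    (μH[(n : ℝ)] : Measure X) G ≤ ENNReal.ofReal (20 ^ n) * ENNReal.ofReal K := by
  have hδ : ∀ k : ℕ, (0 : ℝ) < 1 / (k + 1) := fun k => by positivity
  choose u s hu hs hG hsum using fun k : ℕ => cover_step n G P K hP hF (1 / (k + 1)) (hδ k)
  have hcount : ∀ k, Countable (u k) := fun k => countable_coe_iff.2 (hu k)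
  have hdiam : ∀ (k : ℕ) (x : u k), ediam (closedBall (x : X) (10 * s k x)) ≤
      ENNReal.ofReal (20 * s k x) := by
    intro k x
    refine ediam_le fun y hy z hz => ?_
    rw [edist_dist]
    refine ENNReal.ofReal_le_ofReal ?_
    rw [mem_closedBall] at hy hz
    have h := dist_triangle_right y z (x : X)
    linarith
  have hr : Tendsto (fun k : ℕ => ENNReal.ofReal (20 * (1 / ((k : ℝ) + 1)))) atTop (𝓝 0) := by
    have h1 : Tendsto (fun k : ℕ => 20 * (1 / ((k : ℝ) + 1))) atTop (𝓝 (20 * 0)) :=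
      tendsto_one_div_add_atTop_nhds_zero_nat.const_mul 20
    have h2 := ENNReal.tendsto_ofReal h1
    simpa using h2
  refine (hausdorffMeasure_le_liminf_tsum (ι := fun k => u k) (n : ℝ) G
    (fun k : ℕ => ENNReal.ofReal (20 * (1 / ((k : ℝ) + 1)))) hr
    (fun k x => closedBall (x : X) (10 * s k x)) ?_ (Eventually.of_forall hG)).trans ?_
  · refine Eventually.of_forall fun k x => (hdiam k x).trans (ENNReal.ofReal_le_ofReal ?_)
    have := (hs k x x.2).2
    linarith
  · refine liminf_le_of_le (by isBoundedDefault) fun b hb => ?_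
    obtain ⟨k, hk⟩ := hb.exists
    refine hk.trans ?_
    calc ∑' x : u k, ediam (closedBall (x : X) (10 * s k x)) ^ (n : ℝ)
        ≤ ∑' x : u k, ENNReal.ofReal (20 ^ n) * ENNReal.ofReal (s k x ^ n) := by
          refine ENNReal.tsum_le_tsum fun x => ?_
          rw [ENNReal.rpow_natCast]
          refine (pow_le_pow_left₀ zero_le (hdiam k x) n).trans_eq ?_
          rw [← ENNReal.ofReal_pow (by have := (hs k x x.2).1; positivity),
            ← ENNReal.ofReal_mul (by positivity), mul_pow]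
      _ = ENNReal.ofReal (20 ^ n) * ∑' x : u k, ENNReal.ofReal (s k x ^ n) := ENNReal.tsum_mul_left
      _ ≤ ENNReal.ofReal (20 ^ n) * ENNReal.ofReal K := by gcongr; exact hsum k

theorem cover_bound (n : ℕ) : ∃ D : ℝ, 0 < D ∧ ∀ (X : Type u) [MetricSpace X] [ProperSpace X]
    [MeasurableSpace X] [BorelSpace X] (G : Set X) (P : X → ℝ → Prop) (K : ℝ), 0 ≤ K →
    (∀ x ∈ G, ∀ δ : ℝ, 0 < δ → ∃ s, 0 < s ∧ s < δ ∧ P x s) →
    (∀ (F : Finset X) (s : X → ℝ), (∀ x ∈ F, x ∈ G ∧ 0 < s x ∧ P x (s x)) →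
      (F : Set X).PairwiseDisjoint (fun x => closedBall x (2 * s x)) → ∑ x ∈ F, s x ^ n ≤ K) →
    (μHE[n] : Measure X) G ≤ ENNReal.ofReal (D * K) := by
  set c : ℝ≥0 := addHaarScalarFactor (volume : Measure (EuclideanSpace ℝ (Fin n))) μH[n] with hc
  have hc0 : c ≠ 0 := addHaarScalarFactor_volume_hausdorffMeasure_ne_zero n
  have hcpos : (0 : ℝ) < c := by exact_mod_cast pos_iff_ne_zero.2 hc0
  refine ⟨c * 20 ^ n, by positivity, ?_⟩
  intro X _ _ _ _ G P K hK hP hF
  have h := cover_hausdorff n G P K hP hF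
  rw [euclideanHausdorffMeasure_def, ← hc, Measure.smul_apply, ENNReal.smul_def, smul_eq_mul,
    mul_assoc, ENNReal.ofReal_mul hcpos.le, ENNReal.ofReal_mul (by positivity), ENNReal.ofReal_coe_nnreal]
  gcongr

end Pool.Agent.BDRY
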