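import Mathlib

/-!
# Boundary measure of noncollapsed RCD(K,N) spaces: definitions

`N = n + 1`.  All Hausdorff measures are the normalised ones `μHE[k]` of Mathlib
(`μHE[k]` = Lebesgue measure on Euclidean `k`-space).
-/

set_option autoImplicit false

open MeasureTheory MeasureTheory.Measure Metric Set Filter Topology
open scoped ENNReal NNReal

namespace Pool.Agent.BDRY

noncomputable section

universe u

/-! ## Intermediate points -/

/-- The points at fraction `t` between `a` and `p`. -/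
def Mid {X : Type u} [MetricSpace X] (t : ℝ) (a p : X) : Set X :=
  {z | dist a z = t * dist a p ∧ dist z p = (1 - t) * dist a p}

/-- The points of the closed ball `B(p, R)` with a point of `E` at fraction `t` on the way
to `p`. -/
def Zt {X : Type u} [MetricSpace X] (p : X) (R t : ℝ) (E : Set X) : Set X :=
  {a | dist a p ≤ R ∧ ∃ z ∈ E, z ∈ Mid t a p}

/-- `X` is geodesic: every two points are joined by points dividing them in every ratio. -/
def Geod (X : Type u) [MetricSpace X] : Prop :=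
  ∀ a b : X, ∀ t : ℝ, 0 ≤ t → t ≤ 1 → (Mid t a b).Nonempty

/-! ## Wasserstein distance, entropy, EVI flows, RCD(K,N) -/

/-- The function `s_κ` for `κ ≤ 0`: `sinh (√(-κ) x) / √(-κ)`, and `x` for `κ = 0`. -/
def sK (κ x : ℝ) : ℝ := if κ < 0 then Real.sinh (√(-κ) * x) / √(-κ) else x

section rcd
variable {X : Type u} [MetricSpace X] [MeasurableSpace X]

/-- Squared quadratic transport cost. -/
def W2sq (μ ν : Measure X) : ℝ≥0∞ :=
  ⨅ π : {π : Measure (X × X) // π.map Prod.fst = μ ∧ π.map Prod.snd = ν},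
    ∫⁻ z, edist z.1 z.2 ^ 2 ∂π.1

/-- The quadratic Wasserstein distance. -/
def W2 (μ ν : Measure X) : ℝ := √(W2sq μ ν).toReal

/-- Probability measures with finite second moment. -/
def IsP2 (μ : Measure X) : Prop :=
  IsProbabilityMeasure μ ∧ ∃ x : X, ∫⁻ y, edist x y ^ 2 ∂μ < ∞

open Classical in
/-- `U_N(μ) = exp (- Ent_m(μ) / N)`, where `Ent_m(μ) = ∫ ρ log ρ dm` if `μ = ρ m` with
`ρ log ρ` integrable and `Ent_m(μ) = +∞` (so `U_N(μ) = 0`) otherwise. -/
def UN (N : ℕ) (m μ : Measure X) : ℝ :=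
  if μ ≪ m ∧ Integrable (llr μ m) μ then Real.exp (-(∫ x, llr μ m x ∂μ) / N) else 0

/-- `μ` is an `EVI_{K,N}` gradient flow of the relative entropy `Ent_m` (Erbar-Kuwada-Sturm),
in integrated form; the observers `σ` are the measures of finite entropy. -/
structure IsEVIFlow (K : ℝ) (N : ℕ) (m : Measure X) (μ : ℝ → Measure X) : Prop where
  p2 : ∀ t, 0 ≤ t → IsP2 (μ t)
  cont : ∀ t, 0 ≤ t → Tendsto (fun s => W2 (μ s) (μ t)) (𝓝[Ici 0] t) (𝓝 0)
  dom : ∀ t, 0 < t → 0 < UN N m (μ t)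
  int : ∀ s t, 0 < s → s ≤ t → IntervalIntegrable (fun v => (UN N m (μ v))⁻¹) volume s t
  evi : ∀ σ : Measure X, IsP2 σ → 0 < UN N m σ → ∀ s t, 0 < s → s ≤ t →
    Real.exp (K * t) * sK (K / N) (W2 (μ t) σ / 2) ^ 2
        - Real.exp (K * s) * sK (K / N) (W2 (μ s) σ / 2) ^ 2
      ≤ N / 2 * ∫ v in s..t, Real.exp (K * v) * (1 - UN N m σ / UN N m (μ v))

end rcd

/-- `(X,d,m)` is an `RCD(K,N)` space (`K ≤ 0`), by the `EVI_{K,N}` characterisation of
Erbar-Kuwada-Sturm: complete, separable (here: proper) geodesic space, `m` finite on balls, of full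
support and with Gaussian integrability, and every probability measure with finite second moment is
the starting point of an `EVI_{K,N}` flow of the entropy. -/
structure IsRCD (K : ℝ) (N : ℕ) (X : Type u) [MetricSpace X] [MeasurableSpace X]
    (m : Measure X) : Prop where
  proper : ProperSpace X
  geod : Geod X
  finite_ball : ∀ (x : X) (r : ℝ), m (closedBall x r) < ∞
  pos_ball : ∀ (x : X) (r : ℝ), 0 < r → 0 < m (ball x r)
  exp_int : ∃ (x : X) (c : ℝ), 0 < c ∧ ∫⁻ y, ENNReal.ofReal (Real.exp (-c * dist x y ^ 2)) ∂m < ∞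
  flow : ∀ μ₀ : Measure X, IsP2 μ₀ → ∃ μ : ℝ → Measure X, μ 0 = μ₀ ∧ IsEVIFlow K N m μ

/-! ## Points with a half-space tangent -/

/-- Euclidean space of dimension `n+1`; the height is the last coordinate. -/
abbrev E (n : ℕ) := EuclideanSpace ℝ (Fin (n + 1))

/-- Some tangent cone of `X` at `x` is isometric to the half space of dimension `n+1`: along a
sequence of scales `s k → 0` the pointed metric spaces `(X, d / s k, x)` converge to
`({y : ℝ^(n+1) | 0 ≤ y_last}, 0)` in the pointed Gromov-Hausdorff sense (`ε k`-isometries `f k` of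
the balls of radius `R k → ∞`). -/
def HalfTangent {X : Type u} [MetricSpace X] (n : ℕ) (x : X) : Prop :=
  ∃ (s R ε : ℕ → ℝ) (f : ℕ → X → E n),
    (∀ k, 0 < s k) ∧ Tendsto s atTop (𝓝 0) ∧ Tendsto R atTop atTop ∧ Tendsto ε atTop (𝓝 0) ∧
    (∀ k a, 0 ≤ f k a (Fin.last n)) ∧ (∀ k, f k x = 0) ∧
    (∀ k, ∀ a ∈ ball x (R k * s k), ∀ b ∈ ball x (R k * s k),
      |dist a b / s k - dist (f k a) (f k b)| ≤ ε k) ∧
    (∀ k, ∀ y : E n, 0 ≤ y (Fin.last n) → ‖y‖ < R k - ε k → ∃ a ∈ ball x (R k * s k), dist (f k a) y ≤ ε k)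

/-! ## Interfaces between the modules -/

/-- The contraction property: what is used of `RCD(K,N)`, on balls of radius `≤ 6`.
`A, c` depend on `K, N` only. No measurability of `S`: `m` is an outer measure. -/
structure Contr (n : ℕ) (A c : ℝ) (X : Type u) [MetricSpace X] [MeasurableSpace X]
    (m : Measure X) : Prop where
  proper : ProperSpace X
  geod : Geod X
  finite_ball : ∀ (x : X) (r : ℝ), m (closedBall x r) < ∞
  pos_ball : ∀ (x : X) (r : ℝ), 0 < r → 0 < m (ball x r)
  near : ∀ (p : X) (t : ℝ) (S : Set X), 0 ≤ t → t ≤ 1 / 2 →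
    m (Zt p 6 t S) ≤ ENNReal.ofReal (1 + A * t) * m S
  far : ∀ (p : X) (t : ℝ) (S : Set X), 0 ≤ t → t < 1 →
    ENNReal.ofReal (c * (1 - t) ^ (n + 1)) * m (Zt p 6 t S) ≤ m S

/-- `x` is good at scale `s` with error `ε`; `h` is the height function: 1-Lipschitz, almost
affine along shortest paths, with a point `q` at height about `8 s`, and with large
separated sets of almost zero height. -/
structure Good {X : Type u} [MetricSpace X] (n : ℕ) (g : ℝ) (x : X) (s ε : ℝ) (h : X → ℝ) :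
    Prop where
  lip : LipschitzWith 1 h
  nonneg : ∀ y, 0 ≤ h y
  affine : ∀ t, 0 ≤ t → t ≤ 1 → ∀ a ∈ closedBall x (12 * s), ∀ w ∈ closedBall x (12 * s),
    ∀ z ∈ closedBall x (12 * s), z ∈ Mid t a w → |h z - ((1 - t) * h a + t * h w)| ≤ ε * s
  top : ∃ q ∈ closedBall x (9 * s), |h q - 8 * s| ≤ ε * s
  grid : ∀ κ, ε ≤ κ → κ ≤ 1 → ∃ F : Finset X, (∀ y ∈ F, y ∈ closedBall x (s / 2) ∧ h y ≤ ε * s) ∧
    (∀ y ∈ F, ∀ z ∈ F, y ≠ z → κ * s / 2 ≤ dist y z) ∧ g * (1 / κ) ^ n ≤ F.card

end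

end Pool.Agent.BDRY
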