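import Pool.Agent.Work.MP_209cb6_gt.Defs

set_option autoImplicit false

open MeasureTheory MeasureTheory.Measure Metric Set Filter Topology
open scoped ENNReal NNReal

namespace Pool.Agent.BDRY

universe u

/-! # The measure of slabs and collars -/

set_option linter.unusedVariables false

theorem ball_far {n : ℕ} {A c : ℝ} {X : Type u} [MetricSpace X] [MeasurableSpace X] [BorelSpace X]
    {m : Measure X} (hX : Contr n A c X m) (x : X) {r R : ℝ} (hr : 0 < r) (hrR : r ≤ R)
    (hR : R ≤ 6) :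
    ENNReal.ofReal (c * (r / R) ^ (n + 1)) * m (closedBall x R) ≤ m (closedBall x r) := by
  have hR0 : 0 < R := hr.trans_le hrR
  have hq1 : r / R ≤ 1 := (div_le_one hR0).2 hrR
  have hq0 : 0 < r / R := div_pos hr hR0
  have hsub : closedBall x R ⊆ Zt x 6 (1 - r / R) (closedBall x r) := by
    intro a ha
    rw [mem_closedBall] at ha
    refine ⟨ha.trans hR, ?_⟩
    obtain ⟨z, hz⟩ := hX.geod a x (1 - r / R) (by linarith) (by linarith)
    refine ⟨z, ?_, hz⟩
    rw [mem_closedBall, hz.2]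
    have : (1 - (1 - r / R)) * dist a x = r / R * dist a x := by ring
    rw [this, div_mul_eq_mul_div, div_le_iff₀ hR0]
    exact mul_le_mul_of_nonneg_left ha hr.le
  have h1 := hX.far x (1 - r / R) (closedBall x r) (by linarith) (by linarith)
  have h2 : 1 - (1 - r / R) = r / R := by ring
  rw [h2] at h1
  refine le_trans ?_ h1
  gcongr

theorem slab_upper (n : ℕ) {A c : ℝ} (hA : 0 ≤ A) (hc : 0 < c) (hc1 : c ≤ 1) :
    ∃ b : ℝ, 1 ≤ b ∧ ∀ (X : Type u) [MetricSpace X] [MeasurableSpace X] [BorelSpace X]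
      (m : Measure X), Contr n A c X m → ∀ (x : X) (s ε g : ℝ) (h : X → ℝ), 0 < s → s ≤ 1 / 8 →
      0 < ε → Good n g x s ε h → ∀ ζ : ℝ, ε ≤ ζ → ζ ≤ 1 →
      m {w ∈ closedBall x (3 * s) | h w ≤ ζ * s} ≤ ENNReal.ofReal (b * ζ) * m (closedBall x s) := by
  refine ⟨(2 + A) * 9 ^ (n + 1) / c, ?_, ?_⟩
  · rw [le_div_iff₀ hc, one_mul]
    have : (1 : ℝ) ≤ 9 ^ (n + 1) := one_le_pow₀ (by norm_num)
    nlinarith
  intro X _ _ _ m hX x s ε g h hs hs8 hε hG ζ hεζ hζ1
  have := hX.proper
  have hζ : 0 < ζ := hε.trans_le hεζ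
  obtain ⟨q, hq, hqh⟩ := hG.top
  have hqh1 := (abs_le.mp hqh).1
  have hqh2 := (abs_le.mp hqh).2
  have hcont : Continuous h := hG.lip.continuous
  set W := {w ∈ closedBall x (3 * s) | h w ≤ ζ * s} with hW
  have hεs : ε * s ≤ ζ * s := mul_le_mul_of_nonneg_right hεζ hs.le
  have hεs0 : 0 < ε * s := mul_pos hε hs
  have hζs0 : 0 < ζ * s := mul_pos hζ hs
  -- the slabs
  set B : ℕ → Set X := fun j => {z ∈ closedBall x (9 * s) |
    8 * (j * ζ) * s - 2 * (ζ * s) ≤ h z ∧ h z ≤ 8 * (j * ζ) * s + 3 * (ζ * s)} with hB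
  have hBm : ∀ j, MeasurableSet (B j) := by
    intro j
    have h1 : IsClosed (B j) := by
      have : B j = closedBall x (9 * s) ∩ ({z | 8 * (j * ζ) * s - 2 * (ζ * s) ≤ h z} ∩
        {z | h z ≤ 8 * (j * ζ) * s + 3 * (ζ * s)}) := rfl
      rw [this]
      exact isClosed_closedBall.inter ((isClosed_le continuous_const hcont).inter
        (isClosed_le hcont continuous_const))
    exact h1.measurableSet
  have hBd : Pairwise (Function.onFun Disjoint B) := by
    have key : ∀ i j : ℕ, i < j → Disjoint (B i) (B j) := by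
      intro i j hij
      rw [Set.disjoint_left]
      rintro z ⟨-, -, h1⟩ ⟨-, h2, -⟩
      have h3 : ((i : ℝ) + 1) * (ζ * s) ≤ j * (ζ * s) := by
        apply mul_le_mul_of_nonneg_right _ hζs0.le
        exact_mod_cast hij
      nlinarith
    intro i j hij
    rcases lt_or_gt_of_ne hij with h1 | h1
    · exact key i j h1
    · exact (key j i h1).symm
  -- each slab is large
  have hlow : ∀ j : ℕ, (j : ℝ) * ζ ≤ 1 / 2 → m W ≤ ENNReal.ofReal (1 + A / 2) * m (B j) := by
    intro j hj
    have hj0 : 0 ≤ (j : ℝ) * ζ := by positivity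
    have hsub : W ⊆ Zt q 6 (j * ζ) (B j) := by
      rintro w ⟨hw, hwh⟩
      have hwq : dist w q ≤ 12 * s := by
        have := dist_triangle_right w q x
        rw [mem_closedBall] at hw hq
        linarith
      refine ⟨by linarith, ?_⟩
      obtain ⟨z, hz⟩ := hX.geod w q (j * ζ) hj0 (by linarith)
      have hzx : z ∈ closedBall x (9 * s) := by
        rw [mem_closedBall] at hw ⊢
        have h1 := dist_triangle_left z x w
        have h2 : (j : ℝ) * ζ * dist w q ≤ 1 / 2 * (12 * s) :=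
          mul_le_mul hj hwq dist_nonneg (by norm_num)
        rw [hz.1] at h1
        linarith
      refine ⟨z, ⟨hzx, ?_⟩, hz⟩
      have haff := hG.affine (j * ζ) hj0 (by linarith) w
        (closedBall_subset_closedBall (by linarith) hw) q
        (closedBall_subset_closedBall (by linarith) hq) z
        (closedBall_subset_closedBall (by linarith) hzx) hz
      have h1 := (abs_le.mp haff).1
      have h2 := (abs_le.mp haff).2
      have h3 : 0 ≤ h w := hG.nonneg w
      have h4 : (j : ℝ) * ζ * (8 * s - ε * s) ≤ j * ζ * h q :=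
        mul_le_mul_of_nonneg_left (by linarith) hj0
      have h5 : (j : ℝ) * ζ * h q ≤ j * ζ * (8 * s + ε * s) :=
        mul_le_mul_of_nonneg_left (by linarith) hj0
      have h6 : (j : ℝ) * ζ * (ε * s) ≤ 1 / 2 * (ε * s) :=
        mul_le_mul_of_nonneg_right hj hεs0.le
      have h7 : 0 ≤ (1 - (j : ℝ) * ζ) * h w := mul_nonneg (by linarith) h3
      have h8 : (1 - (j : ℝ) * ζ) * h w ≤ 1 * (ζ * s) :=
        mul_le_mul (by linarith) hwh h3 (by norm_num)
      constructor
      · nlinarith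
      · nlinarith
    calc m W ≤ m (Zt q 6 (j * ζ) (B j)) := measure_mono hsub
      _ ≤ ENNReal.ofReal (1 + A * (j * ζ)) * m (B j) := hX.near q (j * ζ) (B j) hj0 hj
      _ ≤ ENNReal.ofReal (1 + A / 2) * m (B j) := by
        gcongr
        nlinarith
  -- the number of slabs
  set J : ℕ := ⌊1 / (2 * ζ)⌋₊ with hJ
  have hJle : (J : ℝ) * ζ ≤ 1 / 2 := by
    have h1 : (J : ℝ) ≤ 1 / (2 * ζ) := Nat.floor_le (by positivity)
    rw [le_div_iff₀ (by positivity)] at h1
    linarith
  have hJgt : 1 / (2 * ζ) < J + 1 := Nat.lt_floor_add_one _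
  have hsum : ∑ j ∈ Finset.range (J + 1), m (B j) ≤ m (closedBall x (9 * s)) := by
    rw [← measure_biUnion_finset (fun i _ j _ hij => hBd hij) (fun j _ => hBm j)]
    exact measure_mono (iUnion₂_subset fun j _ z hz => hz.1)
  have hmain : ((J + 1 : ℕ) : ℝ≥0∞) * m W ≤
      ENNReal.ofReal (1 + A / 2) * m (closedBall x (9 * s)) := by
    calc ((J + 1 : ℕ) : ℝ≥0∞) * m W = ∑ _j ∈ Finset.range (J + 1), m W := by
          rw [Finset.sum_const, Finset.card_range, nsmul_eq_mul]
      _ ≤ ∑ j ∈ Finset.range (J + 1), ENNReal.ofReal (1 + A / 2) * m (B j) := by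
          apply Finset.sum_le_sum
          intro j hj
          apply hlow
          have h1 : (j : ℝ) ≤ J := by
            exact_mod_cast Nat.lt_succ_iff.mp (Finset.mem_range.mp hj)
          exact (mul_le_mul_of_nonneg_right h1 hζ.le).trans hJle
      _ = ENNReal.ofReal (1 + A / 2) * ∑ j ∈ Finset.range (J + 1), m (B j) := by
          rw [Finset.mul_sum]
      _ ≤ _ := by gcongr
  -- conclusion in real numbers
  have hfin1 : m W ≠ ⊤ := ne_top_of_le_ne_top (hX.finite_ball x (3 * s)).ne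
    (measure_mono fun w hw => hw.1)
  have hfin9 := (hX.finite_ball x (9 * s)).ne
  have hfins := (hX.finite_ball x s).ne
  have hbf := ball_far hX x (r := s) (R := 9 * s) hs (by linarith) (by linarith)
  have hq9 : s / (9 * s) = 1 / 9 := by field_simp
  rw [hq9] at hbf
  have hr1 : ((J : ℝ) + 1) * m.real W ≤ (1 + A / 2) * m.real (closedBall x (9 * s)) := by
    have := ENNReal.toReal_mono (ENNReal.mul_ne_top ENNReal.ofReal_ne_top hfin9) hmain
    rw [ENNReal.toReal_mul, ENNReal.toReal_mul, ENNReal.toReal_natCast,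
      ENNReal.toReal_ofReal (by positivity)] at this
    push_cast at this
    exact this
  have hr2 : c * (1 / 9) ^ (n + 1) * m.real (closedBall x (9 * s)) ≤ m.real (closedBall x s) := by
    have := ENNReal.toReal_mono hfins hbf
    rw [ENNReal.toReal_mul, ENNReal.toReal_ofReal (by positivity)] at this
    exact this
  have hr3 : m.real (closedBall x (9 * s)) ≤ 9 ^ (n + 1) / c * m.real (closedBall x s) := by
    rw [div_mul_eq_mul_div, le_div_iff₀ hc]
    have h9 : (0 : ℝ) < 9 ^ (n + 1) := by positivity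
    have : (9 : ℝ) ^ (n + 1) * (c * (1 / 9) ^ (n + 1) * m.real (closedBall x (9 * s)))
        ≤ 9 ^ (n + 1) * m.real (closedBall x s) := mul_le_mul_of_nonneg_left hr2 h9.le
    refine le_trans (le_of_eq ?_) this
    rw [one_div, inv_pow]
    field_simp
  have hr4 : m.real W ≤ (2 + A) * 9 ^ (n + 1) / c * ζ * m.real (closedBall x s) := by
    have h1 : 1 / (2 * ζ) * m.real W ≤ (1 + A / 2) * (9 ^ (n + 1) / c * m.real (closedBall x s)) :=
      calc 1 / (2 * ζ) * m.real W ≤ (J + 1) * m.real W :=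
            mul_le_mul_of_nonneg_right hJgt.le measureReal_nonneg
        _ ≤ _ := hr1.trans (mul_le_mul_of_nonneg_left hr3 (by positivity))
    have h2 : m.real W = 2 * ζ * (1 / (2 * ζ) * m.real W) := by field_simp
    rw [h2]
    calc 2 * ζ * (1 / (2 * ζ) * m.real W)
        ≤ 2 * ζ * ((1 + A / 2) * (9 ^ (n + 1) / c * m.real (closedBall x s))) :=
          mul_le_mul_of_nonneg_left h1 (by positivity)
      _ = _ := by ring
  rw [← ENNReal.ofReal_toReal hfin1, ← ENNReal.ofReal_toReal hfins,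
    ← ENNReal.ofReal_mul (by positivity)]
  exact ENNReal.ofReal_le_ofReal hr4

theorem collar_lower (n : ℕ) {A c g : ℝ} (hA : 0 ≤ A) (hc : 0 < c) (hc1 : c ≤ 1) (hg : 0 < g)
    (hg1 : g ≤ 1) :
    ∃ a : ℝ, 0 < a ∧ a ≤ 1 ∧ ∀ (X : Type u) [MetricSpace X] [MeasurableSpace X] [BorelSpace X]
      (m : Measure X), Contr n A c X m → ∀ (x : X) (s ε : ℝ) (h : X → ℝ), 0 < s → s ≤ 1 / 8 →
      0 < ε → Good n g x s ε h → ∀ κ : ℝ, 4 * ε ≤ κ → κ ≤ 1 →
      ENNReal.ofReal (a * κ) * m (closedBall x s) ≤ m {z ∈ closedBall x s | h z ≤ κ * s} := by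
  have hp : (0 : ℝ) < (2 / 15) ^ (n + 1) := by positivity
  have hp1 : ((2 : ℝ) / 15) ^ (n + 1) ≤ 1 := pow_le_one₀ (by norm_num) (by norm_num)
  refine ⟨g * (c * (2 / 15) ^ (n + 1)), by positivity, ?_, ?_⟩
  · have h1 : c * (2 / 15) ^ (n + 1) ≤ 1 := by
      calc c * (2 / 15) ^ (n + 1) ≤ 1 * 1 := mul_le_mul hc1 hp1 hp.le (by norm_num)
        _ = 1 := one_mul 1
    calc g * (c * (2 / 15) ^ (n + 1)) ≤ 1 * 1 := mul_le_mul hg1 h1 (by positivity) (by norm_num)
      _ = 1 := one_mul 1
  intro X _ _ _ m hX x s ε h hs hs8 hε hG κ hεκ hκ1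
  have hκ : 0 < κ := by linarith
  have := hX.proper
  have hcont : Continuous h := hG.lip.continuous
  obtain ⟨F, hF, hFd, hFc⟩ := hG.grid κ (by linarith) hκ1
  have hκs : 0 < κ * s := mul_pos hκ hs
  have hκs1 : κ * s ≤ s := by nlinarith
  -- the small balls
  have hdisj : (F : Set X).PairwiseDisjoint fun y => closedBall y (κ * s / 5) := by
    intro y hy z hz hyz
    apply closedBall_disjoint_closedBall
    have := hFd y hy z hz hyz
    linarith
  have hsub : ⋃ y ∈ F, closedBall y (κ * s / 5) ⊆ {z ∈ closedBall x s | h z ≤ κ * s} := by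
    refine iUnion₂_subset fun y hy z hz => ?_
    rw [mem_closedBall] at hz
    obtain ⟨h1, h2⟩ := hF y hy
    rw [mem_closedBall] at h1
    constructor
    · rw [mem_closedBall]
      have := dist_triangle z y x
      linarith
    · have h3 := hG.lip.dist_le_mul z y
      rw [NNReal.coe_one, one_mul, Real.dist_eq] at h3
      have h4 := (abs_le.mp h3).2
      have h5 : 4 * (ε * s) ≤ κ * s := by nlinarith
      linarith
  have hball : ∀ y ∈ F, ENNReal.ofReal (c * (2 / 15 * κ) ^ (n + 1)) * m (closedBall x s) ≤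
      m (closedBall y (κ * s / 5)) := by
    intro y hy
    have h1 := ball_far hX y (r := κ * s / 5) (R := 3 / 2 * s) (by positivity) (by linarith)
      (by linarith)
    have h2 : κ * s / 5 / (3 / 2 * s) = 2 / 15 * κ := by field_simp; norm_num
    rw [h2] at h1
    refine le_trans ?_ h1
    gcongr
    intro z hz
    rw [mem_closedBall] at hz ⊢
    have h3 := (hF y hy).1
    rw [mem_closedBall] at h3
    have := dist_triangle_right z y x
    linarith
  calc ENNReal.ofReal (g * (c * (2 / 15) ^ (n + 1)) * κ) * m (closedBall x s)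
      ≤ (F.card : ℝ≥0∞) * (ENNReal.ofReal (c * (2 / 15 * κ) ^ (n + 1)) * m (closedBall x s)) := by
        rw [← mul_assoc (F.card : ℝ≥0∞)]
        gcongr
        rw [← ENNReal.ofReal_natCast, ← ENNReal.ofReal_mul (by positivity)]
        apply ENNReal.ofReal_le_ofReal
        have h1 : g * (1 / κ) ^ n * (c * (2 / 15 * κ) ^ (n + 1)) ≤
            F.card * (c * (2 / 15 * κ) ^ (n + 1)) :=
          mul_le_mul_of_nonneg_right hFc (by positivity)
        refine le_trans (le_of_eq ?_) h1
        rw [mul_pow, one_div, inv_pow, pow_succ κ n]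
        field_simp
    _ = ∑ _y ∈ F, ENNReal.ofReal (c * (2 / 15 * κ) ^ (n + 1)) * m (closedBall x s) := by
        rw [Finset.sum_const, nsmul_eq_mul]
    _ ≤ ∑ y ∈ F, m (closedBall y (κ * s / 5)) := Finset.sum_le_sum hball
    _ = m (⋃ y ∈ F, closedBall y (κ * s / 5)) :=
        (measure_biUnion_finset hdisj (fun y _ => isClosed_closedBall.measurableSet)).symm
    _ ≤ _ := measure_mono hsub

end Pool.Agent.BDRY
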