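import Pool.Agent.Work.MP_209cb6_gt.HDefs
import Pool.Agent.Work.MP_209cb6_gt.Slab

/-!
# Half-ball lemma, part 2: the volume lemma
-/

set_option autoImplicit false

open MeasureTheory Metric Set Filter Topology
open scoped ENNReal Pointwise

namespace Pool.Agent.BDRY

noncomputable section

universe u

theorem om_pos (n : ℕ) : 0 < om n :=
  ENNReal.toReal_pos (measure_ball_pos volume _ one_pos).ne' measure_ball_lt_top.ne

/-- The truncated half ball. -/
def hb (n : ℕ) (b : ℝ) : Set (E n) := {x : E n | ‖x‖ ≤ 1 - 2 * b ∧ 2 * b ≤ x (Fin.last n)}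

theorem hb_subset (n : ℕ) {b : ℝ} (hb0 : 0 < b) : hb n b ⊆ ball (0 : E n) 1 := by
  intro x hx
  rw [mem_ball_zero_iff]
  linarith [hx.1]

theorem continuous_last (n : ℕ) : Continuous (fun x : E n => x (Fin.last n)) :=
  (EuclideanSpace.proj (Fin.last n) : E n →L[ℝ] ℝ).continuous

theorem hb_closed (n : ℕ) (b : ℝ) : IsClosed (hb n b) := by
  have h1 : IsClosed {x : E n | ‖x‖ ≤ 1 - 2 * b} := isClosed_le continuous_norm continuous_const
  have h2 : IsClosed {x : E n | 2 * b ≤ x (Fin.last n)} :=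
    isClosed_le continuous_const (continuous_last n)
  exact h1.inter h2

theorem hb_fin (n : ℕ) {b : ℝ} (hb0 : 0 < b) : volume (hb n b) ≠ ∞ :=
  ((measure_mono (hb_subset n hb0)).trans_lt measure_ball_lt_top).ne

theorem gam_pos' (n : ℕ) {b : ℝ} (hb0 : 0 < b) : 0 < gam n b := by
  set S := hb n b with hS
  have hSm : MeasurableSet S := (hb_closed n b).measurableSet
  have hneg : volume (-S) = volume S := Measure.measure_neg volume S
  set r0 := min (2 * b) 1 with hr0
  have hr0p : 0 < r0 := lt_min (by linarith) one_pos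
  have hlast : ∀ x : E n, |x (Fin.last n)| ≤ ‖x‖ := fun x => by
    simpa using PiLp.norm_apply_le x (Fin.last n)
  have hd1 : Disjoint S (-S) := by
    rw [Set.disjoint_left]
    intro x hx hx'
    have h1 := hx.2
    have h2 : 2 * b ≤ (-x) (Fin.last n) := hx'.2
    have h3 : (-x) (Fin.last n) = -(x (Fin.last n)) := rfl
    rw [h3] at h2
    linarith
  have hd2 : Disjoint (S ∪ -S) (ball (0 : E n) r0) := by
    rw [Set.disjoint_left]
    intro x hx hx'
    rw [mem_ball_zero_iff] at hx'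
    have h0 := lt_of_lt_of_le hx' (min_le_left _ _)
    have h4 := abs_le.1 (hlast x)
    rcases hx with hx | hx
    · have h1 := hx.2
      linarith
    · have h2 : 2 * b ≤ (-x) (Fin.last n) := hx.2
      have h3 : (-x) (Fin.last n) = -(x (Fin.last n)) := rfl
      rw [h3] at h2
      linarith
  have hsub : (S ∪ -S) ∪ ball (0 : E n) r0 ⊆ ball (0 : E n) 1 := by
    refine union_subset (union_subset (hb_subset n hb0) ?_) (ball_subset_ball (min_le_right _ _))
    intro x hx
    have := hb_subset n hb0 (show -x ∈ hb n b from hx)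
    rw [mem_ball_zero_iff] at this ⊢
    rwa [norm_neg] at this
  have h1 := measure_mono (μ := volume) hsub
  rw [measure_union hd2 isOpen_ball.measurableSet, measure_union hd1 (hSm.neg), hneg] at h1
  have hSf := hb_fin n hb0
  have h2 := ENNReal.toReal_mono measure_ball_lt_top.ne h1
  rw [ENNReal.toReal_add (ENNReal.add_ne_top.2 ⟨hSf, hSf⟩) measure_ball_lt_top.ne,
    ENNReal.toReal_add hSf hSf] at h2
  have h3 : 0 < (volume (ball (0 : E n) r0)).toReal :=
    ENNReal.toReal_pos (measure_ball_pos volume _ hr0p).ne' measure_ball_lt_top.ne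
  have h4 : gam n b = om n / 2 - (volume S).toReal := rfl
  have h5 : om n = (volume (ball (0 : E n) 1)).toReal := rfl
  rw [h4, h5]
  linarith

set_option linter.unusedVariables false in
theorem gam_pos (n : ℕ) {b : ℝ} (hb : 0 < b) (hb2 : b ≤ 1 / 2) : 0 < gam n b := gam_pos' n hb

/-- The open half ball has half the volume. -/
theorem half_ball (n : ℕ) :
    volume ({x : E n | ‖x‖ < 1 ∧ 0 < x (Fin.last n)}) = ENNReal.ofReal (om n / 2) := by
  set H := {x : E n | ‖x‖ < 1 ∧ 0 < x (Fin.last n)} with hH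
  have hHo : IsOpen H := by
    have h1 : IsOpen {x : E n | ‖x‖ < 1} := isOpen_lt continuous_norm continuous_const
    have h2 : IsOpen {x : E n | 0 < x (Fin.last n)} :=
      isOpen_lt continuous_const (continuous_last n)
    exact h1.inter h2
  have hneg : volume (-H) = volume H := Measure.measure_neg volume H
  have hd1 : Disjoint H (-H) := by
    rw [Set.disjoint_left]
    intro x hx hx'
    have h1 := hx.2
    have h2 : 0 < (-x) (Fin.last n) := hx'.2
    have h3 : (-x) (Fin.last n) = -(x (Fin.last n)) := rfl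
    rw [h3] at h2
    linarith
  set P : Submodule ℝ (E n) := LinearMap.ker (EuclideanSpace.proj (Fin.last n) :
    E n →L[ℝ] ℝ).toLinearMap with hP
  have hPt : P ≠ ⊤ := by
    intro h
    have h1 : (EuclideanSpace.single (Fin.last n) (1 : ℝ) : E n) ∈ P := by
      rw [h]; trivial
    rw [hP, LinearMap.mem_ker] at h1
    simp at h1
  have hP0 : volume (P : Set (E n)) = 0 := Measure.addHaar_submodule volume P hPt
  have hfin : volume H ≠ ∞ := by
    refine ((measure_mono (t := ball (0 : E n) 1) ?_).trans_lt measure_ball_lt_top).ne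
    intro x hx
    rw [mem_ball_zero_iff]
    exact hx.1
  have hsub : H ∪ -H ⊆ ball (0 : E n) 1 := by
    intro x hx
    rw [mem_ball_zero_iff]
    rcases hx with hx | hx
    · exact hx.1
    · have : ‖-x‖ < 1 := hx.1
      rwa [norm_neg] at this
  have hsub2 : ball (0 : E n) 1 ⊆ (H ∪ -H) ∪ P := by
    intro x hx
    rw [mem_ball_zero_iff] at hx
    rcases lt_trichotomy (x (Fin.last n)) 0 with h | h | h
    · left; right
      refine ⟨by rwa [norm_neg], ?_⟩
      show 0 < -(x (Fin.last n))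
      linarith
    · right
      show x ∈ P
      rw [hP, LinearMap.mem_ker]
      simpa using h
    · left; left
      exact ⟨hx, h⟩
  have h1 : volume (ball (0 : E n) 1) = volume H + volume H := by
    apply le_antisymm
    · refine (measure_mono hsub2).trans ((measure_union_le _ _).trans ?_)
      rw [hP0, add_zero, measure_union hd1 hHo.measurableSet.neg, hneg]
    · refine le_trans ?_ (measure_mono hsub)
      rw [measure_union hd1 hHo.measurableSet.neg, hneg]
  have h2 : om n = (volume H).toReal + (volume H).toReal := by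
    unfold om
    rw [h1, ENNReal.toReal_add hfin hfin]
  rw [h2, show ((volume H).toReal + (volume H).toReal) / 2 = (volume H).toReal by ring,
    ENNReal.ofReal_toReal hfin]

theorem gam_small (n : ℕ) {η : ℝ} (hη : 0 < η) :
    ∃ b0, 0 < b0 ∧ ∀ b, 0 < b → b ≤ b0 → gam n b ≤ η := by
  set β : ℕ → ℝ := fun j => 1 / ((j : ℝ) + 1) with hβ
  have hβp : ∀ j, 0 < β j := fun j => by positivity
  have hmono : Monotone (fun j => hb n (β j)) := by
    intro i j hij x hx
    have h1 : β j ≤ β i := by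
      simp only [hβ]
      apply one_div_le_one_div_of_le (by positivity)
      have : (i : ℝ) ≤ j := by exact_mod_cast hij
      linarith
    exact ⟨by linarith [hx.1], by linarith [hx.2]⟩
  have hun : (⋃ j, hb n (β j)) = {x : E n | ‖x‖ < 1 ∧ 0 < x (Fin.last n)} := by
    ext x
    simp only [mem_iUnion, mem_ofPred_eq]
    constructor
    · rintro ⟨j, h1, h2⟩
      exact ⟨by linarith [hβp j], by linarith [hβp j]⟩
    · rintro ⟨h1, h2⟩
      obtain ⟨j, hj⟩ := exists_nat_one_div_lt (show 0 < min ((1 - ‖x‖) / 2)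
        (x (Fin.last n) / 2) from lt_min (by linarith) (by linarith))
      refine ⟨j, ?_, ?_⟩
      · have := hj.le.trans (min_le_left _ _)
        simp only [hβ]
        linarith
      · have := hj.le.trans (min_le_right _ _)
        simp only [hβ]
        linarith
  have ht := tendsto_measure_iUnion_atTop (μ := (volume : Measure (E n))) hmono
  rw [hun, half_ball] at ht
  have ht2 : Tendsto (fun j => (volume (hb n (β j))).toReal) atTop (𝓝 (om n / 2)) := by
    have h1 := (ENNReal.tendsto_toReal (ENNReal.ofReal_ne_top (r := om n / 2))).comp ht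
    rw [ENNReal.toReal_ofReal (by have := om_pos n; positivity)] at h1
    exact h1
  have hev := (ht2.eventually (lt_mem_nhds (show om n / 2 - η < om n / 2 by linarith))).exists
  obtain ⟨j, hj⟩ := hev
  refine ⟨β j, hβp j, ?_⟩
  intro b hb0 hbj
  have hsub : hb n (β j) ⊆ hb n b := by
    intro x hx
    exact ⟨by linarith [hx.1], by linarith [hx.2]⟩
  have h1 := ENNReal.toReal_mono (hb_fin n hb0) (measure_mono (μ := volume) hsub)
  have h4 : gam n b = om n / 2 - (volume (hb n b)).toReal := rfl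
  rw [h4]
  linarith

/-- The region `G` in the chart. -/
def GG (n : ℕ) (b ρ : ℝ) (a0 ν : E n) : Set (E n) :=
  {u : E n | dist u a0 ≤ (1 - 2 * b) * (2 * ρ) ∧ 4 * b * ρ ≤ ht a0 ν u}

theorem GG_closed (n : ℕ) (b ρ : ℝ) (a0 ν : E n) : IsClosed (GG n b ρ a0 ν) := by
  have h1 : IsClosed {u : E n | dist u a0 ≤ (1 - 2 * b) * (2 * ρ)} :=
    isClosed_le (continuous_id.dist continuous_const) continuous_const
  have h2 : IsClosed {u : E n | 4 * b * ρ ≤ inner ℝ (u - a0) ν} :=
    isClosed_le continuous_const (by fun_prop)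
  exact h1.inter h2

theorem vol_GG (n : ℕ) {b ρ : ℝ} (hρ : 0 < ρ) {a0 ν : E n} (hν : ‖ν‖ = 1) :
    volume (GG n b ρ a0 ν) = ENNReal.ofReal ((2 * ρ) ^ (n + 1)) * volume (hb n b) := by
  set e0 : E n := EuclideanSpace.single (Fin.last n) (1 : ℝ) with he0
  have he0n : ‖e0‖ = 1 := by simp [he0]
  set R : E n ≃ₗᵢ[ℝ] E n := (ℝ ∙ (ν - e0))ᗮ.reflection with hR
  have hRν : R ν = e0 := by
    rw [hR]
    exact Submodule.reflection_sub (by rw [hν, he0n])
  have hinner : ∀ x : E n, inner ℝ x ν = (R x) (Fin.last n) := by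
    intro x
    rw [← R.inner_map_map, hRν, he0, EuclideanSpace.inner_single_right]
    simp
  have h1 : (fun v => a0 + v) ⁻¹' (GG n b ρ a0 ν) = (2 * ρ) • (R ⁻¹' (hb n b)) := by
    ext v
    rw [Set.mem_smul_set_iff_inv_smul_mem₀ (by positivity)]
    simp only [GG, mem_preimage, mem_ofPred_eq, hb, ht]
    rw [add_sub_cancel_left, dist_eq_norm, add_sub_cancel_left, hinner, map_smul, norm_smul,
      LinearIsometryEquiv.norm_map]
    have h2 : ((2 * ρ)⁻¹ • R v) (Fin.last n) = (2 * ρ)⁻¹ * (R v) (Fin.last n) := rfl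
    rw [h2, norm_inv, Real.norm_of_nonneg (by positivity : 0 ≤ 2 * ρ)]
    constructor
    · rintro ⟨h3, h4⟩
      refine ⟨?_, ?_⟩
      · rw [inv_mul_le_iff₀ (by positivity)]
        linarith
      · rw [le_inv_mul_iff₀ (by positivity)]
        linarith
    · rintro ⟨h3, h4⟩
      rw [inv_mul_le_iff₀ (by positivity)] at h3
      rw [le_inv_mul_iff₀ (by positivity)] at h4
      exact ⟨by linarith, by linarith⟩
  rw [← measure_preimage_add volume a0 (GG n b ρ a0 ν), h1, Measure.addHaar_smul]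
  congr 1
  · rw [abs_of_nonneg (by positivity)]
    congr 1
    simp
  · exact R.measurePreserving.measure_preimage (hb_closed n b).measurableSet.nullMeasurableSet

section vol
set_option linter.unusedSectionVars false
variable {X : Type u} [MetricSpace X] [MeasurableSpace X] [BorelSpace X] {m : Measure X}
    {n : ℕ} {A c C1 CP D k e h : ℝ} {M : ℕ} {y0 z : X} {Φ : X → E n} {ex : E n → X} {a0 ν : E n}

/-- The tube over `G`. -/
def TT (C1 e b ρ : ℝ) (ex : E n → X) (a0 ν : E n) : Set X :=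
  ⋃ u ∈ GG n b ρ a0 ν, ball (ex u) (b * ρ / C1 - 3 * e)

theorem TT_open (C1 e b ρ : ℝ) (ex : E n → X) (a0 ν : E n) : IsOpen (TT C1 e b ρ ex a0 ν) :=
  isOpen_biUnion fun _ _ => isOpen_ball

/-- Elementary facts on the points of `G`. -/
theorem GG_facts (B : HB n C1 CP D k e h M y0 z Φ m) (I : IsExp n D k e h M y0 Φ ex)
    (Q : IsPos n CP D k e M z Φ ex a0 ν) {b ρ : ℝ} (hb : 0 < b) (hb8 : b ≤ 1 / 8) (hρ : 0 < ρ)
    (hρD : 16 * ρ ≤ b * D) (hkρ : 16 * k ≤ b * ρ) {u : E n} (hu : u ∈ GG n b ρ a0 ν) :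
    ‖u‖ ≤ D - k ∧ dist (ex u) y0 ≤ D - 2 * (b * ρ) ∧ dist (ex u) z ≤ 2 * ρ - 13 / 4 * (b * ρ) := by
  have P := B.par
  have hD := P.hD
  have hk := P.hk
  have hhk := P.h_le
  have hh0 := P.h_pos
  have hMe := P.hMe
  have hbρ : 0 < b * ρ := mul_pos hb hρ
  obtain ⟨h1, h2⟩ := hu
  have h3 := Q.norm_le P u
  have h4 : dist u a0 ^ 2 / D ≤ 1 / 4 * (b * ρ) := by
    rw [div_le_iff₀ hD]
    have h5 : dist u a0 ≤ 2 * ρ := by
      refine h1.trans ?_
      nlinarith
    have h6 : dist u a0 ^ 2 ≤ (2 * ρ) ^ 2 := pow_le_pow_left₀ dist_nonneg h5 2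
    nlinarith
  have h5 : ‖u‖ ≤ D - 15 / 4 * (b * ρ) := by linarith
  have h6 : ‖u‖ ≤ D - k := by linarith
  refine ⟨h6, ?_, ?_⟩
  · have h7 := I.dist0 u h6
    linarith
  · have h7 := Q.dist_ex u h6
    nlinarith

theorem r_facts (P : Par C1 D k e h M) {b ρ : ℝ} (hb : 0 < b) (hρ : 0 < ρ)
    (hkρ : 16 * k ≤ b * ρ) :
    0 < b * ρ / C1 ∧ C1 * (b * ρ / C1) = b * ρ ∧ b * ρ / C1 ≤ b * ρ / 4 ∧
      0 < b * ρ / C1 - 3 * e := by
  have hC := P.hC
  have hbρ : 0 < b * ρ := mul_pos hb hρ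
  have hh := P.hh
  have hel := P.e_le
  have hh0 := P.h_pos
  refine ⟨by positivity, by field_simp, ?_, ?_⟩
  · exact div_le_div_of_nonneg_left hbρ.le (by norm_num) hC
  · have h1 : 3 * e < b * ρ / C1 := by
      rw [lt_div_iff₀ (by linarith)]
      have h2 : 100 * (C1 * e) ≤ C1 * h := by nlinarith
      nlinarith [mul_pos (by linarith : (0 : ℝ) < C1) P.he]
    linarith

theorem TT_facts (B : HB n C1 CP D k e h M y0 z Φ m) (I : IsExp n D k e h M y0 Φ ex)
    (Q : IsPos n CP D k e M z Φ ex a0 ν) {b ρ : ℝ} (hb : 0 < b) (hb8 : b ≤ 1 / 8) (hρ : 0 < ρ)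
    (hρD : 16 * ρ ≤ b * D) (hkρ : 16 * k ≤ b * ρ) {u : E n} (hu : u ∈ GG n b ρ a0 ν) {w : X}
    (hw : w ∈ ball (ex u) (b * ρ / C1 - 3 * e)) :
    dist (Φ w) u < b * ρ / C1 ∧ dist w z < 2 * ρ ∧ 2 * b * ρ < ht a0 ν (Φ w) := by
  have P := B.par
  have hD := P.hD
  have hk := P.hk
  have he := P.he
  have hC := P.hC
  have hbρ : 0 < b * ρ := mul_pos hb hρ
  obtain ⟨h1, h2, h3⟩ := GG_facts B I Q hb hb8 hρ hρD hkρ hu
  obtain ⟨r1, r2, r3, r4⟩ := r_facts P hb hρ hkρ
  rw [mem_ball] at hw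
  have h4 : C1 * dist w (ex u) ≤ D - dist (ex u) y0 := by
    have h5 : C1 * dist w (ex u) ≤ C1 * (b * ρ / C1) :=
      mul_le_mul_of_nonneg_left (by linarith) (by linarith)
    rw [r2] at h5
    linarith
  have h5 := abs_le.1 (B.charts.iso (ex u) (by linarith) w (ex u) h4
    (by rw [dist_self]; linarith))
  have h6 := I.near u h1
  have h7 := dist_triangle (Φ w) (Φ (ex u)) u
  have h8 : dist (Φ w) u < b * ρ / C1 := by linarith [h5.2]
  refine ⟨h8, ?_, ?_⟩
  · have h9 := dist_triangle w (ex u) z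
    linarith
  · have h9 : ht a0 ν u - dist (Φ w) u ≤ ht a0 ν (Φ w) := by
      unfold ht
      have h10 : inner ℝ (u - a0) ν - inner ℝ (Φ w - a0) ν = inner ℝ (u - Φ w) ν := by
        rw [← inner_sub_left]
        congr 1
        abel
      have h11 := real_inner_le_norm (u - Φ w) ν
      rw [Q.norm_ν, mul_one, ← dist_eq_norm, dist_comm] at h11
      linarith
    have h10 := hu.2
    have : 4 * b * ρ = 4 * (b * ρ) := by ring
    have : 2 * b * ρ = 2 * (b * ρ) := by ring
    linarith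

/-- The Tonelli step. -/
theorem vol_TT_aux (hX : Contr n A c X m) (B : HB n C1 CP D k e h M y0 z Φ m)
    (I : IsExp n D k e h M y0 Φ ex)
    (Q : IsPos n CP D k e M z Φ ex a0 ν) {b ρ : ℝ} (hb : 0 < b) (hb8 : b ≤ 1 / 8) (hρ : 0 < ρ)
    (hρD : 16 * ρ ≤ b * D) (hkρ : 16 * k ≤ b * ρ) :
    ENNReal.ofReal ((1 - e / D) * om n * (b * ρ / C1 - 3 * e) ^ (n + 1))
        * volume (GG n b ρ a0 ν)
      ≤ ENNReal.ofReal (om n * (b * ρ / C1) ^ (n + 1)) * m (TT C1 e b ρ ex a0 ν) := by
  have P := B.par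
  have hC := P.hC
  have hbρ : 0 < b * ρ := mul_pos hb hρ
  have := hX.proper
  obtain ⟨r1, r2, r3, r4⟩ := r_facts P hb hρ hkρ
  set r := b * ρ / C1 with hr
  set T := TT C1 e b ρ ex a0 ν with hT
  set G := GG n b ρ a0 ν with hG
  have hTo : IsOpen T := TT_open C1 e b ρ ex a0 ν
  have hTf : m T < ∞ := by
    refine (measure_mono (t := closedBall z (2 * ρ)) ?_).trans_lt (hX.finite_ball z (2 * ρ))
    intro w hw
    simp only [hT, TT, mem_iUnion] at hw
    obtain ⟨u, hu, hw⟩ := hw
    exact (TT_facts B I Q hb hb8 hρ hρD hkρ hu hw).2.1.le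
  have hTy : ∀ w ∈ T, dist w y0 < 2 * D := by
    intro w hw
    simp only [hT, TT, mem_iUnion] at hw
    obtain ⟨u, hu, hw⟩ := hw
    have h1 := (TT_facts B I Q hb hb8 hρ hρD hkρ hu hw).2.1
    have h2 := dist_triangle w z y0
    rw [dist_comm z, B.dist_z] at h2
    have := P.hD
    nlinarith
  have hcont : ContinuousOn Φ T := by
    have hCP := B.CP_ge
    have hL : LipschitzOnWith (Real.toNNReal CP) Φ T := by
      apply LipschitzOnWith.of_dist_le_mul
      intro x hx y hy
      rw [Real.coe_toNNReal _ (by linarith)]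
      exact B.lip x y (hTy x hx) (hTy y hy)
    exact hL.continuousOn
  -- the open set in the product
  set Ω : Set (X × E n) := {q | q.1 ∈ T ∧ dist (Φ q.1) q.2 < r} with hΩ
  have hΩo : IsOpen Ω := by
    have h1 : ContinuousOn (fun q : X × E n => dist (Φ q.1) q.2) (T ×ˢ univ) := by
      have h0 : ContinuousOn (fun q : X × E n => (Φ q.1, q.2)) (T ×ˢ univ) :=
        (hcont.comp continuousOn_fst (fun q hq => hq.1)).prodMk continuousOn_snd
      exact continuous_dist.comp_continuousOn h0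
    have h2 := h1.isOpen_inter_preimage (hTo.prod isOpen_univ) (isOpen_Iio (a := r))
    have h3 : Ω = (T ×ˢ univ) ∩ (fun q : X × E n => dist (Φ q.1) q.2) ⁻¹' Iio r := by
      ext q
      simp [hΩ]
    rw [h3]
    exact h2
  have hΩm : MeasurableSet Ω := hΩo.measurableSet
  set F : X × E n → ℝ≥0∞ := Ω.indicator 1 with hF
  have hFm : Measurable F := measurable_one.indicator hΩm
  have : IsFiniteMeasure (m.restrict T) := ⟨by simpa using hTf⟩
  have hswap : ∫⁻ u in G, ∫⁻ w in T, F (w, u) ∂m = ∫⁻ w in T, (∫⁻ u in G, F (w, u)) ∂m := by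
    exact lintegral_lintegral_swap (f := fun u w => F (w, u))
      (hFm.comp measurable_swap).aemeasurable
  have hlow : ENNReal.ofReal ((1 - e / D) * om n * (r - 3 * e) ^ (n + 1)) * volume G
      ≤ ∫⁻ u in G, ∫⁻ w in T, F (w, u) ∂m := by
    rw [← setLIntegral_const]
    apply setLIntegral_mono' (GG_closed n b ρ a0 ν).measurableSet
    intro u hu
    obtain ⟨g1, g2, g3⟩ := GG_facts B I Q hb hb8 hρ hρD hkρ hu
    have h1 := B.vol (ex u) (by have := P.hk; linarith) (r - 3 * e) r4 (by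
      have : C1 * (r - 3 * e) ≤ C1 * r :=
        mul_le_mul_of_nonneg_left (by have := P.he; linarith) (by linarith)
      linarith)
    refine h1.trans ?_
    have h2 : m (ball (ex u) (r - 3 * e)) = ∫⁻ w in ball (ex u) (r - 3 * e), 1 ∂m := by
      rw [setLIntegral_one]
    rw [h2, ← lintegral_indicator isOpen_ball.measurableSet,
      ← lintegral_indicator hTo.measurableSet]
    apply lintegral_mono
    intro w
    by_cases hw : w ∈ ball (ex u) (r - 3 * e)
    · have hwT : w ∈ T := by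
        simp only [hT, TT, mem_iUnion]
        exact ⟨u, hu, hw⟩
      have hwΩ : (w, u) ∈ Ω := ⟨hwT, (TT_facts B I Q hb hb8 hρ hρD hkρ hu hw).1⟩
      rw [indicator_of_mem hw, indicator_of_mem hwT, hF, indicator_of_mem hwΩ]
      exact le_refl _
    · rw [indicator_of_notMem hw]
      exact zero_le
  have hup : ∫⁻ w in T, (∫⁻ u in G, F (w, u)) ∂m
      ≤ ENNReal.ofReal (om n * r ^ (n + 1)) * m T := by
    rw [← setLIntegral_const]
    apply setLIntegral_mono' hTo.measurableSet
    intro w hw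
    have h1 : ∫⁻ u in G, F (w, u) ≤ ∫⁻ u, F (w, u) := setLIntegral_le_lintegral _ _
    refine h1.trans ?_
    have h2 : (fun u => F (w, u)) = (ball (Φ w) r).indicator 1 := by
      ext u
      by_cases hu : u ∈ ball (Φ w) r
      · have : (w, u) ∈ Ω := ⟨hw, by rw [dist_comm]; exact hu⟩
        rw [indicator_of_mem hu, hF, indicator_of_mem this]
        rfl
      · have : (w, u) ∉ Ω := fun h => hu (by rw [mem_ball, dist_comm]; exact h.2)
        rw [indicator_of_notMem hu, hF, indicator_of_notMem this]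
    rw [h2, lintegral_indicator_one isOpen_ball.measurableSet,
      Measure.addHaar_ball_of_pos volume _ r1]
    have h3 : volume (ball (0 : E n) 1) = ENNReal.ofReal (om n) :=
      (ENNReal.ofReal_toReal measure_ball_lt_top.ne).symm
    rw [h3, ← ENNReal.ofReal_mul (by positivity)]
    apply ENNReal.ofReal_le_ofReal
    simp only [finrank_euclideanSpace, Fintype.card_fin]
    rw [mul_comm]
  exact hlow.trans (hswap ▸ hup)

theorem gam_add (n : ℕ) (b : ℝ) : (volume (hb n b)).toReal = om n / 2 - gam n b := by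
  have h4 : gam n b = om n / 2 - (volume (hb n b)).toReal := rfl
  linarith

theorem TT_subset (B : HB n C1 CP D k e h M y0 z Φ m) (I : IsExp n D k e h M y0 Φ ex)
    (Q : IsPos n CP D k e M z Φ ex a0 ν) {b ρ : ℝ} (hb : 0 < b) (hb8 : b ≤ 1 / 8) (hρ : 0 < ρ)
    (hρD : 16 * ρ ≤ b * D) (hkρ : 16 * k ≤ b * ρ) :
    TT C1 e b ρ ex a0 ν ⊆ ball z (2 * ρ) := by
  intro w hw
  simp only [TT, mem_iUnion] at hw
  obtain ⟨u, hu, hw⟩ := hw
  exact (TT_facts B I Q hb hb8 hρ hρD hkρ hu hw).2.1

/-- Lower bound for the volume of the tube. -/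
theorem vol_TT (hX : Contr n A c X m) (B : HB n C1 CP D k e h M y0 z Φ m)
    (I : IsExp n D k e h M y0 Φ ex)
    (Q : IsPos n CP D k e M z Φ ex a0 ν) {b ρ : ℝ} (hb : 0 < b) (hb8 : b ≤ 1 / 8) (hρ : 0 < ρ)
    (hρD : 16 * ρ ≤ b * D) (hkρ : 16 * k ≤ b * ρ)
    (he : 3 * (n + 3) * om n * (C1 * e) ≤ gam n b * (b * ρ)) :
    (om n / 2 - 3 / 2 * gam n b) * (2 * ρ) ^ (n + 1) ≤ (m (TT C1 e b ρ ex a0 ν)).toReal ∧
      e / D * om n ≤ gam n b / 3 := by
  have P := B.par
  have hC := P.hC
  have hD := P.hD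
  have he0 := P.he
  have hbρ : 0 < b * ρ := mul_pos hb hρ
  have hω := om_pos n
  have hg := gam_pos' n hb
  obtain ⟨r1, r2, r3, r4⟩ := r_facts P hb hρ hkρ
  have haux := vol_TT_aux hX B I Q hb hb8 hρ hρD hkρ
  set r := b * ρ / C1 with hr
  set T := TT C1 e b ρ ex a0 ν with hT
  have hTf : m T < ∞ := by
    refine (measure_mono ((TT_subset B I Q hb hb8 hρ hρD hkρ).trans ball_subset_closedBall)).trans_lt
      (hX.finite_ball z (2 * ρ))
  set x := 3 * e / r with hx
  have hx0 : 0 < x := by positivity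
  have hxr : x * r = 3 * e := by rw [hx]; field_simp
  have hx1 : x < 1 := by
    rw [hx, div_lt_one r1]
    linarith
  -- `(n+3) ω x ≤ g`
  have hxg : (n + 3) * (om n * x) ≤ gam n b := by
    have h1 : x * (b * ρ) = 3 * (C1 * e) := by
      rw [← r2]
      calc x * (C1 * r) = C1 * (x * r) := by ring
        _ = 3 * (C1 * e) := by rw [hxr]; ring
    have h2 : (n + 3) * (om n * x) * (b * ρ) ≤ gam n b * (b * ρ) := by
      calc (n + 3) * (om n * x) * (b * ρ) = (n + 3) * om n * (x * (b * ρ)) := by ring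
        _ = 3 * (n + 3) * om n * (C1 * e) := by rw [h1]; ring
        _ ≤ _ := he
    exact le_of_mul_le_mul_right h2 hbρ
  have heD : e / D ≤ x := by
    rw [div_le_iff₀ hD]
    have h1 : r ≤ D := by nlinarith
    nlinarith
  have hn0 : (0 : ℝ) ≤ n := Nat.cast_nonneg n
  have hωx : 0 < om n * x := mul_pos hω hx0
  have heD0 : 0 < e / D := by positivity
  have heDω : e / D * om n ≤ om n * x := by
    rw [mul_comm (om n)]
    exact mul_le_mul_of_nonneg_right heD hω.le
  have heD1 : e / D ≤ 1 := heD.trans hx1.le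
  refine ⟨?_, ?_⟩
  swap
  · have h8 : (n + 3) * (om n * x) = (n : ℝ) * (om n * x) + 3 * (om n * x) := by ring
    have h9 := mul_nonneg hn0 hωx.le
    linarith
  rw [vol_GG n hρ Q.norm_ν] at haux
  have h1 := ENNReal.toReal_mono (ENNReal.mul_ne_top ENNReal.ofReal_ne_top hTf.ne) haux
  rw [ENNReal.toReal_mul, ENNReal.toReal_mul, ENNReal.toReal_mul, gam_add,
    ENNReal.toReal_ofReal (by
      have : 0 ≤ 1 - e / D := by linarith
      positivity), ENNReal.toReal_ofReal (by positivity),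
    ENNReal.toReal_ofReal (by positivity)] at h1
  have hber : 1 - ((n + 1 : ℕ) : ℝ) * x ≤ (1 - x) ^ (n + 1) := by
    have := one_add_mul_le_pow (a := -x) (by linarith) (n + 1)
    have h2 : 1 + ((n + 1 : ℕ) : ℝ) * -x = 1 - ((n + 1 : ℕ) : ℝ) * x := by ring
    rw [h2] at this
    rwa [← sub_eq_add_neg] at this
  have hrr : r - 3 * e = r * (1 - x) := by rw [mul_sub, mul_one, mul_comm r x, hxr]
  rw [hrr, mul_pow] at h1
  set S := (2 * ρ) ^ (n + 1) with hS
  have hS0 : 0 < S := by positivity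
  set mT := (m T).toReal with hmT
  have hrN : 0 < om n * r ^ (n + 1) := by positivity
  have h2 : (om n * r ^ (n + 1)) * ((1 - e / D) * (1 - x) ^ (n + 1) * (S * (om n / 2 - gam n b)))
      ≤ (om n * r ^ (n + 1)) * mT := by
    calc _ = (1 - e / D) * om n * (r ^ (n + 1) * (1 - x) ^ (n + 1)) * (S * (om n / 2 - gam n b)) := by
          ring
      _ ≤ _ := h1
  have h3 := le_of_mul_le_mul_left h2 hrN
  have hV0 : 0 ≤ om n / 2 - gam n b := by
    rw [← gam_add]
    exact ENNReal.toReal_nonneg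
  have h4 : 1 - e / D - ((n : ℝ) + 1) * x ≤ (1 - e / D) * (1 - x) ^ (n + 1) := by
    have h5 : (1 - e / D) * (1 - ((n + 1 : ℕ) : ℝ) * x) ≤ (1 - e / D) * (1 - x) ^ (n + 1) :=
      mul_le_mul_of_nonneg_left hber (by linarith)
    push_cast at h5
    have h6 : 0 ≤ e / D * (((n : ℝ) + 1) * x) := by positivity
    have h7 : (1 - e / D) * (1 - ((n : ℝ) + 1) * x)
        = 1 - e / D - ((n : ℝ) + 1) * x + e / D * (((n : ℝ) + 1) * x) := by ring
    linarith
  have h5 : (1 - e / D - ((n : ℝ) + 1) * x) * (S * (om n / 2 - gam n b)) ≤ mT :=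
    (mul_le_mul_of_nonneg_right h4 (mul_nonneg hS0.le hV0)).trans h3
  have h6 : (e / D + ((n : ℝ) + 1) * x) * om n ≤ gam n b := by
    have h7 : (e / D + ((n : ℝ) + 1) * x) * om n = e / D * om n + ((n : ℝ) + 1) * (om n * x) := by
      ring
    have h8 : (n + 3) * (om n * x) = ((n : ℝ) + 1) * (om n * x) + 2 * (om n * x) := by ring
    rw [h7]
    linarith
  have h7 : (e / D + ((n : ℝ) + 1) * x) * (om n / 2 - gam n b) ≤ gam n b / 2 := by
    have h8 : 0 ≤ (e / D + ((n : ℝ) + 1) * x) := by positivity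
    have h9 := mul_nonneg h8 hg.le
    have h10 : (e / D + ((n : ℝ) + 1) * x) * (om n / 2 - gam n b)
        = ((e / D + ((n : ℝ) + 1) * x) * om n) / 2 - (e / D + ((n : ℝ) + 1) * x) * gam n b := by
      ring
    rw [h10]
    linarith
  have h8 : (om n / 2 - 3 / 2 * gam n b) * S
      ≤ (1 - e / D - ((n : ℝ) + 1) * x) * (S * (om n / 2 - gam n b)) := by
    have h9 : (1 - e / D - ((n : ℝ) + 1) * x) * (S * (om n / 2 - gam n b))
        = ((om n / 2 - gam n b) - (e / D + ((n : ℝ) + 1) * x) * (om n / 2 - gam n b)) * S := by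
      ring
    rw [h9]
    apply mul_le_mul_of_nonneg_right _ hS0.le
    linarith
  exact h8.trans h5

theorem vol_main (hc : 0 < c) (hX : Contr n A c X m) (B : HB n C1 CP D k e h M y0 z Φ m)
    (I : IsExp n D k e h M y0 Φ ex) (Q : IsPos n CP D k e M z Φ ex a0 ν)
    {b ρ : ℝ} (hb : 0 < b) (hb8 : b ≤ 1 / 8) (hρ : 0 < ρ) (hρD : 16 * ρ ≤ b * D)
    (hkρ : 16 * k ≤ b * ρ) (hgam : gam n b ≤ om n / 8)
    (he : 3 * (n + 3) * om n * (C1 * e) ≤ gam n b * (b * ρ)) :
    ENNReal.ofReal (om n / 4 * (2 * ρ) ^ (n + 1)) ≤ m (ball z (2 * ρ)) ∧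
    m {w | dist w z < 2 * ρ ∧ ht a0 ν (Φ w) ≤ 2 * b * ρ}
      ≤ ENNReal.ofReal (2 * gam n b * (2 * ρ) ^ (n + 1)) ∧
    ∀ τ, 0 < τ → τ ≤ 1 / 2 → 2 * gam n b < om n / 4 * c * (τ / 4) ^ (n + 1) →
      ∀ a, dist a z ≤ 3 / 2 * ρ →
        ∃ u : E n, dist u a0 ≤ 2 * ρ ∧ 4 * b * ρ ≤ ht a0 ν u ∧ dist a (ex u) ≤ (τ + b) * ρ := by
  have P := B.par
  have hC := P.hC
  have hD := P.hD
  have he0 := P.he
  have hbρ : 0 < b * ρ := mul_pos hb hρ
  have hω := om_pos n
  have hg := gam_pos' n hb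
  obtain ⟨r1, r2, r3, r4⟩ := r_facts P hb hρ hkρ
  obtain ⟨v1, v2⟩ := vol_TT hX B I Q hb hb8 hρ hρD hkρ he
  have hsub := TT_subset B I Q hb hb8 hρ hρD hkρ
  set T := TT C1 e b ρ ex a0 ν with hT
  have hTo : IsOpen T := TT_open C1 e b ρ ex a0 ν
  have hTf : m T < ∞ :=
    (measure_mono (hsub.trans ball_subset_closedBall)).trans_lt (hX.finite_ball z (2 * ρ))
  set S := (2 * ρ) ^ (n + 1) with hS
  have hS0 : 0 < S := by positivity
  have hρD' : 2 * ρ ≤ D := by nlinarith
  have hz := B.volz (2 * ρ) (by linarith) hρD'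
  have h1 : ENNReal.ofReal (om n / 4 * S) ≤ m (ball z (2 * ρ)) := by
    refine le_trans ?_ (measure_mono hsub)
    rw [← ENNReal.ofReal_toReal hTf.ne]
    apply ENNReal.ofReal_le_ofReal
    refine le_trans ?_ v1
    apply mul_le_mul_of_nonneg_right _ hS0.le
    linarith
  have hdiff : m (ball z (2 * ρ) \ T) ≤ ENNReal.ofReal (2 * gam n b * S) := by
    rw [measure_sdiff hsub hTo.measurableSet.nullMeasurableSet hTf.ne]
    rw [tsub_le_iff_right]
    refine hz.trans ?_
    rw [← ENNReal.ofReal_toReal hTf.ne, ← ENNReal.ofReal_add (by positivity) ENNReal.toReal_nonneg]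
    apply ENNReal.ofReal_le_ofReal
    have h2 : (1 / 2 + e / D) * om n * S ≤ (om n / 2 + gam n b / 3) * S := by
      apply mul_le_mul_of_nonneg_right _ hS0.le
      linarith
    have h3 : (om n / 2 + gam n b / 3) * S
        ≤ 2 * gam n b * S + (om n / 2 - 3 / 2 * gam n b) * S := by
      rw [← add_mul]
      apply mul_le_mul_of_nonneg_right _ hS0.le
      linarith
    linarith
  refine ⟨h1, ?_, ?_⟩
  · refine le_trans (measure_mono ?_) hdiff
    rintro w ⟨hw1, hw2⟩
    refine ⟨hw1, fun hwT => ?_⟩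
    simp only [hT, TT, mem_iUnion] at hwT
    obtain ⟨u, hu, hw⟩ := hwT
    have := (TT_facts B I Q hb hb8 hρ hρD hkρ hu hw).2.2
    linarith
  · intro τ hτ hτ2 hτg a ha
    have hρ6 : 7 / 2 * ρ ≤ 6 := by
      have := B.D_le
      nlinarith
    have h2 := ball_far hX a (r := 7 / 8 * (τ * ρ)) (R := 7 / 2 * ρ) (by positivity)
      (by nlinarith) hρ6
    have h3 : 7 / 8 * (τ * ρ) / (7 / 2 * ρ) = τ / 4 := by
      field_simp
      ring
    rw [h3] at h2
    have h4 : ball z (2 * ρ) ⊆ closedBall a (7 / 2 * ρ) := by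
      intro w hw
      rw [mem_ball] at hw
      rw [mem_closedBall]
      have := dist_triangle w z a
      rw [dist_comm z] at this
      linarith
    have h5 : ENNReal.ofReal (2 * gam n b * S) < m (closedBall a (7 / 8 * (τ * ρ))) := by
      refine lt_of_lt_of_le ?_ h2
      refine lt_of_lt_of_le ?_ (mul_le_mul_right ((h1.trans (measure_mono h4))) _)
      rw [← ENNReal.ofReal_mul (by positivity)]
      rw [ENNReal.ofReal_lt_ofReal_iff (by positivity)]
      have h6 : c * (τ / 4) ^ (n + 1) * (om n / 4 * S) = om n / 4 * c * (τ / 4) ^ (n + 1) * S := by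
        ring
      rw [h6]
      exact mul_lt_mul_of_pos_right hτg hS0
    have h6 : ∃ w ∈ closedBall a (7 / 8 * (τ * ρ)), w ∈ T := by
      by_contra hn
      push Not at hn
      have h7 : closedBall a (7 / 8 * (τ * ρ)) ⊆ ball z (2 * ρ) \ T := by
        intro w hw
        refine ⟨?_, hn w hw⟩
        rw [mem_closedBall] at hw
        rw [mem_ball]
        have := dist_triangle w a z
        nlinarith
      exact absurd ((measure_mono h7).trans hdiff) (not_le.2 h5)
    obtain ⟨w, hw1, hw2⟩ := h6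
    simp only [hT, TT, mem_iUnion] at hw2
    obtain ⟨u, hu, hw⟩ := hw2
    refine ⟨u, hu.1.trans (by nlinarith), hu.2, ?_⟩
    rw [mem_closedBall, dist_comm] at hw1
    rw [mem_ball] at hw
    have := dist_triangle a w (ex u)
    nlinarith

end vol

end

end Pool.Agent.BDRY
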