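import Pool.Agent.Work.MP_209cb6_gt.HHigh
import Pool.Agent.Work.MP_209cb6_gt.HVol

/-!
# Half-ball lemma: conclusion
-/

set_option autoImplicit false

open MeasureTheory Metric Set Filter Topology
open scoped ENNReal

namespace Pool.Agent.BDRY

noncomputable section

universe u

set_option linter.unusedSectionVars false

section nohigh
variable {X : Type u} [MetricSpace X] [MeasurableSpace X] [BorelSpace X] {n : ℕ} {m : Measure X}
  {A c C1 CP D k e h ρ t1 s d1 G : ℝ} {M Qn J' : ℕ}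
  {y0 z : X} {Φ : X → E n} {ex : E n → X} {a0 ν : E n}

/-- There are no highways along the boundary. -/
theorem no_highway (hc : 0 < c) (hX : Contr n A c X m) (B : HB n C1 CP D k e h M y0 z Φ m)
    (I : IsExp n D k e h M y0 Φ ex)
    (Q : IsPos n CP D k e M z Φ ex a0 ν) (H : HiPar C1 CP D k e h ρ t1 s d1 M Qn J')
    (hN : NearEx n D k ρ s z ex a0 ν) (hG0 : 0 ≤ G)
    (hS : m {w | dist w z < 2 * ρ ∧ ht a0 ν (Φ w) ≤ 5 * t1} ≤ ENNReal.ofReal (G * (2 * ρ) ^ (n + 1)))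
    (hlow : ENNReal.ofReal (om n / 4 * (2 * ρ) ^ (n + 1)) ≤ m (ball z (2 * ρ)))
    (hGs : Qn * G < c * (1 / Qn) ^ (n + 1) * (c * (d1 / (8 * CP) / (4 * ρ)) ^ (n + 1)) * (om n / 4))
    {a b : X} (ha : dist a z ≤ 3 / 5 * ρ) (hb : dist b z ≤ 3 / 5 * ρ)
    (hta : d1 ≤ ht a0 ν (Φ a)) (htb : d1 ≤ ht a0 ν (Φ b)) :
    dist (Φ a) (Φ b) ≤ dist a b + d1 := by
  by_contra hcon
  push Not at hcon
  have P := B.par
  have hCP := B.CP_ge
  have hρ := H.ρ_pos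
  have hρD := H.ρD
  have hD1 := B.D_le
  have ht1 := H.t1_pos
  have hd1t := H.d1t
  have hd1ρ := H.d1ρ
  have hd1 : 0 < d1 := by linarith
  have hom0 : 0 < om n := om_pos n
  have hQn0 : (0 : ℝ) < Qn := by exact_mod_cast H.Qn_pos
  set rA := d1 / (8 * CP) with hrA
  have hrA0 : 0 < rA := by positivity
  have hrA1 : CP * rA = d1 / 8 := by rw [hrA]; field_simp
  have hrA2 : rA ≤ d1 / 8 := by
    rw [← hrA1]
    nlinarith
  set S : Set X := {w | dist w z < 2 * ρ ∧ ht a0 ν (Φ w) ≤ 5 * t1} with hSdef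
  have hcov : closedBall a rA ⊆ ⋃ q ∈ Finset.range Qn, Zt b 6 ((q : ℝ) / Qn) S := by
    intro a' ha'
    rw [mem_closedBall] at ha'
    have h1 : dist a' z ≤ 5 / 8 * ρ := by
      have := dist_triangle a' a z
      linarith
    have h2 : dist (Φ a') (Φ a) ≤ d1 / 8 := by
      have h3 := B.lip a' a (near_dist B H (by linarith)) (near_dist B H (by linarith))
      have h4 : CP * dist a' a ≤ CP * rA := mul_le_mul_of_nonneg_left ha' (by linarith)
      linarith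
    have h3 := ht_sub_le (a0 := a0) Q.norm_ν (Φ a) (Φ a')
    rw [dist_comm] at h3
    have h4 : 5 * t1 ≤ ht a0 ν (Φ a') := by linarith
    have h5 : dist a' b + 3 / 4 * d1 ≤ dist (Φ a') (Φ b) := by
      have h6 := dist_triangle a' a b
      have h7 := dist_triangle (Φ a) (Φ a') (Φ b)
      rw [dist_comm (Φ a) (Φ a')] at h7
      linarith
    obtain ⟨q, -, hq2, hq3⟩ := collar_hit hX.geod B I Q H hN h1 (by linarith) h4 (by linarith) h5
    simp only [mem_iUnion, Finset.mem_range]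
    exact ⟨q, hq2, hq3⟩
  have hfar : ∀ q ∈ Finset.range Qn,
      ENNReal.ofReal (c * (1 / Qn) ^ (n + 1)) * m (Zt b 6 ((q : ℝ) / Qn) S) ≤ m S := by
    intro q hq
    rw [Finset.mem_range] at hq
    have hq' : (q : ℝ) + 1 ≤ Qn := by exact_mod_cast hq
    have h1 : (q : ℝ) / Qn < 1 := by
      rw [div_lt_one hQn0]
      linarith
    refine le_trans ?_ (hX.far b ((q : ℝ) / Qn) S (by positivity) h1)
    have h2 : 1 / (Qn : ℝ) ≤ 1 - (q : ℝ) / Qn := by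
      rw [div_le_iff₀ hQn0, sub_mul, div_mul_cancel₀ _ hQn0.ne']
      linarith
    gcongr
  have h1 : ENNReal.ofReal (c * (1 / Qn) ^ (n + 1)) * m (closedBall a rA) ≤ Qn * m S := by
    calc ENNReal.ofReal (c * (1 / Qn) ^ (n + 1)) * m (closedBall a rA)
        ≤ ENNReal.ofReal (c * (1 / Qn) ^ (n + 1))
          * ∑ q ∈ Finset.range Qn, m (Zt b 6 ((q : ℝ) / Qn) S) := by
          gcongr
          exact (measure_mono hcov).trans (measure_biUnion_finset_le _ _)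
      _ = ∑ q ∈ Finset.range Qn,
          ENNReal.ofReal (c * (1 / Qn) ^ (n + 1)) * m (Zt b 6 ((q : ℝ) / Qn) S) := by
          rw [Finset.mul_sum]
      _ ≤ ∑ q ∈ Finset.range Qn, m S := Finset.sum_le_sum hfar
      _ = Qn * m S := by rw [Finset.sum_const, Finset.card_range, nsmul_eq_mul]
  have h2 : ENNReal.ofReal (c * (rA / (4 * ρ)) ^ (n + 1)) * m (closedBall a (4 * ρ))
      ≤ m (closedBall a rA) := ball_far hX a hrA0 (by linarith) (by linarith)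
  have h3 : m (ball z (2 * ρ)) ≤ m (closedBall a (4 * ρ)) := by
    refine measure_mono fun w hw => ?_
    rw [mem_ball] at hw
    rw [mem_closedBall]
    have := dist_triangle_right w a z
    linarith
  have h4 : ENNReal.ofReal (c * (1 / Qn) ^ (n + 1)) * (ENNReal.ofReal (c * (rA / (4 * ρ)) ^ (n + 1))
      * ENNReal.ofReal (om n / 4 * (2 * ρ) ^ (n + 1)))
      ≤ Qn * ENNReal.ofReal (G * (2 * ρ) ^ (n + 1)) := by
    calc _ ≤ ENNReal.ofReal (c * (1 / Qn) ^ (n + 1)) * m (closedBall a rA) := by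
          gcongr
          exact le_trans (by gcongr; exact hlow.trans h3) h2
      _ ≤ Qn * m S := h1
      _ ≤ _ := by gcongr
  have h5 : (Qn : ℝ≥0∞) = ENNReal.ofReal Qn := by rw [ENNReal.ofReal_natCast]
  rw [h5, ← ENNReal.ofReal_mul (by positivity), ← ENNReal.ofReal_mul (by positivity),
    ← ENNReal.ofReal_mul (by positivity)] at h4
  rw [ENNReal.ofReal_le_ofReal_iff (by positivity)] at h4
  have h6 : 0 < (2 * ρ) ^ (n + 1) := by positivity
  have h7 := mul_lt_mul_of_pos_right hGs h6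
  have h8 : c * (1 / (Qn : ℝ)) ^ (n + 1) * (c * (rA / (4 * ρ)) ^ (n + 1)) * (om n / 4)
      * (2 * ρ) ^ (n + 1) = c * (1 / (Qn : ℝ)) ^ (n + 1) * (c * (rA / (4 * ρ)) ^ (n + 1)
      * (om n / 4 * (2 * ρ) ^ (n + 1))) := by ring
  rw [h8] at h7
  have h9 : (Qn : ℝ) * (G * (2 * ρ) ^ (n + 1)) = Qn * G * (2 * ρ) ^ (n + 1) := by ring
  rw [h9] at h4
  linarith

/-- Lifting a point near `z` to a deep point. -/
theorem exists_lift (B : HB n C1 CP D k e h M y0 z Φ m)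
    (I : IsExp n D k e h M y0 Φ ex)
    (Q : IsPos n CP D k e M z Φ ex a0 ν) (H : HiPar C1 CP D k e h ρ t1 s d1 M Qn J')
    (hN : NearEx n D k ρ s z ex a0 ν) {a : X} (ha : dist a z ≤ 1 / 2 * ρ) :
    ∃ a' : X, dist a a' ≤ 2 * d1 ∧ dist (Φ a) (Φ a') ≤ 2 * d1 ∧ InW D k e Φ ex a' ∧
      d1 ≤ ht a0 ν (Φ a') ∧ dist a' z ≤ 3 / 5 * ρ := by
  have P := B.par
  have hρ := H.ρ_pos
  have hD := P.hD
  have ht1 := H.t1_pos
  have hd1t := H.d1t
  have hd1ρ := H.d1ρ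
  have hk := P.hk
  have hkt := H.kt
  have he := P.he
  have hhk := P.h_le
  have hel := P.e_le
  have hMe := P.hMe
  have hs2 := H.s2
  have hs0 := H.s_nonneg
  have hC := P.hC
  obtain ⟨u, hu, hua, hut, hau⟩ := hN a (by linarith)
  have h1 := near_image B I H (by linarith) hu hau
  set v := u + (3 / 2 * d1) • ν with hv
  have hvu : dist v u = 3 / 2 * d1 := by
    rw [hv, dist_eq_norm, add_sub_cancel_left, norm_smul, Q.norm_ν, mul_one, Real.norm_eq_abs,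
      abs_of_pos (by linarith)]
  have hvt : ht a0 ν v = ht a0 ν u + 3 / 2 * d1 := by
    have h2 : v - a0 = (u - a0) + (3 / 2 * d1) • ν := by rw [hv]; abel
    unfold ht
    rw [h2, inner_add_left, real_inner_smul_left, real_inner_self_eq_norm_sq, Q.norm_ν]
    ring
  have hva : dist v a0 ≤ 3 * ρ := by
    have := dist_triangle v u a0
    linarith
  have h3 := Q.norm_le P v
  have h4 : dist v a0 ^ 2 / D ≤ d1 / 8 := by
    rw [div_le_iff₀ hD]
    have h5 : dist v a0 ^ 2 ≤ (3 * ρ) ^ 2 := pow_le_pow_left₀ dist_nonneg hva 2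
    have h6 := H.ρt
    have h7 : t1 * D ≤ d1 / 6 * D := mul_le_mul_of_nonneg_right (by linarith) hD.le
    nlinarith
  have hv4 : ‖v‖ ≤ D - 4 * k := by linarith
  have hv1 : ‖v‖ ≤ D - k := by linarith
  have hW := (inW_of_near P B.charts I (a := ex v) (u := v) hv4
    (by rw [dist_self]; linarith)).1
  have h5 := I.near v hv1
  have h6 := ht_sub_le (a0 := a0) Q.norm_ν v (Φ (ex v))
  rw [dist_comm] at h6
  have h7 := I.glob u v hu hv1
  rw [dist_comm u v, hvu] at h7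
  have hs : s ≤ t1 / 64 := by nlinarith
  have h8 := dist_triangle a (ex u) (ex v)
  have h9 : dist a (ex v) ≤ 2 * d1 := by linarith
  refine ⟨ex v, h9, ?_, hW, by linarith, ?_⟩
  · have h10 := dist_triangle4 (Φ a) u v (Φ (ex v))
    rw [dist_comm u v, hvu, dist_comm v] at h10
    linarith
  · have h10 := dist_triangle (ex v) a z
    rw [dist_comm (ex v) a] at h10
    linarith

/-- Final step: the ball is half-space-like. -/
theorem half_like_of (B : HB n C1 CP D k e h M y0 z Φ m)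
    (I : IsExp n D k e h M y0 Φ ex)
    (Q : IsPos n CP D k e M z Φ ex a0 ν) (H : HiPar C1 CP D k e h ρ t1 s d1 M Qn J')
    (hN : NearEx n D k ρ s z ex a0 ν)
    (hnh : ∀ a b, dist a z ≤ 3 / 5 * ρ → dist b z ≤ 3 / 5 * ρ → d1 ≤ ht a0 ν (Φ a) →
      d1 ≤ ht a0 ν (Φ b) → dist (Φ a) (Φ b) ≤ dist a b + d1)
    (hCk : 6 * (CP * k) ≤ d1) {δ : ℝ} (hδ : 64 * d1 ≤ δ * ρ) {z1 : X} (hz1 : dist z z1 ≤ k) :
    HalfLike n z1 (ρ / 4) δ := by
  have P := B.par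
  have hρ := H.ρ_pos
  have hD := P.hD
  have ht1 := H.t1_pos
  have hd1t := H.d1t
  have hd1ρ := H.d1ρ
  have hk := P.hk
  have hkt := H.kt
  have he := P.he
  have hhk := P.h_le
  have hel := P.e_le
  have hMe := P.hMe
  have hCP := B.CP_ge
  have hdz := Q.dist_z
  -- distortion
  have hdist : ∀ a b, dist a z ≤ 1 / 2 * ρ → dist b z ≤ 1 / 2 * ρ →
      |dist a b - dist (Φ a) (Φ b)| ≤ 9 * d1 := by
    intro a b ha hb
    obtain ⟨a', ha1, ha2, ha3, ha4, ha5⟩ := exists_lift B I Q H hN ha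
    obtain ⟨b', hb1, hb2, hb3, hb4, hb5⟩ := exists_lift B I Q H hN hb
    have h1 := hnh a' b' ha5 hb5 ha4 hb4
    have h2 := ha3.dist_le I hb3
    have h3 := dist_triangle4 a a' b' b
    have h4 := dist_triangle4 a' a b b'
    have h5 := dist_triangle4 (Φ a) (Φ a') (Φ b') (Φ b)
    have h6 := dist_triangle4 (Φ a') (Φ a) (Φ b) (Φ b')
    have e1 := dist_comm b' b
    have e2 := dist_comm a' a
    have e3 := dist_comm (Φ b') (Φ b)
    have e4 := dist_comm (Φ a') (Φ a)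
    rw [abs_le]
    constructor <;> linarith
  -- heights
  have hht : ∀ a, dist a z ≤ 1 / 2 * ρ → -(d1 / 8) ≤ ht a0 ν (Φ a) := by
    intro a ha
    obtain ⟨u, hu, hua, hut, hau⟩ := hN a (by linarith)
    have h1 := near_image B I H (by linarith) hu hau
    have h2 := ht_sub_le (a0 := a0) Q.norm_ν u (Φ a)
    rw [dist_comm] at h2
    linarith
  -- the point `z1`
  have hz1z : dist z1 z ≤ k := by rw [dist_comm]; exact hz1
  have hz1a : dist (Φ z1) a0 ≤ d1 / 2 := by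
    have h1 := B.lip z1 z (near_dist B H (by linarith))
      (near_dist B H (by rw [dist_self]; linarith))
    have h2 : CP * dist z1 z ≤ CP * k := mul_le_mul_of_nonneg_left hz1z (by linarith)
    have h3 := dist_triangle (Φ z1) (Φ z) a0
    linarith
  -- the rotation
  set ez : E n := EuclideanSpace.single (Fin.last n) (1 : ℝ) with hez
  have hez1 : ‖ez‖ = 1 := by rw [hez]; simp
  obtain ⟨R, hR⟩ : ∃ R : E n ≃ₗᵢ[ℝ] E n, R ν = ez :=
    ⟨(ℝ ∙ (ν - ez))ᗮ.reflection, Submodule.reflection_sub (by rw [Q.norm_ν, hez1])⟩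
  have hlast : ∀ x : E n, (R x) (Fin.last n) = inner ℝ x ν := by
    intro x
    have h1 : inner ℝ (R x) ez = (R x) (Fin.last n) := by
      rw [hez, EuclideanSpace.inner_single_right]
      simp
    rw [← h1, ← hR, R.inner_map_map]
  -- the map
  set F : X → E n := fun a => R (Φ a - Φ z1) with hF
  set f : X → E n := fun a => F a + (max 0 (F a (Fin.last n)) - F a (Fin.last n)) • ez with hf
  have hfl : ∀ a, f a (Fin.last n) = max 0 (F a (Fin.last n)) := by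
    intro a
    simp only [hf, hez]
    simp
  have hFd : ∀ a b, dist (F a) (F b) = dist (Φ a) (Φ b) := by
    intro a b
    simp only [hF]
    rw [R.dist_map, dist_sub_right]
  have hFl : ∀ a, F a (Fin.last n) = ht a0 ν (Φ a) - ht a0 ν (Φ z1) := by
    intro a
    simp only [hF]
    rw [hlast]
    unfold ht
    rw [← inner_sub_left]
    congr 1
    abel
  have hfF : ∀ a, dist a z ≤ 1 / 2 * ρ → dist (f a) (F a) ≤ d1 := by
    intro a ha
    simp only [hf]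
    rw [dist_eq_norm, add_sub_cancel_left, norm_smul, hez1, mul_one, Real.norm_eq_abs]
    have h1 : -d1 ≤ F a (Fin.last n) := by
      rw [hFl]
      have h2 := hht a ha
      have h3 : ht a0 ν (Φ z1) ≤ d1 / 2 := by
        have h4 := ht_sub_le (a0 := a0) Q.norm_ν (Φ z1) a0
        have h5 : ht a0 ν a0 = 0 := by unfold ht; rw [sub_self, inner_zero_left]
        linarith
      linarith
    rcases le_total 0 (F a (Fin.last n)) with h2 | h2
    · rw [max_eq_right h2, sub_self, abs_zero]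
      linarith
    · rw [max_eq_left h2, zero_sub, abs_neg, abs_of_nonpos h2]
      linarith
  have hball : ∀ a ∈ ball z1 (ρ / 4), dist a z ≤ 1 / 2 * ρ := by
    intro a ha
    rw [mem_ball] at ha
    have := dist_triangle a z1 z
    linarith
  refine ⟨f, fun a => ?_, ?_, ?_, ?_⟩
  · rw [hfl]
    exact le_max_left _ _
  · have h1 : F z1 = 0 := by simp only [hF, sub_self, map_zero]
    simp only [hf]
    rw [h1]
    simp
  · intro a ha b hb
    have h1 := hdist a b (hball a ha) (hball b hb)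
    have h2 := hfF a (hball a ha)
    have h3 := hfF b (hball b hb)
    have h4 := dist_triangle4 (f a) (F a) (F b) (f b)
    have h5 := dist_triangle4 (F a) (f a) (f b) (F b)
    have e1 := dist_comm (F a) (f a)
    have e2 := dist_comm (F b) (f b)
    have e3 := hFd a b
    rw [abs_le] at h1 ⊢
    constructor <;> linarith [h1.1, h1.2]
  · intro y hy hyn
    have hyn' : ‖y‖ < ρ / 4 - 16 * d1 := by linarith
    set u : E n := a0 + R.symm y + (2 * d1) • ν with hu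
    have hua : dist u a0 ≤ ‖y‖ + 2 * d1 := by
      have h1 : u - a0 = R.symm y + (2 * d1) • ν := by rw [hu]; abel
      rw [dist_eq_norm, h1]
      refine (norm_add_le _ _).trans ?_
      rw [R.symm.norm_map, norm_smul, Q.norm_ν, mul_one, Real.norm_eq_abs,
        abs_of_pos (by linarith)]
    have hut : ht a0 ν u = y (Fin.last n) + 2 * d1 := by
      have h1 : u - a0 = R.symm y + (2 * d1) • ν := by rw [hu]; abel
      unfold ht
      rw [h1, inner_add_left, real_inner_smul_left, real_inner_self_eq_norm_sq, Q.norm_ν,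
        ← hlast, R.apply_symm_apply]
      ring
    have h3 := Q.norm_le P u
    have h4 : dist u a0 ^ 2 / D ≤ d1 / 8 := by
      rw [div_le_iff₀ hD]
      have h5 : dist u a0 ^ 2 ≤ (3 * ρ) ^ 2 :=
        pow_le_pow_left₀ dist_nonneg (by linarith) 2
      have h6 := H.ρt
      have h7 : t1 * D ≤ d1 / 6 * D := mul_le_mul_of_nonneg_right (by linarith) hD.le
      nlinarith
    have hu1 : ‖u‖ ≤ D - k := by linarith
    have h5 := Q.dist_ex u hu1
    have h6 := I.near u hu1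
    have h7 : dist (ex u) z1 < ρ / 4 := by
      have := dist_triangle (ex u) z z1
      linarith
    refine ⟨ex u, mem_ball.2 h7, ?_⟩
    have h8 := hfF (ex u) (hball _ (mem_ball.2 h7))
    have h9 : dist (F (ex u)) y ≤ e + d1 / 2 + 2 * d1 := by
      have h10 : F (ex u) - y = R ((Φ (ex u) - u) + (a0 - Φ z1) + (2 * d1) • ν) := by
        simp only [hF]
        have h11 : y = R (R.symm y) := (R.apply_symm_apply y).symm
        conv_lhs => rw [h11]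
        rw [← map_sub]
        congr 1
        rw [hu]
        abel
      rw [dist_eq_norm, h10, R.norm_map]
      refine (norm_add₃_le).trans ?_
      rw [← dist_eq_norm, ← dist_eq_norm, dist_comm a0, norm_smul, Q.norm_ν, mul_one,
        Real.norm_eq_abs, abs_of_pos (by linarith : 0 < 2 * d1)]
      linarith
    have h10 := dist_triangle (f (ex u)) (F (ex u)) y
    linarith

end nohigh

theorem ev_le (a : ℝ) {b : ℝ} (hb : 0 < b) : ∀ᶠ ε in 𝓝[>] (0 : ℝ), a * ε ≤ b := by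
  have h1 : Tendsto (fun ε : ℝ => a * ε) (𝓝[>] 0) (𝓝 (a * 0)) :=
    (tendsto_const_nhds.mul tendsto_id).mono_left nhdsWithin_le_nhds
  rw [mul_zero] at h1
  exact (h1.eventually (gt_mem_nhds hb)).mono fun ε h => h.le

/-- The constants of the half-ball lemma. -/
structure HCon (n : ℕ) (c C1 CP δ δ1 τ1 b2 τ b σ κ η ε : ℝ) (Qn J' M : ℕ) : Prop where
  δ1pos : 0 < δ1
  δ1a : 64 * δ1 ≤ δ
  δ1b : 32 * δ1 ≤ 1
  Qnpos : 0 < Qn
  Qd : 5 * CP ≤ Qn * δ1
  b2pos : 0 < b2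
  b2b : b2 ≤ 1 / 8
  τ1b : 5 * τ1 = 2 * b2
  τ1δ : 6 * τ1 ≤ δ1
  gam2' : gam n b2 ≤ om n / 8
  gam2 : Qn * (2 * gam n b2) < c * (1 / Qn) ^ (n + 1) * (c * (δ1 / (32 * CP)) ^ (n + 1))
    * (om n / 4)
  τpos : 0 < τ
  τle : τ ≤ 1 / 2
  C1τ : 32 * (C1 * τ) ≤ τ1
  CPτ : 32 * (CP * τ) ≤ τ1
  bpos : 0 < b
  bτ : b ≤ τ
  bb2 : b ≤ b2
  bτ1 : b ≤ τ1
  gamb' : gam n b ≤ om n / 8
  gamb : 2 * gam n b < om n / 4 * c * (τ / 4) ^ (n + 1)
  σpos : 0 < σ
  σb : 16 * σ = b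
  κpos : 0 < κ
  κle : 16 * κ ≤ b * σ
  κCP : 16 * (CP * κ) ≤ b * σ
  ηpos : 0 < η
  ηκ : 8 * C1 * η = κ
  Mη : 2 ≤ M * η
  J'pos : 0 < J'
  J1 : 2 * σ ≤ (Qn * J' : ℕ) * η
  J2 : 2 * CP ≤ (Qn * J' : ℕ) * τ1
  εpos : 0 < ε
  e1 : 100 * (M * ε) ≤ η
  e2 : 16 * ((Qn * J' : ℕ) * ε) ≤ δ1 * σ
  e3 : ((Qn * J' : ℕ) + 3 * M + 4) * ε ≤ σ
  e3' : ((Qn * J' : ℕ) + 3 * M + 4) * ε ≤ τ1 ^ 2 * σ / 4
  e4 : 3 * (n + 3) * om n * (C1 * ε) ≤ gam n b * (b * σ)
  e5 : 3 * (n + 3) * om n * (C1 * ε) ≤ gam n b2 * (b2 * σ)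

theorem exists_eps {η δ1 σ τ1 A1 A2 B1 M Jr C : ℝ} (hη : 0 < η) (hδ1 : 0 < δ1) (hσ : 0 < σ)
    (hτ1 : 0 < τ1) (hA1 : 0 < A1) (hA2 : 0 < A2) : ∃ ε : ℝ, 0 < ε ∧ 100 * (M * ε) ≤ η ∧
      16 * (Jr * ε) ≤ δ1 * σ ∧ (Jr + 3 * M + 4) * ε ≤ σ ∧ (Jr + 3 * M + 4) * ε ≤ τ1 ^ 2 * σ / 4 ∧
      B1 * (C * ε) ≤ A1 ∧ B1 * (C * ε) ≤ A2 := by
  have h1 := ev_le (100 * M) hη
  have h2 := ev_le (16 * Jr) (b := δ1 * σ) (by positivity)
  have h3 := ev_le (Jr + 3 * M + 4) hσ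
  have h4 := ev_le (Jr + 3 * M + 4) (b := τ1 ^ 2 * σ / 4) (by positivity)
  have h5 := ev_le (B1 * C) hA1
  have h6 := ev_le (B1 * C) hA2
  obtain ⟨ε, ⟨⟨⟨⟨⟨a1, a2⟩, a3⟩, a4⟩, a5⟩, a6⟩, a7⟩ :=
    ((((((h1.and h2).and h3).and h4).and h5).and h6).and self_mem_nhdsWithin).exists
  exact ⟨ε, a7, by linarith, by linarith, a3, a4, by linarith, by linarith⟩

theorem exists_hCon (n : ℕ) {c C1 CP δ : ℝ} (hc : 0 < c) (hC1 : 4 ≤ C1) (hCP : 1 ≤ CP)
    (hδ : 0 < δ) : ∃ (δ1 τ1 b2 τ b σ κ η ε : ℝ) (Qn J' M : ℕ),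
      HCon n c C1 CP δ δ1 τ1 b2 τ b σ κ η ε Qn J' M := by
  have hom := om_pos n
  obtain ⟨δ1, hδ1pos, hδ1a, hδ1b⟩ : ∃ δ1 : ℝ, 0 < δ1 ∧ 64 * δ1 ≤ δ ∧ 32 * δ1 ≤ 1 := by
    refine ⟨min (δ / 64) (1 / 32), lt_min (by positivity) (by norm_num), ?_, ?_⟩
    · have := min_le_left (δ / 64) (1 / 32 : ℝ); linarith
    · have := min_le_right (δ / 64) (1 / 32 : ℝ); linarith
  obtain ⟨Qn, hQnpos, hQd⟩ : ∃ Qn : ℕ, 0 < Qn ∧ 5 * CP ≤ Qn * δ1 := by
    refine ⟨⌈5 * CP / δ1⌉₊ + 1, Nat.succ_pos _, ?_⟩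
    have h1 : 5 * CP / δ1 ≤ ((⌈5 * CP / δ1⌉₊ + 1 : ℕ) : ℝ) :=
      (Nat.le_ceil _).trans (by push_cast; linarith)
    rwa [div_le_iff₀ hδ1pos] at h1
  have hQn0 : (0 : ℝ) < Qn := by exact_mod_cast hQnpos
  have hQn1 : (1 : ℝ) ≤ Qn := by exact_mod_cast hQnpos
  have hCP0 : 0 < CP := by linarith
  obtain ⟨K1, hK1, hK1pos⟩ : ∃ K1 : ℝ, K1 = c * (1 / Qn) ^ (n + 1)
      * (c * (δ1 / (32 * CP)) ^ (n + 1)) * (om n / 4) ∧ 0 < K1 := ⟨_, rfl, by positivity⟩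
  obtain ⟨b0, hb0, hb0g⟩ := gam_small n (η := K1 / (4 * Qn)) (by positivity)
  obtain ⟨b0', hb0', hb0g'⟩ := gam_small n (η := om n / 8) (by positivity)
  obtain ⟨b2, hb2pos, hb2a, hb2a', hb2b, hb2c⟩ : ∃ b2 : ℝ, 0 < b2 ∧ b2 ≤ b0 ∧ b2 ≤ b0' ∧
      b2 ≤ 1 / 8 ∧ b2 ≤ 5 * δ1 / 12 :=
    ⟨min (min b0 b0') (min (1 / 8) (5 * δ1 / 12)),
      lt_min (lt_min hb0 hb0') (lt_min (by norm_num) (by positivity)),
      (min_le_left _ _).trans (min_le_left _ _), (min_le_left _ _).trans (min_le_right _ _),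
      (min_le_right _ _).trans (min_le_left _ _), (min_le_right _ _).trans (min_le_right _ _)⟩
  have hgam2 := hb0g b2 hb2pos hb2a
  have hgam2' := hb0g' b2 hb2pos hb2a'
  have hgam2pos := gam_pos n hb2pos (by linarith)
  obtain ⟨τ1, hτ1b⟩ : ∃ τ1 : ℝ, 5 * τ1 = 2 * b2 := ⟨2 * b2 / 5, by ring⟩
  have hτ1pos : 0 < τ1 := by linarith
  have hτ1δ : 6 * τ1 ≤ δ1 := by linarith
  obtain ⟨τ, hτpos, hττ⟩ : ∃ τ : ℝ, 0 < τ ∧ 32 * (C1 * τ) + 32 * (CP * τ) = τ1 := by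
    have hCC : 0 < C1 + CP := by linarith
    refine ⟨τ1 / (32 * (C1 + CP)), by positivity, ?_⟩
    field_simp
  have hC1τ : 4 * τ ≤ C1 * τ := mul_le_mul_of_nonneg_right hC1 hτpos.le
  have hCPτ : 0 < CP * τ := by positivity
  obtain ⟨b3, hb3, hb3g⟩ := gam_small n (η := om n / 4 * c * (τ / 4) ^ (n + 1) / 4) (by positivity)
  obtain ⟨b, hbpos, hbb3, hbτ, hbb2⟩ : ∃ b : ℝ, 0 < b ∧ b ≤ b3 ∧ b ≤ τ ∧ b ≤ b2 :=
    ⟨min (min b3 τ) b2, lt_min (lt_min hb3 hτpos) hb2pos,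
      (min_le_left _ _).trans (min_le_left _ _), (min_le_left _ _).trans (min_le_right _ _),
      min_le_right _ _⟩
  have hgamb := hb3g b hbpos hbb3
  have hgamb' := hb0g' b hbpos (hbb2.trans hb2a')
  have hgambpos := gam_pos n hbpos (by linarith)
  have hτK : 0 < om n / 4 * c * (τ / 4) ^ (n + 1) := by positivity
  obtain ⟨σ, hσb⟩ : ∃ σ : ℝ, 16 * σ = b := ⟨b / 16, by ring⟩
  have hσpos : 0 < σ := by linarith
  obtain ⟨κ, hκpos, hκCP⟩ : ∃ κ : ℝ, 0 < κ ∧ 16 * (CP * κ) = b * σ := by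
    refine ⟨b * σ / (16 * CP), by positivity, ?_⟩
    field_simp
  have hκle : κ ≤ CP * κ := by
    have := mul_le_mul_of_nonneg_right hCP hκpos.le
    linarith
  obtain ⟨η, hηpos, hηκ⟩ : ∃ η : ℝ, 0 < η ∧ 8 * C1 * η = κ := by
    have : 0 < C1 := by linarith
    refine ⟨κ / (8 * C1), by positivity, ?_⟩
    field_simp
  obtain ⟨M, hMη⟩ : ∃ M : ℕ, 2 ≤ M * η := by
    refine ⟨⌈2 / η⌉₊, ?_⟩
    have h1 := Nat.le_ceil (2 / η)
    rwa [div_le_iff₀ hηpos] at h1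
  obtain ⟨J', hJ'pos, hJ1, hJ2⟩ : ∃ J' : ℕ, 0 < J' ∧ 2 * σ ≤ J' * η ∧ 2 * CP ≤ J' * τ1 := by
    refine ⟨⌈2 * σ / η⌉₊ + ⌈2 * CP / τ1⌉₊ + 1, Nat.succ_pos _, ?_, ?_⟩
    · have h1 : 2 * σ / η ≤ ((⌈2 * σ / η⌉₊ + ⌈2 * CP / τ1⌉₊ + 1 : ℕ) : ℝ) :=
        (Nat.le_ceil _).trans (by
          push_cast; have := Nat.cast_nonneg (α := ℝ) ⌈2 * CP / τ1⌉₊; linarith)
      rwa [div_le_iff₀ hηpos] at h1
    · have h1 : 2 * CP / τ1 ≤ ((⌈2 * σ / η⌉₊ + ⌈2 * CP / τ1⌉₊ + 1 : ℕ) : ℝ) :=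
        (Nat.le_ceil _).trans (by
          push_cast; have := Nat.cast_nonneg (α := ℝ) ⌈2 * σ / η⌉₊; linarith)
      rwa [div_le_iff₀ hτ1pos] at h1
  have hup : ∀ x : ℝ, 0 < x → (J' : ℝ) * x ≤ ((Qn * J' : ℕ) : ℝ) * x := by
    intro x hx
    push_cast
    have h2 : 0 ≤ (J' : ℝ) := Nat.cast_nonneg _
    have h3 : 1 * (J' : ℝ) ≤ Qn * J' := mul_le_mul_of_nonneg_right hQn1 h2
    exact mul_le_mul_of_nonneg_right (by linarith) hx.le
  obtain ⟨ε, hε, he1, he2, he3, he3', he4, he5⟩ := exists_eps (M := M) (Jr := ((Qn * J' : ℕ) : ℝ))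
    (B1 := 3 * (n + 3) * om n) (C := C1) (A1 := gam n b * (b * σ)) (A2 := gam n b2 * (b2 * σ))
    hηpos hδ1pos hσpos hτ1pos (by positivity) (by positivity)
  refine ⟨δ1, τ1, b2, τ, b, σ, κ, η, ε, Qn, J', M, hδ1pos, hδ1a, hδ1b, hQnpos, hQd, hb2pos, hb2b,
    hτ1b, hτ1δ, hgam2', ?_, hτpos, by linarith, by linarith, by linarith, hbpos, hbτ, hbb2,
    by linarith, hgamb', by linarith, hσpos, hσb, hκpos, by linarith, hκCP.le, hηpos, hηκ, hMη,
    hJ'pos, hJ1.trans (hup η hηpos), hJ2.trans (hup τ1 hτ1pos), hε, he1, he2, he3, he3', he4, he5⟩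
  rw [← hK1]
  have h2 : Qn * (2 * gam n b2) ≤ Qn * (2 * (K1 / (4 * Qn))) :=
    mul_le_mul_of_nonneg_left (mul_le_mul_of_nonneg_left hgam2 (by norm_num)) hQn0.le
  have h3 : Qn * (2 * (K1 / (4 * Qn))) = K1 / 2 := by
    field_simp
    ring
  linarith

theorem HCon.par {n : ℕ} {c C1 CP δ δ1 τ1 b2 τ b σ κ η ε D : ℝ} {Qn J' M : ℕ}
    (H : HCon n c C1 CP δ δ1 τ1 b2 τ b σ κ η ε Qn J' M) (hC1 : 4 ≤ C1) (hD : 0 < D) :
    Par C1 D (κ * D) (ε * D) (η * D) M := by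
  have h1 := H.κpos
  have h2 := H.εpos
  refine ⟨hC1, hD, by positivity, ?_, by positivity, ?_, ?_, ?_⟩
  · have h3 : 16 * κ ≤ 1 := by
      have h4 := H.κle
      have h5 := H.σb
      have h6 := H.bb2
      have h7 := H.b2b
      have h8 := H.σpos
      have h9 := mul_le_mul_of_nonneg_right (h6.trans h7) h8.le
      linarith
    have := mul_le_mul_of_nonneg_right h3 hD.le
    linarith
  · rw [← H.ηκ]; ring
  · have := mul_le_mul_of_nonneg_right H.Mη hD.le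
    linarith
  · have := mul_le_mul_of_nonneg_right H.e1 hD.le
    linarith

theorem HCon.hiPar {n : ℕ} {c C1 CP δ δ1 τ1 b2 τ b σ κ η ε D ρ : ℝ} {Qn J' M : ℕ}
    (H : HCon n c C1 CP δ δ1 τ1 b2 τ b σ κ η ε Qn J' M) (hC1 : 4 ≤ C1) (hCP : 1 ≤ CP)
    (hD : 0 < D) (hρ : ρ = σ * D) :
    HiPar C1 CP D (κ * D) (ε * D) (η * D) ρ (τ1 * ρ) ((τ + b) * ρ) (δ1 * ρ) M Qn J' := by
  have hσpos := H.σpos
  have hρpos : 0 < ρ := by rw [hρ]; positivity
  have hbpos := H.bpos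
  have hτpos := H.τpos
  have hτb : τ + b ≤ 2 * τ := by linarith [H.bτ]
  have hC1b : C1 * (τ + b) ≤ C1 * (2 * τ) := mul_le_mul_of_nonneg_left hτb (by linarith)
  have hCPb : CP * (τ + b) ≤ CP * (2 * τ) := mul_le_mul_of_nonneg_left hτb (by linarith)
  have hC1τ := H.C1τ
  have hCPτ := H.CPτ
  have hτ1pos : 0 < τ1 := by linarith [H.τ1b, H.b2pos]
  have hbρ : 16 * ρ = b * D := by rw [hρ, ← mul_assoc, H.σb]
  have hC1τ0 : 0 < C1 * τ := by
    have : 0 < C1 := by linarith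
    positivity
  have hCPτ0 : 0 < CP * τ := by
    have : 0 < CP := by linarith
    positivity
  refine ⟨hρpos, ?_, ?_, by positivity, by positivity, ?_, ?_, ?_, ?_, ?_, H.J'pos, H.Qnpos,
    ?_, ?_, ?_, ?_, ?_⟩
  · rw [hbρ]
    have h1 : b * D ≤ 1 * D := mul_le_mul_of_nonneg_right (by linarith [H.bb2, H.b2b]) hD.le
    linarith
  · have h1 : 16 * ρ ^ 2 = (16 * ρ) * ρ := by ring
    rw [h1, hbρ]
    have h2 : b * (D * ρ) ≤ τ1 * (D * ρ) := mul_le_mul_of_nonneg_right H.bτ1 (by positivity)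
    linarith
  · have h1 : 4 * (CP * (τ + b)) ≤ τ1 := by linarith
    have := mul_le_mul_of_nonneg_right h1 hρpos.le
    linarith
  · have h1 : 16 * (C1 * (τ + b)) ≤ τ1 := by linarith
    have := mul_le_mul_of_nonneg_right h1 hρpos.le
    linarith
  · have h1 : 16 * κ * D ≤ b * σ * D := mul_le_mul_of_nonneg_right H.κle hD.le
    have h2 : b * (σ * D) ≤ τ1 * (σ * D) := mul_le_mul_of_nonneg_right H.bτ1 (by positivity)
    rw [hρ]
    linarith
  · have := mul_le_mul_of_nonneg_right H.τ1δ hρpos.le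
    linarith
  · have := mul_le_mul_of_nonneg_right H.δ1b hρpos.le
    linarith
  · have := mul_le_mul_of_nonneg_right H.Qd hρpos.le
    linarith
  · have := mul_le_mul_of_nonneg_right H.J1 hD.le
    rw [hρ]
    linarith
  · have := mul_le_mul_of_nonneg_right H.J2 hρpos.le
    linarith
  · have := mul_le_mul_of_nonneg_right H.e2 hD.le
    rw [hρ]
    linarith
  · obtain ⟨Er, hEr⟩ : ∃ Er, Er = (((Qn * J' : ℕ) : ℝ) + 3 * M + 4) * ε := ⟨_, rfl⟩
    have hE : ((Qn * J' : ℕ) : ℝ) * (ε * D) + 3 * (M * (ε * D)) + 4 * (ε * D) = Er * D := by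
      rw [hEr]; ring
    have hεpos := H.εpos
    have hEr0 : 0 ≤ Er := by rw [hEr]; positivity
    have he3 : Er ≤ σ := by rw [hEr]; exact H.e3
    have he3' : Er ≤ τ1 ^ 2 * σ / 4 := by rw [hEr]; exact H.e3'
    rw [hE]
    have h1 : 3 / 2 * (2 * ρ) * (Er * D) + (Er * D) ^ 2 = (3 * σ * Er + Er * Er) * D ^ 2 := by
      rw [hρ]; ring
    have h2 : (τ1 * ρ) ^ 2 = (τ1 * σ) ^ 2 * D ^ 2 := by rw [hρ]; ring
    rw [h1, h2]
    refine mul_le_mul_of_nonneg_right ?_ (by positivity)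
    have h3 : Er * Er ≤ σ * Er := mul_le_mul_of_nonneg_right he3 hEr0
    have h4 : 4 * σ * Er ≤ 4 * σ * (τ1 ^ 2 * σ / 4) :=
      mul_le_mul_of_nonneg_left he3' (by positivity)
    have h5 : 4 * σ * (τ1 ^ 2 * σ / 4) = (τ1 * σ) ^ 2 := by ring
    linarith

/-- **Half-ball lemma.** -/
theorem half_ball_lemma (n : ℕ) {c C1 CP δ : ℝ} (hc : 0 < c) (hC1 : 4 ≤ C1) (hCP : 1 ≤ CP)
    (hδ : 0 < δ) : ∃ σ κ ε : ℝ, 0 < σ ∧ σ < 1 ∧ 0 < κ ∧ κ < 1 ∧ 0 < ε ∧
      ∀ (X : Type u) [MetricSpace X] [MeasurableSpace X] [BorelSpace X] (m : Measure X) (A : ℝ),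
      Contr n A c X m → ∀ (y0 z : X) (D : ℝ) (Φ : X → E n), 0 < D → D ≤ 1 → dist y0 z = D →
      Charts n C1 D (κ * D) (ε * D) y0 Φ →
      (∀ a b, dist a y0 < 2 * D → dist b y0 < 2 * D → dist (Φ a) (Φ b) ≤ CP * dist a b) →
      (∀ y, dist y y0 ≤ D - κ * D / 2 → ∀ t, 0 < t → C1 * t ≤ D - dist y y0 →
        ENNReal.ofReal ((1 - ε) * om n * t ^ (n + 1)) ≤ m (ball y t)) →
      (∀ t, 0 < t → t ≤ D → m (ball z t) ≤ ENNReal.ofReal ((1 / 2 + ε) * om n * t ^ (n + 1))) →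
      ∀ z1, dist z z1 ≤ κ * D → HalfLike n z1 (σ * D) δ := by
  obtain ⟨δ1, τ1, b2, τ, b, σ, κ, η, ε, Qn, J', M, H⟩ := exists_hCon n hc hC1 hCP hδ
  have hσpos := H.σpos
  have hσ1 : σ ≤ 1 / 128 := by linarith [H.σb, H.bb2, H.b2b]
  have hκ1 : κ < 1 := by
    have h9 := mul_le_mul_of_nonneg_right (H.bb2.trans H.b2b) hσpos.le
    linarith [H.κle]
  refine ⟨σ / 4, κ, ε, by positivity, by linarith, H.κpos, hκ1, H.εpos, ?_⟩
  intro X _ _ _ m A hX y0 z D Φ hD hD1 hdz hCh hlip hvol hvolz z1 hz1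
  have P := H.par hC1 hD
  have hεD : ε * D / D = ε := by field_simp
  have B : HB n C1 CP D (κ * D) (ε * D) (η * D) M y0 z Φ m := by
    refine ⟨P, hCh, hD1, hCP, hdz, hlip, ?_, ?_⟩
    · rw [hεD]
      exact hvol
    · rw [hεD]
      exact hvolz
  obtain ⟨ex, I⟩ := exists_isExp P hCh
  obtain ⟨a0, ν, Q⟩ := exists_isPos hX.geod B I
  obtain ⟨ρ, hρ⟩ : ∃ ρ, ρ = σ * D := ⟨_, rfl⟩
  have HH := H.hiPar hC1 hCP hD hρ
  have hρpos : 0 < ρ := HH.ρ_pos
  have hbρ : 16 * ρ = b * D := by rw [hρ, ← mul_assoc, H.σb]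
  have hkb : 16 * (κ * D) ≤ b * ρ := by
    have := mul_le_mul_of_nonneg_right H.κle hD.le
    rw [hρ]
    linarith
  have hkρ : ∀ x, b ≤ x → 16 * (κ * D) ≤ x * ρ := fun x hx =>
    hkb.trans (mul_le_mul_of_nonneg_right hx hρpos.le)
  have hve : ∀ x, 3 * (n + 3) * om n * (C1 * ε) ≤ gam n x * (x * σ) →
      3 * (n + 3) * om n * (C1 * (ε * D)) ≤ gam n x * (x * ρ) := by
    intro x hx
    have := mul_le_mul_of_nonneg_right hx hD.le
    rw [hρ]
    linarith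
  have hgam2pos : 0 < gam n b2 := gam_pos n H.b2pos (by linarith [H.b2b])
  have V1 := vol_main hc hX B I Q H.bpos (by linarith [H.bb2, H.b2b]) hρpos hbρ.le (hkρ b le_rfl)
    H.gamb' (hve b H.e4)
  have V2 := vol_main hc hX B I Q H.b2pos H.b2b hρpos
    (hbρ.le.trans (mul_le_mul_of_nonneg_right H.bb2 hD.le)) (hkρ b2 H.bb2) H.gam2' (hve b2 H.e5)
  have hbρ0 : 0 < b * ρ := mul_pos H.bpos hρpos
  have hN : NearEx n D (κ * D) ρ ((τ + b) * ρ) z ex a0 ν := by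
    intro a ha
    obtain ⟨u, hu1, hu2, hu3⟩ := V1.2.2 τ H.τpos H.τle H.gamb a ha
    refine ⟨u, ?_, hu1, by linarith, hu3⟩
    have h1 := Q.norm_le P u
    have h2 : dist u a0 ^ 2 / D ≤ b * ρ := by
      rw [div_le_iff₀ hD]
      have h3 : dist u a0 ^ 2 ≤ (2 * ρ) ^ 2 := pow_le_pow_left₀ dist_nonneg hu1 2
      have h4 : b * ρ * D = 16 * ρ ^ 2 := by
        have : b * ρ * D = (b * D) * ρ := by ring
        rw [this, ← hbρ]; ring
      rw [h4]
      have : 0 ≤ ρ ^ 2 := sq_nonneg _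
      linarith
    linarith
  have hS : m {w | dist w z < 2 * ρ ∧ ht a0 ν (Φ w) ≤ 5 * (τ1 * ρ)}
      ≤ ENNReal.ofReal (2 * gam n b2 * (2 * ρ) ^ (n + 1)) := by
    have h1 : 5 * (τ1 * ρ) = 2 * b2 * ρ := by rw [← mul_assoc, H.τ1b]
    rw [h1]
    exact V2.2.1
  have hGs : Qn * (2 * gam n b2) < c * (1 / Qn) ^ (n + 1)
      * (c * (δ1 * ρ / (8 * CP) / (4 * ρ)) ^ (n + 1)) * (om n / 4) := by
    have hCP0 : 0 < CP := by linarith
    have h1 : δ1 * ρ / (8 * CP) / (4 * ρ) = δ1 / (32 * CP) := by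
      field_simp
      ring
    rw [h1]
    exact H.gam2
  have hfin := half_like_of B I Q HH hN
    (fun a b ha hb hta htb =>
      no_highway hc hX B I Q HH hN (by linarith) hS V1.1 hGs ha hb hta htb)
    ?_ (δ := δ) ?_ hz1
  · have h1 : σ / 4 * D = ρ / 4 := by rw [hρ]; ring
    rw [h1]
    exact hfin
  · have h1 := mul_le_mul_of_nonneg_right H.κCP hD.le
    have h2 : b * (σ * D) ≤ δ1 * (σ * D) :=
      mul_le_mul_of_nonneg_right (by linarith [H.bτ1, H.τ1δ, H.δ1pos]) (by positivity)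
    have h3 : 0 < CP * κ * D := by
      have := H.κpos
      have : 0 < CP := by linarith
      positivity
    rw [hρ]
    linarith
  · have := mul_le_mul_of_nonneg_right H.δ1a hρpos.le
    linarith

end

end Pool.Agent.BDRY
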