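import Pool.Agent.Work.MP_209cb6_gt.HExp

/-!
# Half-ball lemma: definitions and data
-/

set_option autoImplicit false

open MeasureTheory Metric Set Filter Topology
open scoped ENNReal

namespace Pool.Agent.BDRY

noncomputable section

universe u

/-- The ball `B(x, ρ)` is `δ ρ`-close to the ball of radius `ρ` in the half space. -/
def HalfLike {X : Type u} [MetricSpace X] (n : ℕ) (x : X) (ρ δ : ℝ) : Prop :=
  ∃ f : X → E n, (∀ a, 0 ≤ f a (Fin.last n)) ∧ f x = 0 ∧
    (∀ a ∈ ball x ρ, ∀ b ∈ ball x ρ, |dist a b - dist (f a) (f b)| ≤ δ * ρ) ∧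
    (∀ y : E n, 0 ≤ y (Fin.last n) → ‖y‖ < ρ - δ * ρ → ∃ a ∈ ball x ρ, dist (f a) y ≤ δ * ρ)

/-- Volume of the unit ball of `ℝ^(n+1)`. -/
def om (n : ℕ) : ℝ := (volume (ball (0 : E n) 1)).toReal

/-- `|half ball| - |{|x| ≤ 1 - 2b, 2b ≤ x_last}|`. -/
def gam (n : ℕ) (b : ℝ) : ℝ :=
  om n / 2 - (volume {x : E n | ‖x‖ ≤ 1 - 2 * b ∧ 2 * b ≤ x (Fin.last n)}).toReal

/-- Height over the hyperplane through `a0` orthogonal to `ν`. -/
def ht {n : ℕ} (a0 ν u : E n) : ℝ := inner ℝ (u - a0) ν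

variable {X : Type u} [MetricSpace X] {n : ℕ}

/-- Data of the half-ball lemma: `Φ` is an almost isometric chart on the ball `B(y0, D)`, which
touches the set of points of density at most one half at `z`. `e = ε D`. -/
structure HB [MeasurableSpace X] (n : ℕ) (C1 CP D k e h : ℝ) (M : ℕ) (y0 z : X) (Φ : X → E n)
    (m : Measure X) : Prop where
  par : Par C1 D k e h M
  charts : Charts n C1 D k e y0 Φ
  D_le : D ≤ 1
  CP_ge : 1 ≤ CP
  dist_z : dist y0 z = D
  lip : ∀ a b, dist a y0 < 2 * D → dist b y0 < 2 * D → dist (Φ a) (Φ b) ≤ CP * dist a b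
  vol : ∀ y, dist y y0 ≤ D - k / 2 → ∀ t, 0 < t → C1 * t ≤ D - dist y y0 →
    ENNReal.ofReal ((1 - e / D) * om n * t ^ (n + 1)) ≤ m (ball y t)
  volz : ∀ t, 0 < t → t ≤ D → m (ball z t) ≤ ENNReal.ofReal ((1 / 2 + e / D) * om n * t ^ (n + 1))

/-- Position of `z` in the chart: `ν` is the inner normal and `a0` a boundary point. -/
structure IsPos (n : ℕ) (CP D k e : ℝ) (M : ℕ) (z : X) (Φ : X → E n) (ex : E n → X)
    (a0 ν : E n) : Prop where
  norm_ν : ‖ν‖ = 1
  a0_eq : a0 = -(‖a0‖ • ν)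
  a0_le : ‖a0‖ ≤ D - k
  le_a0 : D - 3 * k ≤ ‖a0‖
  dist_ex : ∀ u : E n, ‖u‖ ≤ D - k → dist (ex u) z ≤ dist u a0 + 3 * k
  dist_z : dist (Φ z) a0 ≤ CP * (2 * k)

theorem exists_isPos [MeasurableSpace X] {m : Measure X} {C1 CP D k e h : ℝ} {M : ℕ} {y0 z : X}
    {Φ : X → E n} {ex : E n → X}
    (hG : Geod X) (B : HB n C1 CP D k e h M y0 z Φ m) (I : IsExp n D k e h M y0 Φ ex) :
    ∃ a0 ν : E n, IsPos n CP D k e M z Φ ex a0 ν := by
  have P := B.par
  have hD := P.hD
  have hk := P.hk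
  have hkD := P.hkD
  have hMe := P.hMe
  have hhk := P.h_le
  have hel := P.e_le
  have he := P.he
  have hh0 := P.h_pos
  have hMe0 := P.e_le_Me
  obtain ⟨z', hz1, hz2⟩ := hG y0 z ((D - 2 * k) / D) (by
    apply div_nonneg <;> linarith) (by rw [div_le_one hD]; linarith)
  rw [B.dist_z] at hz1 hz2
  have h1 : dist y0 z' = D - 2 * k := by
    rw [hz1]
    field_simp
  have h2 : dist z' z = 2 * k := by
    rw [hz2]
    field_simp
    ring
  obtain ⟨hW, hn⟩ := inW_of_dist hG P B.charts I (a := z') (by rw [h1])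
  rw [h1] at hn
  have h0 : InW D k e Φ ex y0 :=
    (inW_of_dist hG P B.charts I (a := y0) (by rw [dist_self]; linarith)).1
  have h3 := h0.dist_le I hW
  rw [B.charts.zero, dist_zero_left, h1] at h3
  have hpos : 0 < ‖Φ z'‖ := by linarith
  refine ⟨Φ z', -(‖Φ z'‖⁻¹ • Φ z'), ?_, ?_, ?_, ?_, ?_, ?_⟩
  · rw [norm_neg, norm_smul, norm_inv, norm_norm]
    exact inv_mul_cancel₀ hpos.ne'
  · rw [smul_neg, neg_neg, smul_smul, mul_inv_cancel₀ hpos.ne', one_smul]
  · linarith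
  · linarith
  · intro u hu
    have h4 := I.glob u (Φ z') hu hW.1
    have h5 := hW.2
    rw [dist_comm] at h5
    have h6 := dist_triangle4 (ex u) (ex (Φ z')) z' z
    linarith
  · have h4 := B.lip z z' (by rw [dist_comm, B.dist_z]; linarith)
      (by rw [dist_comm, h1]; linarith)
    rw [dist_comm z, h2] at h4
    exact h4

section height
variable {C1 CP D k e h : ℝ} {M : ℕ} {z : X} {Φ : X → E n} {ex : E n → X} {a0 ν : E n}

/-- The basic estimate for the distance to the sphere of radius `D`. -/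
theorem IsPos.norm_le (P : Par C1 D k e h M) (Q : IsPos n CP D k e M z Φ ex a0 ν) (u : E n) :
    ‖u‖ ≤ D - ht a0 ν u + dist u a0 ^ 2 / D := by
  have hD := P.hD
  have hk := P.hk
  have hkD := P.hkD
  have h1 := Q.le_a0
  have h2 := Q.a0_le
  set A := ‖a0‖ with hA
  set q := dist u a0 with hq
  set t := ht a0 ν u with htt
  have hA2 : D / 2 ≤ A := by linarith
  have hu : ‖u‖ ^ 2 = A ^ 2 - 2 * A * t + q ^ 2 := by
    have h3 : u = a0 + (u - a0) := by abel
    have h4 : inner ℝ a0 (u - a0) = -(A * t) := by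
      rw [Q.a0_eq, inner_neg_left, real_inner_smul_left, ← Q.a0_eq, htt]
      unfold ht
      rw [real_inner_comm]
    conv_lhs => rw [h3]
    rw [norm_add_sq_real, h4, ← dist_eq_norm]
    ring
  have htq : t ≤ q := by
    have h3 := real_inner_le_norm (u - a0) ν
    rw [Q.norm_ν, mul_one, ← dist_eq_norm] at h3
    exact h3
  have hq0 : 0 ≤ q := dist_nonneg
  have hX : 0 ≤ A - t + q ^ 2 / D := by
    have h5 : q ≤ D / 4 + q ^ 2 / D := by
      have : 0 ≤ (q - D / 2) ^ 2 / D := by positivity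
      have h6 : (q - D / 2) ^ 2 / D = q ^ 2 / D - q + D / 4 := by
        field_simp
        ring
      linarith
    linarith
  have h7 : ‖u‖ ^ 2 ≤ (A - t + q ^ 2 / D) ^ 2 := by
    rw [hu]
    have h8 : q ^ 2 ≤ 2 * A * (q ^ 2 / D) := by
      have h9 : q ^ 2 = D * (q ^ 2 / D) := by field_simp
      have h10 : 0 ≤ q ^ 2 / D := by positivity
      nlinarith
    have h9 : (A - t + q ^ 2 / D) ^ 2
        = A ^ 2 - 2 * A * t + 2 * A * (q ^ 2 / D) + (q ^ 2 / D - t) ^ 2 := by ring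
    rw [h9]
    nlinarith [sq_nonneg (q ^ 2 / D - t)]
  have h8 := abs_le_of_sq_le_sq h7 hX
  rw [abs_of_nonneg (norm_nonneg u)] at h8
  linarith

end height

end

end Pool.Agent.BDRY
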