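import Pool.Agent.Work.MP_209cb6_gt.Defs

/-!
# Discrete exponential map (half-ball lemma, part 1)

`Φ : X → ℝ^(n+1)` is an `e`-isometry onto Euclidean balls on all balls
`B(y, (D - d(y,y0)) / C1)` with `d(y,y0) ≤ D - k/2`.  We construct an almost inverse `ex` of `Φ`
on the ball of radius `D - k`.
-/

set_option autoImplicit false

open Metric Set

namespace Pool.Agent.BDRY

noncomputable section

universe u

variable {X : Type u} [MetricSpace X] {n : ℕ}

/-- Chains of points on shortest paths. -/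
theorem exists_broken (hG : Geod X) (a b : X) {M : ℕ} (hM : 0 < M) :
    ∃ g : ℕ → X, g 0 = a ∧ g M = b ∧
      ∀ i j, i ≤ j → j ≤ M → dist (g i) (g j) = ((j : ℝ) - i) / M * dist a b := by
  have hM0 : (0 : ℝ) < M := by exact_mod_cast hM
  have hex : ∀ (j : ℕ) (x : X), ∃ y, j < M → y ∈ Mid (1 / ((M : ℝ) - j)) x b := by
    intro j x
    by_cases hj : j < M
    · have h1 : (1 : ℝ) ≤ (M : ℝ) - j := by
        have : (j : ℝ) + 1 ≤ M := by exact_mod_cast hj
        linarith
      obtain ⟨y, hy⟩ := hG x b (1 / ((M : ℝ) - j)) (by positivity)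
        (by rw [div_le_one (by linarith)]; exact h1)
      exact ⟨y, fun _ => hy⟩
    · exact ⟨x, fun h => absurd h hj⟩
  choose nx hnx using hex
  set g : ℕ → X := fun j => Nat.rec a (fun j x => nx j x) j with hg
  have hg0 : g 0 = a := rfl
  have hgs : ∀ j, g (j + 1) = nx j (g j) := fun j => rfl
  have hend : ∀ j, j ≤ M → dist (g j) b = ((M : ℝ) - j) / M * dist a b := by
    intro j
    induction j with
    | zero =>
      intro _
      rw [hg0]
      simp [hM0.ne']
    | succ j ih =>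
      intro hj
      have hjM : j < M := hj
      have h1 : (1 : ℝ) ≤ (M : ℝ) - j := by
        have : (j : ℝ) + 1 ≤ M := by exact_mod_cast hjM
        linarith
      have h2 := (hnx j (g j) hjM).2
      rw [hgs, h2, ih hjM.le]
      push_cast
      field_simp
      ring
  have hstep : ∀ j, j < M → dist (g j) (g (j + 1)) = 1 / M * dist a b := by
    intro j hj
    have h1 : (1 : ℝ) ≤ (M : ℝ) - j := by
      have : (j : ℝ) + 1 ≤ M := by exact_mod_cast hj
      linarith
    have h2 := (hnx j (g j) hj).1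
    rw [hgs, h2, hend j hj.le]
    field_simp
  have hup : ∀ i d, i + d ≤ M → dist (g i) (g (i + d)) ≤ (d : ℝ) / M * dist a b := by
    intro i d
    induction d with
    | zero =>
      intro _
      simp
    | succ d ih =>
      intro hd
      have h1 := ih (by omega)
      have h2 := hstep (i + d) (by omega)
      have h3 := dist_triangle (g i) (g (i + d)) (g (i + d + 1))
      have h4 : ((d + 1 : ℕ) : ℝ) / M * dist a b = (d : ℝ) / M * dist a b + 1 / M * dist a b := by
        push_cast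
        ring
      rw [h4, ← add_assoc]
      linarith
  refine ⟨g, hg0, ?_, ?_⟩
  · have := hend M le_rfl
    rw [sub_self, zero_div, zero_mul] at this
    exact dist_eq_zero.1 this
  · intro i j hij hj
    obtain ⟨d, rfl⟩ := Nat.exists_eq_add_of_le hij
    have h1 := hup i d hj
    have h2 := hup 0 i (by omega)
    rw [zero_add, hg0] at h2
    have h3 := hend (i + d) hj
    have h4 := dist_triangle4 a (g i) (g (i + d)) b
    have h5 : ((i + d : ℕ) : ℝ) - i = d := by push_cast; ring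
    rw [h5]
    refine le_antisymm h1 ?_
    have h6 : dist a b = (i : ℝ) / M * dist a b + (d : ℝ) / M * dist a b
        + ((M : ℝ) - (i + d : ℕ)) / M * dist a b := by
      push_cast
      field_simp
      ring
    linarith

/-- `Φ` is an `e`-isometry onto Euclidean balls on all balls `B(y, (D - d(y,y0)) / C1)`. -/
structure Charts (n : ℕ) (C1 D k e : ℝ) (y0 : X) (Φ : X → E n) : Prop where
  zero : Φ y0 = 0
  iso : ∀ y, dist y y0 ≤ D - k / 2 → ∀ a b, C1 * dist a y ≤ D - dist y y0 →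
    C1 * dist b y ≤ D - dist y y0 → |dist (Φ a) (Φ b) - dist a b| ≤ e
  onto : ∀ y, dist y y0 ≤ D - k / 2 → ∀ u : E n, C1 * dist u (Φ y) ≤ D - dist y y0 →
    ∃ a, C1 * dist a y ≤ D - dist y y0 ∧ dist (Φ a) u ≤ e

/-- Relations between the parameters. -/
structure Par (C1 D k e h : ℝ) (M : ℕ) : Prop where
  hC : 4 ≤ C1
  hD : 0 < D
  hk : 0 < k
  hkD : 16 * k ≤ D
  he : 0 < e
  hh : 8 * C1 * h = k
  hM : 2 * D ≤ M * h
  hMe : 100 * (M * e) ≤ h

section basic
variable {C1 D k e h : ℝ} {M : ℕ}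

theorem Par.h_pos (P : Par C1 D k e h M) : 0 < h := by
  have h1 := P.hh
  have h2 := P.hk
  have h3 := P.hC
  by_contra hn
  push Not at hn
  nlinarith

theorem Par.h_le (P : Par C1 D k e h M) : 32 * h ≤ k := by
  have h1 := P.hh
  have h3 := P.hC
  have h4 := P.h_pos
  nlinarith

theorem Par.M_pos (P : Par C1 D k e h M) : 0 < M := by
  rcases Nat.eq_zero_or_pos M with h0 | h0
  · have h1 := P.hM
    rw [h0] at h1
    have := P.hD
    simp at h1
    linarith
  · exact h0

theorem Par.one_le_M (P : Par C1 D k e h M) : (1 : ℝ) ≤ M := by exact_mod_cast P.M_pos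

theorem Par.e_le (P : Par C1 D k e h M) : 100 * e ≤ h := by
  have h1 := P.hMe
  have h2 := P.one_le_M
  have h3 := P.he
  nlinarith

theorem Par.e_le_Me (P : Par C1 D k e h M) : e ≤ M * e := by
  have h2 := P.one_le_M
  have h3 := P.he
  nlinarith

variable {y0 : X} {Φ : X → E n}

/-- Charts of radius `4 h`. -/
theorem Charts.iso4 (P : Par C1 D k e h M) (C : Charts n C1 D k e y0 Φ) {y a b : X}
    (hy : dist y y0 ≤ D - k / 2) (ha : dist a y ≤ 4 * h) (hb : dist b y ≤ 4 * h) :
    |dist (Φ a) (Φ b) - dist a b| ≤ e := by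
  have h1 := P.hh
  have h3 := P.hC
  refine C.iso y hy a b ?_ ?_ <;> nlinarith

theorem Charts.onto4 (P : Par C1 D k e h M) (C : Charts n C1 D k e y0 Φ) {y : X} {u : E n}
    (hy : dist y y0 ≤ D - k / 2) (hu : dist u (Φ y) ≤ 4 * h) :
    ∃ a, dist a y ≤ dist u (Φ y) + 2 * e ∧ dist (Φ a) u ≤ e := by
  have h1 := P.hh
  have h3 := P.hC
  have h4 := P.hk
  obtain ⟨a, ha, hau⟩ := C.onto y hy u (by nlinarith)
  refine ⟨a, ?_, hau⟩
  have h5 := C.iso y hy a y ha (by rw [dist_self]; linarith)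
  have h6 := abs_le.1 h5
  have h7 := dist_triangle (Φ a) u (Φ y)
  linarith [h6.1]

open Classical in
/-- Lift of the segment `[0, u]`. -/
def aseq (Φ : X → E n) (y0 : X) (e : ℝ) (M : ℕ) (u : E n) : ℕ → X
  | 0 => y0
  | j + 1 =>
    if h : ∃ a, dist a (aseq Φ y0 e M u j)
          ≤ dist ((((j + 1 : ℕ) : ℝ) / (M : ℝ)) • u) (Φ (aseq Φ y0 e M u j)) + 2 * e ∧
        dist (Φ a) ((((j + 1 : ℕ) : ℝ) / (M : ℝ)) • u) ≤ e
    then h.choose else aseq Φ y0 e M u j

theorem dist_smul_smul_le (u : E n) (s t : ℝ) : dist (s • u) (t • u) = |s - t| * ‖u‖ := by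
  rw [dist_eq_norm, ← sub_smul, norm_smul, Real.norm_eq_abs]

theorem aseq_spec (P : Par C1 D k e h M) (C : Charts n C1 D k e y0 Φ) {u : E n}
    (hu : ‖u‖ ≤ D - k) : ∀ j, j ≤ M →
      dist (Φ (aseq Φ y0 e M u j)) (((j : ℝ) / M) • u) ≤ e ∧
      dist (aseq Φ y0 e M u j) y0 ≤ (j : ℝ) / M * ‖u‖ + 3 * (j * e) ∧
      (j < M → dist (aseq Φ y0 e M u (j + 1)) (aseq Φ y0 e M u j) ≤ ‖u‖ / M + 3 * e) := by
  have hM1 := P.one_le_M
  have hM0 : (0 : ℝ) < M := by linarith
  have he := P.he
  have hMe := P.hMe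
  have hhk := P.h_le
  have hh0 := P.h_pos
  have hel := P.e_le
  have hk := P.hk
  have hun : 0 ≤ ‖u‖ := norm_nonneg u
  have huM : ‖u‖ / M ≤ h / 2 := by
    rw [div_le_iff₀ hM0]
    have := P.hM
    nlinarith
  -- one step
  have hstep : ∀ j, j < M → dist (Φ (aseq Φ y0 e M u j)) (((j : ℝ) / M) • u) ≤ e →
      dist (aseq Φ y0 e M u j) y0 ≤ (j : ℝ) / M * ‖u‖ + 3 * (j * e) →
      dist (aseq Φ y0 e M u (j + 1)) (aseq Φ y0 e M u j) ≤ ‖u‖ / M + 3 * e ∧
        dist (Φ (aseq Φ y0 e M u (j + 1))) ((((j + 1 : ℕ) : ℝ) / M) • u) ≤ e := by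
    intro j hj h1 h2
    have hjM : (j : ℝ) ≤ M := by exact_mod_cast hj.le
    have h3 : dist (aseq Φ y0 e M u j) y0 ≤ D - k / 2 := by
      have h4 : (j : ℝ) / M * ‖u‖ ≤ ‖u‖ := by
        have : (j : ℝ) / M ≤ 1 := by rw [div_le_one hM0]; exact hjM
        nlinarith
      have h5 : (j : ℝ) * e ≤ M * e := by nlinarith
      linarith
    have h4 : dist ((((j + 1 : ℕ) : ℝ) / M) • u) (Φ (aseq Φ y0 e M u j)) ≤ ‖u‖ / M + e := by
      have h5 := dist_triangle ((((j + 1 : ℕ) : ℝ) / M) • u) (((j : ℝ) / M) • u)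
        (Φ (aseq Φ y0 e M u j))
      rw [dist_smul_smul_le] at h5
      have h5b := dist_comm (((j : ℝ) / M) • u) (Φ (aseq Φ y0 e M u j))
      have h6 : |((j + 1 : ℕ) : ℝ) / M - (j : ℝ) / M| * ‖u‖ = ‖u‖ / M := by
        have : ((j + 1 : ℕ) : ℝ) / M - (j : ℝ) / M = 1 / M := by
          push_cast
          ring
        rw [this, abs_of_pos (by positivity)]
        ring
      linarith
    have h5 := C.onto4 P h3 (u := (((j + 1 : ℕ) : ℝ) / M) • u) (by linarith)
    have h6 : aseq Φ y0 e M u (j + 1) = h5.choose := by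
      rw [aseq]
      exact dif_pos h5
    have h7 := h5.choose_spec
    rw [← h6] at h7
    exact ⟨by linarith [h7.1], h7.2⟩
  have hmain : ∀ j, j ≤ M →
      dist (Φ (aseq Φ y0 e M u j)) (((j : ℝ) / M) • u) ≤ e ∧
      dist (aseq Φ y0 e M u j) y0 ≤ (j : ℝ) / M * ‖u‖ + 3 * (j * e) := by
    intro j
    induction j with
    | zero =>
      intro _
      refine ⟨?_, ?_⟩
      · have : aseq Φ y0 e M u 0 = y0 := rfl
        rw [this, C.zero]
        simp [he.le]
      · have : aseq Φ y0 e M u 0 = y0 := rfl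
        rw [this]
        simp
    | succ j ih =>
      intro hj
      have h1 := ih (by omega)
      have h2 := hstep j (by omega) h1.1 h1.2
      refine ⟨h2.2, ?_⟩
      have h3 := dist_triangle (aseq Φ y0 e M u (j + 1)) (aseq Φ y0 e M u j) y0
      have h4 : ((j + 1 : ℕ) : ℝ) / M * ‖u‖ + 3 * (((j + 1 : ℕ) : ℝ) * e)
          = ((j : ℝ) / M * ‖u‖ + 3 * (j * e)) + (‖u‖ / M + 3 * e) := by
        push_cast
        ring
      rw [h4]
      linarith [h1.2, h2.1]
  intro j hj
  have h1 := hmain j hj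
  exact ⟨h1.1, h1.2, fun hlt => (hstep j hlt h1.1 h1.2).1⟩

/-- Points of the lift stay in the region where there are charts. -/
theorem aseq_mem (P : Par C1 D k e h M) (C : Charts n C1 D k e y0 Φ) {u : E n}
    (hu : ‖u‖ ≤ D - k) {j : ℕ} (hj : j ≤ M) :
    dist (aseq Φ y0 e M u j) y0 ≤ D - k / 2 := by
  have h1 := (aseq_spec P C hu j hj).2.1
  have hM1 := P.one_le_M
  have hM0 : (0 : ℝ) < M := by linarith
  have hjM : (j : ℝ) ≤ M := by exact_mod_cast hj
  have h4 : (j : ℝ) / M * ‖u‖ ≤ ‖u‖ := by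
    have : (j : ℝ) / M ≤ 1 := by rw [div_le_one hM0]; exact hjM
    have := norm_nonneg u
    nlinarith
  have he := P.he
  have hMe := P.hMe
  have hhk := P.h_le
  have hh0 := P.h_pos
  have h5 : (j : ℝ) * e ≤ M * e := by nlinarith
  linarith

/-- Lifts of close segments are close. -/
theorem aseq_comp (P : Par C1 D k e h M) (C : Charts n C1 D k e y0 Φ) {u v : E n}
    (hu : ‖u‖ ≤ D - k) (hv : ‖v‖ ≤ D - k) (huv : dist u v ≤ h) : ∀ j, j ≤ M →
      dist (aseq Φ y0 e M u j) (aseq Φ y0 e M v j) ≤ (j : ℝ) / M * dist u v + 3 * e := by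
  have hM1 := P.one_le_M
  have hM0 : (0 : ℝ) < M := by linarith
  have he := P.he
  have hh0 := P.h_pos
  have hel := P.e_le
  have huM : ∀ w : E n, ‖w‖ ≤ D - k → ‖w‖ / M ≤ h / 2 := by
    intro w hw
    rw [div_le_iff₀ hM0]
    have := P.hM
    have := P.hk
    nlinarith
  intro j
  induction j with
  | zero =>
    intro _
    have h1 : aseq Φ y0 e M u 0 = y0 := rfl
    have h2 : aseq Φ y0 e M v 0 = y0 := rfl
    rw [h1, h2]
    simp [he.le]
  | succ j ih =>
    intro hj
    have h1 := ih (by omega)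
    have hjM : (j : ℝ) ≤ M := by exact_mod_cast (by omega : j ≤ M)
    have h2 : (j : ℝ) / M * dist u v ≤ h := by
      have h3 : (j : ℝ) / M ≤ 1 := by rw [div_le_one hM0]; exact hjM
      have := dist_nonneg (x := u) (y := v)
      nlinarith
    have hsu := (aseq_spec P C hu j (by omega)).2.2 (by omega)
    have hsv := (aseq_spec P C hv j (by omega)).2.2 (by omega)
    have hmem := aseq_mem P C hu (j := j) (by omega)
    have h3 : dist (aseq Φ y0 e M u (j + 1)) (aseq Φ y0 e M u j) ≤ 4 * h := by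
      linarith [huM u hu]
    have h4 : dist (aseq Φ y0 e M v (j + 1)) (aseq Φ y0 e M u j) ≤ 4 * h := by
      have h5 := dist_triangle (aseq Φ y0 e M v (j + 1)) (aseq Φ y0 e M v j)
        (aseq Φ y0 e M u j)
      rw [dist_comm (aseq Φ y0 e M v j)] at h5
      linarith [huM v hv]
    have h5 := abs_le.1 (C.iso4 P hmem h3 h4)
    have h6 := (aseq_spec P C hu (j + 1) hj).1
    have h7 := (aseq_spec P C hv (j + 1) hj).1
    have h8 := dist_triangle4 (Φ (aseq Φ y0 e M u (j + 1))) ((((j + 1 : ℕ) : ℝ) / M) • u)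
      ((((j + 1 : ℕ) : ℝ) / M) • v) (Φ (aseq Φ y0 e M v (j + 1)))
    have h8b := dist_comm ((((j + 1 : ℕ) : ℝ) / M) • v) (Φ (aseq Φ y0 e M v (j + 1)))
    have h9 : dist ((((j + 1 : ℕ) : ℝ) / M) • u) ((((j + 1 : ℕ) : ℝ) / M) • v)
        = ((j + 1 : ℕ) : ℝ) / M * dist u v := by
      rw [dist_smul₀, Real.norm_eq_abs, abs_of_nonneg (by positivity)]
    rw [h9] at h8
    linarith [h5.1]

/-- The almost inverse of `Φ` on the ball of radius `D - k`. -/
structure IsExp (n : ℕ) (D k e h : ℝ) (M : ℕ) (y0 : X) (Φ : X → E n) (ex : E n → X) : Prop where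
  near : ∀ u : E n, ‖u‖ ≤ D - k → dist (Φ (ex u)) u ≤ e
  dist0 : ∀ u : E n, ‖u‖ ≤ D - k → dist (ex u) y0 ≤ ‖u‖ + 3 * (M * e)
  loc : ∀ u v : E n, ‖u‖ ≤ D - k → ‖v‖ ≤ D - k → dist u v ≤ h →
    dist (ex u) (ex v) ≤ dist u v + 3 * e
  glob : ∀ u v : E n, ‖u‖ ≤ D - k → ‖v‖ ≤ D - k → dist (ex u) (ex v) ≤ dist u v + 3 * (M * e)

theorem exists_isExp (P : Par C1 D k e h M) (C : Charts n C1 D k e y0 Φ) :
    ∃ ex : E n → X, IsExp n D k e h M y0 Φ ex := by
  have hM1 := P.one_le_M
  have hM0 : (0 : ℝ) < M := by linarith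
  have he := P.he
  have hloc : ∀ u v : E n, ‖u‖ ≤ D - k → ‖v‖ ≤ D - k → dist u v ≤ h →
      dist (aseq Φ y0 e M u M) (aseq Φ y0 e M v M) ≤ dist u v + 3 * e := by
    intro u v hu hv huv
    have h1 := aseq_comp P C hu hv huv M le_rfl
    rw [div_self hM0.ne', one_mul] at h1
    exact h1
  refine ⟨fun u => aseq Φ y0 e M u M, ?_, ?_, hloc, ?_⟩
  · intro u hu
    have h1 := (aseq_spec P C hu M le_rfl).1
    rw [div_self hM0.ne', one_smul] at h1
    exact h1
  · intro u hu
    have h1 := (aseq_spec P C hu M le_rfl).2.1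
    rw [div_self hM0.ne', one_mul] at h1
    exact h1
  · intro u v hu hv
    set w : ℕ → E n := fun i => ((i : ℝ) / M) • v + (1 - (i : ℝ) / M) • u with hw
    have hwn : ∀ i, i ≤ M → ‖w i‖ ≤ D - k := by
      intro i hi
      have hiM : (i : ℝ) / M ≤ 1 := by rw [div_le_one hM0]; exact_mod_cast hi
      have hi0 : 0 ≤ (i : ℝ) / M := by positivity
      have h1 := norm_add_le (((i : ℝ) / M) • v) ((1 - (i : ℝ) / M) • u)
      rw [norm_smul, norm_smul, Real.norm_eq_abs, Real.norm_eq_abs, abs_of_nonneg hi0,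
        abs_of_nonneg (by linarith : 0 ≤ 1 - (i : ℝ) / M)] at h1
      have h2 : (i : ℝ) / M * ‖v‖ ≤ (i : ℝ) / M * (D - k) := mul_le_mul_of_nonneg_left hv hi0
      have h3 : (1 - (i : ℝ) / M) * ‖u‖ ≤ (1 - (i : ℝ) / M) * (D - k) :=
        mul_le_mul_of_nonneg_left hu (by linarith)
      show ‖((i : ℝ) / M) • v + (1 - (i : ℝ) / M) • u‖ ≤ D - k
      linarith
    have hwd : ∀ i, dist (w i) (w (i + 1)) = dist u v / M := by
      intro i
      have h1 : w i - w (i + 1) = (1 / (M : ℝ)) • (u - v) := by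
        simp only [hw]
        push_cast
        module
      rw [dist_eq_norm, h1, norm_smul, Real.norm_eq_abs, abs_of_pos (by positivity),
        dist_eq_norm]
      ring
    have huv : dist u v / M ≤ h := by
      rw [div_le_iff₀ hM0]
      have h1 := P.hM
      have h2 := dist_triangle u 0 v
      rw [dist_zero_right, dist_zero_left] at h2
      have := P.hk
      nlinarith
    have hsum : ∀ i, i ≤ M → dist (aseq Φ y0 e M (w 0) M) (aseq Φ y0 e M (w i) M)
        ≤ (i : ℝ) * (dist u v / M + 3 * e) := by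
      intro i
      induction i with
      | zero =>
        intro _
        simp
      | succ i ih =>
        intro hi
        have h1 := ih (by omega)
        have h2 := hloc (w i) (w (i + 1)) (hwn i (by omega)) (hwn (i + 1) hi)
          (by rw [hwd]; exact huv)
        rw [hwd] at h2
        have h3 := dist_triangle (aseq Φ y0 e M (w 0) M) (aseq Φ y0 e M (w i) M)
          (aseq Φ y0 e M (w (i + 1)) M)
        push_cast
        linarith
    have h1 := hsum M le_rfl
    have hw0 : w 0 = u := by simp [hw]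
    have hwM : w M = v := by simp [hw, div_self hM0.ne']
    rw [hw0, hwM] at h1
    have h2 : (M : ℝ) * (dist u v / M + 3 * e) = dist u v + 3 * (M * e) := by
      field_simp
    rw [h2] at h1
    exact h1

/-- The points which are well parametrised. -/
def InW (D k e : ℝ) (Φ : X → E n) (ex : E n → X) (a : X) : Prop :=
  ‖Φ a‖ ≤ D - k ∧ dist a (ex (Φ a)) ≤ 2 * e

variable {ex : E n → X}

theorem InW.dist_le (I : IsExp n D k e h M y0 Φ ex) {a b : X} (ha : InW D k e Φ ex a)
    (hb : InW D k e Φ ex b) : dist a b ≤ dist (Φ a) (Φ b) + (3 * (M * e) + 4 * e) := by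
  have h1 := dist_triangle4 a (ex (Φ a)) (ex (Φ b)) b
  have h2 := I.glob _ _ ha.1 hb.1
  have h3 := hb.2
  rw [dist_comm] at h3
  linarith [ha.2]

theorem InW.mem (P : Par C1 D k e h M) (I : IsExp n D k e h M y0 Φ ex) {a : X}
    (ha : InW D k e Φ ex a) : dist a y0 ≤ D - k / 2 := by
  have h1 := dist_triangle a (ex (Φ a)) y0
  have h2 := I.dist0 _ ha.1
  have h3 := P.hMe
  have h4 := P.h_le
  have h5 := P.h_pos
  have h6 := P.e_le
  have := ha.1
  linarith [ha.2]

theorem InW.iso (P : Par C1 D k e h M) (C : Charts n C1 D k e y0 Φ)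
    (I : IsExp n D k e h M y0 Φ ex) {a b : X}
    (ha : InW D k e Φ ex a) (hab : dist a b ≤ 4 * h) : |dist (Φ a) (Φ b) - dist a b| ≤ e := by
  have h5 := P.h_pos
  exact C.iso4 P (ha.mem P I) (by rw [dist_self]; linarith) (by rw [dist_comm]; exact hab)

/-- Every point of the ball of radius `D - 2k` is well parametrised. -/
theorem inW_of_dist (hG : Geod X) (P : Par C1 D k e h M) (C : Charts n C1 D k e y0 Φ)
    (I : IsExp n D k e h M y0 Φ ex) {a : X} (ha : dist y0 a ≤ D - 2 * k) :
    InW D k e Φ ex a ∧ ‖Φ a‖ ≤ dist y0 a + M * e := by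
  have hM1 := P.one_le_M
  have hM0 : (0 : ℝ) < M := by linarith
  have he := P.he
  have hh0 := P.h_pos
  have hel := P.e_le
  have hMe := P.hMe
  have hhk := P.h_le
  have hk := P.hk
  obtain ⟨g, hg0, hgM, hg⟩ := exists_broken hG y0 a P.M_pos
  have hd0 := dist_nonneg (x := y0) (y := a)
  have hdM : 1 / (M : ℝ) * dist y0 a ≤ h / 2 := by
    rw [div_mul_eq_mul_div, one_mul, div_le_iff₀ hM0]
    have := P.hM
    nlinarith
  have hgy : ∀ j, j ≤ M → dist (g j) y0 ≤ dist y0 a := by
    intro j hj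
    have h1 := hg 0 j (by omega) hj
    rw [hg0, dist_comm] at h1
    rw [h1]
    have h2 : ((j : ℝ) - (0 : ℕ)) / M ≤ 1 := by
      rw [div_le_one hM0]
      have : (j : ℝ) ≤ M := by exact_mod_cast hj
      simpa using this
    nlinarith
  have hmain : ∀ j, j ≤ M → dist (g j) (ex (Φ (g j))) ≤ 2 * e ∧
      ‖Φ (g j)‖ ≤ (j : ℝ) / M * dist y0 a + j * e := by
    intro j
    induction j with
    | zero =>
      intro _
      rw [hg0, C.zero]
      refine ⟨?_, by simp⟩
      have h0 : ‖(0 : E n)‖ ≤ D - k := by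
        rw [norm_zero]
        have := P.hkD
        linarith
      have h1 := I.dist0 0 h0
      have h2 := I.near 0 h0
      rw [norm_zero, zero_add] at h1
      have h3 := C.iso4 P (y := y0) (a := ex 0) (b := y0)
        (by rw [dist_self]; have := P.hkD; linarith) (by linarith) (by rw [dist_self]; linarith)
      rw [C.zero] at h3
      rw [dist_comm]
      linarith [(abs_le.1 h3).1]
    | succ j ih =>
      intro hj
      obtain ⟨h1, h2⟩ := ih (by omega)
      have hjM : ((j : ℝ) + 1) ≤ M := by exact_mod_cast hj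
      have h3 : dist (g j) (g (j + 1)) ≤ h / 2 := by
        have h4 := hg j (j + 1) (by omega) hj
        have h5 : (((j + 1 : ℕ) : ℝ) - j) / M * dist y0 a = 1 / (M : ℝ) * dist y0 a := by
          push_cast
          ring
        rw [h4, h5]
        exact hdM
      have hgj : dist (g j) y0 ≤ D - k / 2 := by
        have := hgy j (by omega)
        linarith
      have h4 := C.iso4 P hgj (a := g (j + 1)) (b := g j) (by rw [dist_comm]; linarith)
        (by rw [dist_self]; linarith)
      have h4' := abs_le.1 h4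
      have h5 : dist (g (j + 1)) (g j) = 1 / (M : ℝ) * dist y0 a := by
        rw [dist_comm, hg j (j + 1) (by omega) hj]
        push_cast
        ring
      have h6 : ‖Φ (g (j + 1))‖ ≤ ((j + 1 : ℕ) : ℝ) / M * dist y0 a + ((j + 1 : ℕ) : ℝ) * e := by
        have h7 := dist_triangle (Φ (g (j + 1))) (Φ (g j)) 0
        rw [dist_zero_right, dist_zero_right] at h7
        have h8 : ((j + 1 : ℕ) : ℝ) / M * dist y0 a + ((j + 1 : ℕ) : ℝ) * e
            = ((j : ℝ) / M * dist y0 a + j * e) + (1 / (M : ℝ) * dist y0 a + e) := by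
          push_cast
          ring
        rw [h8]
        linarith [h4'.2]
      refine ⟨?_, h6⟩
      have hn : ∀ i : ℕ, (i : ℝ) ≤ M → (i : ℝ) / M * dist y0 a + i * e ≤ D - k := by
        intro i hi
        have h9 : (i : ℝ) / M ≤ 1 := by rw [div_le_one hM0]; exact hi
        have h10 : (i : ℝ) / M * dist y0 a ≤ dist y0 a := by nlinarith
        have h11 : (i : ℝ) * e ≤ M * e := by nlinarith
        linarith
      have hnj : ‖Φ (g j)‖ ≤ D - k := h2.trans (hn j (by linarith))
      have hnj1 : ‖Φ (g (j + 1))‖ ≤ D - k := h6.trans (hn (j + 1) (by push_cast; exact hjM))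
      have h9 : dist (Φ (g j)) (Φ (g (j + 1))) ≤ h := by
        rw [dist_comm]
        linarith [h4'.2, h3, dist_comm (g j) (g (j + 1))]
      have h10 := I.loc _ _ hnj hnj1 h9
      have h11 : dist (ex (Φ (g (j + 1)))) (g j) ≤ 4 * h := by
        have h12 := dist_triangle (ex (Φ (g (j + 1)))) (ex (Φ (g j))) (g j)
        have h13 := dist_comm (ex (Φ (g (j + 1)))) (ex (Φ (g j)))
        have h14 := dist_comm (ex (Φ (g j))) (g j)
        linarith
      have h12 := abs_le.1 (C.iso4 P hgj (a := g (j + 1)) (b := ex (Φ (g (j + 1))))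
        (by rw [dist_comm]; linarith) h11)
      have h13 := I.near _ hnj1
      rw [dist_comm] at h13
      linarith [h12.1]
  have h1 := hmain M le_rfl
  rw [hgM, div_self hM0.ne', one_mul] at h1
  exact ⟨⟨by linarith [h1.2], h1.1⟩, h1.2⟩

/-- Points near `ex u` are well parametrised. -/
theorem inW_of_near (P : Par C1 D k e h M) (C : Charts n C1 D k e y0 Φ)
    (I : IsExp n D k e h M y0 Φ ex) {a : X} {u : E n} (hu : ‖u‖ ≤ D - 4 * k)
    (ha : 4 * (C1 * dist a (ex u)) ≤ D - ‖u‖) :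
    InW D k e Φ ex a ∧ dist (Φ a) u ≤ dist a (ex u) + 2 * e := by
  have hM1 := P.one_le_M
  have he := P.he
  have hh0 := P.h_pos
  have hel := P.e_le
  have hMe := P.hMe
  have hhk := P.h_le
  have hk := P.hk
  have hC := P.hC
  have hh := P.hh
  have hu' : ‖u‖ ≤ D - k := by linarith
  have h1 := I.dist0 u hu'
  have h2 := I.near u hu'
  have hmem : dist (ex u) y0 ≤ D - k / 2 := by linarith
  have hda := dist_nonneg (x := a) (y := ex u)
  have h3 := abs_le.1 (C.iso (ex u) hmem a (ex u) (by linarith)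
    (by rw [dist_self]; linarith))
  have h4 := dist_triangle (Φ a) (Φ (ex u)) u
  have h5 : dist (Φ a) u ≤ dist a (ex u) + 2 * e := by linarith [h3.2]
  have h6 : 16 * dist a (ex u) ≤ D - ‖u‖ := by nlinarith
  have h7 : ‖Φ a‖ ≤ D - k := by
    have h8 := norm_le_norm_add_norm_sub' (Φ a) u
    rw [← dist_eq_norm] at h8
    linarith
  refine ⟨⟨h7, ?_⟩, h5⟩
  have h8 := I.glob u (Φ a) hu' h7
  rw [dist_comm u] at h8
  have h9 : C1 * dist (ex (Φ a)) (ex u) ≤ D - dist (ex u) y0 := by
    rw [dist_comm]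
    have h10 : dist (ex u) (ex (Φ a)) ≤ dist a (ex u) + 2 * e + 3 * (M * e) := by linarith
    have h11 : C1 * dist (ex u) (ex (Φ a)) ≤ C1 * (dist a (ex u) + 2 * e + 3 * (M * e)) :=
      mul_le_mul_of_nonneg_left h10 (by linarith)
    have h12 := P.e_le_Me
    have h13 : C1 * (5 * (M * e)) ≤ C1 * h := by
      refine mul_le_mul_of_nonneg_left ?_ (by linarith)
      linarith [P.hMe]
    nlinarith
  have h10 := abs_le.1 (C.iso (ex u) hmem a (ex (Φ a)) (by linarith) h9)
  have h11 := I.near _ h7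
  rw [dist_comm] at h11
  linarith [h10.1]

end basic

end

end Pool.Agent.BDRY
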