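import Pool.Agent.Work.MP_209cb6_gt.HDefs
import Pool.Agent.Work.MP_209cb6_gt.Chart
import Pool.Agent.Work.MP_209cb6_gt.Slab

/-!
# Half-ball lemma: deep points and the absence of highways
-/

set_option autoImplicit false

open MeasureTheory Metric Set Filter Topology
open scoped ENNReal

namespace Pool.Agent.BDRY

noncomputable section

universe u

variable {X : Type u} [MetricSpace X] {n : ℕ}

theorem ht_sub_le {a0 ν : E n} (hν : ‖ν‖ = 1) (x y : E n) : ht a0 ν x - ht a0 ν y ≤ dist x y := by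
  have h1 : ht a0 ν x - ht a0 ν y = inner ℝ (x - y) ν := by
    unfold ht
    rw [← inner_sub_left]
    congr 1
    abel
  rw [h1, dist_eq_norm]
  have h2 := real_inner_le_norm (x - y) ν
  rw [hν, mul_one] at h2
  exact h2

/-- Parameters of the second half of the proof (all quantities are lengths except `J`, `Qn`). -/
structure HiPar (C1 CP D k e h ρ t1 s d1 : ℝ) (M Qn J' : ℕ) : Prop where
  ρ_pos : 0 < ρ
  ρD : 16 * ρ ≤ D
  ρt : 16 * ρ ^ 2 ≤ t1 * D
  t1_pos : 0 < t1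
  s_nonneg : 0 ≤ s
  s1 : 4 * (CP * s) ≤ t1
  s2 : 16 * (C1 * s) ≤ t1
  kt : 16 * k ≤ t1
  d1t : 6 * t1 ≤ d1
  d1ρ : 32 * d1 ≤ ρ
  J'_pos : 0 < J'
  Qn_pos : 0 < Qn
  Qd : 5 * (CP * ρ) ≤ Qn * d1
  J1 : 2 * ρ ≤ (Qn * J' : ℕ) * h
  J2 : 2 * (CP * ρ) ≤ (Qn * J' : ℕ) * t1
  Je : 16 * ((Qn * J' : ℕ) * e) ≤ d1
  coll : 3 / 2 * (2 * ρ) * ((Qn * J' : ℕ) * e + 3 * (M * e) + 4 * e)
    + ((Qn * J' : ℕ) * e + 3 * (M * e) + 4 * e) ^ 2 ≤ t1 ^ 2

section main
variable [MeasurableSpace X] {m : Measure X} {C1 CP D k e h ρ t1 s d1 : ℝ} {M Qn J' : ℕ}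
  {y0 z : X} {Φ : X → E n} {ex : E n → X} {a0 ν : E n}

/-- Every point near `z` is close to some `ex u`. -/
def NearEx (n : ℕ) (D k ρ s : ℝ) (z : X) (ex : E n → X) (a0 ν : E n) : Prop :=
  ∀ a, dist a z ≤ 3 / 2 * ρ → ∃ u : E n, ‖u‖ ≤ D - k ∧ dist u a0 ≤ 2 * ρ ∧ 0 ≤ ht a0 ν u ∧
    dist a (ex u) ≤ s

theorem near_dist (B : HB n C1 CP D k e h M y0 z Φ m) (H : HiPar C1 CP D k e h ρ t1 s d1 M Qn J')
    {a : X} (ha : dist a z ≤ 2 * ρ) : dist a y0 < 2 * D := by
  have h1 := dist_triangle a z y0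
  rw [dist_comm z, B.dist_z] at h1
  have := H.ρD
  have := B.par.hD
  linarith

theorem ex_dist (B : HB n C1 CP D k e h M y0 z Φ m) (I : IsExp n D k e h M y0 Φ ex)
    {u : E n} (hu : ‖u‖ ≤ D - k) : dist (ex u) y0 < 2 * D := by
  have h1 := I.dist0 u hu
  have P := B.par
  have := P.hMe
  have := P.h_le
  have := P.hk
  have := P.hD
  linarith

/-- The image of a point near `z`. -/
theorem near_image (B : HB n C1 CP D k e h M y0 z Φ m) (I : IsExp n D k e h M y0 Φ ex)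
    (H : HiPar C1 CP D k e h ρ t1 s d1 M Qn J') {a : X} (ha : dist a z ≤ 3 / 2 * ρ)
    {u : E n} (hu : ‖u‖ ≤ D - k) (hau : dist a (ex u) ≤ s) : dist (Φ a) u ≤ t1 / 2 := by
  have P := B.par
  have hρ := H.ρ_pos
  have h1 := B.lip a (ex u) (near_dist B H (by linarith)) (ex_dist B I hu)
  have h2 := dist_triangle (Φ a) (Φ (ex u)) u
  have h3 := I.near u hu
  have h4 : CP * dist a (ex u) ≤ CP * s :=
    mul_le_mul_of_nonneg_left hau (by have := B.CP_ge; linarith)
  have h5 := H.s1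
  have h6 := P.e_le
  have h7 := P.h_le
  have h8 := H.kt
  have h9 := P.he
  linarith

/-- Deep points are well parametrised. -/
theorem deep (B : HB n C1 CP D k e h M y0 z Φ m) (I : IsExp n D k e h M y0 Φ ex)
    (Q : IsPos n CP D k e M z Φ ex a0 ν) (H : HiPar C1 CP D k e h ρ t1 s d1 M Qn J')
    (hN : NearEx n D k ρ s z ex a0 ν) {a : X} (ha : dist a z ≤ 3 / 2 * ρ)
    (hta : t1 ≤ ht a0 ν (Φ a)) : InW D k e Φ ex a := by
  have P := B.par
  have hρ := H.ρ_pos
  have hD := P.hD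
  obtain ⟨u, hu, hua, -, hau⟩ := hN a ha
  have h1 := near_image B I H ha hu hau
  have h2 := ht_sub_le (a0 := a0) Q.norm_ν (Φ a) u
  have h3 := Q.norm_le P u
  have h4 : dist u a0 ^ 2 / D ≤ t1 / 4 := by
    rw [div_le_iff₀ hD]
    have h5 : dist u a0 ^ 2 ≤ (2 * ρ) ^ 2 := pow_le_pow_left₀ dist_nonneg hua 2
    have := H.ρt
    nlinarith
  have h5 := H.kt
  have h6 := P.hk
  have h7 : C1 * dist a (ex u) ≤ C1 * s :=
    mul_le_mul_of_nonneg_left hau (by have := P.hC; linarith)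
  have h8 := H.s2
  exact (inW_of_near P B.charts I (a := a) (u := u) (by linarith) (by linarith)).1

omit [MeasurableSpace X] in
/-- Chains of well parametrised points are not shortened by `Φ`. -/
theorem seg (P : Par C1 D k e h M) (C : Charts n C1 D k e y0 Φ) (I : IsExp n D k e h M y0 Φ ex)
    {g : ℕ → X} {J : ℕ} {l : ℝ} (hJ : 0 < J)
    (hg : ∀ i j, i ≤ j → j ≤ J → dist (g i) (g j) = ((j : ℝ) - i) / J * l)
    (hl : l ≤ J * (4 * h)) {i j : ℕ} (hij : i ≤ j) (hj : j ≤ J)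
    (hW : ∀ q, i ≤ q → q < j → InW D k e Φ ex (g q) ∨ InW D k e Φ ex (g (q + 1))) :
    dist (Φ (g i)) (Φ (g j)) ≤ ((j : ℝ) - i) / J * l + ((j : ℝ) - i) * e := by
  have hJ0 : (0 : ℝ) < J := by exact_mod_cast hJ
  induction j, hij using Nat.le_induction with
  | base =>
    rw [dist_self]
    simp
  | succ j hij ih =>
    have h1 := ih (by omega) (fun q hq hqj => hW q hq (by omega))
    have h2 := hg j (j + 1) (by omega) hj
    have h3 : (((j + 1 : ℕ) : ℝ) - j) / J * l = 1 / J * l := by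
      push_cast
      ring
    rw [h3] at h2
    have h4 : dist (g j) (g (j + 1)) ≤ 4 * h := by
      rw [h2, div_mul_eq_mul_div, one_mul, div_le_iff₀ hJ0]
      linarith
    have h5 : dist (Φ (g j)) (Φ (g (j + 1))) ≤ 1 / J * l + e := by
      rcases hW j hij (by omega) with hw | hw
      · have h6 := abs_le.1 (hw.iso P C I h4)
        linarith [h6.2]
      · have h6 := abs_le.1 (hw.iso P C I (b := g j) (by rw [dist_comm]; exact h4))
        rw [dist_comm (Φ (g (j + 1))), dist_comm (g (j + 1))] at h6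
        linarith [h6.2]
    have h6 := dist_triangle (Φ (g i)) (Φ (g j)) (Φ (g (j + 1)))
    push_cast
    have h7 : ((j : ℝ) + 1 - i) / J * l + ((j : ℝ) + 1 - i) * e
        = (((j : ℝ) - i) / J * l + ((j : ℝ) - i) * e) + (1 / J * l + e) := by ring
    rw [h7]
    linarith

omit [MeasurableSpace X] in
/-- Excursions over the collar are low. -/
theorem excursion (P : Par C1 D k e h M) (C : Charts n C1 D k e y0 Φ)
    (I : IsExp n D k e h M y0 Φ ex) (hν : ‖ν‖ = 1)
    {g : ℕ → X} {J : ℕ} {l : ℝ} (hJ : 0 < J)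
    (hg : ∀ i j, i ≤ j → j ≤ J → dist (g i) (g j) = ((j : ℝ) - i) / J * l)
    (hl4 : l ≤ J * (4 * h)) (hl0 : 0 ≤ l) (hl2 : l ≤ 2 * ρ) (ht1 : 0 < t1)
    (hcoll : 3 / 2 * (2 * ρ) * (J * e + 3 * (M * e) + 4 * e)
      + (J * e + 3 * (M * e) + 4 * e) ^ 2 ≤ t1 ^ 2)
    {α j ω : ℕ} (hαj : α < j) (hωj : j < ω) (hωJ : ω ≤ J)
    (hallW : ∀ i, α ≤ i → i ≤ ω → InW D k e Φ ex (g i))
    (hα : ht a0 ν (Φ (g α)) ≤ 4 * t1) (hω : ht a0 ν (Φ (g ω)) ≤ 4 * t1) :
    ht a0 ν (Φ (g j)) ≤ 5 * t1 := by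
  have he := P.he
  have hJ0 : (0 : ℝ) < J := by exact_mod_cast hJ
  have hJe' : ∀ x : ℝ, x ≤ J → x * e ≤ J * e := fun x hx => mul_le_mul_of_nonneg_right hx he.le
  have hαW := hallW α le_rfl (by omega)
  have hωW := hallW ω (by omega) le_rfl
  have hd1' := seg P C I hJ hg hl4 (i := α) (j := j) hαj.le (by omega)
    (fun q hq1 hq2 => Or.inl (hallW q hq1 (by omega)))
  have hd2' := seg P C I hJ hg hl4 (i := j) (j := ω) hωj.le hωJ
    (fun q hq1 hq2 => Or.inl (hallW q (by omega) (by omega)))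
  have hd3 := hαW.dist_le I hωW
  rw [hg α ω (by omega) hωJ] at hd3
  set L := ((ω : ℝ) - α) / J * l with hL
  set e' := (J : ℝ) * e + 3 * (M * e) + 4 * e with he'
  have hMe0 : 0 ≤ (M : ℝ) * e := by positivity
  have hJe0 : 0 ≤ (J : ℝ) * e := by positivity
  have he'0 : 0 ≤ e' := by rw [he']; positivity
  have hαω : (0 : ℝ) < (ω : ℝ) - α := by
    have : (α : ℝ) < ω := by exact_mod_cast hαj.trans hωj
    linarith
  have hαj' : (α : ℝ) < j := by exact_mod_cast hαj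
  have hjω' : (j : ℝ) < ω := by exact_mod_cast hωj
  set q := ((j : ℝ) - α) / ((ω : ℝ) - α) with hq
  have hq0 : 0 ≤ q := div_nonneg (by linarith) hαω.le
  have hq1 : q ≤ 1 := by rw [hq, div_le_one hαω]; linarith
  have hqL : ((j : ℝ) - α) / J * l = q * L := by
    rw [hq, hL]
    field_simp
  have hqL2 : ((ω : ℝ) - j) / J * l = (1 - q) * L := by
    rw [hq, hL]
    field_simp
    ring
  have hL0 : 0 ≤ L := by rw [hL]; positivity
  have hLl : L ≤ l := by
    rw [hL]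
    have h1 : ((ω : ℝ) - α) / J ≤ 1 := by
      rw [div_le_one hJ0]
      have h2 : (ω : ℝ) ≤ J := by exact_mod_cast hωJ
      have h3 : (0 : ℝ) ≤ α := by positivity
      linarith
    nlinarith
  have hωJ' : (ω : ℝ) ≤ J := by exact_mod_cast hωJ
  have hα0 : (0 : ℝ) ≤ α := by positivity
  have hn1 := hJe' ((j : ℝ) - α) (by linarith)
  have hn2 := hJe' ((ω : ℝ) - j) (by linarith)
  have hst := near_collinear (Φ (g α)) (Φ (g j)) (Φ (g ω)) q L e' hq0 hq1 hL0 he'0
    (by rw [← dist_eq_norm, dist_comm]; linarith)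
    (by rw [← dist_eq_norm]; linarith)
    (by rw [← dist_eq_norm]; linarith)
  have hst2 : ‖Φ (g j) - ((1 - q) • Φ (g α) + q • Φ (g ω))‖ ^ 2 ≤ t1 ^ 2 := by
    refine hst.trans (le_trans ?_ hcoll)
    have h1 : 3 / 2 * L * e' ≤ 3 / 2 * (2 * ρ) * e' := by
      have : L ≤ 2 * ρ := by linarith
      gcongr
    linarith
  have hst3 := abs_le_of_sq_le_sq hst2 ht1.le
  rw [abs_of_nonneg (norm_nonneg _), ← dist_eq_norm] at hst3
  have h7 := ht_sub_le (a0 := a0) hν (Φ (g j)) ((1 - q) • Φ (g α) + q • Φ (g ω))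
  have h8 : ht a0 ν ((1 - q) • Φ (g α) + q • Φ (g ω))
      = (1 - q) * ht a0 ν (Φ (g α)) + q * ht a0 ν (Φ (g ω)) := by
    unfold ht
    have h9 : (1 - q) • Φ (g α) + q • Φ (g ω) - a0
        = (1 - q) • (Φ (g α) - a0) + q • (Φ (g ω) - a0) := by module
    rw [h9, inner_add_left, real_inner_smul_left, real_inner_smul_left]
  rw [h8] at h7
  have h9 : (1 - q) * ht a0 ν (Φ (g α)) + q * ht a0 ν (Φ (g ω)) ≤ 4 * t1 := by
    have h10 := mul_le_mul_of_nonneg_left hα (by linarith : 0 ≤ 1 - q)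
    have h11 := mul_le_mul_of_nonneg_left hω hq0
    linarith
  linarith [h7.trans hst3]

theorem wide_aux {CP ρ d1 Qn J' jj l : ℝ} (hCP : 1 ≤ CP) (hρ : 0 < ρ) (hQ : 0 < Qn)
    (hJ' : 0 < J') (hl2 : l ≤ 5 / 4 * ρ) (hjj : 0 ≤ jj)
    (hQd : 5 * (CP * ρ) ≤ Qn * d1) (h : d1 / 2 ≤ CP * (jj / (Qn * J') * l)) :
    2 * J' ≤ jj := by
  have h1 : CP * (jj / (Qn * J') * l) ≤ CP * (jj / (Qn * J') * (5 / 4 * ρ)) := by
    gcongr
  have h3 : CP * (jj / (Qn * J') * (5 / 4 * ρ)) * (Qn * J') = 5 / 4 * (CP * ρ * jj) := by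
    field_simp
  have h2 : d1 / 2 * (Qn * J') ≤ 5 / 4 * (CP * ρ * jj) := by
    rw [← h3]
    exact mul_le_mul_of_nonneg_right (h.trans h1) (by positivity)
  have h4 : 5 * (CP * ρ) * J' ≤ Qn * d1 * J' := mul_le_mul_of_nonneg_right hQd hJ'.le
  have h5 : 0 < CP * ρ := by positivity
  by_contra hcon
  push Not at hcon
  have h6 : CP * ρ * jj < CP * ρ * (2 * J') := mul_lt_mul_of_pos_left hcon h5
  linarith

/-- A point whose distance to `b` is shortened has an intermediate point in the collar. -/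
theorem collar_hit (hG : Geod X) (B : HB n C1 CP D k e h M y0 z Φ m)
    (I : IsExp n D k e h M y0 Φ ex)
    (Q : IsPos n CP D k e M z Φ ex a0 ν) (H : HiPar C1 CP D k e h ρ t1 s d1 M Qn J')
    (hN : NearEx n D k ρ s z ex a0 ν) {a b : X} (ha : dist a z ≤ 5 / 8 * ρ)
    (hb : dist b z ≤ 5 / 8 * ρ) (hta : 5 * t1 ≤ ht a0 ν (Φ a)) (htb : 5 * t1 ≤ ht a0 ν (Φ b))
    (hab : dist a b + 3 / 4 * d1 ≤ dist (Φ a) (Φ b)) :
    ∃ q : ℕ, 0 < q ∧ q < Qn ∧
      a ∈ Zt b 6 ((q : ℝ) / Qn) {w | dist w z < 2 * ρ ∧ ht a0 ν (Φ w) ≤ 5 * t1} := by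
  have P := B.par
  have C := B.charts
  have hρ := H.ρ_pos
  have hD := P.hD
  have hD1 := B.D_le
  have hρD := H.ρD
  have ht1 := H.t1_pos
  have he := P.he
  have hh := P.h_pos
  have hd1 := H.d1t
  have hCP := B.CP_ge
  set J : ℕ := Qn * J' with hJdef
  have hJ : 0 < J := Nat.mul_pos H.Qn_pos H.J'_pos
  have hJ0 : (0 : ℝ) < J := by exact_mod_cast hJ
  have hJe := H.Je
  have hJ1 := H.J1
  have hJ2 := H.J2
  have hcoll := H.coll
  rw [← hJdef] at hJe hJ1 hJ2 hcoll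
  set l := dist a b with hl
  have hl0 : 0 ≤ l := dist_nonneg
  have hl2 : l ≤ 5 / 4 * ρ := by
    have := dist_triangle_right a b z
    linarith
  obtain ⟨g, hg0, hgJ, hg⟩ := exists_broken hG a b hJ
  rw [← hl] at hg
  have hl4 : l ≤ J * (4 * h) := by linarith
  -- all points are near `z`
  have hgz : ∀ j, j ≤ J → dist (g j) z ≤ 3 / 2 * ρ := by
    intro j hj
    have h1 := hg 0 j (by omega) hj
    rw [hg0] at h1
    have h2 : dist (g j) z ≤ dist a (g j) + dist a z := by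
      rw [dist_comm a (g j)]
      exact dist_triangle _ _ _
    have h3 : dist (g j) z ≤ dist (g j) b + dist b z := dist_triangle _ _ _
    have h4 := hg j J hj le_rfl
    rw [hgJ] at h4
    have h5 : dist a (g j) + dist (g j) b = l := by
      rw [h1, h4]
      push_cast
      field_simp
      ring
    linarith
  set Hh : ℕ → ℝ := fun j => ht a0 ν (Φ (g j)) with hHh
  have hgd : ∀ j, j ≤ J → dist (g j) y0 < 2 * D := fun j hj =>
    near_dist B H (by have := hgz j hj; linarith)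
  have hstep : ∀ j, j < J → |Hh j - Hh (j + 1)| ≤ t1 := by
    intro j hj
    have h1 := B.lip (g j) (g (j + 1)) (hgd j hj.le) (hgd (j + 1) hj)
    have h2 := hg j (j + 1) (by omega) hj
    have h3 : (((j + 1 : ℕ) : ℝ) - j) / J * l = 1 / J * l := by
      push_cast
      ring
    rw [h3] at h2
    have h4 : CP * (1 / J * l) ≤ t1 := by
      have h5 : CP * (1 / J * l) = CP * l / J := by ring
      rw [h5, div_le_iff₀ hJ0]
      have h6 : CP * l ≤ CP * (5 / 4 * ρ) := mul_le_mul_of_nonneg_left hl2 (by linarith)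
      nlinarith
    rw [h2] at h1
    have h5 := ht_sub_le (a0 := a0) Q.norm_ν (Φ (g j)) (Φ (g (j + 1)))
    have h6 := ht_sub_le (a0 := a0) Q.norm_ν (Φ (g (j + 1))) (Φ (g j))
    rw [dist_comm (Φ (g (j + 1)))] at h6
    rw [abs_le]
    constructor <;> simp only [hHh] <;> linarith
  have hdeep : ∀ j, j ≤ J → t1 ≤ Hh j → InW D k e Φ ex (g j) := fun j hj h1 =>
    deep B I Q H hN (hgz j hj) h1
  have hH0 : 5 * t1 ≤ Hh 0 := by simp only [hHh]; rw [hg0]; exact hta
  have hHJ : 5 * t1 ≤ Hh J := by simp only [hHh]; rw [hgJ]; exact htb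
  have hJe' : ∀ x : ℝ, x ≤ J → x * e ≤ J * e := fun x hx => mul_le_mul_of_nonneg_right hx he.le
  -- there is a low index
  have hlow : ∃ j, j ≤ J ∧ Hh j ≤ 4 * t1 := by
    by_contra hno
    push Not at hno
    have h1 := seg P C I hJ hg hl4 (i := 0) (j := J) (by omega) le_rfl
      (fun q _ hq => Or.inl (hdeep q hq.le (by have := hno q hq.le; linarith)))
    rw [hg0, hgJ] at h1
    have h2 : ((J : ℝ) - (0 : ℕ)) / J * l = l := by
      push_cast
      field_simp
      ring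
    rw [h2] at h1
    push_cast at h1
    rw [sub_zero] at h1
    linarith
  classical
  -- first and last low index
  obtain ⟨j1, hj1J, hj1, hj1min⟩ : ∃ j1, j1 ≤ J ∧ Hh j1 ≤ 4 * t1 ∧
      ∀ j, j < j1 → 4 * t1 < Hh j := by
    refine ⟨Nat.find hlow, (Nat.find_spec hlow).1, (Nat.find_spec hlow).2, fun j hj => ?_⟩
    have h1 := Nat.find_min hlow hj
    by_contra h2
    push Not at h2
    exact h1 ⟨hj.le.trans (Nat.find_spec hlow).1, h2⟩
  obtain ⟨j2, hj2J, hj2, hj2max⟩ : ∃ j2, j2 ≤ J ∧ Hh j2 ≤ 4 * t1 ∧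
      ∀ j, j2 < j → j ≤ J → 4 * t1 < Hh j := by
    refine ⟨Nat.findGreatest (fun j => Hh j ≤ 4 * t1) J, Nat.findGreatest_le J, ?_, ?_⟩
    · exact Nat.findGreatest_spec (P := fun j => Hh j ≤ 4 * t1) hj1J hj1
    · intro j hj hjJ
      have h1 := Nat.findGreatest_is_greatest hj hjJ
      push Not at h1
      exact h1
  have hj12 : j1 ≤ j2 := by
    by_contra h1
    push Not at h1
    have := hj1min j2 h1
    linarith
  have hj1pos : 0 < j1 := by
    rcases Nat.eq_zero_or_pos j1 with h0 | h0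
    · rw [h0] at hj1
      linarith
    · exact h0
  have hj2lt : j2 < J := by
    rcases lt_or_eq_of_le hj2J with h0 | h0
    · exact h0
    · rw [h0] at hj2
      linarith
  -- lengths of the parts
  have hs1 := seg P C I hJ hg hl4 (i := 0) (j := j1) (by omega) hj1J
    (fun q _ hq => Or.inl (hdeep q (by omega) (by have := hj1min q hq; linarith)))
  have hs2 := seg P C I hJ hg hl4 (i := j2) (j := J) hj2J le_rfl
    (fun q hq1 hq2 => Or.inr (hdeep (q + 1) (by omega)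
      (by have := hj2max (q + 1) (by omega) (by omega); linarith)))
  rw [hg0] at hs1
  rw [hgJ] at hs2
  have hjj := hJe' ((j1 : ℝ) - (0 : ℕ)) (by
    push_cast
    rw [sub_zero]
    exact_mod_cast hj1J)
  have hjj2 := hJe' ((J : ℝ) - j2) (by
    have : (0 : ℝ) ≤ j2 := by positivity
    linarith)
  have htri := dist_triangle4 (Φ a) (Φ (g j1)) (Φ (g j2)) (Φ b)
  have hmid := B.lip (g j1) (g j2) (hgd j1 hj1J) (hgd j2 hj2J)
  rw [hg j1 j2 hj12 hj2J] at hmid
  have hsplit : l = ((j1 : ℝ) - (0 : ℕ)) / J * l + ((j2 : ℝ) - j1) / J * l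
      + ((J : ℝ) - j2) / J * l := by
    push_cast
    field_simp
    ring
  have hj12' : (0 : ℝ) ≤ (j2 : ℝ) - j1 := by
    have : (j1 : ℝ) ≤ j2 := by exact_mod_cast hj12
    linarith
  have hwide : d1 / 2 ≤ CP * (((j2 : ℝ) - j1) / J * l) := by
    have h1 : 0 ≤ ((j2 : ℝ) - j1) / J * l := by positivity
    rw [Nat.cast_zero, sub_zero] at hs1 hjj hsplit
    clear hg hgz hstep hdeep hJe' hlow hj1min hj2max hgd
    generalize dist (Φ a) (Φ (g j1)) = x1 at *
    generalize dist (Φ (g j1)) (Φ (g j2)) = x2 at *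
    generalize dist (Φ (g j2)) (Φ b) = x3 at *
    generalize ((j2 : ℝ) - j1) / J * l = x4 at *
    generalize (j1 : ℝ) / J * l = x5 at *
    generalize ((J : ℝ) - j2) / J * l = x6 at *
    linarith
  have hwide2 : 2 * (J' : ℝ) ≤ (j2 : ℝ) - j1 := by
    have hJJ : (J : ℝ) = Qn * J' := by rw [hJdef]; push_cast; ring
    rw [hJJ] at hwide
    exact wide_aux hCP hρ (by exact_mod_cast H.Qn_pos) (by exact_mod_cast H.J'_pos) hl2 hj12'
      H.Qd hwide
  -- all points between are low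
  have hlow5 : ∀ j, j1 ≤ j → j ≤ j2 → Hh j ≤ 5 * t1 := by
    intro j hjl hjr
    by_cases hlj : Hh j ≤ 4 * t1
    · linarith
    push Not at hlj
    obtain ⟨α, hαj, hα, hαmax⟩ : ∃ α, α < j ∧ Hh α ≤ 4 * t1 ∧
        ∀ i, α < i → i ≤ j → 4 * t1 < Hh i := by
      refine ⟨Nat.findGreatest (fun i => Hh i ≤ 4 * t1) j, ?_, ?_, ?_⟩
      · refine lt_of_le_of_ne (Nat.findGreatest_le j) fun h0 => ?_
        have h1 := Nat.findGreatest_spec (P := fun i => Hh i ≤ 4 * t1) hjl hj1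
        rw [h0] at h1
        linarith
      · exact Nat.findGreatest_spec (P := fun i => Hh i ≤ 4 * t1) hjl hj1
      · intro i hi hij
        have h1 := Nat.findGreatest_is_greatest hi hij
        push Not at h1
        exact h1
    have hexω : ∃ i, j ≤ i ∧ Hh i ≤ 4 * t1 := ⟨j2, hjr, hj2⟩
    obtain ⟨ω, hωj, hω, hωmin, hωJ⟩ : ∃ ω, j < ω ∧ Hh ω ≤ 4 * t1 ∧
        (∀ i, j ≤ i → i < ω → 4 * t1 < Hh i) ∧ ω ≤ J := by
      refine ⟨Nat.find hexω, ?_, (Nat.find_spec hexω).2, fun i hji hi => ?_, ?_⟩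
      · refine lt_of_le_of_ne (Nat.find_spec hexω).1 fun h0 => ?_
        have h1 := (Nat.find_spec hexω).2
        rw [← h0] at h1
        linarith
      · have h1 := Nat.find_min hexω hi
        by_contra h2
        push Not at h2
        exact h1 ⟨hji, h2⟩
      · exact (Nat.find_le (n := j2) (h := hexω) ⟨hjr, hj2⟩).trans hj2J
    have hbet : ∀ i, α < i → i < ω → 4 * t1 < Hh i := by
      intro i hi1 hi2
      rcases le_or_gt i j with h1 | h1
      · exact hαmax i hi1 h1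
      · exact hωmin i h1.le hi2
    have hαW : InW D k e Φ ex (g α) := by
      refine hdeep α (by omega) ?_
      have h1 := abs_le.1 (hstep α (by omega))
      have h2 := hbet (α + 1) (by omega) (by omega)
      linarith [h1.1]
    have hωW : InW D k e Φ ex (g ω) := by
      refine hdeep ω hωJ ?_
      obtain ⟨ω', rfl⟩ : ∃ ω', ω = ω' + 1 := ⟨ω - 1, by omega⟩
      have h1 := abs_le.1 (hstep ω' (by omega))
      have h2 := hbet ω' (by omega) (by omega)
      linarith [h1.2]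
    have hallW : ∀ i, α ≤ i → i ≤ ω → InW D k e Φ ex (g i) := by
      intro i hi1 hi2
      rcases eq_or_lt_of_le hi1 with h1 | h1
      · rw [← h1]; exact hαW
      rcases eq_or_lt_of_le hi2 with h2 | h2
      · rw [h2]; exact hωW
      exact hdeep i (by omega) (by have := hbet i h1 h2; linarith)
    exact excursion P C I Q.norm_ν hJ hg hl4 hl0 (by linarith) ht1 hcoll hαj hωj hωJ hallW hα hω
  -- choose the fraction
  have hJ'pos := H.J'_pos
  obtain ⟨q, hq1, hq2⟩ : ∃ q : ℕ, j1 ≤ q * J' ∧ q * J' ≤ j2 := by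
    have hw : 2 * J' ≤ j2 - j1 := by
      have h1 : ((2 * J' : ℕ) : ℝ) ≤ ((j2 - j1 : ℕ) : ℝ) := by
        rw [Nat.cast_sub hj12]
        push_cast
        exact hwide2
      exact_mod_cast h1
    refine ⟨j1 / J' + 1, ?_, ?_⟩
    · have := Nat.lt_div_mul_add (a := j1) hJ'pos
      rw [add_mul, one_mul]
      omega
    · have := Nat.div_mul_le_self j1 J'
      rw [add_mul, one_mul]
      omega
  have hq0 : 0 < q := by
    rcases Nat.eq_zero_or_pos q with h0 | h0
    · rw [h0, zero_mul] at hq1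
      omega
    · exact h0
  have hqQ : q < Qn := by
    by_contra h0
    push Not at h0
    have : Qn * J' ≤ q * J' := Nat.mul_le_mul_right _ h0
    omega
  have hqJ : q * J' ≤ J := by omega
  have hJJ : (J : ℝ) = Qn * J' := by rw [hJdef]; push_cast; ring
  have hJ'0 : (0 : ℝ) < J' := by exact_mod_cast hJ'pos
  have hQn0 : (0 : ℝ) < Qn := by exact_mod_cast H.Qn_pos
  refine ⟨q, hq0, hqQ, ?_⟩
  refine ⟨by linarith, g (q * J'), ⟨?_, hlow5 _ hq1 hq2⟩, ?_, ?_⟩
  · have := hgz _ hqJ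
    linarith
  · have h1 := hg 0 (q * J') (by omega) hqJ
    rw [hg0] at h1
    rw [h1, ← hl, hJJ]
    push_cast
    field_simp
    ring
  · have h1 := hg (q * J') J hqJ le_rfl
    rw [hgJ] at h1
    rw [h1, ← hl, hJJ]
    push_cast
    field_simp

end main

end

end Pool.Agent.BDRY
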