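import Pool.Agent.Work.MP_209cb6_gt.HDefs

/-!
# Half-space tangents from half-space-like balls at small scales
-/

set_option autoImplicit false

open MeasureTheory Metric Set Filter Topology
open scoped ENNReal

namespace Pool.Agent.BDRY

noncomputable section

universe u

variable {X : Type u} [MetricSpace X]

/-- If for every `k` some ball of radius `ρ < 1/k` is `1/k²`-half-space-like, then some tangent
cone is a half space. -/
theorem halfTangent_of_halfLike (n : ℕ) (x : X)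
    (h : ∀ k : ℕ, 0 < k → ∃ ρ : ℝ, 0 < ρ ∧ ρ < 1 / k ∧ HalfLike n x ρ (1 / (k : ℝ) ^ 2)) :
    HalfTangent n x := by
  have h' : ∀ k : ℕ, ∃ ρ : ℝ, 0 < ρ ∧ ρ < 1 / ((k : ℝ) + 1) ∧
      HalfLike n x ρ (1 / ((k : ℝ) + 1) ^ 2) := by
    intro k
    have := h (k + 1) (Nat.succ_pos k)
    push_cast at this
    exact this
  choose ρ hρ0 hρ1 f hf0 hfx hfd hfs using h'
  have hK : ∀ k : ℕ, (0 : ℝ) < (k : ℝ) + 1 := fun k => by positivity
  refine ⟨fun k => ρ k / ((k : ℝ) + 1), fun k => (k : ℝ) + 1, fun k => 1 / ((k : ℝ) + 1),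
    fun k a => (ρ k / ((k : ℝ) + 1))⁻¹ • f k a, ?_, ?_, ?_, ?_, ?_, ?_, ?_, ?_⟩
  · intro k
    exact div_pos (hρ0 k) (hK k)
  · have h1 : Tendsto (fun k : ℕ => 1 / ((k : ℝ) + 1)) atTop (𝓝 0) :=
      tendsto_one_div_add_atTop_nhds_zero_nat
    refine squeeze_zero (fun k => (div_pos (hρ0 k) (hK k)).le) (fun k => ?_) h1
    have h2 : (1 : ℝ) ≤ (k : ℝ) + 1 := by
      have : (0 : ℝ) ≤ k := Nat.cast_nonneg k
      linarith
    calc ρ k / ((k : ℝ) + 1) ≤ ρ k := div_le_self (hρ0 k).le h2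
      _ ≤ 1 / ((k : ℝ) + 1) := (hρ1 k).le
  · exact tendsto_atTop_add_const_right _ _ tendsto_natCast_atTop_atTop
  · exact tendsto_one_div_add_atTop_nhds_zero_nat
  · intro k a
    have h1 := hf0 k a
    have h2 : 0 ≤ (ρ k / ((k : ℝ) + 1))⁻¹ := (inv_pos.mpr (div_pos (hρ0 k) (hK k))).le
    simp only [PiLp.smul_apply, smul_eq_mul]
    exact mul_nonneg h2 h1
  · intro k
    simp only [hfx, smul_zero]
  · intro k a ha b hb
    have hs : 0 < ρ k / ((k : ℝ) + 1) := div_pos (hρ0 k) (hK k)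
    have e1 : ((k : ℝ) + 1) * (ρ k / ((k : ℝ) + 1)) = ρ k := by
      field_simp
    rw [e1] at ha hb
    have h1 := hfd k a ha b hb
    have e2 : dist ((ρ k / ((k : ℝ) + 1))⁻¹ • f k a) ((ρ k / ((k : ℝ) + 1))⁻¹ • f k b)
        = (ρ k / ((k : ℝ) + 1))⁻¹ * dist (f k a) (f k b) := by
      rw [dist_smul₀, norm_inv, Real.norm_of_nonneg hs.le]
    simp only [e2]
    rw [div_eq_inv_mul, ← mul_sub, abs_mul, abs_of_pos (inv_pos.mpr hs)]
    calc (ρ k / ((k : ℝ) + 1))⁻¹ * |dist a b - dist (f k a) (f k b)|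
        ≤ (ρ k / ((k : ℝ) + 1))⁻¹ * (1 / ((k : ℝ) + 1) ^ 2 * ρ k) :=
          mul_le_mul_of_nonneg_left h1 (inv_pos.mpr hs).le
      _ = 1 / ((k : ℝ) + 1) := by
          have := (hρ0 k).ne'
          have := (hK k).ne'
          field_simp
  · intro k y hy0 hy
    have hs : 0 < ρ k / ((k : ℝ) + 1) := div_pos (hρ0 k) (hK k)
    have e1 : ((k : ℝ) + 1) * (ρ k / ((k : ℝ) + 1)) = ρ k := by
      field_simp
    have h1 : 0 ≤ ((ρ k / ((k : ℝ) + 1)) • y) (Fin.last n) := by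
      simp only [PiLp.smul_apply, smul_eq_mul]
      exact mul_nonneg hs.le hy0
    have h2 : ‖(ρ k / ((k : ℝ) + 1)) • y‖ < ρ k - 1 / ((k : ℝ) + 1) ^ 2 * ρ k := by
      rw [norm_smul, Real.norm_of_nonneg hs.le]
      have e3 : ρ k - 1 / ((k : ℝ) + 1) ^ 2 * ρ k
          = (ρ k / ((k : ℝ) + 1)) * (((k : ℝ) + 1) - 1 / ((k : ℝ) + 1)) := by
        have := (hK k).ne'
        field_simp
      rw [e3]
      exact mul_lt_mul_of_pos_left hy hs
    obtain ⟨a, ha, hd⟩ := hfs k _ h1 h2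
    refine ⟨a, by rw [e1]; exact ha, ?_⟩
    have e4 : y = (ρ k / ((k : ℝ) + 1))⁻¹ • ((ρ k / ((k : ℝ) + 1)) • y) := by
      rw [smul_smul, inv_mul_cancel₀ hs.ne', one_smul]
    rw [e4, dist_smul₀, norm_inv, Real.norm_of_nonneg hs.le]
    calc (ρ k / ((k : ℝ) + 1))⁻¹ * dist (f k a) ((ρ k / ((k : ℝ) + 1)) • y)
        ≤ (ρ k / ((k : ℝ) + 1))⁻¹ * (1 / ((k : ℝ) + 1) ^ 2 * ρ k) :=
          mul_le_mul_of_nonneg_left hd (inv_pos.mpr hs).le
      _ = 1 / ((k : ℝ) + 1) := by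
          have := (hρ0 k).ne'
          have := (hK k).ne'
          field_simp

/-- The points without half-space-like balls at the scales below `1/k`. -/
def Zk (n k : ℕ) : Set X := {x | ∀ ρ : ℝ, 0 < ρ → ρ < 1 / k → ¬ HalfLike n x ρ (1 / (k : ℝ) ^ 2)}

theorem mem_Zk {n k : ℕ} {x : X} :
    x ∈ Zk n k ↔ ∀ ρ : ℝ, 0 < ρ → ρ < 1 / k → ¬ HalfLike n x ρ (1 / (k : ℝ) ^ 2) := Iff.rfl

/-- The points without half-space tangents are covered by the sets `Zk`. -/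
theorem exists_mem_Zk {n : ℕ} {x : X} (h : ¬ HalfTangent n x) : ∃ k : ℕ, 0 < k ∧ x ∈ Zk n k := by
  by_contra hc
  push Not at hc
  refine h (halfTangent_of_halfLike n x fun k hk => ?_)
  have h1 := hc k hk
  rw [mem_Zk] at h1
  push Not at h1
  obtain ⟨ρ, h2, h3, h4⟩ := h1
  exact ⟨ρ, h2, h3, h4⟩

theorem not_halfTangent_subset (n : ℕ) :
    {x : X | ¬ HalfTangent n x} ⊆ ⋃ k : ℕ, Zk n (k + 1) := by
  intro x hx
  obtain ⟨k, hk, hxk⟩ := exists_mem_Zk hx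
  rw [mem_iUnion]
  refine ⟨k - 1, ?_⟩
  rwa [Nat.sub_add_cancel hk]

end

end Pool.Agent.BDRY
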