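import Mathlib
import Pool.Agent.Work.MP_209cb6_gt.Defs

/-!
# Contraction towards a point: the telescoping inequality

`Mid t a p`: the points at fraction `t` between `a` and `p`. `Zt p R t E`: the points of the closed
ball `B(p, R)` with a point of `E` at fraction `t` on the way to `p`.
-/

set_option linter.unusedSectionVars false

open MeasureTheory Set Metric

namespace Pool.Agent.BDRY

section metric

variable {X : Type*} [MetricSpace X] {p a z : X} {R t t' : ℝ} {E F : Set X}

theorem Zt_subset : Zt p R t E ⊆ closedBall p R := fun _ ha => ha.1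

theorem Zt_mono (h : E ⊆ F) : Zt p R t E ⊆ Zt p R t F :=
  fun _ ⟨h1, z, hz, h2⟩ => ⟨h1, z, h hz, h2⟩

theorem Zt_union : Zt p R t (E ∪ F) = Zt p R t E ∪ Zt p R t F := by
  ext a
  constructor
  · rintro ⟨h1, z, hz | hz, h2⟩
    · exact Or.inl ⟨h1, z, hz, h2⟩
    · exact Or.inr ⟨h1, z, hz, h2⟩
  · rintro (h | h)
    · exact Zt_mono subset_union_left h
    · exact Zt_mono subset_union_right h

theorem Zt_comp :
    Zt p R t (Zt p R t' E) ⊆ Zt p R (1 - (1 - t) * (1 - t')) E := by
  rintro a ⟨h1, z, ⟨_, w, hw, h2, h3⟩, h4, h5⟩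
  have e : dist w p = (1 - (1 - (1 - t) * (1 - t'))) * dist a p := by
    rw [h3, h5]; ring
  refine ⟨h1, w, hw, ?_, e⟩
  apply le_antisymm
  · calc dist a w ≤ dist a z + dist z w := dist_triangle _ _ _
      _ = t * dist a p + t' * ((1 - t) * dist a p) := by rw [h4, h2, h5]
      _ = _ := by ring
  · have h6 := dist_triangle a w p
    rw [e] at h6
    linarith

/-- The displacement. -/
theorem dist_le_of_mem (h : z ∈ Mid t a p) (ht : 0 ≤ t) (ha : dist a p ≤ R) :
    dist a z ≤ t * R := by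
  rw [h.1]; exact mul_le_mul_of_nonneg_left ha ht

theorem isCompact_Zt [ProperSpace X] (hE : IsCompact E) : IsCompact (Zt p R t E) := by
  have h1 : IsCompact (closedBall p R ×ˢ E) := (isCompact_closedBall p R).prod hE
  have h2 : IsClosed {x : X × X | dist x.1 x.2 = t * dist x.1 p ∧
      dist x.2 p = (1 - t) * dist x.1 p} := by
    apply IsClosed.inter
    · exact isClosed_eq (by fun_prop) (by fun_prop)
    · exact isClosed_eq (by fun_prop) (by fun_prop)
  have h3 := (h1.inter_right h2).image continuous_fst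
  refine (congrArg IsCompact ?_).mp h3
  ext a
  constructor
  · rintro ⟨⟨a', z⟩, ⟨⟨h4, h5⟩, h6, h7⟩, rfl⟩
    exact ⟨h4, z, h5, h6, h7⟩
  · rintro ⟨h4, z, h5, h6, h7⟩
    exact ⟨(a, z), ⟨⟨h4, h5⟩, h6, h7⟩, rfl⟩

theorem subset_Zt_zero (hE : E ⊆ closedBall p R) : E ⊆ Zt p R 0 E :=
  fun a ha => ⟨hE ha, a, ha, by simp, by simp⟩

theorem iterate_Zt_subset (hE : E ⊆ closedBall p R) (j : ℕ) :
    (Zt p R t)^[j] E ⊆ Zt p R (1 - (1 - t) ^ j) E := by
  induction j with
  | zero => simpa using subset_Zt_zero hE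
  | succ j ih =>
    rw [Function.iterate_succ_apply']
    refine (Zt_mono ih).trans (Zt_comp.trans ?_)
    have e : 1 - (1 - t) * (1 - (1 - (1 - t) ^ j)) = 1 - (1 - t) ^ (j + 1) := by ring
    rw [e]

theorem isCompact_iterate [ProperSpace X] (hE : IsCompact E) (j : ℕ) :
    IsCompact ((Zt p R t)^[j] E) := by
  induction j with
  | zero => exact hE
  | succ j ih =>
    rw [Function.iterate_succ_apply']
    exact isCompact_Zt ih

end metric

section measure

variable {X : Type*} [MetricSpace X] [ProperSpace X] [MeasurableSpace X] [BorelSpace X]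
  {μ : Measure X} [IsFiniteMeasureOnCompacts μ] {p : X} {R C t0 t : ℝ}

theorem fin_of_subset {E : Set X} (h : E ⊆ closedBall p R) : μ E ≠ ⊤ :=
  ((measure_mono h).trans_lt (isCompact_closedBall p R).measure_lt_top).ne

/-- The contraction inequality for small times. -/
def Star (μ : Measure X) (p : X) (R C t0 : ℝ) : Prop :=
  ∀ t, 0 < t → t ≤ t0 → ∀ E, MeasurableSet E → E ⊆ closedBall p R →
    μ.real (Zt p R t E) ≤ (1 + C * t) * μ.real E

/-- The defect of a set. -/
noncomputable def Df (μ : Measure X) (p : X) (R C t : ℝ) (E : Set X) : ℝ :=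
  (1 + C * t) * μ.real E - μ.real (Zt p R t E)

theorem df_nonneg (hs : Star μ p R C t0) (ht : 0 < t) (ht0 : t ≤ t0) {E : Set X}
    (hE : MeasurableSet E) (hB : E ⊆ closedBall p R) : 0 ≤ Df μ p R C t E :=
  sub_nonneg.2 (hs t ht ht0 E hE hB)

theorem df_union_le {E F : Set X} (hF : MeasurableSet F) (hEB : E ⊆ closedBall p R)
    (hFB : F ⊆ closedBall p R) (hd : Disjoint E F) :
    Df μ p R C t E + Df μ p R C t F ≤ Df μ p R C t (E ∪ F) := by
  have h1 : μ.real (E ∪ F) = μ.real E + μ.real F :=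
    measureReal_union hd hF (fin_of_subset hEB) (fin_of_subset hFB)
  have h2 : μ.real (Zt p R t (E ∪ F)) ≤ μ.real (Zt p R t E) + μ.real (Zt p R t F) := by
    rw [Zt_union]; exact measureReal_union_le _ _
  unfold Df
  rw [h1]
  nlinarith

theorem df_mono (hs : Star μ p R C t0) (ht : 0 < t) (ht0 : t ≤ t0) {E F : Set X}
    (hE : MeasurableSet E) (hF : MeasurableSet F) (hFB : F ⊆ closedBall p R) (h : E ⊆ F) :
    Df μ p R C t E ≤ Df μ p R C t F := by
  have h1 := df_union_le (μ := μ) (C := C) (t := t) (E := E) (F := F \ E) (hF.diff hE)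
    (h.trans hFB) (sdiff_subset.trans hFB) disjoint_sdiff_right
  rw [union_sdiff_cancel h] at h1
  linarith [df_nonneg hs ht ht0 (hF.diff hE) (sdiff_subset.trans hFB)]

theorem df_sum_le (hs : Star μ p R C t0) (ht : 0 < t) (ht0 : t ≤ t0) {ι : Type*}
    (s : Finset ι) (E : ι → Set X) (hE : ∀ i ∈ s, MeasurableSet (E i))
    (hB : ∀ i ∈ s, E i ⊆ closedBall p R) (hd : (s : Set ι).PairwiseDisjoint E) :
    ∑ i ∈ s, Df μ p R C t (E i) ≤ Df μ p R C t (⋃ i ∈ s, E i) := by
  classical
  induction s using Finset.induction_on with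
  | empty =>
    simp only [Finset.sum_empty, Finset.notMem_empty, iUnion_false, iUnion_empty]
    exact df_nonneg hs ht ht0 MeasurableSet.empty (empty_subset _)
  | insert i s hi ih =>
    rw [Finset.sum_insert hi, Finset.set_biUnion_insert]
    have h1 := ih (fun j hj => hE j (Finset.mem_insert_of_mem hj))
      (fun j hj => hB j (Finset.mem_insert_of_mem hj))
      (hd.subset (by simp [Finset.coe_insert]))
    refine (add_le_add_right h1 _).trans ?_
    refine df_union_le (Finset.measurableSet_biUnion s fun j hj =>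
      hE j (Finset.mem_insert_of_mem hj)) (hB i (Finset.mem_insert_self i s))
      (iUnion₂_subset fun j hj => hB j (Finset.mem_insert_of_mem hj)) ?_
    rw [Set.disjoint_iUnion₂_right]
    intro j hj
    exact hd (Finset.mem_coe.2 (Finset.mem_insert_self i s))
      (Finset.mem_coe.2 (Finset.mem_insert_of_mem hj)) (fun h => hi (h ▸ hj))

/-- Telescoping. -/
theorem tel (hC : 0 ≤ C) (hs : Star μ p R C t0) (ht : 0 < t) (ht0 : t ≤ t0) {E F : Set X}
    (hE : IsCompact E) (hF : MeasurableSet F)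
    (hFB : F ⊆ closedBall p R) (k : ℕ) (h : ∀ j < k, (Zt p R t)^[j] E ⊆ F) :
    μ.real E ≤ μ.real ((Zt p R t)^[k] E) + k * Df μ p R C t F := by
  induction k with
  | zero => simp
  | succ k ih =>
    have h1 := ih fun j hj => h j (hj.trans k.lt_succ_self)
    have h2 := df_mono hs ht ht0 (isCompact_iterate hE k).measurableSet hF hFB
      (h k k.lt_succ_self)
    unfold Df at h2 ⊢
    unfold Df at h1
    rw [Function.iterate_succ_apply']
    have h3 : (0 : ℝ) ≤ μ.real ((Zt p R t)^[k] E) := measureReal_nonneg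
    have h4 : 0 ≤ C * t * μ.real ((Zt p R t)^[k] E) := by positivity
    push_cast
    nlinarith

/-- The choice of the number of steps. -/
theorem step_bounds {θ t : ℝ} (ht : 0 < t) (h1 : t ≤ θ / 4) (h2 : θ ≤ 1 / 2) :
    ∃ k : ℕ, 0 < k ∧ k * t ≤ θ ∧ θ / 2 ≤ 1 - (1 - t) ^ k ∧ 1 - (1 - t) ^ k ≤ θ := by
  have hθ : 0 < θ := by linarith
  refine ⟨⌊θ / t⌋₊, ?_, ?_, ?_, ?_⟩
  · apply Nat.floor_pos.2
    rw [le_div_iff₀ ht]; linarith
  · have := Nat.floor_le (div_nonneg hθ.le ht.le)
    rwa [le_div_iff₀ ht] at this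
  · set k := ⌊θ / t⌋₊
    have h3 : θ < (k + 1) * t := by
      have := Nat.lt_floor_add_one (θ / t)
      rwa [div_lt_iff₀ ht] at this
    have h4 : (k : ℝ) * t ≤ θ := by
      have := Nat.floor_le (div_nonneg hθ.le ht.le)
      rwa [le_div_iff₀ ht] at this
    have h5 : 1 + (k : ℝ) * t ≤ (1 + t) ^ k := one_add_mul_le_pow (by linarith) k
    have h6 : (1 - t) ^ k * (1 + t) ^ k ≤ 1 := by
      rw [← mul_pow]
      exact pow_le_one₀ (by nlinarith) (by nlinarith)
    have h7 : 0 ≤ (1 - t) ^ k := pow_nonneg (by linarith) k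
    have h8 : (1 - t) ^ k * (1 + (k : ℝ) * t) ≤ 1 :=
      (mul_le_mul_of_nonneg_left h5 h7).trans h6
    have h9 : 3 / 4 * θ ≤ (k : ℝ) * t := by nlinarith
    have h10 : (1 - t) ^ k * (1 + 3 / 4 * θ) ≤ 1 :=
      (mul_le_mul_of_nonneg_left (by linarith) h7).trans h8
    by_contra h11
    push Not at h11
    nlinarith
  · have h5 : 1 + ((⌊θ / t⌋₊ : ℕ) : ℝ) * (-t) ≤ (1 + (-t)) ^ ⌊θ / t⌋₊ :=
      one_add_mul_le_pow (by linarith) _
    have h4 : ((⌊θ / t⌋₊ : ℕ) : ℝ) * t ≤ θ := by
      have := Nat.floor_le (div_nonneg hθ.le ht.le)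
      rwa [le_div_iff₀ ht] at this
    rw [← sub_eq_add_neg] at h5
    linarith

/-- The sum inequality over disjoint sets with different scales. -/
theorem sum_le (hgeo : ∀ a, dist a p ≤ R → ∀ t, 0 < t → t < 1 → (Mid t a p).Nonempty)
    (hC : 0 ≤ C) (ht0 : 0 < t0) (hs : Star μ p R C t0) {ι : Type*} (s : Finset ι)
    (E F : ι → Set X) (θ g : ι → ℝ) (hθ : ∀ i ∈ s, 0 < θ i ∧ θ i ≤ 1 / 2)
    (hE : ∀ i ∈ s, IsCompact (E i)) (hEB : ∀ i ∈ s, E i ⊆ closedBall p R)
    (hF : ∀ i ∈ s, MeasurableSet (F i)) (hFB : ∀ i ∈ s, F i ⊆ closedBall p R)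
    (hd : (s : Set ι).PairwiseDisjoint F)
    (hEF : ∀ i ∈ s, ∀ τ, 0 ≤ τ → τ ≤ θ i → Zt p R τ (E i) ⊆ F i)
    (hg0 : ∀ i ∈ s, 0 ≤ g i)
    (hg : ∀ i ∈ s, ∀ τ, θ i / 2 ≤ τ → τ ≤ θ i →
      g i + μ.real (Zt p R τ (E i)) ≤ μ.real (E i)) :
    ∑ i ∈ s, g i / θ i ≤ C * μ.real (closedBall p R) := by
  obtain ⟨t, ht, h1, h2, h3⟩ : ∃ t : ℝ, 0 < t ∧ t ≤ t0 ∧ t < 1 ∧ ∀ i ∈ s, t ≤ θ i / 4 := by
    classical
    induction s using Finset.induction_on with
    | empty => exact ⟨min t0 (1 / 2), by positivity, min_le_left _ _,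
        (min_le_right _ _).trans_lt (by norm_num), by simp⟩
    | insert i s hi ih =>
      obtain ⟨t, h1, h2, h3, h4⟩ := ih (fun j hj => hθ j (Finset.mem_insert_of_mem hj))
        (fun j hj => hE j (Finset.mem_insert_of_mem hj))
        (fun j hj => hEB j (Finset.mem_insert_of_mem hj))
        (fun j hj => hF j (Finset.mem_insert_of_mem hj))
        (fun j hj => hFB j (Finset.mem_insert_of_mem hj))
        (hd.subset (by simp [Finset.coe_insert]))
        (fun j hj => hEF j (Finset.mem_insert_of_mem hj))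
        (fun j hj => hg0 j (Finset.mem_insert_of_mem hj))
        (fun j hj => hg j (Finset.mem_insert_of_mem hj))
      have h5 := (hθ i (Finset.mem_insert_self i s)).1
      refine ⟨min t (θ i / 4), by positivity, (min_le_left _ _).trans h2,
        (min_le_left _ _).trans_lt h3, fun j hj => ?_⟩
      rcases Finset.mem_insert.1 hj with rfl | hj
      · exact min_le_right _ _
      · exact (min_le_left _ _).trans (h4 j hj)
  have key : ∀ i ∈ s, g i / θ i ≤ Df μ p R C t (F i) / t := by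
    intro i hi
    obtain ⟨k, hk, h4, h5, h6⟩ := step_bounds ht (h3 i hi) (hθ i hi).2
    have h7 : (Zt p R t)^[k] (E i) ⊆ Zt p R (1 - (1 - t) ^ k) (E i) :=
      iterate_Zt_subset (hEB i hi) k
    have h8 := tel hC hs ht h1 (hE i hi) (hF i hi) (hFB i hi) k fun j hj =>
      (iterate_Zt_subset (hEB i hi) j).trans (hEF i hi _
        (by
          have : (1 - t) ^ j ≤ 1 := pow_le_one₀ (by linarith) (by linarith)
          linarith)
        (by
          have : (1 - t) ^ k ≤ (1 - t) ^ j :=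
            pow_le_pow_of_le_one (by linarith) (by linarith) hj.le
          linarith))
    have h9 := hg i hi _ h5 h6
    have h10 : μ.real ((Zt p R t)^[k] (E i)) ≤ μ.real (Zt p R (1 - (1 - t) ^ k) (E i)) :=
      measureReal_mono h7 (fin_of_subset Zt_subset)
    have h11 : g i ≤ k * Df μ p R C t (F i) := by linarith
    have hk' : (0 : ℝ) < k := Nat.cast_pos.2 hk
    have h12 : 0 ≤ Df μ p R C t (F i) := df_nonneg hs ht h1 (hF i hi) (hFB i hi)
    rw [div_le_div_iff₀ (hθ i hi).1 ht]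
    calc g i * t ≤ k * Df μ p R C t (F i) * t := mul_le_mul_of_nonneg_right h11 ht.le
      _ = Df μ p R C t (F i) * (k * t) := by ring
      _ ≤ Df μ p R C t (F i) * θ i := mul_le_mul_of_nonneg_left h4 h12
  have h4 : ∑ i ∈ s, Df μ p R C t (F i) ≤ Df μ p R C t (closedBall p R) :=
    (df_sum_le hs ht h1 s F hF hFB hd).trans (df_mono hs ht h1
      (Finset.measurableSet_biUnion s hF) isClosed_closedBall.measurableSet Subset.rfl
      (iUnion₂_subset hFB))
  have h5 : Df μ p R C t (closedBall p R) ≤ C * t * μ.real (closedBall p R) := by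
    have h6 : closedBall p R ⊆ Zt p R t (closedBall p R) := by
      intro a ha
      obtain ⟨z, hz⟩ := hgeo a ha t ht h2
      refine ⟨ha, z, ?_, hz⟩
      rw [mem_closedBall, hz.2]
      have : dist a p ≤ R := ha
      nlinarith [dist_nonneg (x := a) (y := p)]
    have h7 : μ.real (closedBall p R) ≤ μ.real (Zt p R t (closedBall p R)) :=
      measureReal_mono h6 (fin_of_subset Zt_subset)
    unfold Df
    linarith
  calc ∑ i ∈ s, g i / θ i ≤ ∑ i ∈ s, Df μ p R C t (F i) / t := Finset.sum_le_sum key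
    _ = (∑ i ∈ s, Df μ p R C t (F i)) / t := by rw [Finset.sum_div]
    _ ≤ (C * t * μ.real (closedBall p R)) / t := by
      apply div_le_div_of_nonneg_right (h4.trans h5) ht.le
    _ = C * μ.real (closedBall p R) := by field_simp

end measure

section contr

variable {X : Type*} [MetricSpace X] [MeasurableSpace X] {m : Measure X} {n : ℕ} {A c : ℝ}

theorem Contr.isFiniteMeasureOnCompacts (hX : Contr n A c X m) : IsFiniteMeasureOnCompacts m := by
  refine ⟨fun K hK => ?_⟩
  rcases K.eq_empty_or_nonempty with rfl | ⟨x, -⟩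
  · simp
  · obtain ⟨r, hr⟩ := hK.isBounded.subset_closedBall x
    exact (measure_mono hr).trans_lt (hX.finite_ball x r)

theorem star_of_contr (hA : 0 ≤ A) (hX : Contr n A c X m) (p : X) {R : ℝ} (hR : R ≤ 6) :
    Star m p R A (1 / 2) := by
  intro t ht ht2 E _ hE
  have h1 : Zt p R t E ⊆ Zt p 6 t E := fun a ⟨h, z, hz, h2⟩ => ⟨h.trans hR, z, hz, h2⟩
  have h2 := (measure_mono h1).trans (hX.near p t E ht.le ht2)
  have h3 : m E ≠ ⊤ := ((measure_mono hE).trans_lt (hX.finite_ball p R)).ne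
  have h4 := ENNReal.toReal_mono (ENNReal.mul_ne_top ENNReal.ofReal_ne_top h3) h2
  rwa [ENNReal.toReal_mul, ENNReal.toReal_ofReal (by positivity)] at h4

end contr

end Pool.Agent.BDRY
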