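import Mathlib
import Pool.Agent.Work.MP_209cb6_gt.Defs
import Pool.Agent.Work.MP_209cb6_gt.Tel
import Pool.Agent.Work.MP_209cb6_gt.Slab
import Pool.Agent.Work.MP_209cb6_gt.Point

/-!
# The sum of the scales over a finite disjoint family of good balls
-/

set_option autoImplicit false

open MeasureTheory MeasureTheory.Measure Metric Set Filter Topology
open scoped ENNReal NNReal

namespace Pool.Agent.BDRY

universe u

/-- The sum inequality for one observer `p`. -/
theorem key_observer {n : ℕ} {A c : ℝ} (hA : 0 ≤ A) {X : Type u} [MetricSpace X]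
    [MeasurableSpace X] [BorelSpace X] {m : Measure X} (hX : Contr n A c X m) (x₀ : X) {r : ℝ}
    (hr : 0 < r) (hr1 : r < 1) (F : Finset X) (s : X → ℝ) (C : X → Set X) (B : X → ℝ≥0∞)
    (hF : ∀ x ∈ F, x ∈ ball x₀ r) (hs : ∀ x ∈ F, 0 < s x ∧ s x ≤ r / 32)
    (hCc : ∀ x ∈ F, IsCompact (C x)) (hCs : ∀ x ∈ F, C x ⊆ closedBall x (s x)) (p : X)
    (hp : p ∈ closedBall x₀ r)
    (h1 : ∀ x ∈ F, ∀ t, 0 ≤ t → t ≤ s x / (32 * r) → Zt p (3 * r) t (C x) ⊆ closedBall x (2 * s x))
    (h2 : ∀ x ∈ F, ∀ t, s x / (32 * r) / 2 ≤ t → t ≤ s x / (32 * r) →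
      m (Zt p (3 * r) t (C x)) ≤ B x)
    (hd : (F : Set X).PairwiseDisjoint (fun x => closedBall x (2 * s x))) :
    ∑ x ∈ F, (m (C x) - B x).toReal / (s x / (32 * r)) ≤ A * m.real (closedBall p (3 * r)) := by
  classical
  have := hX.proper
  have := hX.isFiniteMeasureOnCompacts
  have hfin : ∀ x ∈ F, m (C x) ≠ ∞ := fun x hx => (hCc x hx).measure_lt_top.ne
  have hball : ∀ x ∈ F, closedBall x (2 * s x) ⊆ closedBall p (3 * r) := by
    intro x hx
    refine closedBall_subset_closedBall' ?_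
    have e1 : dist x x₀ < r := hF x hx
    have e2 : dist p x₀ ≤ r := hp
    have e3 := dist_triangle_right x p x₀
    have e4 := (hs x hx).2
    linarith
  -- keep the indices with positive gain
  set G := F.filter (fun x => B x < m (C x)) with hG
  have hGF : ∀ x ∈ G, x ∈ F := fun x hx => (Finset.mem_filter.1 hx).1
  have hsum : ∑ x ∈ F, (m (C x) - B x).toReal / (s x / (32 * r))
      = ∑ x ∈ G, (m (C x) - B x).toReal / (s x / (32 * r)) := by
    rw [hG, Finset.sum_filter]
    refine Finset.sum_congr rfl fun x _ => ?_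
    split_ifs with h
    · rfl
    · rw [tsub_eq_zero_of_le (not_lt.1 h)]; simp
  rw [hsum]
  refine sum_le (t0 := 1 / 2) (F := fun x => closedBall x (2 * s x)) (E := C)
    (fun a _ t ht ht1 => hX.geod a p t ht.le ht1.le) hA (by norm_num)
    (star_of_contr hA hX p (by linarith)) G _ _ ?_ ?_ ?_ ?_ ?_ ?_ ?_ ?_ ?_
  · intro x hx
    obtain ⟨h3, h4⟩ := hs x (hGF x hx)
    refine ⟨by positivity, ?_⟩
    rw [div_le_iff₀ (by positivity)]
    linarith
  · exact fun x hx => hCc x (hGF x hx)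
  · intro x hx
    refine (hCs x (hGF x hx)).trans ((closedBall_subset_closedBall ?_).trans (hball x (hGF x hx)))
    linarith [(hs x (hGF x hx)).1]
  · exact fun x _ => isClosed_closedBall.measurableSet
  · exact fun x hx => hball x (hGF x hx)
  · exact hd.subset (fun x hx => hGF x hx)
  · exact fun x hx => h1 x (hGF x hx)
  · exact fun x _ => ENNReal.toReal_nonneg
  · intro x hx t ht1 ht2
    have h3 := h2 x (hGF x hx) t ht1 ht2
    have h4 : B x < m (C x) := (Finset.mem_filter.1 hx).2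
    have h5 := hfin x (hGF x hx)
    have h6 : B x ≠ ∞ := (h4.trans_le le_top).ne
    have h7 : m.real (Zt p (3 * r) t (C x)) ≤ (B x).toReal := ENNReal.toReal_mono h6 h3
    rw [ENNReal.toReal_sub_of_le h4.le h5]
    show _ ≤ (m (C x)).toReal
    linarith

theorem key (n : ℕ) {A c g : ℝ} (hA : 0 ≤ A) (hc : 0 < c) (hc1 : c ≤ 1) (hg : 0 < g)
    (hg1 : g ≤ 1) :
    ∃ e D : ℝ, 0 < e ∧ 0 < D ∧ ∀ (X : Type u) [MetricSpace X] [MeasurableSpace X] [BorelSpace X]
      (m : Measure X), Contr n A c X m → ∀ (x₀ : X) (r : ℝ), 0 < r → r < 1 →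
      ∀ (F : Finset X) (s ε : X → ℝ) (h : X → X → ℝ), (∀ x ∈ F, x ∈ ball x₀ r) →
      (∀ x ∈ F, 0 < s x ∧ s x ≤ r / 32 ∧ 0 < ε x ∧ Good n g x (s x) (ε x) (h x)) →
      (∀ x ∈ F, ε x * r ^ (n + 1) * m.real (closedBall x (s x)) ≤
        e * s x ^ (n + 1) * m.real (closedBall x₀ r)) →
      (F : Set X).PairwiseDisjoint (fun x => closedBall x (2 * s x)) →
      ∑ x ∈ F, s x ^ n ≤ D * r ^ n := by
  obtain ⟨e, he, hpoint⟩ := point.{u} n hA hc hc1 hg hg1
  refine ⟨e, 2 * A * 4 ^ (n + 1) / (c * e) + 1, he, by positivity, ?_⟩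
  intro X _ _ _ m hX x₀ r hr hr1 F s ε h hF hs hε hd
  have := hX.proper
  have := hX.isFiniteMeasureOnCompacts
  set V := m.real (closedBall x₀ r) with hV
  have hVtop : m (closedBall x₀ r) ≠ ∞ := (hX.finite_ball x₀ r).ne
  have hVpos : 0 < V := by
    rw [hV, Measure.real, ENNReal.toReal_pos_iff]
    exact ⟨(hX.pos_ball x₀ r hr).trans_le (measure_mono ball_subset_closedBall),
      hX.finite_ball x₀ r⟩
  have hP : ∀ x ∈ F, ∃ (C : Set X) (B : X → ℝ≥0∞), IsCompact C ∧ C ⊆ closedBall x (s x) ∧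
      Measurable B ∧
        (∀ p ∈ closedBall x₀ r, ∀ t, 0 ≤ t → t ≤ s x / (32 * r) →
          Zt p (3 * r) t C ⊆ closedBall x (2 * s x)) ∧
        (∀ p ∈ closedBall x₀ r, ∀ t, s x / (32 * r) / 2 ≤ t → t ≤ s x / (32 * r) →
          m (Zt p (3 * r) t C) ≤ B p) ∧
        ∫⁻ p in closedBall x₀ r, B p ∂m ≤ ENNReal.ofReal (1 / 2) * m C * m (closedBall x₀ r) ∧
        e * s x ^ n * m.real (closedBall x₀ r) / r ^ n ≤ m.real C / (s x / (32 * r)) :=
    fun x hx => hpoint X m hX x₀ r hr hr1 x (hF x hx) (s x) (ε x) (h x) (hs x hx).1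
      (hs x hx).2.1 (hs x hx).2.2.1 (hs x hx).2.2.2 (hε x hx)
  choose! C B hCc hCs hBm hZ1 hZ2 hBint hlow using hP
  -- the doubling constant
  have hdoub : ∀ p ∈ closedBall x₀ r, m.real (closedBall p (3 * r)) ≤ 4 ^ (n + 1) / c * V := by
    intro p hp
    have h1 : closedBall p (3 * r) ⊆ closedBall x₀ (4 * r) := by
      refine closedBall_subset_closedBall' ?_
      have : dist p x₀ ≤ r := hp
      linarith
    have h2 := ball_far hX x₀ hr (by linarith : r ≤ 4 * r) (by linarith)
    have h3 := ENNReal.toReal_mono hVtop h2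
    rw [ENNReal.toReal_mul, ENNReal.toReal_ofReal (by positivity)] at h3
    have h4 : r / (4 * r) = 1 / 4 := by field_simp
    rw [h4] at h3
    have h5 : m.real (closedBall p (3 * r)) ≤ m.real (closedBall x₀ (4 * r)) :=
      measureReal_mono h1 (hX.finite_ball _ _).ne
    have h6 : c * (1 / 4) ^ (n + 1) * m.real (closedBall x₀ (4 * r)) ≤ V := h3
    have h7 : (0 : ℝ) < 4 ^ (n + 1) := by positivity
    have h8 : m.real (closedBall x₀ (4 * r)) ≤ 4 ^ (n + 1) / c * V := by
      rw [div_mul_eq_mul_div, le_div_iff₀ hc]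
      have h9 : (4 : ℝ) ^ (n + 1) * (1 / 4) ^ (n + 1) = 1 := by
        rw [← mul_pow]; norm_num
      calc m.real (closedBall x₀ (4 * r)) * c
          = 4 ^ (n + 1) * (c * (1 / 4) ^ (n + 1) * m.real (closedBall x₀ (4 * r))) := by
            linear_combination (-(m.real (closedBall x₀ (4 * r)) * c)) * h9
        _ ≤ 4 ^ (n + 1) * V := by gcongr
    exact h5.trans h8
  set M := A * (4 ^ (n + 1) / c * V) with hM
  have hM0 : 0 ≤ M := by positivity
  -- pointwise inequality
  have hpt : ∀ p ∈ closedBall x₀ r,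
      ∑ x ∈ F, ENNReal.ofReal (1 / (s x / (32 * r))) * (m (C x) - B x p) ≤ ENNReal.ofReal M := by
    intro p hp
    have h1 := key_observer hA hX x₀ hr hr1 F s C (fun x => B x p) hF
      (fun x hx => ⟨(hs x hx).1, (hs x hx).2.1⟩) hCc hCs p hp (fun x hx => hZ1 x hx p hp)
      (fun x hx => hZ2 x hx p hp) hd
    have h2 : ∑ x ∈ F, (m (C x) - B x p).toReal / (s x / (32 * r)) ≤ M :=
      h1.trans (mul_le_mul_of_nonneg_left (hdoub p hp) hA)
    have h3 : ∑ x ∈ F, ENNReal.ofReal (1 / (s x / (32 * r))) * (m (C x) - B x p)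
        = ENNReal.ofReal (∑ x ∈ F, (m (C x) - B x p).toReal / (s x / (32 * r))) := by
      rw [ENNReal.ofReal_sum_of_nonneg]
      · refine Finset.sum_congr rfl fun x hx => ?_
        have h4 : m (C x) - B x p ≠ ∞ :=
          (tsub_le_self.trans_lt (hCc x hx).measure_lt_top).ne
        have h5 := (hs x hx).1
        have h6 : (m (C x) - B x p).toReal / (s x / (32 * r))
            = 1 / (s x / (32 * r)) * (m (C x) - B x p).toReal := by ring
        rw [h6, ENNReal.ofReal_mul (by positivity), ENNReal.ofReal_toReal h4]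
      · intro x hx
        have h5 := (hs x hx).1
        positivity
    rw [h3]
    exact ENNReal.ofReal_le_ofReal h2
  -- integrate
  have hint : ∫⁻ p in closedBall x₀ r,
      ∑ x ∈ F, ENNReal.ofReal (1 / (s x / (32 * r))) * (m (C x) - B x p) ∂m
      ≤ ENNReal.ofReal M * m (closedBall x₀ r) := by
    calc _ ≤ ∫⁻ p in closedBall x₀ r, ENNReal.ofReal M ∂m :=
          setLIntegral_mono' isClosed_closedBall.measurableSet hpt
      _ = _ := by rw [setLIntegral_const]
  rw [lintegral_finsetSum] at hint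
  swap
  · intro x hx
    exact (measurable_const.sub (hBm x hx)).const_mul _
  -- lower bound of each integral
  have hlow2 : ∀ x ∈ F, ENNReal.ofReal (e * s x ^ n * V / r ^ n * V / 2)
      ≤ ∫⁻ p in closedBall x₀ r, ENNReal.ofReal (1 / (s x / (32 * r))) * (m (C x) - B x p) ∂m := by
    intro x hx
    have hsx := (hs x hx).1
    have hCtop : m (C x) ≠ ∞ := (hCc x hx).measure_lt_top.ne
    have hmeas : Measurable (fun p => m (C x) - B x p) := measurable_const.sub (hBm x hx)
    rw [lintegral_const_mul _ hmeas]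
    have h1 : m (C x) * m (closedBall x₀ r) ≤ (∫⁻ p in closedBall x₀ r, (m (C x) - B x p) ∂m)
        + ENNReal.ofReal (1 / 2) * m (C x) * m (closedBall x₀ r) := by
      calc m (C x) * m (closedBall x₀ r) = ∫⁻ p in closedBall x₀ r, m (C x) ∂m := by
            rw [setLIntegral_const]
        _ ≤ ∫⁻ p in closedBall x₀ r, ((m (C x) - B x p) + B x p) ∂m :=
            lintegral_mono fun p => le_tsub_add
        _ = (∫⁻ p in closedBall x₀ r, (m (C x) - B x p) ∂m) + ∫⁻ p in closedBall x₀ r, B x p ∂m :=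
            lintegral_add_right _ (hBm x hx)
        _ ≤ _ := by gcongr; exact hBint x hx
    have h2 : ENNReal.ofReal (1 / 2) * (m (C x) * m (closedBall x₀ r))
        ≤ ∫⁻ p in closedBall x₀ r, (m (C x) - B x p) ∂m := by
      have hW : m (C x) * m (closedBall x₀ r) ≠ ∞ := ENNReal.mul_ne_top hCtop hVtop
      have h3 : m (C x) * m (closedBall x₀ r)
          = ENNReal.ofReal (1 / 2) * (m (C x) * m (closedBall x₀ r))
            + ENNReal.ofReal (1 / 2) * (m (C x) * m (closedBall x₀ r)) := by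
        rw [← add_mul, ← ENNReal.ofReal_add (by norm_num) (by norm_num)]
        norm_num
      have h4 : ENNReal.ofReal (1 / 2) * (m (C x) * m (closedBall x₀ r)) ≠ ∞ :=
        ENNReal.mul_ne_top ENNReal.ofReal_ne_top hW
      rw [mul_assoc] at h1
      nth_rewrite 1 [h3] at h1
      exact (ENNReal.add_le_add_iff_right h4).1 h1
    have h3 : ENNReal.ofReal (e * s x ^ n * V / r ^ n * V / 2)
        ≤ ENNReal.ofReal (1 / (s x / (32 * r))) *
          (ENNReal.ofReal (1 / 2) * (m (C x) * m (closedBall x₀ r))) := by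
      have h4 : ENNReal.ofReal (1 / (s x / (32 * r))) *
          (ENNReal.ofReal (1 / 2) * (m (C x) * m (closedBall x₀ r)))
          = ENNReal.ofReal (m.real (C x) / (s x / (32 * r)) * V / 2) := by
        rw [← ENNReal.ofReal_toReal hCtop, ← ENNReal.ofReal_toReal hVtop,
          ← ENNReal.ofReal_mul ENNReal.toReal_nonneg, ← ENNReal.ofReal_mul (by norm_num),
          ← ENNReal.ofReal_mul (by positivity)]
        congr 1
        show 1 / (s x / (32 * r)) * (1 / 2 * (m.real (C x) * V)) = _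
        ring
      rw [h4]
      apply ENNReal.ofReal_le_ofReal
      have h5 := hlow x hx
      have h6 : e * s x ^ n * V / r ^ n * V ≤ m.real (C x) / (s x / (32 * r)) * V :=
        mul_le_mul_of_nonneg_right h5 hVpos.le
      linarith
    exact h3.trans (by gcongr)
  have hfinal := (Finset.sum_le_sum hlow2).trans hint
  rw [← ENNReal.ofReal_toReal hVtop, ← ENNReal.ofReal_mul hM0,
    ← ENNReal.ofReal_sum_of_nonneg] at hfinal
  swap
  · intro x hx
    have hsx := (hs x hx).1
    positivity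
  have hfin2 : ∑ x ∈ F, e * s x ^ n * V / r ^ n * V / 2 ≤ M * V :=
    (ENNReal.ofReal_le_ofReal_iff (by positivity)).1 hfinal
  have e1 : ∑ x ∈ F, e * s x ^ n * V / r ^ n * V / 2
      = (e * V * V / r ^ n / 2) * ∑ x ∈ F, s x ^ n := by
    rw [Finset.mul_sum]
    refine Finset.sum_congr rfl fun x _ => ?_
    ring
  rw [e1] at hfin2
  have hrn : 0 < r ^ n := by positivity
  have e2 : ∑ x ∈ F, s x ^ n ≤ 2 * A * 4 ^ (n + 1) / (c * e) * r ^ n := by
    have h1 : (e * V * V / r ^ n / 2) * ∑ x ∈ F, s x ^ n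
        ≤ (e * V * V / r ^ n / 2) * (2 * A * 4 ^ (n + 1) / (c * e) * r ^ n) := by
      refine hfin2.trans (le_of_eq ?_)
      rw [hM]
      field_simp
    exact le_of_mul_le_mul_left h1 (by positivity)
  linarith

end Pool.Agent.BDRY
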