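import Pool.Agent.Work.MP_209cb6_gt.Chart
import Pool.Agent.Work.MP_209cb6_gt.Key
import Pool.Agent.Work.MP_209cb6_gt.Cover
import Pool.Agent.Work.MP_209cb6_gt.Dens
import Pool.Agent.Work.MP_209cb6_gt.ContrRcd

/-!
# The bound for the measure of the set of half-space points
-/

set_option autoImplicit false

open MeasureTheory MeasureTheory.Measure Metric Set Filter Topology
open scoped ENNReal NNReal

namespace Pool.Agent.BDRY

universe u

theorem main_half {K : ℝ} (hK : K ≤ 0) (n : ℕ) : ∃ C : ℝ, 0 < C ∧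
    ∀ (X : Type u) [MetricSpace X] [MeasurableSpace X] [BorelSpace X],
      IsRCD K (n + 1) X (μHE[n + 1] : Measure X) → ∀ (x : X) (r : ℝ), 0 < r → r < 1 →
        (μHE[n] : Measure X) (ball x r ∩ {y | HalfTangent n y}) ≤ ENNReal.ofReal (C * r ^ n) := by
  obtain ⟨A, c, hA, hc, hc1, H⟩ := contr_of_rcd.{u} hK n
  obtain ⟨g, hg, hg1, hgood⟩ := good_of_halfTangent.{u} n
  obtain ⟨e, D, he, hD, hkey⟩ := key.{u} n hA hc hc1 hg hg1
  obtain ⟨D', hD', hcov⟩ := cover_bound.{u} n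
  obtain ⟨Θ, hΘ, hdens⟩ := dens.{u} n hA hc hc1
  refine ⟨D' * D, by positivity, ?_⟩
  intro X _ _ _ hR x₀ r hr hr1
  have hX := H X _ hR
  have := hR.proper
  set V := (μHE[n + 1] : Measure X).real (closedBall x₀ r) with hV
  have hVpos : 0 < V := by
    rw [hV, Measure.real, ENNReal.toReal_pos_iff]
    exact ⟨(hX.pos_ball x₀ r hr).trans_le (measure_mono ball_subset_closedBall),
      hX.finite_ball x₀ r⟩
  set ε := e * V / (r ^ (n + 1) * Θ) with hε
  have hεpos : 0 < ε := by positivity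
  refine (hcov X (ball x₀ r ∩ {y | HalfTangent n y})
    (fun x s => s ≤ r / 32 ∧ ∃ h, Good n g x s ε h) (D * r ^ n) (by positivity) ?_ ?_).trans ?_
  · rintro x ⟨-, hx⟩ δ hδ
    obtain ⟨s, h, h1, h2, h3⟩ := hgood X x hx ε hεpos (min δ (r / 32)) (by positivity)
    exact ⟨s, h1, h2.trans_le (min_le_left _ _), (h2.trans_le (min_le_right _ _)).le, h, h3⟩
  · intro F s hF hd
    have h1 : ∀ x ∈ F, ∃ h, Good n g x (s x) ε h := fun x hx => (hF x hx).2.2.2
    choose! h hh using h1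
    refine hkey X _ hX x₀ r hr hr1 F s (fun _ => ε) h (fun x hx => (hF x hx).1.1)
      (fun x hx => ⟨(hF x hx).2.1, (hF x hx).2.2.1, hεpos, hh x hx⟩) ?_ hd
    intro x hx
    have h2 := hdens X hX x (s x) (hF x hx).2.1 ((hF x hx).2.2.1.trans (by linarith))
    have h3 : 0 < s x := (hF x hx).2.1
    calc ε * r ^ (n + 1) * (μHE[n + 1] : Measure X).real (closedBall x (s x))
        ≤ ε * r ^ (n + 1) * (Θ * s x ^ (n + 1)) := by gcongr
      _ = e * s x ^ (n + 1) * V := by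
        rw [hε]; field_simp
  · rw [mul_assoc]

theorem main_null {K : ℝ} (hK : K ≤ 0) (n : ℕ) : ∃ C : ℝ, 0 < C ∧
    ∀ (X : Type u) [MetricSpace X] [MeasurableSpace X] [BorelSpace X],
      IsRCD K (n + 1) X (μHE[n + 1] : Measure X) →
      ∀ D : Set X, (μHE[n] : Measure X) (D \ {y | HalfTangent n y}) = 0 →
      ∀ (x : X) (r : ℝ), 0 < r → r < 1 →
        (μHE[n] : Measure X) (ball x r ∩ D) ≤ ENNReal.ofReal (C * r ^ n) := by
  obtain ⟨C, hC, H⟩ := main_half.{u} hK n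
  refine ⟨C, hC, fun X _ _ _ hX D hD x r hr hr1 => ?_⟩
  have h1 : ball x r ∩ D ⊆ (ball x r ∩ {y | HalfTangent n y}) ∪ (D \ {y | HalfTangent n y}) := by
    rintro y ⟨hy1, hy2⟩
    by_cases hy : HalfTangent n y
    · exact Or.inl ⟨hy1, hy⟩
    · exact Or.inr ⟨hy2, hy⟩
  calc (μHE[n] : Measure X) (ball x r ∩ D)
      ≤ (μHE[n] : Measure X) ((ball x r ∩ {y | HalfTangent n y}) ∪
          (D \ {y | HalfTangent n y})) := measure_mono h1
    _ ≤ (μHE[n] : Measure X) (ball x r ∩ {y | HalfTangent n y}) +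
          (μHE[n] : Measure X) (D \ {y | HalfTangent n y}) := measure_union_le _ _
    _ = (μHE[n] : Measure X) (ball x r ∩ {y | HalfTangent n y}) := by rw [hD, add_zero]
    _ ≤ ENNReal.ofReal (C * r ^ n) := H X hX x r hr hr1

end Pool.Agent.BDRY
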