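import Pool.Agent.Work.MP_209cb6_gt.Defs

/-!
# Facts on the quadratic Wasserstein distance (module M7a)
-/

set_option autoImplicit false
set_option linter.unusedSectionVars false

open MeasureTheory MeasureTheory.Measure Metric Set Filter Topology ProbabilityTheory
open scoped ENNReal NNReal

namespace Pool.Agent.BDRY

universe u

/-! ### Elementary facts -/

theorem ennreal_add_sq_le (a b : ℝ≥0∞) : (a + b) ^ 2 ≤ 2 * (a ^ 2 + b ^ 2) := by
  have := ENNReal.rpow_add_le_mul_rpow_add_rpow a b (p := 2) (by norm_num)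
  norm_num at this
  exact_mod_cast this

section basic
variable {X : Type u} [MetricSpace X] [MeasurableSpace X]

theorem W2_nonneg (μ ν : Measure X) : 0 ≤ W2 μ ν := Real.sqrt_nonneg _

theorem W2_sq (μ ν : Measure X) : W2 μ ν ^ 2 = (W2sq μ ν).toReal :=
  Real.sq_sqrt ENNReal.toReal_nonneg

theorem W2sq_le_of_coupling {μ ν : Measure X} (π : Measure (X × X)) (h1 : π.map Prod.fst = μ)
    (h2 : π.map Prod.snd = ν) : W2sq μ ν ≤ ∫⁻ z, edist z.1 z.2 ^ 2 ∂π :=
  iInf_le (fun π : {π : Measure (X × X) // π.map Prod.fst = μ ∧ π.map Prod.snd = ν} =>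
    ∫⁻ z, edist z.1 z.2 ^ 2 ∂π.1) ⟨π, h1, h2⟩

theorem W2sq_le_comm (μ ν : Measure X) : W2sq μ ν ≤ W2sq ν μ := by
  refine le_iInf ?_
  rintro ⟨π, h1, h2⟩
  refine (W2sq_le_of_coupling (π.map Prod.swap) ?_ ?_).trans ?_
  · rw [Measure.map_map measurable_fst measurable_swap]
    exact h2
  · rw [Measure.map_map measurable_snd measurable_swap]
    exact h1
  · have := lintegral_map_equiv (μ := π) (fun z : X × X => edist z.1 z.2 ^ 2)
      MeasurableEquiv.prodComm
    simp only [MeasurableEquiv.prodComm, MeasurableEquiv.coe_mk, Equiv.coe_prodComm] at this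
    rw [this]
    simp only [Prod.fst_swap, Prod.snd_swap]
    exact le_of_eq (lintegral_congr fun z => by rw [edist_comm])

theorem W2sq_comm (μ ν : Measure X) : W2sq μ ν = W2sq ν μ :=
  le_antisymm (W2sq_le_comm μ ν) (W2sq_le_comm ν μ)

theorem W2_comm (μ ν : Measure X) : W2 μ ν = W2 ν μ := by
  rw [W2, W2, W2sq_comm]

/-- the second moment is finite with respect to every base point -/
theorem IsP2.lt_top {μ : Measure X} (h : IsP2 μ) [OpensMeasurableSpace X] (x : X) :
    ∫⁻ y, edist x y ^ 2 ∂μ < ∞ := by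
  obtain ⟨hp, x', hx'⟩ := h
  calc ∫⁻ y, edist x y ^ 2 ∂μ ≤ ∫⁻ y, (2 * edist x x' ^ 2 + 2 * edist x' y ^ 2) ∂μ := by
        refine lintegral_mono fun y => ?_
        calc edist x y ^ 2 ≤ (edist x x' + edist x' y) ^ 2 := by gcongr; exact edist_triangle _ _ _
          _ ≤ 2 * (edist x x' ^ 2 + edist x' y ^ 2) := ennreal_add_sq_le _ _
          _ = _ := by ring
    _ = 2 * edist x x' ^ 2 + 2 * ∫⁻ y, edist x' y ^ 2 ∂μ := by
        rw [lintegral_add_left measurable_const, lintegral_const, measure_univ, mul_one,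
          lintegral_const_mul' _ _ (by simp)]
    _ < ∞ := by
        refine ENNReal.add_lt_top.2 ⟨ENNReal.mul_lt_top (by simp) ?_, ENNReal.mul_lt_top (by simp) hx'⟩
        exact ENNReal.pow_lt_top (edist_lt_top _ _)

/-- the product coupling has finite cost -/
theorem lintegral_prod_lt_top [OpensMeasurableSpace X] [SecondCountableTopology X]
    {μ ν : Measure X} (hμ : IsP2 μ) (hν : IsP2 ν) :
    ∫⁻ z, edist z.1 z.2 ^ 2 ∂(μ.prod ν) < ∞ := by
  have := hμ.1
  have := hν.1
  obtain ⟨x, hx⟩ := hμ.2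
  have hy := hν.lt_top x
  have hm : Measurable fun y : X => edist x y ^ 2 := (measurable_const.edist measurable_id).pow_const 2
  calc ∫⁻ z, edist z.1 z.2 ^ 2 ∂(μ.prod ν)
      ≤ ∫⁻ z, (2 * edist x z.1 ^ 2 + 2 * edist x z.2 ^ 2) ∂(μ.prod ν) := by
        refine lintegral_mono fun z => ?_
        calc edist z.1 z.2 ^ 2 ≤ (edist z.1 x + edist x z.2) ^ 2 := by
              gcongr; exact edist_triangle _ _ _
          _ ≤ 2 * (edist z.1 x ^ 2 + edist x z.2 ^ 2) := ennreal_add_sq_le _ _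
          _ = _ := by rw [edist_comm z.1 x]; ring
    _ = 2 * ∫⁻ y, edist x y ^ 2 ∂μ + 2 * ∫⁻ y, edist x y ^ 2 ∂ν := by
        rw [lintegral_add_left (by fun_prop), lintegral_const_mul' _ _ (by simp),
          lintegral_const_mul' _ _ (by simp)]
        congr 2
        · have := lintegral_map (μ := μ.prod ν) hm measurable_fst
          rw [Measure.map_fst_prod] at this
          simpa using this.symm
        · have := lintegral_map (μ := μ.prod ν) hm measurable_snd
          rw [Measure.map_snd_prod] at this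
          simpa using this.symm
    _ < ∞ := ENNReal.add_lt_top.2 ⟨ENNReal.mul_lt_top (by simp) hx, ENNReal.mul_lt_top (by simp) hy⟩

theorem W2sq_lt_top [OpensMeasurableSpace X] [SecondCountableTopology X] {μ ν : Measure X}
    (hμ : IsP2 μ) (hν : IsP2 ν) : W2sq μ ν < ∞ := by
  have := hμ.1
  have := hν.1
  refine (W2sq_le_of_coupling (μ.prod ν) ?_ ?_).trans_lt (lintegral_prod_lt_top hμ hν)
  · rw [Measure.map_fst_prod]; simp
  · rw [Measure.map_snd_prod]; simp

/-- almost optimal couplings exist -/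
theorem exists_coupling' [OpensMeasurableSpace X] [SecondCountableTopology X] {μ ν : Measure X}
    (hμ : IsP2 μ) (hν : IsP2 ν) {ε : ℝ≥0∞} (hε : 0 < ε) :
    ∃ π : Measure (X × X), π.map Prod.fst = μ ∧ π.map Prod.snd = ν ∧
      ∫⁻ z, edist z.1 z.2 ^ 2 ∂π < W2sq μ ν + ε := by
  have h : W2sq μ ν < W2sq μ ν + ε := ENNReal.lt_add_right (W2sq_lt_top hμ hν).ne hε.ne'
  rw [W2sq, iInf_lt_iff] at h
  obtain ⟨⟨π, h1, h2⟩, h3⟩ := h
  exact ⟨π, h1, h2, h3⟩

/-! ### Distance to a Dirac mass -/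

theorem W2sq_dirac [OpensMeasurableSpace X] [SecondCountableTopology X] {μ : Measure X}
    [IsProbabilityMeasure μ] (p : X) : W2sq μ (dirac p) = ∫⁻ y, edist y p ^ 2 ∂μ := by
  have hm : Measurable fun y : X => edist y p ^ 2 := (measurable_id.edist measurable_const).pow_const 2
  have key : ∀ π : Measure (X × X), π.map Prod.fst = μ → π.map Prod.snd = dirac p →
      ∫⁻ z, edist z.1 z.2 ^ 2 ∂π = ∫⁻ y, edist y p ^ 2 ∂μ := by
    intro π h1 h2
    have hae : ∀ᵐ z ∂π, z.2 = p := by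
      have : ∀ᵐ y ∂(π.map Prod.snd), y = p := by
        rw [h2, ae_dirac_eq]; rfl
      exact ae_of_ae_map measurable_snd.aemeasurable this
    calc ∫⁻ z, edist z.1 z.2 ^ 2 ∂π = ∫⁻ z, edist z.1 p ^ 2 ∂π :=
          lintegral_congr_ae (hae.mono fun z hz => by simp only [hz])
      _ = _ := by rw [← h1, lintegral_map hm measurable_fst]
  refine le_antisymm ?_ (le_iInf ?_)
  · refine (W2sq_le_of_coupling (μ.prod (dirac p)) ?_ ?_).trans ?_
    · rw [Measure.map_fst_prod]; simp
    · rw [Measure.map_snd_prod]; simp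
    · rw [key]
      · rw [Measure.map_fst_prod]; simp
      · rw [Measure.map_snd_prod]; simp
  · rintro ⟨π, h1, h2⟩
    exact (key π h1 h2).ge

theorem toReal_lintegral_edist_sq [OpensMeasurableSpace X] [SecondCountableTopology X]
    {Y : Type*} [MeasurableSpace Y] (μ : Measure Y) {f g : Y → X} (hf : Measurable f)
    (hg : Measurable g) :
    (∫⁻ y, edist (f y) (g y) ^ 2 ∂μ).toReal = ∫ y, dist (f y) (g y) ^ 2 ∂μ := by
  rw [integral_eq_lintegral_of_nonneg_ae (ae_of_all _ fun _ => by positivity)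
    ((hf.dist hg).pow_const 2).aestronglyMeasurable]
  congr 1
  refine lintegral_congr fun y => ?_
  rw [edist_dist, ENNReal.ofReal_pow dist_nonneg]

theorem W2_dirac_sq [OpensMeasurableSpace X] [SecondCountableTopology X] {μ : Measure X}
    (hμ : IsP2 μ) (p : X) : W2 μ (dirac p) ^ 2 = ∫ y, dist y p ^ 2 ∂μ := by
  have := hμ.1
  rw [W2_sq, W2sq_dirac]
  exact toReal_lintegral_edist_sq μ (f := fun y => y) (g := fun _ => p) measurable_id
    measurable_const

/-- a probability measure carried by a bounded set is in `P2` -/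
theorem isP2_of_bounded {μ : Measure X} [IsProbabilityMeasure μ] {A : Set X}
    (hA : Bornology.IsBounded A) (h : ∀ᵐ x ∂μ, x ∈ A) : IsP2 μ := by
  have hne : Nonempty X := by
    by_contra hcon
    rw [not_nonempty_iff] at hcon
    have : μ = 0 := Measure.eq_zero_of_isEmpty μ
    exact IsProbabilityMeasure.ne_zero μ this
  obtain ⟨x⟩ := hne
  obtain ⟨r, hr⟩ := hA.subset_closedBall x
  refine ⟨inferInstance, x, ?_⟩
  calc ∫⁻ y, edist x y ^ 2 ∂μ ≤ ∫⁻ _, ENNReal.ofReal r ^ 2 ∂μ := by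
        refine lintegral_mono_ae (h.mono fun y hy => ?_)
        gcongr
        rw [edist_comm, edist_dist]
        exact ENNReal.ofReal_le_ofReal (hr hy)
    _ < ∞ := by
        rw [lintegral_const, measure_univ, mul_one]
        exact ENNReal.pow_lt_top ENNReal.ofReal_lt_top

theorem isP2_dirac [MeasurableSingletonClass X] (p : X) : IsP2 (dirac p : Measure X) :=
  isP2_of_bounded (A := {p}) Bornology.isBounded_singleton (by rw [ae_dirac_eq]; rfl)

theorem isP2_map {μ : Measure X} [IsProbabilityMeasure μ] {T : X → X} (hT : Measurable T)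
    {S : Set X} (hS : Bornology.IsBounded S) (hSm : MeasurableSet S) (h : ∀ᵐ x ∂μ, T x ∈ S) :
    IsP2 (μ.map T) := by
  have := Measure.isProbabilityMeasure_map (μ := μ) hT.aemeasurable
  exact isP2_of_bounded hS ((ae_map_iff hT.aemeasurable hSm).2 h)

/-- normalised restriction -/
noncomputable def mu1 (m : Measure X) (A : Set X) : Measure X := (m A)⁻¹ • m.restrict A

theorem isProb_mu1 {m : Measure X} {A : Set X} (h0 : m A ≠ 0) (h1 : m A ≠ ∞) :
    IsProbabilityMeasure (mu1 m A) := by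
  refine ⟨?_⟩
  rw [mu1, Measure.smul_apply, Measure.restrict_apply_univ, smul_eq_mul]
  exact ENNReal.inv_mul_cancel h0 h1

theorem mu1_ae_mem {m : Measure X} {A : Set X} (hA : MeasurableSet A) : ∀ᵐ x ∂(mu1 m A), x ∈ A := by
  have h := ae_restrict_mem (μ := m) hA
  exact Measure.ae_smul_measure h _

theorem isP2_mu1 {m : Measure X} {A : Set X} (hA : MeasurableSet A) (h0 : m A ≠ 0)
    (h1 : m A ≠ ∞) (hb : Bornology.IsBounded A) : IsP2 (mu1 m A) := by
  have := isProb_mu1 h0 h1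
  exact isP2_of_bounded hb (mu1_ae_mem hA)

/-- the normalised restriction of `m` to a set near `p` is near `δ_p` -/
theorem W2_mu1_dirac_le [OpensMeasurableSpace X] [SecondCountableTopology X] {m : Measure X}
    {A : Set X} (hA : MeasurableSet A) (h0 : m A ≠ 0) (h1 : m A ≠ ∞) {p : X} {r : ℝ}
    (hr : 0 ≤ r) (hp : A ⊆ closedBall p r) : W2 (mu1 m A) (dirac p) ≤ r := by
  have := isProb_mu1 h0 h1
  have h2 : W2 (mu1 m A) (dirac p) ^ 2 ≤ r ^ 2 := by
    rw [W2_sq, W2sq_dirac]
    have h3 : ∫⁻ y, edist y p ^ 2 ∂(mu1 m A) ≤ ENNReal.ofReal (r ^ 2) := by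
      calc ∫⁻ y, edist y p ^ 2 ∂(mu1 m A) ≤ ∫⁻ _, ENNReal.ofReal (r ^ 2) ∂(mu1 m A) := by
            refine lintegral_mono_ae ((mu1_ae_mem hA).mono fun y hy => ?_)
            rw [edist_dist, ← ENNReal.ofReal_pow dist_nonneg]
            have : dist y p ≤ r := hp hy
            gcongr
        _ = _ := by rw [lintegral_const, measure_univ, mul_one]
    exact ENNReal.toReal_le_of_le_ofReal (by positivity) h3
  exact abs_le_of_sq_le_sq' h2 hr |>.2

/-- the coupling given by a map -/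
theorem W2_map_sq_le [OpensMeasurableSpace X] [SecondCountableTopology X] {μ : Measure X}
    {T : X → X} (hT : Measurable T) (hfin : ∫⁻ x, edist (T x) x ^ 2 ∂μ < ∞) :
    W2 (μ.map T) μ ^ 2 ≤ ∫ x, dist (T x) x ^ 2 ∂μ := by
  have h0 := toReal_lintegral_edist_sq μ (g := fun x => x) hT measurable_id
  rw [W2_sq, ← h0]
  refine ENNReal.toReal_mono hfin.ne ?_
  have hm : Measurable fun x => (T x, x) := hT.prodMk measurable_id
  refine (W2sq_le_of_coupling (μ.map fun x => (T x, x)) ?_ ?_).trans ?_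
  · rw [Measure.map_map measurable_fst hm]; rfl
  · rw [Measure.map_map measurable_snd hm]
    exact Measure.map_id
  · rw [lintegral_map (by fun_prop) hm]

theorem W2_map_dirac_sq [OpensMeasurableSpace X] [SecondCountableTopology X] {μ : Measure X}
    [IsProbabilityMeasure μ] {T : X → X} (hT : Measurable T) (p : X) :
    W2 (μ.map T) (dirac p) ^ 2 = ∫ x, dist (T x) p ^ 2 ∂μ := by
  have := Measure.isProbabilityMeasure_map (μ := μ) hT.aemeasurable
  rw [W2_sq, W2sq_dirac, lintegral_map (by fun_prop) hT]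
  exact toReal_lintegral_edist_sq μ (g := fun _ => p) hT measurable_const

/-- if `ν` is carried by `S`, the second moment of the distance from `S` with respect to `μ` is at
most `W2 μ ν ^ 2` -/
theorem lintegral_infEDist_sq_le [OpensMeasurableSpace X] {μ ν : Measure X} {S : Set X}
    (h : ν Sᶜ = 0) : ∫⁻ x, infEDist x S ^ 2 ∂μ ≤ W2sq μ ν := by
  refine le_iInf ?_
  rintro ⟨π, h1, h2⟩
  have hae : ∀ᵐ z ∂π, z.2 ∈ S := by
    have : ∀ᵐ y ∂(π.map Prod.snd), y ∈ S := by
      rw [h2]; exact h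
    exact ae_of_ae_map measurable_snd.aemeasurable this
  calc ∫⁻ x, infEDist x S ^ 2 ∂μ = ∫⁻ z, infEDist z.1 S ^ 2 ∂π := by
        rw [← h1, lintegral_map (measurable_infEDist.pow_const 2) measurable_fst]
    _ ≤ ∫⁻ z, edist z.1 z.2 ^ 2 ∂π := by
        refine lintegral_mono_ae (hae.mono fun z hz => ?_)
        have := infEDist_le_edist_of_mem (x := z.1) hz
        gcongr

end basic

/-! ### Gluing and the triangle inequality -/

section triangle
variable {X : Type u} [MetricSpace X] [MeasurableSpace X] [BorelSpace X]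

theorem glue [ProperSpace X] {μ ν : Measure X} [IsProbabilityMeasure μ]
    {π₁ π₂ : Measure (X × X)} (h1 : π₁.map Prod.fst = μ) (h2 : π₁.map Prod.snd = ν)
    (h3 : π₂.map Prod.fst = ν) :
    ∃ Γ : Measure (X × X × X), Γ.map (fun w => (w.2.1, w.1)) = π₁ ∧
      Γ.map (fun w => (w.1, w.2.2)) = π₂ := by
  have hπ₁ : IsProbabilityMeasure π₁ := by
    refine ⟨?_⟩
    have : μ univ = 1 := measure_univ
    rwa [← h1, Measure.map_apply measurable_fst MeasurableSet.univ, preimage_univ] at this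
  have hν : IsProbabilityMeasure ν := by
    rw [← h2]; exact Measure.isProbabilityMeasure_map measurable_snd.aemeasurable
  have hπ₂ : IsProbabilityMeasure π₂ := by
    refine ⟨?_⟩
    have : ν univ = 1 := measure_univ
    rwa [← h3, Measure.map_apply measurable_fst MeasurableSet.univ, preimage_univ] at this
  have hne : Nonempty X := by
    by_contra hcon
    rw [not_nonempty_iff] at hcon
    exact IsProbabilityMeasure.ne_zero μ (Measure.eq_zero_of_isEmpty μ)
  set ρ : Measure (X × X) := π₁.map Prod.swap with hρ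
  have hρp : IsProbabilityMeasure ρ := Measure.isProbabilityMeasure_map measurable_swap.aemeasurable
  have hρ1 : ρ.fst = ν := by
    rw [Measure.fst, hρ, Measure.map_map measurable_fst measurable_swap]; exact h2
  have hπ1 : π₂.fst = ν := h3
  obtain ⟨κ₁, hκ₁, e1⟩ : ∃ κ : Kernel X X, IsMarkovKernel κ ∧ ν ⊗ₘ κ = ρ := by
    refine ⟨ρ.condKernel, inferInstance, ?_⟩
    have := ρ.disintegrate ρ.condKernel
    rwa [hρ1] at this
  obtain ⟨κ₂, hκ₂, e2⟩ : ∃ κ : Kernel X X, IsMarkovKernel κ ∧ ν ⊗ₘ κ = π₂ := by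
    refine ⟨π₂.condKernel, inferInstance, ?_⟩
    have := π₂.disintegrate π₂.condKernel
    rwa [hπ1] at this
  refine ⟨ν ⊗ₘ (κ₁ ×ₖ κ₂), ?_, ?_⟩
  · refine Measure.ext_of_lintegral _ fun F hF => ?_
    rw [lintegral_map hF (by fun_prop), Measure.lintegral_compProd (by fun_prop)]
    have : ∫⁻ z, F z ∂π₁ = ∫⁻ z, F z.swap ∂ρ := by
      rw [hρ, lintegral_map (by fun_prop) measurable_swap]
      simp
    rw [this, ← e1, Measure.lintegral_compProd (by fun_prop)]
    refine lintegral_congr fun y => ?_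
    rw [Kernel.prod_apply, lintegral_prod _ (by fun_prop)]
    simp
  · refine Measure.ext_of_lintegral _ fun F hF => ?_
    rw [lintegral_map hF (by fun_prop), Measure.lintegral_compProd (by fun_prop)]
    rw [← e2, Measure.lintegral_compProd (by fun_prop)]
    refine lintegral_congr fun y => ?_
    rw [Kernel.prod_apply, lintegral_prod _ (by fun_prop)]
    simp

/-- the triangle inequality on the level of couplings -/
theorem W2sq_le_of_couplings [ProperSpace X] {μ ν σ : Measure X} [IsProbabilityMeasure μ]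
    {π₁ π₂ : Measure (X × X)} (h1 : π₁.map Prod.fst = μ) (h2 : π₁.map Prod.snd = ν)
    (h3 : π₂.map Prod.fst = ν) (h4 : π₂.map Prod.snd = σ) :
    W2sq μ σ ^ (1 / 2 : ℝ) ≤ (∫⁻ z, edist z.1 z.2 ^ 2 ∂π₁) ^ (1 / 2 : ℝ) +
      (∫⁻ z, edist z.1 z.2 ^ 2 ∂π₂) ^ (1 / 2 : ℝ) := by
  obtain ⟨Γ, hΓ1, hΓ2⟩ := glue h1 h2 h3
  have hc : W2sq μ σ ≤ ∫⁻ w, edist w.2.1 w.2.2 ^ 2 ∂Γ := by
    refine (W2sq_le_of_coupling (Γ.map Prod.snd) ?_ ?_).trans ?_
    · rw [← h1, ← hΓ1, Measure.map_map measurable_fst (by fun_prop),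
        Measure.map_map measurable_fst (by fun_prop)]
      rfl
    · rw [← h4, ← hΓ2, Measure.map_map measurable_snd (by fun_prop),
        Measure.map_map measurable_snd (by fun_prop)]
      rfl
    · rw [lintegral_map (by fun_prop) measurable_snd]
  have hm := ENNReal.lintegral_Lp_add_le (μ := Γ) (p := 2)
    (f := fun w => edist w.2.1 w.1) (g := fun w => edist w.1 w.2.2) (by fun_prop) (by fun_prop)
    (by norm_num)
  have e1 : ∫⁻ w, edist w.2.1 w.1 ^ (2 : ℝ) ∂Γ = ∫⁻ z, edist z.1 z.2 ^ 2 ∂π₁ := by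
    rw [← hΓ1, lintegral_map (by fun_prop) (by fun_prop)]
    refine lintegral_congr fun w => ?_
    norm_cast
  have e2 : ∫⁻ w, edist w.1 w.2.2 ^ (2 : ℝ) ∂Γ = ∫⁻ z, edist z.1 z.2 ^ 2 ∂π₂ := by
    rw [← hΓ2, lintegral_map (by fun_prop) (by fun_prop)]
    refine lintegral_congr fun w => ?_
    norm_cast
  rw [e1, e2] at hm
  refine le_trans ?_ hm
  gcongr
  refine hc.trans (lintegral_mono fun w => ?_)
  have := edist_triangle w.2.1 w.1 w.2.2
  calc edist w.2.1 w.2.2 ^ 2 ≤ (edist w.2.1 w.1 + edist w.1 w.2.2) ^ 2 := by gcongr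
    _ = (edist w.2.1 w.1 + edist w.1 w.2.2) ^ (2 : ℝ) := by norm_cast

theorem W2sq_triangle [ProperSpace X] {μ ν σ : Measure X} (hμ : IsP2 μ) (hν : IsP2 ν)
    (hσ : IsP2 σ) :
    W2sq μ σ ^ (1 / 2 : ℝ) ≤ W2sq μ ν ^ (1 / 2 : ℝ) + W2sq ν σ ^ (1 / 2 : ℝ) := by
  have := hμ.1
  refine ENNReal.le_of_forall_pos_le_add fun δ hδ _ => ?_
  have hδ2 : (0 : ℝ≥0∞) < ((δ / 2) ^ 2 : ℝ≥0) := by
    rw [ENNReal.coe_pos]; positivity
  obtain ⟨π₁, h1, h2, h12⟩ := exists_coupling' hμ hν hδ2
  obtain ⟨π₂, h3, h4, h34⟩ := exists_coupling' hν hσ hδ2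
  have e : (((δ / 2) ^ 2 : ℝ≥0) : ℝ≥0∞) ^ (1 / 2 : ℝ) = ((δ / 2 : ℝ≥0) : ℝ≥0∞) := by
    rw [ENNReal.coe_pow, ← ENNReal.rpow_natCast, ← ENNReal.rpow_mul]
    norm_num
  calc W2sq μ σ ^ (1 / 2 : ℝ)
      ≤ (∫⁻ z, edist z.1 z.2 ^ 2 ∂π₁) ^ (1 / 2 : ℝ) +
          (∫⁻ z, edist z.1 z.2 ^ 2 ∂π₂) ^ (1 / 2 : ℝ) := W2sq_le_of_couplings h1 h2 h3 h4
    _ ≤ (W2sq μ ν + ((δ / 2) ^ 2 : ℝ≥0)) ^ (1 / 2 : ℝ) +
          (W2sq ν σ + ((δ / 2) ^ 2 : ℝ≥0)) ^ (1 / 2 : ℝ) := by gcongr
    _ ≤ (W2sq μ ν ^ (1 / 2 : ℝ) + (((δ / 2) ^ 2 : ℝ≥0) : ℝ≥0∞) ^ (1 / 2 : ℝ)) +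
          (W2sq ν σ ^ (1 / 2 : ℝ) + (((δ / 2) ^ 2 : ℝ≥0) : ℝ≥0∞) ^ (1 / 2 : ℝ)) := by
        gcongr <;> exact ENNReal.rpow_add_le_add_rpow _ _ (by norm_num) (by norm_num)
    _ = W2sq μ ν ^ (1 / 2 : ℝ) + W2sq ν σ ^ (1 / 2 : ℝ) + δ := by
        rw [e]
        have : ((δ / 2 : ℝ≥0) : ℝ≥0∞) + ((δ / 2 : ℝ≥0) : ℝ≥0∞) = δ := by
          rw [← ENNReal.coe_add, add_halves]
        rw [← this]
        ring

theorem W2_eq_toReal_rpow (μ ν : Measure X) : W2 μ ν = (W2sq μ ν ^ (1 / 2 : ℝ)).toReal := by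
  rw [W2, ← ENNReal.toReal_rpow, Real.sqrt_eq_rpow]

/-- the triangle inequality -/
theorem W2_triangle [ProperSpace X] {μ ν σ : Measure X} (hμ : IsP2 μ) (hν : IsP2 ν)
    (hσ : IsP2 σ) : W2 μ σ ≤ W2 μ ν + W2 ν σ := by
  have h := W2sq_triangle hμ hν hσ
  have h1 := (ENNReal.rpow_lt_top_of_nonneg (y := 1 / 2) (by norm_num) (W2sq_lt_top hμ hν).ne).ne
  have h2 := (ENNReal.rpow_lt_top_of_nonneg (y := 1 / 2) (by norm_num) (W2sq_lt_top hν hσ).ne).ne
  rw [W2_eq_toReal_rpow, W2_eq_toReal_rpow, W2_eq_toReal_rpow, ← ENNReal.toReal_add h1 h2]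
  exact ENNReal.toReal_mono (ENNReal.add_ne_top.2 ⟨h1, h2⟩) h

/-- almost optimal couplings exist -/
theorem exists_coupling [ProperSpace X] {μ ν : Measure X} (hμ : IsP2 μ) (hν : IsP2 ν)
    {ε : ℝ} (hε : 0 < ε) :
    ∃ π : Measure (X × X), π.map Prod.fst = μ ∧ π.map Prod.snd = ν ∧
      ∫⁻ z, edist z.1 z.2 ^ 2 ∂π ≠ ∞ ∧ ∫ z, dist z.1 z.2 ^ 2 ∂π ≤ W2 μ ν ^ 2 + ε := by
  obtain ⟨π, h1, h2, h3⟩ := exists_coupling' hμ hν (ε := ENNReal.ofReal ε) (by simpa using hε)
  have hfin := (W2sq_lt_top hμ hν).ne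
  refine ⟨π, h1, h2, (h3.trans (ENNReal.add_lt_top.2 ⟨W2sq_lt_top hμ hν, ENNReal.ofReal_lt_top⟩)).ne,
    ?_⟩
  rw [← toReal_lintegral_edist_sq π measurable_fst measurable_snd, W2_sq]
  calc (∫⁻ z, edist z.1 z.2 ^ 2 ∂π).toReal ≤ (W2sq μ ν + ENNReal.ofReal ε).toReal :=
        ENNReal.toReal_mono (ENNReal.add_ne_top.2 ⟨hfin, ENNReal.ofReal_ne_top⟩) h3.le
    _ = _ := by rw [ENNReal.toReal_add hfin ENNReal.ofReal_ne_top, ENNReal.toReal_ofReal hε.le]

/-- any coupling gives an upper bound -/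
theorem W2_le_of_coupling [SecondCountableTopology X] {π : Measure (X × X)}
    (h : ∫⁻ z, edist z.1 z.2 ^ 2 ∂π ≠ ∞) :
    W2 (π.map Prod.fst) (π.map Prod.snd) ^ 2 ≤ ∫ z, dist z.1 z.2 ^ 2 ∂π := by
  rw [← toReal_lintegral_edist_sq π measurable_fst measurable_snd, W2_sq]
  exact ENNReal.toReal_mono h (W2sq_le_of_coupling π rfl rfl)

theorem W2_self [SecondCountableTopology X] (μ : Measure X) : W2 μ μ = 0 := by
  have h : W2sq μ μ = 0 := by
    have hm : Measurable fun x : X => (x, x) := measurable_id.prodMk measurable_id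
    refine le_antisymm ((W2sq_le_of_coupling (μ.map fun x => (x, x)) ?_ ?_).trans ?_) bot_le
    · rw [Measure.map_map measurable_fst hm]
      exact Measure.map_id
    · rw [Measure.map_map measurable_snd hm]
      exact Measure.map_id
    · rw [lintegral_map (by fun_prop) hm]
      simp
  rw [W2, h]
  simp

/-- `|W2 μ σ - W2 ν σ| ≤ W2 μ ν` -/
theorem abs_W2_sub_le [ProperSpace X] {μ ν σ : Measure X} (hμ : IsP2 μ) (hν : IsP2 ν)
    (hσ : IsP2 σ) : |W2 μ σ - W2 ν σ| ≤ W2 μ ν := by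
  have h1 := W2_triangle hμ hν hσ
  have h2 := W2_triangle hν hμ hσ
  rw [W2_comm ν μ] at h2
  rw [abs_le]
  constructor <;> linarith

end triangle

/-! ### Finitely supported measures -/

/-- finitely supported probability measures -/
def IsDisc {X : Type u} [MeasurableSpace X] (ν : Measure X) : Prop :=
  IsProbabilityMeasure ν ∧ ∃ (J : Finset X) (w : X → ℝ≥0∞), ν = ∑ z ∈ J, w z • dirac z

section disc
variable {X : Type u} [MetricSpace X] [MeasurableSpace X] [BorelSpace X]

theorem IsDisc.isP2 {ν : Measure X} (h : IsDisc ν) : IsP2 ν := by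
  obtain ⟨hp, J, w, hν⟩ := h
  refine isP2_of_bounded (A := (J : Set X)) J.finite_toSet.isBounded ?_
  rw [ae_iff, hν]
  simp only [Measure.coe_finsetSum, Finset.sum_apply, Measure.smul_apply, smul_eq_mul]
  refine Finset.sum_eq_zero fun z hz => ?_
  have h1 : dirac z {a | a ∉ (J : Set X)} = 0 := by
    change dirac z ((J : Set X)ᶜ) = 0
    rw [dirac_apply' _ (J.finite_toSet.measurableSet.compl)]
    simp [hz]
  rw [h1, mul_zero]

theorem isDisc_dirac (p : X) : IsDisc (dirac p) :=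
  ⟨inferInstance, {p}, fun _ => 1, by simp⟩

/-- the image of a probability measure under a map with finite range is finitely supported -/
theorem isDisc_map {Y : Type*} [MeasurableSpace Y] {μ : Measure Y} [IsProbabilityMeasure μ]
    (T : SimpleFunc Y X) : IsDisc (μ.map T) := by
  refine ⟨Measure.isProbabilityMeasure_map T.measurable.aemeasurable, T.range,
    fun z => μ (T ⁻¹' {z}), ?_⟩
  refine Measure.ext_of_lintegral _ fun f hf => ?_
  rw [lintegral_map hf T.measurable, lintegral_finsetSum_measure]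
  have h1 := SimpleFunc.lintegral_eq_lintegral (T.map f) μ
  rw [SimpleFunc.map_lintegral] at h1
  rw [show ∫⁻ a, f (T a) ∂μ = ∫⁻ a, (T.map f) a ∂μ from rfl, h1]
  refine Finset.sum_congr rfl fun z _ => ?_
  rw [lintegral_smul_measure, lintegral_dirac' _ hf, smul_eq_mul, mul_comm]

theorem IsDisc.sum_eq_one {ν : Measure X} (hp : IsProbabilityMeasure ν) {J : Finset X}
    {w : X → ℝ≥0∞} (hν : ν = ∑ z ∈ J, w z • dirac z) : ∑ z ∈ J, w z = 1 := by
  have : ν univ = 1 := measure_univ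
  rw [hν] at this
  simpa [Measure.coe_finsetSum, Finset.sum_apply] using this

theorem sigmaFinite_of_ball [SecondCountableTopology X] {m : Measure X}
    (hfin : ∀ (x : X) (r : ℝ), m (closedBall x r) < ∞) : SigmaFinite m := by
  rcases isEmpty_or_nonempty X with h | ⟨⟨x⟩⟩
  · have : m = 0 := Measure.eq_zero_of_isEmpty m
    rw [this]; infer_instance
  · refine ⟨⟨⟨fun n : ℕ => closedBall x n, fun _ => trivial, fun n => hfin x n, ?_⟩⟩⟩
    exact iUnion_closedBall_nat x

/-- a probability measure with a simple density has positive `UN` -/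
theorem UN_pos_of_simple {m : Measure X} [SigmaFinite m] (s : SimpleFunc X ℝ≥0∞)
    [IsProbabilityMeasure (m.withDensity s)] (N : ℕ) : 0 < UN N m (m.withDensity s) := by
  have hac : m.withDensity s ≪ m := withDensity_absolutelyContinuous _ _
  have hae : llr (m.withDensity s) m =ᵐ[m.withDensity s] (s.map fun a => Real.log a.toReal) := by
    have h1 := Measure.rnDeriv_withDensity m s.measurable
    filter_upwards [hac.ae_le h1] with x hx
    rw [llr, hx]
    rfl
  have hint : Integrable (llr (m.withDensity s) m) (m.withDensity s) :=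
    (integrable_congr hae).2 (SimpleFunc.integrable_of_isFiniteMeasure _)
  rw [UN, if_pos ⟨hac, hint⟩]
  exact Real.exp_pos _

theorem simpleFunc_sum_apply {ι : Type*} (J : Finset ι) (f : ι → SimpleFunc X ℝ≥0∞) (x : X) :
    (∑ z ∈ J, f z) x = ∑ z ∈ J, f z x := by
  classical
  induction J using Finset.induction_on with
  | empty => simp
  | insert a J ha ih => rw [Finset.sum_insert ha, Finset.sum_insert ha, SimpleFunc.coe_add,
      Pi.add_apply, ih]

theorem IsDisc.approx [ProperSpace X] {m : Measure X}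
    (hfin : ∀ (x : X) (r : ℝ), m (closedBall x r) < ∞)
    (hpos : ∀ (x : X) (r : ℝ), 0 < r → 0 < m (ball x r)) {ν : Measure X} (h : IsDisc ν) {N : ℕ}
    (_hN : 0 < N) {ε : ℝ} (hε : 0 < ε) : ∃ σ, IsP2 σ ∧ 0 < UN N m σ ∧ W2 σ ν ≤ ε := by
  have hsf := sigmaFinite_of_ball hfin
  have hνP := h.isP2
  obtain ⟨hp, J, w, hν⟩ := h
  have hw := IsDisc.sum_eq_one hp hν
  set B : X → Set X := fun z => closedBall z ε with hB
  have hBm : ∀ z, MeasurableSet (B z) := fun z => isClosed_closedBall.measurableSet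
  have hB0 : ∀ z, m (B z) ≠ 0 := fun z =>
    ((hpos z ε hε).trans_le (measure_mono ball_subset_closedBall)).ne'
  have hB1 : ∀ z, m (B z) ≠ ∞ := fun z => (hfin z ε).ne
  set s : SimpleFunc X ℝ≥0∞ := ∑ z ∈ J, (SimpleFunc.const X (w z * (m (B z))⁻¹)).restrict (B z)
    with hs
  have hsx : ∀ x, s x = ∑ z ∈ J, (B z).indicator (fun _ => w z * (m (B z))⁻¹) x := by
    intro x
    rw [hs, simpleFunc_sum_apply]
    refine Finset.sum_congr rfl fun z _ => ?_
    rw [SimpleFunc.coe_restrict _ (hBm z)]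
    rfl
  have hσ : m.withDensity s = ∑ z ∈ J, w z • mu1 m (B z) := by
    ext A hA
    rw [withDensity_apply _ hA]
    simp only [Measure.coe_finsetSum, Finset.sum_apply, Measure.smul_apply, smul_eq_mul, mu1, hsx]
    rw [lintegral_finsetSum _ fun z _ => measurable_const.indicator (hBm z)]
    refine Finset.sum_congr rfl fun z _ => ?_
    rw [lintegral_indicator_const (hBm z), Measure.restrict_apply (hBm z),
      Measure.restrict_apply hA, inter_comm A, mul_assoc]
  have hσp : IsProbabilityMeasure (m.withDensity s) := by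
    refine ⟨?_⟩
    rw [hσ]
    simp only [Measure.coe_finsetSum, Finset.sum_apply, Measure.smul_apply, smul_eq_mul]
    rw [← hw]
    refine Finset.sum_congr rfl fun z _ => ?_
    have := isProb_mu1 (hB0 z) (hB1 z)
    rw [measure_univ, mul_one]
  have hσP : IsP2 (m.withDensity s) := by
    have hbd : Bornology.IsBounded (⋃ z ∈ J, B z) :=
      (Bornology.isBounded_biUnion J.finite_toSet).2 fun z _ => isBounded_closedBall
    refine isP2_of_bounded hbd ?_
    rw [hσ, ae_iff]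
    simp only [Measure.coe_finsetSum, Finset.sum_apply, Measure.smul_apply, smul_eq_mul]
    refine Finset.sum_eq_zero fun z hz => ?_
    have h1 : ∀ᵐ x ∂(mu1 m (B z)), x ∈ ⋃ z ∈ J, B z :=
      (mu1_ae_mem (hBm z)).mono fun x hx => mem_biUnion hz hx
    rw [ae_iff] at h1
    rw [h1, mul_zero]
  refine ⟨m.withDensity s, hσP, UN_pos_of_simple s N, ?_⟩
  have hcost : W2sq (m.withDensity s) ν ≤ ENNReal.ofReal (ε ^ 2) := by
    refine (W2sq_le_of_coupling (∑ z ∈ J, w z • (mu1 m (B z)).prod (dirac z)) ?_ ?_).trans ?_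
    · rw [Measure.map_finset_sum measurable_fst.aemeasurable, hσ]
      refine Finset.sum_congr rfl fun z _ => ?_
      have := isProb_mu1 (hB0 z) (hB1 z)
      rw [Measure.map_smul, Measure.map_fst_prod, measure_univ, one_smul]
    · rw [Measure.map_finset_sum measurable_snd.aemeasurable, hν]
      refine Finset.sum_congr rfl fun z _ => ?_
      have := isProb_mu1 (hB0 z) (hB1 z)
      rw [Measure.map_smul, Measure.map_snd_prod, measure_univ, one_smul]
    · rw [lintegral_finsetSum_measure]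
      calc ∑ z ∈ J, ∫⁻ x, edist x.1 x.2 ^ 2 ∂(w z • (mu1 m (B z)).prod (dirac z))
          ≤ ∑ z ∈ J, w z * ENNReal.ofReal (ε ^ 2) := by
            refine Finset.sum_le_sum fun z _ => ?_
            have hpz := isProb_mu1 (hB0 z) (hB1 z)
            rw [lintegral_smul_measure, smul_eq_mul]
            gcongr
            rw [lintegral_prod _ (by fun_prop)]
            calc ∫⁻ x, ∫⁻ y, edist (x, y).1 (x, y).2 ^ 2 ∂(dirac z) ∂(mu1 m (B z))
                ≤ ∫⁻ _, ENNReal.ofReal (ε ^ 2) ∂(mu1 m (B z)) := by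
                  refine lintegral_mono_ae ((mu1_ae_mem (hBm z)).mono fun x hx => ?_)
                  rw [lintegral_dirac' _ (by fun_prop), edist_dist,
                    ← ENNReal.ofReal_pow dist_nonneg]
                  have : dist x z ≤ ε := hx
                  gcongr
              _ = _ := by rw [lintegral_const, measure_univ, mul_one]
        _ = ENNReal.ofReal (ε ^ 2) := by rw [← Finset.sum_mul, hw, one_mul]
  have h2 : W2 (m.withDensity s) ν ^ 2 ≤ ε ^ 2 := by
    rw [W2_sq]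
    exact ENNReal.toReal_le_of_le_ofReal (by positivity) hcost
  exact (abs_le_of_sq_le_sq' h2 hε.le).2

end disc

end Pool.Agent.BDRY
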